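import Pool.Agent.P.MP_878f14_gt.Sg.DefA

/-!
Linearity, naturality and the homotopy formulas for monoid cochains.
-/

namespace Pool.Agent.P.MP_878f14_gt.Sg

section
variable {D Q Q' : Type}

/-- Pull back. -/
def pb (f : Q → D) (φ : Co D) : Co Q := fun l => φ (l.map f)

def tl (φ : Co D) : Co D
  | [] => 0
  | _ :: l => φ l

def lm [Mul D] (g : D) (φ : Co D) : Co D
  | [] => φ []
  | h :: l => φ (g * h :: l)

/-- The coboundary without its first face. -/
def dp [Mul D] (φ : Co D) : Co D := dl φ - tl φ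

theorem dp_nil [Mul D] (φ : Co D) : dp φ [] = 0 := by simp [dp, dl, tl]

theorem dp_cons [Mul D] (φ : Co D) (g : D) (l : List D) :
    dp φ (g :: l) = -lm g φ l - dp (sh g φ) l := by
  cases l with
  | nil => simp [dp, dl, tl, lm]
  | cons h l =>
    simp only [dp, dl, tl, lm, Pi.sub_apply, sh]
    ring

theorem dl_eq [Mul D] (φ : Co D) : dl φ = tl φ + dp φ := by simp [dp]

theorem sh_add (g : D) (φ ψ : Co D) : sh g (φ + ψ) = sh g φ + sh g ψ := rfl

theorem sh_sub (g : D) (φ ψ : Co D) : sh g (φ - ψ) = sh g φ - sh g ψ := rfl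

theorem sh_neg (g : D) (φ : Co D) : sh g (-φ) = -sh g φ := rfl

theorem sh_smul (g : D) (t : ℝ) (φ : Co D) : sh g (t • φ) = t • sh g φ := rfl

theorem sh_dp [Mul D] (g : D) (φ : Co D) : sh g (dp φ) = -lm g φ - dp (sh g φ) :=
  funext fun l => dp_cons φ g l

theorem sh_tl (g : D) (φ : Co D) : sh g (tl φ) = φ := rfl

theorem sh_lm [Mul D] (g h : D) (φ : Co D) : sh h (lm g φ) = sh (g * h) φ := rfl

theorem sh_pb (f : Q → D) (q : Q) (φ : Co D) : sh q (pb f φ) = pb f (sh (f q) φ) := rfl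

theorem dl_lin [Mul D] (t : ℝ) (l : List D) :
    ∀ (g : D) (φ ψ : Co D), dl (φ + t • ψ) (g :: l) = dl φ (g :: l) + t * dl ψ (g :: l) := by
  induction l with
  | nil => intro g φ ψ; simp [dl]
  | cons h l ih =>
    intro g φ ψ
    simp only [dl]
    rw [sh_add, sh_smul, ih]
    simp only [Pi.add_apply, Pi.smul_apply, smul_eq_mul]
    ring

theorem dl_lin' [Mul D] (t : ℝ) (φ ψ : Co D) : dl (φ + t • ψ) = dl φ + t • dl ψ := by
  funext l
  cases l with
  | nil => simp [dl]
  | cons g l => exact dl_lin t l g φ ψ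

theorem dl_add [Mul D] (φ ψ : Co D) : dl (φ + ψ) = dl φ + dl ψ := by
  simpa using dl_lin' 1 φ ψ

theorem dl_zero [Mul D] : dl (0 : Co D) = 0 := by
  simpa using dl_add (0 : Co D) 0

theorem dl_smul [Mul D] (t : ℝ) (φ : Co D) : dl (t • φ) = t • dl φ := by
  simpa [dl_zero] using dl_lin' t 0 φ

def dlL [Mul D] : Co D →ₗ[ℝ] Co D where
  toFun := dl
  map_add' := dl_add
  map_smul' := dl_smul

theorem dl_sub [Mul D] (φ ψ : Co D) : dl (φ - ψ) = dl φ - dl ψ := dlL.map_sub φ ψ

theorem dl_neg [Mul D] (φ : Co D) : dl (-φ) = -dl φ := dlL.map_neg φ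

theorem tl_add (φ ψ : Co D) : tl (φ + ψ) = tl φ + tl ψ := by
  funext l; cases l <;> simp [tl]

theorem tl_sub (φ ψ : Co D) : tl (φ - ψ) = tl φ - tl ψ := by
  funext l; cases l <;> simp [tl]

theorem dp_add [Mul D] (φ ψ : Co D) : dp (φ + ψ) = dp φ + dp ψ := by
  rw [dp, dp, dp, dl_add, tl_add]; abel

theorem dp_sub [Mul D] (φ ψ : Co D) : dp (φ - ψ) = dp φ - dp ψ := by
  rw [dp, dp, dp, dl_sub, tl_sub]; abel

theorem ins_lin (p' p : Q → D) (u : D) (t : ℝ) (l : List Q) :
    ∀ φ ψ : Co D, ins p' p u (φ + t • ψ) l = ins p' p u φ l + t * ins p' p u ψ l := by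
  induction l with
  | nil => intro φ ψ; simp [ins]
  | cons q l ih =>
    intro φ ψ
    simp only [ins]
    rw [sh_add, sh_smul, ih]
    simp only [Pi.add_apply, Pi.smul_apply, smul_eq_mul]
    ring

theorem ins_add (p' p : Q → D) (u : D) (φ ψ : Co D) :
    ins p' p u (φ + ψ) = ins p' p u φ + ins p' p u ψ := by
  funext l
  simpa using ins_lin p' p u 1 l φ ψ

theorem ins_zero (p' p : Q → D) (u : D) : ins p' p u (0 : Co D) = 0 := by
  simpa using ins_add p' p u (0 : Co D) 0

theorem ins_smul (p' p : Q → D) (u : D) (t : ℝ) (φ : Co D) :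
    ins p' p u (t • φ) = t • ins p' p u φ := by
  funext l
  simpa [ins_zero] using ins_lin p' p u t l 0 φ

def insL (p' p : Q → D) (u : D) : Co D →ₗ[ℝ] Co Q where
  toFun := ins p' p u
  map_add' := ins_add p' p u
  map_smul' := ins_smul p' p u

theorem ins_sub (p' p : Q → D) (u : D) (φ ψ : Co D) :
    ins p' p u (φ - ψ) = ins p' p u φ - ins p' p u ψ := (insL p' p u).map_sub φ ψ

theorem ins_neg (p' p : Q → D) (u : D) (φ : Co D) :
    ins p' p u (-φ) = -ins p' p u φ := (insL p' p u).map_neg φ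

def pbL (f : Q → D) : Co D →ₗ[ℝ] Co Q where
  toFun := pb f
  map_add' := fun _ _ => rfl
  map_smul' := fun _ _ => rfl

theorem sh_ins (p' p : Q → D) (u : D) (q : Q) (φ : Co D) :
    sh q (ins p' p u φ) = pb p (sh (p q) (sh u φ)) - ins p' p u (sh (p' q) φ) := rfl

/-! Naturality. -/

theorem lm_pb [Mul D] [Mul Q] (f : Q → D) (hf : ∀ a b, f (a * b) = f a * f b) (q : Q)
    (φ : Co D) : lm q (pb f φ) = pb f (lm (f q) φ) := by
  funext l
  cases l with
  | nil => rfl
  | cons h l => simp [lm, pb, hf]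

theorem dp_pb [Mul D] [Mul Q] (f : Q → D) (hf : ∀ a b, f (a * b) = f a * f b) (φ : Co D) :
    dp (pb f φ) = pb f (dp φ) := by
  funext l
  induction l generalizing φ with
  | nil => simp [pb, dp_nil]
  | cons q l ih =>
    rw [dp_cons, sh_pb, ih, lm_pb f hf]
    simp only [pb, List.map_cons, dp_cons]

theorem dl_pb [Mul D] [Mul Q] (f : Q → D) (hf : ∀ a b, f (a * b) = f a * f b) (φ : Co D) :
    dl (pb f φ) = pb f (dl φ) := by
  rw [dl_eq, dl_eq, dp_pb f hf]
  funext l
  cases l <;> rfl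

theorem pb_ins (f : Q' → Q) (p' p : Q → D) (u : D) (φ : Co D) :
    pb f (ins p' p u φ) = ins (p' ∘ f) (p ∘ f) u φ := by
  funext l
  induction l generalizing φ with
  | nil => rfl
  | cons q l ih =>
    have := ih (sh (p' (f q)) φ)
    simp only [pb, List.map_cons, ins, List.map_map, Function.comp_apply] at this ⊢
    rw [this]

theorem ins_pb (f : Q → D) (p' p : Q' → Q) (u : Q) (φ : Co D) :
    ins p' p u (pb f φ) = ins (f ∘ p') (f ∘ p) (f u) φ := by
  funext l
  induction l generalizing φ with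
  | nil => rfl
  | cons q l ih =>
    simp only [ins]
    rw [sh_pb, ih]
    simp only [pb, List.map_cons, List.map_map, Function.comp_apply]

theorem pb_pb (f : Q → D) (g : Q' → Q) (φ : Co D) : pb g (pb f φ) = pb (f ∘ g) φ := by
  funext l
  simp [pb]

theorem pb_id (φ : Co D) : pb id φ = φ := by
  funext l
  simp [pb]

theorem iota_pb (f : Q → D) (u : Q) (φ : Co D) :
    ins id id u (pb f φ) = pb f (ins id id (f u) φ) := by
  rw [ins_pb, pb_ins]
  rfl

theorem dp_neg [Mul D] (φ : Co D) : dp (-φ) = -dp φ := by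
  have e : dp (0 : Co D) = 0 := by simpa using dp_sub (0 : Co D) 0
  simpa [e] using dp_sub 0 φ

theorem lm_dp [Semigroup D] (g : D) (φ : Co D) : lm g (dp φ) = dp (lm g φ) := by
  funext l
  cases l with
  | nil => simp [lm, dp_nil]
  | cons h l =>
    rw [dp_cons, sh_lm, lm, dp_cons]
    cases l <;> simp [lm, mul_assoc]

theorem dp_dp [Semigroup D] (φ : Co D) : dp (dp φ) = 0 := by
  funext l
  induction l generalizing φ with
  | nil => simp [dp_nil]
  | cons g l ih =>
    rw [dp_cons, sh_dp, dp_sub, dp_neg, lm_dp, Pi.sub_apply, ih]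
    simp

theorem dl_dl [Semigroup D] (φ : Co D) : dl (dl φ) = 0 := by
  rw [dl_eq (dl φ), dl_eq φ, tl_add, dp_add, dp_dp]
  funext l
  cases l with
  | nil => simp [tl, dp_nil]
  | cons g l =>
    simp only [Pi.add_apply, dp_cons, sh_tl]
    cases l <;> simp [lm, tl]

/-! The homotopy formula. -/

theorem ins_tl (p' p : Q → D) (u : D) (φ : Co D) :
    tl (ins p' p u φ) + ins p' p u (tl φ) = pb p φ := by
  funext l
  cases l with
  | nil => simp [tl, ins, pb]
  | cons q l => simp [tl, ins, pb, sh_tl]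

theorem ins_dp [Mul D] [Mul Q] (p' p : Q → D) (u : D) (hp' : ∀ a b, p' (a * b) = p' a * p' b)
    (hp : ∀ a b, p (a * b) = p a * p b) (hu : ∀ q, p' q * u = u * p q) (φ : Co D) :
    dp (ins p' p u φ) + ins p' p u (dp φ) = -pb p' φ := by
  funext l
  induction l generalizing φ with
  | nil => simp [dp_nil, ins, pb, dp_cons, lm]
  | cons q l ih =>
    have h1 := ih (sh (p' q) φ)
    have h2 : lm q (ins p' p u φ) l + pb p (sh (u * p q) φ) l =
        pb p (lm (p q) (sh u φ)) l + ins p' p u (lm (p' q) φ) l := by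
      cases l with
      | nil => simp [lm, ins, pb, sh, hu]
      | cons h l =>
        simp only [lm, ins, pb, List.map_cons, sh_lm, hp, hp', hu]
        simp only [sh]
        ring
    have h3 : ins p' p u (dp φ) (q :: l) = pb p (sh (p q) (sh u (dp φ))) l -
        ins p' p u (sh (p' q) (dp φ)) l := rfl
    rw [Pi.add_apply, dp_cons, sh_ins, dp_sub, dp_pb p hp, h3, sh_dp, sh_dp, sh_sub, sh_neg,
      sh_lm, sh_dp, ins_sub, ins_neg]
    simp only [Pi.add_apply, Pi.sub_apply, Pi.neg_apply, pb, List.map_cons, sh] at h1 h2 ⊢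
    linarith

theorem ins_dl [Mul D] [Mul Q] (p' p : Q → D) (u : D) (hp' : ∀ a b, p' (a * b) = p' a * p' b)
    (hp : ∀ a b, p (a * b) = p a * p b) (hu : ∀ q, p' q * u = u * p q) (φ : Co D) :
    dl (ins p' p u φ) + ins p' p u (dl φ) = pb p φ - pb p' φ := by
  rw [dl_eq, dl_eq φ, ins_add, sub_eq_add_neg, ← ins_tl p' p u φ, ← ins_dp p' p u hp' hp hu φ]
  abel

theorem sh_iota (c g : D) (φ : Co D) :
    sh g (ins id id c φ) = sh g (sh c φ) - ins id id c (sh g φ) := by
  rw [sh_ins, pb_id]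
  rfl

/-- Two insertions anticommute. -/
theorem iota_ins (p' p : Q → D) (u : D) (c' : Q) (c : D) (h' : p' c' = c) (h : p c' = c)
    (φ : Co D) : ins id id c' (ins p' p u φ) + ins p' p u (ins id id c φ) = 0 := by
  funext l
  induction l generalizing φ with
  | nil => simp [ins, sh, h, h']
  | cons q l ih =>
    have h1 := ih (sh (p' q) φ)
    have h2 : ins id id c' (ins p' p u φ) (q :: l) = ins p' p u φ (c' :: q :: l) -
        ins id id c' (sh q (ins p' p u φ)) l := by simp [ins]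
    have h3 : ins p' p u (ins id id c φ) (q :: l) =
        pb p (sh (p q) (sh u (ins id id c φ))) l - ins p' p u (sh (p' q) (ins id id c φ)) l := rfl
    rw [Pi.add_apply, h2, h3, sh_ins p' p u q, ins_sub, iota_pb, sh_iota, sh_iota, sh_sub, sh_iota,
      ins_sub, h]
    simp only [Pi.add_apply, Pi.sub_apply, Pi.zero_apply, pb, List.map_cons, sh, ins, h, h']
      at h1 ⊢
    linarith

/-! The second order operator. -/

def kk (p'' p' p : Q → D) (u v : D) : Co D → List Q → ℝ
  | φ, [] => φ [u, v]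
  | φ, q :: l => ins p' p v (sh u φ) (q :: l) + kk p'' p' p u v (sh (p'' q) φ) l

theorem kk_lin (p'' p' p : Q → D) (u v : D) (t : ℝ) (l : List Q) : ∀ φ ψ : Co D,
    kk p'' p' p u v (φ + t • ψ) l = kk p'' p' p u v φ l + t * kk p'' p' p u v ψ l := by
  induction l with
  | nil => intro φ ψ; simp [kk]
  | cons q l ih =>
    intro φ ψ
    simp only [kk]
    rw [sh_add, sh_smul, sh_add, sh_smul, ih, ins_lin]
    ring

theorem kk_add (p'' p' p : Q → D) (u v : D) (φ ψ : Co D) :
    kk p'' p' p u v (φ + ψ) = kk p'' p' p u v φ + kk p'' p' p u v ψ := by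
  funext l
  simpa using kk_lin p'' p' p u v 1 l φ ψ

theorem kk_zero (p'' p' p : Q → D) (u v : D) : kk p'' p' p u v (0 : Co D) = 0 := by
  simpa using kk_add p'' p' p u v (0 : Co D) 0

def kkL (p'' p' p : Q → D) (u v : D) : Co D →ₗ[ℝ] Co Q where
  toFun := kk p'' p' p u v
  map_add' := kk_add p'' p' p u v
  map_smul' := fun t φ => by
    funext l
    simpa [kk_zero] using kk_lin p'' p' p u v t l 0 φ

theorem kk_sub (p'' p' p : Q → D) (u v : D) (φ ψ : Co D) :
    kk p'' p' p u v (φ - ψ) = kk p'' p' p u v φ - kk p'' p' p u v ψ :=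
  (kkL p'' p' p u v).map_sub φ ψ

theorem kk_neg (p'' p' p : Q → D) (u v : D) (φ : Co D) :
    kk p'' p' p u v (-φ) = -kk p'' p' p u v φ := (kkL p'' p' p u v).map_neg φ

theorem sh_kk (p'' p' p : Q → D) (u v : D) (q : Q) (φ : Co D) : sh q (kk p'' p' p u v φ) =
    sh q (ins p' p v (sh u φ)) + kk p'' p' p u v (sh (p'' q) φ) := rfl

theorem kk_tl (p'' p' p : Q → D) (u v : D) (φ : Co D) :
    kk p'' p' p u v (tl φ) - tl (kk p'' p' p u v φ) = ins p' p v φ := by
  funext l
  cases l with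
  | nil => simp [tl, ins, kk]
  | cons q l => simp [tl, kk, sh_tl]

theorem kk_dp [Mul D] [Mul Q] (p'' p' p : Q → D) (u v : D)
    (hp'' : ∀ a b, p'' (a * b) = p'' a * p'' b) (hp' : ∀ a b, p' (a * b) = p' a * p' b)
    (hp : ∀ a b, p (a * b) = p a * p b) (hu : ∀ q, p'' q * u = u * p' q)
    (hv : ∀ q, p' q * v = v * p q) (φ : Co D) :
    kk p'' p' p u v (dp φ) - dp (kk p'' p' p u v φ) = ins p'' p' u φ - ins p'' p (u * v) φ := by
  funext l
  induction l generalizing φ with
  | nil => simp [dp_nil, ins, kk, dp_cons, lm, sh]; ring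
  | cons q l ih =>
    have h1 := ih (sh (p'' q) φ)
    have h2 := congrFun (ins_dp p' p v hp' hp hv (sh u φ)) (q :: l)
    have h3 : ins p' p v (sh (u * p' q) φ) l - kk p'' p' p u v (lm (p'' q) φ) l +
        lm q (kk p'' p' p u v φ) l - lm q (ins p' p v (sh u φ)) l = 0 := by
      cases l with
      | nil => simp [lm, ins, kk, sh, hu]
      | cons h l =>
        simp only [lm, kk, sh_lm, hp'', hu]
        ring
    have h4 : ins p' p v (lm u φ) (q :: l) = φ (u * v :: p q :: l.map p) -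
        ins p' p v (sh (u * p' q) φ) l := rfl
    have h5 : kk p'' p' p u v (dp φ) (q :: l) = ins p' p v (sh u (dp φ)) (q :: l) +
        kk p'' p' p u v (sh (p'' q) (dp φ)) l := rfl
    have h6 : ins p'' p' u φ (q :: l) = φ (u :: p' q :: l.map p') -
        ins p'' p' u (sh (p'' q) φ) l := rfl
    have h7 : ins p'' p (u * v) φ (q :: l) = φ (u * v :: p q :: l.map p) -
        ins p'' p (u * v) (sh (p'' q) φ) l := rfl
    have h8 : pb p' (sh u φ) (q :: l) = φ (u :: p' q :: l.map p') := rfl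
    rw [Pi.add_apply, dp_cons, Pi.neg_apply, h8] at h2
    rw [Pi.sub_apply, Pi.sub_apply, h5, dp_cons, sh_kk, dp_add, sh_dp, sh_dp, ins_sub, ins_neg,
      kk_sub, kk_neg, h6, h7]
    simp only [Pi.add_apply, Pi.sub_apply, Pi.neg_apply] at h1 ⊢
    linarith

theorem kk_dl [Mul D] [Mul Q] (p'' p' p : Q → D) (u v : D)
    (hp'' : ∀ a b, p'' (a * b) = p'' a * p'' b) (hp' : ∀ a b, p' (a * b) = p' a * p' b)
    (hp : ∀ a b, p (a * b) = p a * p b) (hu : ∀ q, p'' q * u = u * p' q)
    (hv : ∀ q, p' q * v = v * p q) (φ : Co D) :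
    kk p'' p' p u v (dl φ) - dl (kk p'' p' p u v φ) =
      ins p'' p' u φ + ins p' p v φ - ins p'' p (u * v) φ := by
  rw [dl_eq φ, dl_eq (kk _ _ _ _ _ _), kk_add, add_sub_right_comm (ins p'' p' u φ),
    ← kk_dp p'' p' p u v hp'' hp' hp hu hv φ, ← kk_tl p'' p' p u v φ]
  abel

theorem iota_kk (p'' p' p : Q → D) (u v : D) (c' : Q) (c : D) (h'' : p'' c' = c) (h' : p' c' = c)
    (h : p c' = c) (φ : Co D) :
    ins id id c' (kk p'' p' p u v φ) = kk p'' p' p u v (ins id id c φ) := by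
  funext l
  induction l generalizing φ with
  | nil => simp [ins, kk, sh, h, h', h'']; ring
  | cons q l ih =>
    have h1 := ih (sh (p'' q) φ)
    have h0 := congrFun (iota_ins p' p v c' c h' h (sh u φ)) (q :: l)
    have h2 : ∀ ψ : Co Q, ins id id c' ψ (q :: l) = ψ (c' :: q :: l) -
        ins id id c' (sh q ψ) l := fun ψ => by simp [ins]
    have h3 : kk p'' p' p u v (ins id id c φ) (q :: l) =
        ins p' p v (sh u (ins id id c φ)) (q :: l) +
          kk p'' p' p u v (sh (p'' q) (ins id id c φ)) l := rfl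
    have h4 : kk p'' p' p u v φ (c' :: q :: l) = ins p' p v (sh u φ) (c' :: q :: l) +
        (ins p' p v (sh u (sh (p'' c') φ)) (q :: l) +
          kk p'' p' p u v (sh (p'' q) (sh (p'' c') φ)) l) := rfl
    rw [Pi.add_apply, h2, Pi.zero_apply] at h0
    rw [h2, h3, h4, sh_kk, ins_add, sh_iota, sh_iota, ins_sub, kk_sub, h'']
    simp only [Pi.add_apply, Pi.sub_apply] at h1 ⊢
    linarith

/-! Normalised cochains. -/

theorem ins_eq_zero (p' p : Q → D) (u : D) (φ : Co D) (h : ∀ l, u ∈ l → φ l = 0) :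
    ins p' p u φ = 0 := by
  funext l
  induction l generalizing φ with
  | nil => exact h _ (by simp)
  | cons q l ih =>
    simp only [ins]
    rw [h _ (by simp), ih (sh (p' q) φ) fun l hl => h _ (List.mem_cons_of_mem _ hl)]
    simp

theorem Nm.sh [One D] {φ : Co D} (h : Nm φ) (g : D) : Nm (sh g φ) :=
  fun l hl => h _ (by simp [hl])

theorem Nm.sh_one [One D] {φ : Co D} (h : Nm φ) : Sg.sh 1 φ = 0 :=
  funext fun l => h _ (by simp)

theorem Nm.add [One D] {φ ψ : Co D} (h : Nm φ) (h' : Nm ψ) : Nm (φ + ψ) :=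
  fun l hl => by simp [h l hl, h' l hl]

theorem Nm.sub [One D] {φ ψ : Co D} (h : Nm φ) (h' : Nm ψ) : Nm (φ - ψ) :=
  fun l hl => by simp [h l hl, h' l hl]

theorem Nm.neg [One D] {φ : Co D} (h : Nm φ) : Nm (-φ) :=
  fun l hl => by simp [h l hl]

theorem Nm.smul [One D] {φ : Co D} (h : Nm φ) (t : ℝ) : Nm (t • φ) :=
  fun l hl => by simp [h l hl]

theorem Nm.zero [One D] : Nm (0 : Co D) := fun _ _ => rfl

theorem Nm.pb [One D] [One Q] {φ : Co D} (h : Nm φ) (f : Q → D) (hf : f 1 = 1) : Nm (pb f φ) :=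
  fun _ hl => h _ (hf ▸ List.mem_map_of_mem hl)

theorem Nm.ins [One D] [One Q] {φ : Co D} (h : Nm φ) (p' p : Q → D) (u : D) (hp' : p' 1 = 1)
    (hp : p 1 = 1) : Nm (ins p' p u φ) := by
  intro l
  induction l generalizing φ with
  | nil => simp
  | cons q l ih =>
    intro hl
    have e : Sg.ins p' p u φ (q :: l) = Sg.pb p (Sg.sh u φ) (q :: l) -
        Sg.ins p' p u (Sg.sh (p' q) φ) l := rfl
    rw [e, (h.sh u).pb p hp _ hl]
    rcases List.mem_cons.1 hl with rfl | hl
    · rw [hp', h.sh_one, ins_zero]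
      simp
    · rw [ih (h.sh _) hl, sub_zero]

theorem Nm.kk [One D] [One Q] {φ : Co D} (h : Nm φ) (p'' p' p : Q → D) (u v : D)
    (hp'' : p'' 1 = 1) (hp' : p' 1 = 1) (hp : p 1 = 1) : Nm (kk p'' p' p u v φ) := by
  intro l
  induction l generalizing φ with
  | nil => simp
  | cons q l ih =>
    intro hl
    simp only [Sg.kk]
    rw [(h.sh u).ins p' p v hp' hp _ hl]
    rcases List.mem_cons.1 hl with rfl | hl
    · rw [hp'', h.sh_one, kk_zero]
      simp
    · rw [ih (h.sh _) hl, add_zero]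

theorem Nm.dp_cons [Monoid D] (l : List D) : ∀ {φ : Co D}, (∀ g l, (1 : D) ∈ l → φ (g :: l) = 0) →
    ∀ g, (1 : D) ∈ l → dp φ (g :: l) = 0 := by
  induction l with
  | nil => simp
  | cons k l ih =>
    intro φ h g hl
    rw [Sg.dp_cons]
    by_cases h1 : (1 : D) ∈ l
    · rw [ih (φ := Sg.sh g φ) (fun g' l hl => h _ _ (List.mem_cons_of_mem _ hl)) k h1]
      simp [lm, h _ _ h1]
    · obtain rfl : 1 = k := (List.mem_cons.1 hl).resolve_right h1
      have e : Sg.sh 1 (Sg.sh g φ) = 0 := funext fun l => h _ _ (by simp)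
      have e' : dp (0 : Co D) = 0 := by simpa using dp_sub (0 : Co D) 0
      rw [Sg.dp_cons, e, e']
      cases l <;> simp [lm, Sg.sh]

theorem Nm.dl [Monoid D] {φ : Co D} (h : Nm φ) : Nm (dl φ) := by
  intro l hl
  cases l with
  | nil => simp at hl
  | cons g l =>
    rw [dl_eq, Pi.add_apply]
    by_cases h1 : (1 : D) ∈ l
    · rw [Nm.dp_cons l (fun g l hl => h _ (List.mem_cons_of_mem _ hl)) g h1]
      simp [tl, h _ h1]
    · obtain rfl : 1 = g := (List.mem_cons.1 hl).resolve_right h1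
      have e' : dp (0 : Co D) = 0 := by simpa using dp_sub (0 : Co D) 0
      rw [Sg.dp_cons, h.sh_one, e']
      cases l <;> simp [lm, tl]

theorem Nm.ins_one [One D] {φ : Co D} (h : Nm φ) (p' p : Q → D) : Sg.ins p' p 1 φ = 0 :=
  ins_eq_zero p' p 1 φ h

end

end Pool.Agent.P.MP_878f14_gt.Sg
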