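import Mathlib

/-!
Cochains of monoids, the Cartan type complex of a family of central elements, and the
statements of the algebraic packages.
-/

namespace Pool.Agent.P.MP_878f14_gt.Sg

/-- Inhomogeneous real cochains of all degrees at once. -/
abbrev Co (D : Type) : Type := List D → ℝ

def sh {D : Type} (g : D) (φ : Co D) : Co D := fun l => φ (g :: l)

/-- The coboundary of monoid cochains. -/
def dl {D : Type} [Mul D] : Co D → List D → ℝ
  | _, [] => 0
  | _, [_] => 0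
  | φ, g :: h :: l => φ (h :: l) - φ (g * h :: l) + φ (g :: l) - dl (sh g φ) (h :: l)

/-- The prism operator: alternating sum over the places where `u` is inserted. -/
def ins {Q D : Type} (p' p : Q → D) (u : D) : Co D → List Q → ℝ
  | φ, [] => φ [u]
  | φ, q :: l => φ (u :: p q :: l.map p) - ins p' p u (sh (p' q) φ) l

/-- Normalised cochains. -/
def Nm {D : Type} [One D] (φ : Co D) : Prop := ∀ l, (1 : D) ∈ l → φ l = 0

/-- Power series in variables indexed by `ι` with cochain coefficients. -/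
abbrev Fam (ι D : Type) : Type := (ι → ℕ) → Co D

/-- The differential `δ + ∑ x_i ι_(c i)`. -/
def tot {ι D : Type} [Fintype ι] [DecidableEq ι] [Mul D] (c : ι → D) (Φ : Fam ι D) : Fam ι D :=
  fun α l => dl (Φ α) l +
    ∑ i, if α i = 0 then 0 else ins id id (c i) (Φ (Function.update α i (α i - 1))) l

/-- A power series with constant coefficients. -/
def cst {ι : Type} (D : Type) (P : (ι → ℕ) → ℝ) : Fam ι D :=
  fun α l => if l.length = 0 then P α else 0

def Exact {ι D : Type} [Fintype ι] [DecidableEq ι] [Monoid D] (c : ι → D)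
    (P : (ι → ℕ) → ℝ) : Prop :=
  ∃ Φ : Fam ι D, (∀ α, Nm (Φ α)) ∧ tot c Φ = cst D P

def Cen {D : Type} [Mul D] (z : D) : Prop := ∀ g, z * g = g * z

/-- `x ^ a` is detected by the monoid `B` with central element `z`, with any parameters. -/
def Blk (B : Type) [Monoid B] (z : B) (a : ℕ) : Prop :=
  ∀ (ι : Type) [Fintype ι] [DecidableEq ι] (Λ : Type) [Monoid Λ] (c : ι → Λ), (∀ i, Cen (c i)) →
    ∀ (P : ℕ → (ι → ℕ) → ℝ) (Φ : ℕ → Fam ι (Λ × B)), (∀ m α, Nm (Φ m α)) →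
    tot (fun i => (c i, (1 : B))) (Φ 0) = cst _ (P 0) →
    (∀ m, tot (fun i => (c i, (1 : B))) (Φ (m + 1)) +
      (fun α => ins id id ((1 : Λ), z) (Φ m α)) = cst _ (P (m + 1))) →
    Exact c (P a)

/-- Homomorphisms joined by a zigzag of natural transformations. -/
def Linked {A B : Type} [Monoid A] [Monoid B] (f f' : A →* B) : Prop :=
  Relation.EqvGen (fun f f' : A →* B => ∃ u : B, ∀ x, f' x * u = u * f x) f f'

def S_Blk0 : Prop := ∀ (B : Type) [Monoid B] (z : B), Blk B z 0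

def S_BlkHom : Prop :=
  ∀ (A B : Type) [Monoid A] [Monoid B] (f : A →* B) (z : A) (a : ℕ), Blk A z a → Blk B (f z) a

def S_Peel : Prop :=
  ∀ (A B : Type) [Monoid A] [Monoid B] (f f' : A →* B) (z : A) (a : ℕ), Cen z → f' z = 1 →
    Linked f f' → Blk A z a → Blk B (f z) (a + 1)

/-- The data which give two powers of `x` at the price of one plane. -/
structure TwoData (B G H A R : Type) [Monoid B] [Monoid G] [Monoid H] [CommMonoid A]
    [CommMonoid R] where
  c : G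
  c0 : H
  cen : Cen c
  cen0 : Cen c0
  rl : G →* B
  rc : G →* B
  link : Linked rl rc
  rho : H →* B
  evm : H →* G
  evp : H →* G
  um : B
  up : B
  hum : ∀ g, rho g * um = um * rc (evm g)
  hup : ∀ g, rho g * up = up * rc (evp g)
  evm_c : evm c0 = c
  evp_c : evp c0 = c
  j : A →* H
  r : R →* G
  em : A →* R
  ep : A →* R
  hem : ∀ a, evm (j a) = r (em a)
  hep : ∀ a, evp (j a) = r (ep a)
  th : A
  ga : A
  j_ga : j ga = c0
  em_th : em th = em ga
  ep_th : ep th = 1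
  cut : R →* A
  em_cut : ∀ x, em (cut x) = x
  ep_cut : ∀ x, ep (cut x) = 1
  S : B
  hS : ∀ a, rho (j (a * a)) * S = S * rho (j a)
  hSr : ∀ x, rc (r (x * x)) * S = S * rc (r x)
  hSm : S * um = um * S
  hSp : S * up = up * S
  perf : ∀ (V : Type) [AddCommGroup V] [Module ℝ V] (η : H → V),
    (∀ g h, η (g * h) = η g + η h) → η (j th) = 0

def S_Two : Prop :=
  ∀ (B G H A R : Type) [Monoid B] [Monoid G] [Monoid H] [CommMonoid A] [CommMonoid R]
    (T : TwoData B G H A R), Blk B (T.rl T.c) 2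

def S_Prod : Prop :=
  ∀ (ι : Type) [Fintype ι] [DecidableEq ι] (B : ι → Type) [∀ j, Monoid (B j)] (z : ∀ j, B j)
    (a : ι → ℕ), (∀ j, Cen (z j)) → (∀ j, Blk (B j) (z j) (a j)) →
    ∀ P : (ι → ℕ) → ℝ, Exact (fun j => (Pi.mulSingle j (z j) : ∀ j, B j)) P → P a = 0

/-! Cup products of two-cocycles. -/

def cupM {ι Λ : Type} (ε : ι → Λ → Λ → ℝ) : List ι → List Λ → ℝ
  | [], l => if l.length = 0 then 1 else 0
  | i :: is, g :: h :: l => ε i g h * cupM ε is l
  | _ :: _, _ => 0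

/-- The polynomial in the cocycles with coefficients `κ`. -/
def cupP {ι Λ : Type} [Fintype ι] {N : ℕ} (κ : (Fin N → ι) → ℝ) (ε : ι → Λ → Λ → ℝ) : Co Λ :=
  fun l => ∑ is : Fin N → ι, κ is * cupM ε (List.ofFn is) l

def cnt {ι : Type} [DecidableEq ι] {N : ℕ} (is : Fin N → ι) : ι → ℕ :=
  fun j => (Finset.univ.filter fun t => is t = j).card

/-- The same polynomial in commuting variables. -/
def polyP {ι : Type} [Fintype ι] [DecidableEq ι] {N : ℕ} (κ : (Fin N → ι) → ℝ) :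
    (ι → ℕ) → ℝ :=
  fun α => ∑ is : Fin N → ι, if cnt is = α then κ is else 0

def S_Cup : Prop :=
  ∀ (ι : Type) [Fintype ι] [DecidableEq ι] (D Λ : Type) [Monoid D] [Monoid Λ] (π : D →* Λ)
    (c : ι → D) (lam : ι → D → ℝ) (ε : ι → Λ → Λ → ℝ), (∀ i, Cen (c i)) → (∀ i, π (c i) = 1) →
    (∀ i, lam i 1 = 0) → (∀ i j, lam i (c j) = if i = j then 1 else 0) →
    (∀ i g h, lam i (g * h) = lam i g + lam i h + ε i (π g) (π h)) →
    ∀ (N : ℕ) (κ : (Fin N → ι) → ℝ) (β : Co Λ), Nm β → dl β = cupP κ ε → Exact c (polyP κ)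

def S_Norm : Prop :=
  ∀ (Λ : Type) [Monoid Λ] (β : Co Λ) (n : ℕ), Nm (dl β) → (∀ l, l.length ≠ n → dl β l = 0) →
    ∃ β' : Co Λ, Nm β' ∧ dl β' = dl β

/-! Chains of vertices. -/

/-- The coboundary of a function on lists of vertices. -/
def cob {I : Type} : Co I → List I → ℝ
  | _, [] => 0
  | ψ, a :: l => ψ l - cob (sh a ψ) l

/-- The simplex of the monoid spanned by a list of vertices. -/
def smpl {I Λ : Type} (g : I → I → Λ) : List I → List Λ
  | a :: b :: l => g a b :: smpl g (b :: l)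
  | _ => []

def IsCyc {I : Type} (z : List I →₀ ℝ) : Prop :=
  ∀ ψ : Co I, (z.sum fun l r => r * cob ψ l) = 0

/-- A cochain which is not a coboundary is detected by a cycle of the bar complex. -/
def S_Dual : Prop :=
  ∀ (Λ : Type) [Monoid Λ] (w : Co Λ) (n : ℕ), (∀ l, l.length ≠ n → w l = 0) →
    (¬∃ β : Co Λ, dl β = w) → ∃ z : List Λ →₀ ℝ, (∀ l ∈ z.support, l.length = n) ∧
      (∀ β : Co Λ, (z.sum fun l r => r * dl β l) = 0) ∧ (z.sum fun l r => r * w l) ≠ 0

/-- Barycentric subdivision of lists. -/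
def S_Sd : Prop :=
  ∃ sd : ∀ X : Type, List X → (List (List X) →₀ ℝ),
    (∀ (X Y : Type) (f : X → Y) (l : List X),
      sd Y (l.map f) = (sd X l).mapDomain (List.map (List.map f))) ∧
    (∀ (X : Type) (l : List X) (ψ : Co (List X)), ((sd X l).sum fun m r => r * cob ψ m) =
      cob (fun l' => (sd X l').sum fun m r => r * ψ m) l) ∧
    (∀ (X : Type) (l : List X), ∀ m ∈ (sd X l).support, m.length = l.length ∧
      m.Pairwise List.Sublist ∧ ∀ x ∈ m, x ≠ [] ∧ x.Sublist l) ∧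
    ∀ (X : Type) (l : List X) (w : Co X) (d : X),
      (∀ (l₁ : List X) a l₂, w (l₁ ++ a :: a :: l₂) = 0) →
      ((sd X l).sum fun m r => r * w (m.map fun x => x.getLastD d)) = w l

/-- The coface map which omits `i`. -/
def up (i v : ℕ) : ℕ := if v < i then v else v + 1

/-- Universal chains of coloured vertices. -/
def S_Col : Prop :=
  ∃ h : ℕ → (List (ℕ × ℕ) →₀ ℝ),
    (∀ p, ∀ m ∈ (h p).support, m.length = p + 1 ∧
      m.Pairwise (fun x y => x.1 ≤ y.1 ∧ x.2 < y.2) ∧ ∀ x ∈ m, x.1 ≤ p) ∧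
    (∀ (p : ℕ) (ψ : Co (ℕ × ℕ)), ((h (p + 1)).sum fun m r => r * cob ψ m) =
      ∑ i ∈ Finset.range (p + 2),
        (-1) ^ i * (h p).sum fun m r => r * ψ (m.map (Prod.map (up i) id))) ∧
    ∀ (p : ℕ) (w : Co ℕ), (∀ (l₁ : List ℕ) a l₂, w (l₁ ++ a :: a :: l₂) = 0) →
      ((h p).sum fun m r => r * w (m.map Prod.fst)) = w (List.range (p + 1))

/-- The product of the entries of `l` in the positions `a, …, b - 1`. -/
def seg {Λ : Type} [Monoid Λ] (l : List Λ) (a b : ℕ) : Λ := ((l.take b).drop a).prod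

/-- The coboundary as an alternating sum over faces. -/
def S_Face : Prop :=
  ∀ (Λ : Type) [Monoid Λ] (p : ℕ), ∃ face : ℕ → List Λ → List Λ,
    ∀ l : List Λ, l.length = p + 1 →
      (∀ i ≤ p + 1, (face i l).length = p ∧
        ∀ a b, a ≤ b → b ≤ p → seg (face i l) a b = seg l (up i a) (up i b)) ∧
      ∀ β : Co Λ, dl β l = ∑ i ∈ Finset.range (p + 2), (-1) ^ i * β (face i l)

/-- A cycle of the bar complex comes from a cycle in the nerve of a poset. -/
def S_Pos : Prop :=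
  ∀ (Λ : Type) [Monoid Λ] (n : ℕ) (z : List Λ →₀ ℝ), 1 ≤ n → (∀ l ∈ z.support, l.length = n) →
    (∀ β : Co Λ, (z.sum fun l r => r * dl β l) = 0) →
    ∃ (I : Type) (_ : PartialOrder I) (g : I → I → Λ) (y : List I →₀ ℝ), (∀ a, g a a = 1) ∧
      (∀ a b c, a ≤ b → b ≤ c → g a b * g b c = g a c) ∧
      (∀ l ∈ y.support, l.Pairwise (· ≤ ·) ∧ l.length = n + 1) ∧ IsCyc y ∧
      ∀ w : Co Λ, Nm w → (y.sum fun l r => r * w (smpl g l)) = z.sum fun l r => r * w l

/-- The poset can be taken finite. -/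
def S_Fin : Prop :=
  ∀ (I : Type) (y : List I →₀ ℝ), IsCyc y →
    ∃ (d : ℕ) (e : Fin d → I) (y' : List (Fin d) →₀ ℝ), Function.Injective e ∧
      (∀ l ∈ y'.support, l.map e ∈ y.support) ∧ IsCyc y' ∧
      ∀ w : Co I, (y'.sum fun l r => r * w (l.map e)) = y.sum fun l r => r * w l

/-! The algebra of the comparison between integrals and cup products. -/

/-- `ε` is a normalised cocycle on sorted triples, `ε'` its extension to all comparable triples. -/
def S_Eps : Prop :=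
  ∀ (I : Type) [PartialOrder I] [DecidableLE I] (ε : I → I → I → ℝ),
    (∀ a b, a ≤ b → ε a a b = 0 ∧ ε a b b = 0) →
    (∀ a b c d, a ≤ b → b ≤ c → c ≤ d → ε b c d - ε a c d + ε a b d - ε a b c = 0) →
    ∃ ε' : I → I → I → ℝ, (∀ a b c, a ≤ b → b ≤ c → ε' a b c = ε a b c) ∧
      (∀ s : Set I, IsChain (· ≤ ·) s → ∀ a ∈ s, ∀ b ∈ s, ∀ c ∈ s, ∀ d ∈ s,
        ε' b c d - ε' a c d + ε' a b d - ε' a b c = 0) ∧
      ∀ s : Set I, IsChain (· ≤ ·) s → ∀ (κ : ℝ) (η : I → I → ℝ),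
        (∀ a ∈ s, ∀ b ∈ s, ∀ c ∈ s, a ≤ b → b ≤ c → η a b + η b c - η a c = κ * ε a b c) →
        ∀ a ∈ s, ∀ b ∈ s, ∀ c ∈ s, (if a ≤ b then η a b else -η b a) +
          (if b ≤ c then η b c else -η c b) - (if a ≤ c then η a c else -η c a) = κ * ε' a b c

/-- Insert the two-forms `∑_j e_j ∧ ε i v j` into a functional on lists of vectors. -/
def wed {ι I : Type} [Fintype I] [DecidableEq I] (ε : ι → I → I → I → ℝ) (v : I) :
    List ι → (List (I → ℝ) → ℝ) → ℝ
  | [], Ψ => Ψ []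
  | i :: is, Ψ => ∑ j, wed ε v is fun rs => Ψ (Pi.single j 1 :: ε i v j :: rs)

/-- Multilinear, and zero when one argument is constant on `s`. -/
def Good {I : Type} (s : Set I) (Ψ : List (I → ℝ) → ℝ) : Prop :=
  ∀ r₁ r₂ : List (I → ℝ),
    (∀ (x y : I → ℝ) (t : ℝ), Ψ (r₁ ++ (x + t • y) :: r₂) = Ψ (r₁ ++ x :: r₂) +
      t * Ψ (r₁ ++ y :: r₂)) ∧
    ∀ (x : I → ℝ) (t : ℝ), (∀ a ∈ s, x a = t) → Ψ (r₁ ++ x :: r₂) = 0

def Coc {ι I : Type} [PartialOrder I] (ε : ι → I → I → I → ℝ) : Prop :=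
  ∀ i, ∀ s : Set I, IsChain (· ≤ ·) s → ∀ a ∈ s, ∀ b ∈ s, ∀ c ∈ s, ∀ d ∈ s,
    ε i b c d - ε i a c d + ε i a b d - ε i a b c = 0

/-- The base vertex does not matter. -/
def S_Wed : Prop :=
  ∀ (ι I : Type) [Fintype I] [DecidableEq I] [PartialOrder I] (ε : ι → I → I → I → ℝ),
    Coc ε → ∀ (s s' : Set I), s ⊆ s' → IsChain (· ≤ ·) s' → ∀ v ∈ s', ∀ v' ∈ s',
    ∀ (is : List ι) (Ψ : List (I → ℝ) → ℝ), Good s Ψ → wed ε v is Ψ = wed ε v' is Ψ

def cupV {ι I : Type} (ε : ι → I → I → I → ℝ) : List ι → List I → ℝ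
  | [], l => if l.length = 1 then 1 else 0
  | i :: is, a :: b :: c :: l => ε i a b c * cupV ε is (c :: l)
  | _ :: _, _ => 0

/-- The formal properties of the integrals of `f dr₁ ⋯ dr_k` over simplices. -/
structure IsInt {I : Type} [PartialOrder I] (n : ℕ)
    (L : List I → (I → ℝ) → List (I → ℝ) → ℝ) : Prop where
  nil : ∀ f rs, L [] f rs = 0
  deg : ∀ l f rs, rs.length + 1 ≠ l.length → L l f rs = 0
  pt : ∀ a f, L [a] f [] = f a
  good : ∀ l f, l.Pairwise (· ≤ ·) → l.length ≤ n → Good {a | a ∈ l} (L l f)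
  lin : ∀ l f f' (t : ℝ) rs, l.Pairwise (· ≤ ·) → l.length ≤ n →
    L l (f + t • f') rs = L l f rs + t * L l f' rs
  zero : ∀ l f rs, l.Pairwise (· ≤ ·) → l.length ≤ n → (∀ a ∈ l, f a = 0) → L l f rs = 0
  stokes : ∀ l f rs, l.Pairwise (· ≤ ·) → l.length ≤ n →
    cob (fun l' => L l' f rs) l = L l 1 (f :: rs)

def S_Zig : Prop :=
  ∀ (ι I : Type) [Fintype I] [DecidableEq I] [PartialOrder I] (ε : ι → I → I → I → ℝ),
    Coc ε → ∀ (n : ℕ) (L : List I → (I → ℝ) → List (I → ℝ) → ℝ), IsInt n L →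
    ∀ is : List ι, ∃ ψ : Co I, ∀ a l, (a :: l).Pairwise (· ≤ ·) → (a :: l).length ≤ n →
      l.length = 2 * is.length →
      wed ε a is (L (a :: l) 1) = cupV ε is (a :: l) + cob ψ (a :: l)

end Pool.Agent.P.MP_878f14_gt.Sg
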