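import Pool.Agent.P.MP_878f14_gt.Sg.DefA

/-!
The concrete monoids of local diffeomorphisms with a lift of the action on directions, and the
statements of the packages about them.
-/

open scoped ContDiff
open Complex

namespace Pool.Agent.P.MP_878f14_gt.Sg

/-- The unit vector of argument `φ`. -/
noncomputable def ee (φ : ℝ) : ℂ := exp (I * φ)

/-- The determinant of a real linear map of the plane. -/
noncomputable def dt (A : ℂ →L[ℝ] ℂ) : ℝ := (A 1).re * (A I).im - (A 1).im * (A I).re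

/-- `Θ` lifts the action of `A` on directions. -/
def Lift (A : ℂ →L[ℝ] ℂ) (Θ : ℝ → ℝ) : Prop :=
  0 < dt A ∧ (∀ φ, ∃ r : ℝ, 0 < r ∧ A (ee φ) = r • ee (Θ φ)) ∧
    ∀ φ, Θ (φ + 2 * Real.pi) = Θ φ + 2 * Real.pi

theorem clm_apply (A : ℂ →L[ℝ] ℂ) (z : ℂ) : A z = z.re • A 1 + z.im • A I := by
  rw [← map_smul, ← map_smul, ← map_add]
  congr 1
  apply Complex.ext <;> simp

theorem dt_mul (A B : ℂ →L[ℝ] ℂ) : dt (A * B) = dt A * dt B := by
  unfold dt
  rw [mul_apply_eq_comp, mul_apply_eq_comp, clm_apply A (B 1),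
    clm_apply A (B I)]
  simp only [add_re, add_im, smul_re, smul_im, smul_eq_mul]
  ring

theorem Lift.one : Lift 1 id := ⟨by simp [dt], fun φ => ⟨1, one_pos, by simp⟩, fun _ => rfl⟩

theorem Lift.mul {A B : ℂ →L[ℝ] ℂ} {Θ Θ' : ℝ → ℝ} (h : Lift A Θ) (h' : Lift B Θ') :
    Lift (A * B) (Θ ∘ Θ') := by
  refine ⟨by rw [dt_mul]; exact mul_pos h.1 h'.1, fun φ => ?_, fun φ => ?_⟩
  · obtain ⟨r', hr', e'⟩ := h'.2.1 φ
    obtain ⟨r, hr, e⟩ := h.2.1 (Θ' φ)
    refine ⟨r' * r, mul_pos hr' hr, ?_⟩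
    rw [mul_apply_eq_comp, e', map_smul, e, smul_smul, Function.comp_apply]
  · rw [Function.comp_apply, h'.2.2, h.2.2, Function.comp_apply]

/-- The universal cover of the group of linear maps of positive determinant, as a monoid. -/
def GG : Submonoid ((ℂ →L[ℝ] ℂ) × Function.End ℝ) where
  carrier := {x | ContDiff ℝ ∞ (x.2 : ℝ → ℝ) ∧ Lift x.1 x.2}
  one_mem' := ⟨contDiff_id, Lift.one⟩
  mul_mem' := fun ha hb => ⟨ha.1.comp hb.1, ha.2.mul hb.2⟩

/-- Multiplication by `ee t`. -/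
noncomputable def rotL (t : ℝ) : ℂ →L[ℝ] ℂ := ContinuousLinearMap.mul ℝ ℂ (ee t)

theorem ee_add (s t : ℝ) : ee (s + t) = ee s * ee t := by
  unfold ee
  rw [← Complex.exp_add]
  congr 1
  push_cast
  ring

theorem ee_sq (t : ℝ) : (ee t).re ^ 2 + (ee t).im ^ 2 = 1 := by
  unfold ee
  rw [mul_comm, exp_ofReal_mul_I_re, exp_ofReal_mul_I_im, Real.cos_sq_add_sin_sq]

theorem lift_rot (t : ℝ) : Lift (rotL t) fun φ => φ + t := by
  refine ⟨?_, fun φ => ⟨1, one_pos, ?_⟩, fun φ => by ring⟩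
  · have := ee_sq t
    simp only [dt, rotL, ContinuousLinearMap.mul_apply', mul_one, mul_re, mul_im, I_re, I_im]
    nlinarith
  · rw [rotL, ContinuousLinearMap.mul_apply', one_smul, ee_add, mul_comm]

/-- The lifted rotation. -/
noncomputable def rotG (t : ℝ) : GG :=
  ⟨(rotL t, fun φ => φ + t), contDiff_id.add contDiff_const, lift_rot t⟩

/-- Smooth paths which are constant at both ends. -/
def G0 : Submonoid (ℝ → GG) where
  carrier := {g | ContDiff ℝ ∞ (fun p : ℝ × ℝ => (g p.1).1.2 p.2) ∧ (∀ s ≤ 0, g s = g 0) ∧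
    ∀ s, 1 ≤ s → g s = g 1}
  one_mem' := ⟨contDiff_snd, fun _ _ => rfl, fun _ _ => rfl⟩
  mul_mem' := fun {a b} ha hb => ⟨ha.1.comp (contDiff_fst.prodMk hb.1),
    fun s hs => by rw [Pi.mul_apply, Pi.mul_apply, ha.2.1 s hs, hb.2.1 s hs],
    fun s hs => by rw [Pi.mul_apply, Pi.mul_apply, ha.2.2 s hs, hb.2.2 s hs]⟩

/-- A plane with parameters. -/
abbrev TT (κ : Type) : Type := ℂ × (κ → ℝ)

section

variable {κ : Type}

/-- The block of `X` on the plane. -/
noncomputable def fib (X : TT κ →L[ℝ] TT κ) : ℂ →L[ℝ] ℂ :=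
  (ContinuousLinearMap.fst ℝ ℂ (κ → ℝ)).comp (X.comp (ContinuousLinearMap.inl ℝ ℂ (κ → ℝ)))

/-- `X` preserves the plane and induces a positive diagonal map on the parameters. -/
def Tri (X : TT κ →L[ℝ] TT κ) : Prop :=
  ∃ C : κ → ℝ, (∀ s, 0 < C s) ∧ ∀ v s, (X v).2 s = C s * v.2 s

theorem Tri.one : Tri (1 : TT κ →L[ℝ] TT κ) := ⟨1, fun _ => one_pos, fun v s => by simp⟩

theorem Tri.mul {X Y : TT κ →L[ℝ] TT κ} (h : Tri X) (h' : Tri Y) : Tri (X * Y) := by
  obtain ⟨C, hC, e⟩ := h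
  obtain ⟨C', hC', e'⟩ := h'
  refine ⟨C * C', fun s => mul_pos (hC s) (hC' s), fun v s => ?_⟩
  rw [mul_apply_eq_comp, e, e', Pi.mul_apply, mul_assoc]

theorem fib_apply (X : TT κ →L[ℝ] TT κ) (v : ℂ) : fib X v = (X (v, 0)).1 := rfl

theorem fib_one : fib (1 : TT κ →L[ℝ] TT κ) = 1 := ContinuousLinearMap.ext fun _ => rfl

theorem fib_mul (X : TT κ →L[ℝ] TT κ) {Y : TT κ →L[ℝ] TT κ} (h : Tri Y) :
    fib (X * Y) = fib X * fib Y := by
  obtain ⟨C, -, e⟩ := h
  refine ContinuousLinearMap.ext fun v => ?_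
  have : Y (v, 0) = ((Y (v, 0)).1, 0) := Prod.ext rfl (funext fun s => by rw [e]; simp)
  rw [mul_apply_eq_comp, fib_apply, fib_apply, fib_apply,
    mul_apply_eq_comp, ← this]

end

/-- Smooth maps with triangular derivative and a lift of the action on directions in the plane. -/
def UU (κ : Type) [Fintype κ] : Submonoid (Function.End (TT κ) × Function.End (TT κ × ℝ)) where
  carrier := {x | ContDiff ℝ ∞ (x.1 : TT κ → TT κ) ∧ ContDiff ℝ ∞ (x.2 : TT κ × ℝ → TT κ × ℝ) ∧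
    (∀ z, (x.2 z).1 = x.1 z.1) ∧ ∀ y, Tri (fderiv ℝ (x.1 : TT κ → TT κ) y) ∧
      Lift (fib (fderiv ℝ (x.1 : TT κ → TT κ) y)) fun φ => (x.2 (y, φ)).2}
  one_mem' := by
    refine ⟨contDiff_id, contDiff_id, fun _ => rfl, fun y => ?_⟩
    have : fderiv ℝ ((1 : Function.End (TT κ) × Function.End (TT κ × ℝ)).1 : TT κ → TT κ) y = 1 :=
      fderiv_id
    rw [this, fib_one]
    exact ⟨Tri.one, Lift.one⟩
  mul_mem' := by
    intro a b ha hb
    refine ⟨ha.1.comp hb.1, ha.2.1.comp hb.2.1, fun z => ?_, fun y => ?_⟩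
    · exact (ha.2.2.1 _).trans (congrArg a.1 (hb.2.2.1 z))
    · have : fderiv ℝ ((a * b).1 : TT κ → TT κ) y =
          fderiv ℝ (a.1 : TT κ → TT κ) (b.1 y) * fderiv ℝ (b.1 : TT κ → TT κ) y :=
        fderiv_comp y (ha.1.differentiable (by simp) _) (hb.1.differentiable (by simp) _)
      rw [this, fib_mul _ (hb.2.2.2 y).1]
      refine ⟨(ha.2.2.2 _).1.mul (hb.2.2.2 y).1, ?_⟩
      have e : (fun φ => ((a * b).2 (y, φ)).2) =
          (fun φ => (a.2 (b.1 y, φ)).2) ∘ fun φ => (b.2 (y, φ)).2 := by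
        funext φ
        have : b.2 (y, φ) = (b.1 y, (b.2 (y, φ)).2) := Prod.ext (hb.2.2.1 _) rfl
        exact congrArg (fun z => (a.2 z).2) this
      rw [e]
      exact (ha.2.2.2 _).2.mul (hb.2.2.2 y).2

/-- The full turn. -/
noncomputable def zc (κ : Type) [Fintype κ] : UU κ :=
  ⟨(1, fun z => (z.1, z.2 + 2 * Real.pi)), contDiff_id,
    contDiff_fst.prodMk (contDiff_snd.add contDiff_const), fun _ => rfl, fun y => by
      have : fderiv ℝ ((1 : Function.End (TT κ)) : TT κ → TT κ) y = 1 := fderiv_id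
      rw [this, fib_one]
      refine ⟨Tri.one, Lift.one.1, fun φ => ⟨1, one_pos, ?_⟩, fun φ => rfl⟩
      have h : ee (2 * Real.pi) = 1 := by
        unfold ee
        rw [← exp_two_pi_mul_I]
        congr 1
        push_cast
        ring
      rw [ee_add, h]
      simp⟩

theorem cen_zc (κ : Type) [Fintype κ] : Cen (zc κ) := by
  intro g
  refine Subtype.ext (Prod.ext rfl (funext fun z => Prod.ext ?_ ?_))
  · exact (g.2.2.2.1 z).trans (g.2.2.2.1 (z.1, z.2 + 2 * Real.pi)).symm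
  · exact ((g.2.2.2.2 z.1).2.2.2 z.2).symm

/-- The map underlying an element. -/
def mp {κ : Type} [Fintype κ] (x : UU κ) : TT κ → TT κ := x.1.1

/-- The lifted action on directions. -/
def tht {κ : Type} [Fintype κ] (x : UU κ) (y : TT κ) (φ : ℝ) : ℝ := (x.1.2 (y, φ)).2

theorem mp_mul {κ : Type} [Fintype κ] (x y : UU κ) : mp (x * y) = mp x ∘ mp y := rfl

theorem mp_one {κ : Type} [Fintype κ] : mp (1 : UU κ) = id := rfl

theorem tht_one {κ : Type} [Fintype κ] (p : TT κ) (φ : ℝ) : tht (1 : UU κ) p φ = φ := rfl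

theorem tht_mul {κ : Type} [Fintype κ] (x y : UU κ) (p : TT κ) (φ : ℝ) :
    tht (x * y) p φ = tht x (mp y p) (tht y p φ) := by
  have : y.1.2 (p, φ) = (mp y p, tht y p φ) := Prod.ext (y.2.2.2.1 _) rfl
  exact congrArg (fun z => (x.1.2 z).2) this

theorem mp_zc (κ : Type) [Fintype κ] : mp (zc κ) = id := rfl

theorem tht_zc (κ : Type) [Fintype κ] (p : TT κ) (φ : ℝ) :
    tht (zc κ) p φ = φ + 2 * Real.pi := rfl

/-- Rotations by functions of the parameters in `s` over increasing maps of these parameters. -/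
def SS (κ : Type) [Fintype κ] (s : Finset κ) : Submonoid (Function.End ((κ → ℝ) × ℝ)) where
  carrier := {x | ∃ (u : (κ → ℝ) → ℝ) (φ : κ → ℝ → ℝ), ContDiff ℝ ∞ u ∧
    (∀ j, ContDiff ℝ ∞ (φ j) ∧ ∀ t, 0 < deriv (φ j) t) ∧
    (∀ h h', (∀ j ∈ s, h j = h' j) → u h = u h') ∧ (∀ j ∉ s, φ j = id) ∧
    ∀ z, x z = (fun j => φ j (z.1 j), z.2 + u z.1)}
  one_mem' := ⟨0, fun _ => id, contDiff_const, fun _ => ⟨contDiff_id, fun t => by simp⟩,
    fun _ _ _ => rfl, fun _ _ => rfl, fun z => Prod.ext rfl (add_zero _).symm⟩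
  mul_mem' := by
    rintro a b ⟨u, φ, hu, hφ, hs, hi, e⟩ ⟨u', φ', hu', hφ', hs', hi', e'⟩
    refine ⟨fun h => u' h + u fun j => φ' j (h j), fun j => φ j ∘ φ' j,
      hu'.add (hu.comp (contDiff_pi.2 fun j => (hφ' j).1.comp (contDiff_apply ℝ ℝ j))),
      fun j => ⟨(hφ j).1.comp (hφ' j).1, fun t => ?_⟩, fun h h' hh => ?_, fun j hj => ?_,
      fun z => ?_⟩
    · rw [deriv_comp t ((hφ j).1.differentiable (by simp) _)
        ((hφ' j).1.differentiable (by simp) _)]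
      exact mul_pos ((hφ j).2 _) ((hφ' j).2 _)
    · beta_reduce
      rw [hs' h h' hh, hs (fun j => φ' j (h j)) (fun j => φ' j (h' j)) fun j hj => by
        rw [hh j hj]]
    · beta_reduce
      rw [hi j hj, hi' j hj]
      rfl
    · change a (b z) = _
      rw [e', e]
      exact Prod.ext rfl (add_assoc _ _ _)

noncomputable def zs (κ : Type) [Fintype κ] (s : Finset κ) : SS κ s :=
  ⟨fun z => (z.1, z.2 + 2 * Real.pi), fun _ => 2 * Real.pi, fun _ => id, contDiff_const,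
    fun _ => ⟨contDiff_id, fun t => by simp⟩, fun _ _ _ => rfl, fun _ _ => rfl, fun _ => rfl⟩

end Pool.Agent.P.MP_878f14_gt.Sg
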