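import Pool.Agent.P.MP_878f14_gt.Sg.Core

/-!
The calculus of cochains for families with parameters.
-/

namespace Pool.Agent.P.MP_878f14_gt.Sg

section
variable {ι D Q : Type} [Fintype ι] [DecidableEq ι]

theorem tot_apply [Mul D] (c : ι → D) (Φ : Fam ι D) (α : ι → ℕ) : tot c Φ α = dl (Φ α) +
    ∑ i, if α i = 0 then 0 else ins id id (c i) (Φ (Function.update α i (α i - 1))) := by
  funext l
  simp only [tot, Pi.add_apply, Finset.sum_apply]
  congr 1
  refine Finset.sum_congr rfl fun i _ => ?_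
  split_ifs <;> rfl

def totL [Mul D] (c : ι → D) : Fam ι D →ₗ[ℝ] Fam ι D where
  toFun := tot c
  map_add' := fun Φ Ψ => by
    funext α
    simp only [Pi.add_apply, tot_apply, dl_add, ins_add]
    rw [add_add_add_comm, ← Finset.sum_add_distrib]
    congr 1
    refine Finset.sum_congr rfl fun i _ => ?_
    split_ifs <;> simp
  map_smul' := fun t Φ => by
    funext α
    simp only [Pi.smul_apply, tot_apply, dl_smul, ins_smul, RingHom.id_apply, smul_add,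
      Finset.smul_sum]
    congr 1
    refine Finset.sum_congr rfl fun i _ => ?_
    split_ifs <;> simp

theorem tot_comp [Mul D] [Mul Q] (c' : ι → Q) (c : ι → D) (T T' : Co D →ₗ[ℝ] Co Q) (s : ℝ)
    (h1 : ∀ φ, dl (T φ) = s • T (dl φ) + T' φ)
    (h2 : ∀ i φ, ins id id (c' i) (T φ) = s • T (ins id id (c i) φ)) (Φ : Fam ι D) :
    tot c' (T.compLeft _ Φ) = s • T.compLeft _ (tot c Φ) + T'.compLeft _ Φ := by
  funext α
  simp only [LinearMap.compLeft_apply, Function.comp_apply, Pi.add_apply, Pi.smul_apply,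
    tot_apply, h1, h2, map_add, map_sum, smul_add, Finset.smul_sum]
  rw [add_right_comm]
  congr 2
  refine Finset.sum_congr rfl fun i _ => ?_
  split_ifs <;> simp

theorem tot_pb [Mul D] [Mul Q] (c' : ι → Q) (c : ι → D) (f : Q → D)
    (hf : ∀ a b, f (a * b) = f a * f b) (hc : ∀ i, f (c' i) = c i) (Φ : Fam ι D) :
    tot c' (fun α => pb f (Φ α)) = fun α => pb f (tot c Φ α) := by
  have := tot_comp c' c (pbL f) 0 1 (fun φ => by rw [one_smul]; exact (dl_pb f hf φ).trans (add_zero _).symm)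
    (fun i φ => by rw [one_smul, ← hc i]; exact iota_pb f (c' i) φ) Φ
  rw [one_smul] at this
  exact this.trans (add_zero _)

omit [Fintype ι] [DecidableEq ι] in
theorem pb_cst (f : Q → D) (P : (ι → ℕ) → ℝ) (α : ι → ℕ) : pb f (cst D P α) = cst Q P α := by
  funext l
  simp [pb, cst]

omit [Fintype ι] [DecidableEq ι] in
theorem sh_cst (g : D) (P : (ι → ℕ) → ℝ) (α : ι → ℕ) : sh g (cst D P α) = 0 := by
  funext l
  simp [sh, cst]

omit [Fintype ι] [DecidableEq ι] in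
theorem ins_cst (p' p : Q → D) (u : D) (P : (ι → ℕ) → ℝ) (α : ι → ℕ) :
    ins p' p u (cst D P α) = 0 :=
  ins_eq_zero _ _ _ _ fun l hl => by
    cases l with
    | nil => simp at hl
    | cons g l => simp [cst]

omit [Fintype ι] [DecidableEq ι] in
theorem kk_cst (p'' p' p : Q → D) (u v : D) (P : (ι → ℕ) → ℝ) (α : ι → ℕ) :
    kk p'' p' p u v (cst D P α) = 0 := by
  funext l
  cases l with
  | nil => simp [kk, cst]
  | cons q l => simp [kk, sh_cst, ins_zero, kk_zero]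

end

section
variable {ι Λ M N K : Type} [Monoid Λ] [Monoid M] [Monoid N] [Monoid K]

/-- Normalised families. -/
def NF (ι D : Type) [One D] : Submodule ℝ (Fam ι D) where
  carrier := {Φ | ∀ α, Nm (Φ α)}
  zero_mem' := fun _ => Nm.zero
  add_mem' := fun h h' α => (h α).add (h' α)
  smul_mem' := fun t _ h α => (h α).smul t

def PB (f : N →* M) : Fam ι (Λ × M) →ₗ[ℝ] Fam ι (Λ × N) := (pbL (Prod.map id f)).compLeft _

def IN (p' p : N →* M) (u : M) : Fam ι (Λ × M) →ₗ[ℝ] Fam ι (Λ × N) :=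
  (insL (Prod.map id p') (Prod.map id p) (1, u)).compLeft _

def KN (p'' p' p : N →* M) (u v : M) : Fam ι (Λ × M) →ₗ[ℝ] Fam ι (Λ × N) :=
  (kkL (Prod.map id p'') (Prod.map id p') (Prod.map id p) (1, u) (1, v)).compLeft _

/-- The contraction with an element. -/
def IO (u : M) : Fam ι (Λ × M) →ₗ[ℝ] Fam ι (Λ × M) := IN (MonoidHom.id M) (MonoidHom.id M) u

theorem IO_eq (u : M) (Φ : Fam ι (Λ × M)) :
    (fun α => ins id id ((1 : Λ), u) (Φ α)) = IO u Φ := rfl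

omit [Monoid Λ] in
theorem PB_PB (f : N →* M) (g : K →* N) (Φ : Fam ι (Λ × M)) :
    PB g (PB f Φ) = PB (f.comp g) Φ := funext fun α => pb_pb _ _ (Φ α)

theorem PB_IN (f : K →* N) (p' p : N →* M) (u : M) (Φ : Fam ι (Λ × M)) :
    PB f (IN p' p u Φ) = IN (p'.comp f) (p.comp f) u Φ := funext fun α => pb_ins _ _ _ _ (Φ α)

theorem IN_PB (f : N →* M) (p' p : K →* N) (u : N) (Φ : Fam ι (Λ × M)) :
    IN p' p u (PB f Φ) = IN (f.comp p') (f.comp p) (f u) Φ :=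
  funext fun α => ins_pb _ _ _ _ (Φ α)

theorem IO_PB (f : N →* M) (u : N) (Φ : Fam ι (Λ × M)) :
    IO u (PB f Φ) = PB f (IO (f u) Φ) := funext fun α => iota_pb _ _ (Φ α)

theorem IO_IN (p' p : N →* M) (u : M) (z' : N) (z : M) (h' : p' z' = z) (h : p z' = z)
    (Φ : Fam ι (Λ × M)) : IO z' (IN p' p u Φ) = -IN p' p u (IO z Φ) :=
  eq_neg_of_add_eq_zero_left <| funext fun α =>
    iota_ins (Prod.map id p') (Prod.map id p) ((1 : Λ), u) (1, z') (1, z) (by simp [h'])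
      (by simp [h]) (Φ α)

theorem IO_IO (u v : M) (Φ : Fam ι (Λ × M)) : IO u (IO v Φ) = -IO v (IO u Φ) :=
  IO_IN _ _ v u u rfl rfl Φ

theorem IO_IO_self (u : M) (Φ : Fam ι (Λ × M)) : IO u (IO u Φ) = 0 := by
  have h := IO_IO u u Φ
  have : (2 : ℝ) • IO u (IO u Φ) = 0 := by
    rw [two_smul]
    exact add_eq_zero_iff_eq_neg.2 h
  exact (smul_eq_zero.1 this).resolve_left two_ne_zero

omit [Monoid Λ] in
theorem PB_cst (f : N →* M) (P : (ι → ℕ) → ℝ) : PB f (cst (Λ × M) P) = cst (Λ × N) P :=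
  funext fun α => pb_cst _ P α

theorem IN_cst (p' p : N →* M) (u : M) (P : (ι → ℕ) → ℝ) : IN p' p u (cst (Λ × M) P) = 0 :=
  funext fun α => ins_cst _ _ _ P α

theorem KN_cst (p'' p' p : N →* M) (u v : M) (P : (ι → ℕ) → ℝ) :
    KN p'' p' p u v (cst (Λ × M) P) = 0 := funext fun α => kk_cst _ _ _ _ _ P α

theorem PB_mem (f : N →* M) {Φ : Fam ι (Λ × M)} (h : Φ ∈ NF ι (Λ × M)) :
    PB f Φ ∈ NF ι (Λ × N) := fun α => (h α).pb _ (by simp [Prod.ext_iff])

theorem IN_mem (p' p : N →* M) (u : M) {Φ : Fam ι (Λ × M)} (h : Φ ∈ NF ι (Λ × M)) :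
    IN p' p u Φ ∈ NF ι (Λ × N) :=
  fun α => (h α).ins _ _ _ (by simp [Prod.ext_iff]) (by simp [Prod.ext_iff])

theorem IO_mem (u : M) {Φ : Fam ι (Λ × M)} (h : Φ ∈ NF ι (Λ × M)) :
    IO u Φ ∈ NF ι (Λ × M) := IN_mem _ _ u h

theorem KN_mem (p'' p' p : N →* M) (u v : M) {Φ : Fam ι (Λ × M)} (h : Φ ∈ NF ι (Λ × M)) :
    KN p'' p' p u v Φ ∈ NF ι (Λ × N) :=
  fun α => (h α).kk _ _ _ _ _ (by simp [Prod.ext_iff]) (by simp [Prod.ext_iff])
    (by simp [Prod.ext_iff])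

theorem IN_one (p' p : N →* M) {Φ : Fam ι (Λ × M)} (h : Φ ∈ NF ι (Λ × M)) :
    IN p' p 1 Φ = 0 := funext fun α => (h α).ins_one _ _

theorem IO_one {Φ : Fam ι (Λ × M)} (h : Φ ∈ NF ι (Λ × M)) : IO 1 Φ = 0 := IN_one _ _ h

theorem pm_mul (p : N →* M) (a b : Λ × N) :
    Prod.map id p (a * b) = Prod.map id p a * Prod.map id p b := Prod.ext rfl (p.map_mul _ _)

theorem pm_nat {p' p : N →* M} {u : M} (hu : ∀ q, p' q * u = u * p q) (q : Λ × N) :
    Prod.map id p' q * ((1 : Λ), u) = (1, u) * Prod.map id p q :=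
  Prod.ext ((mul_one _).trans (one_mul _).symm) (hu _)

variable [Fintype ι] [DecidableEq ι] (c : ι → Λ)

/-- The differential with parameters. -/
def DD (M : Type) [Monoid M] : Fam ι (Λ × M) →ₗ[ℝ] Fam ι (Λ × M) := totL fun i => (c i, 1)

theorem DD_eq (Φ : Fam ι (Λ × M)) : tot (fun i => (c i, (1 : M))) Φ = DD c M Φ := rfl

theorem DD_PB (f : N →* M) (Φ : Fam ι (Λ × M)) : DD c N (PB f Φ) = PB f (DD c M Φ) :=
  tot_pb _ _ _ (pm_mul f) (fun i => by simp) Φ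

theorem DD_IN {p' p : N →* M} {u : M} (hu : ∀ q, p' q * u = u * p q) (Φ : Fam ι (Λ × M)) :
    DD c N (IN p' p u Φ) = PB p Φ - PB p' Φ - IN p' p u (DD c M Φ) := by
  have := tot_comp (fun i => (c i, (1 : N))) (fun i => (c i, (1 : M)))
    (insL (Prod.map id p') (Prod.map id p) (1, u)) (pbL (Prod.map id p) - pbL (Prod.map id p'))
    (-1) (fun φ => by
      rw [neg_one_smul, ← sub_eq_neg_add]
      exact eq_sub_of_add_eq (ins_dl _ _ _ (pm_mul p') (pm_mul p) (pm_nat hu) φ))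
    (fun i φ => by
      rw [neg_one_smul]
      exact eq_neg_of_add_eq_zero_left (iota_ins _ _ _ _ _ (by simp) (by simp) φ)) Φ
  rw [neg_one_smul, ← sub_eq_neg_add] at this
  exact this

theorem DD_IO {z : M} (hz : Cen z) (Φ : Fam ι (Λ × M)) :
    DD c M (IO z Φ) = -IO z (DD c M Φ) := by
  rw [IO, DD_IN c (fun q => (hz q).symm), sub_self, zero_sub]

theorem DD_KN {p'' p' p : N →* M} {u v : M} (hu : ∀ q, p'' q * u = u * p' q)
    (hv : ∀ q, p' q * v = v * p q) (Φ : Fam ι (Λ × M)) :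
    DD c N (KN p'' p' p u v Φ) = KN p'' p' p u v (DD c M Φ) +
      (IN p'' p (u * v) Φ - IN p'' p' u Φ - IN p' p v Φ) := by
  have := tot_comp (fun i => (c i, (1 : N))) (fun i => (c i, (1 : M)))
    (kkL (Prod.map id p'') (Prod.map id p') (Prod.map id p) (1, u) (1, v))
    (insL (Prod.map id p'') (Prod.map id p) (1, u * v) -
      insL (Prod.map id p'') (Prod.map id p') (1, u) -
      insL (Prod.map id p') (Prod.map id p) (1, v)) 1 (fun φ => by
      have := kk_dl _ _ _ ((1 : Λ), u) (1, v) (pm_mul p'') (pm_mul p') (pm_mul p) (pm_nat hu)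
        (pm_nat hv) φ
      rw [Prod.mk_mul_mk, one_mul] at this
      rw [one_smul, sub_sub, ← sub_eq_iff_eq_add', ← neg_inj, neg_sub]
      exact this.trans (neg_sub _ _).symm)
    (fun i φ => by
      rw [one_smul]
      exact iota_kk _ _ _ _ _ _ _ (by simp) (by simp) (by simp) φ) Φ
  rw [one_smul] at this
  exact this

/-- Restriction to the parameters. -/
theorem exact_of {Φ : Fam ι (Λ × M)} (h : Φ ∈ NF ι (Λ × M)) {P : (ι → ℕ) → ℝ}
    (e : DD c M Φ = cst _ P) : Exact c P := by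
  refine ⟨fun α => pb (MonoidHom.inl Λ M) (Φ α), fun α => (h α).pb _ rfl, ?_⟩
  rw [tot_pb c (fun i => (c i, (1 : M))) _ (MonoidHom.inl Λ M).map_mul fun _ => rfl, DD_eq, e]
  exact funext fun α => pb_cst _ P α

theorem Linked.prim {f f' : N →* M} (h : Linked f f') {Φ : Fam ι (Λ × M)}
    (hΦ : Φ ∈ NF ι (Λ × M)) {P : (ι → ℕ) → ℝ} (e : DD c M Φ = cst _ P) :
    ∃ ψ ∈ NF ι (Λ × N), DD c N ψ = PB f Φ - PB f' Φ := by
  induction h with
  | rel f f' h =>
    obtain ⟨u, hu⟩ := h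
    exact ⟨_, IN_mem f' f u hΦ, by rw [DD_IN c hu, e, IN_cst, sub_zero]⟩
  | refl f => exact ⟨0, zero_mem _, by simp⟩
  | symm f f' _ ih =>
    obtain ⟨ψ, h, e⟩ := ih
    exact ⟨-ψ, neg_mem h, by rw [map_neg, e, neg_sub]⟩
  | trans f f' f'' _ _ ih ih' =>
    obtain ⟨ψ, h, e⟩ := ih
    obtain ⟨ψ', h', e'⟩ := ih'
    exact ⟨ψ + ψ', add_mem h h', by rw [map_add, e, e', sub_add_sub_cancel]⟩

end

theorem p_blk0 : S_Blk0 := fun _ _ _ _ _ _ _ _ c _ _ _ hΦ h0 _ => exact_of c (hΦ 0) h0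

theorem p_blkHom : S_BlkHom := by
  intro A B _ _ f z a h ι _ _ Λ _ c hc P Φ hΦ h0 h1
  refine h ι Λ c hc P (fun m => PB f (Φ m)) (fun m => PB_mem f (hΦ m)) ?_ fun m => ?_
  · rw [DD_eq, DD_PB, ← DD_eq, h0, PB_cst]
  · rw [DD_eq, DD_PB, IO_eq, IO_PB, ← map_add, ← DD_eq, ← IO_eq, h1, PB_cst]

theorem p_peel : S_Peel := by
  intro A B _ _ f f' z a hz hf' hl h ι _ _ Λ _ c hc P Φ hΦ h0 h1
  obtain ⟨ψ, hψ, e⟩ := hl.prim c (Φ := Φ 0) (hΦ 0) h0
  have h2 : ∀ m, DD c A (PB f (Φ (m + 1))) + IO z (PB f (Φ m)) = cst _ (P (m + 1)) := fun m => by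
    rw [DD_PB, IO_PB, ← map_add, ← DD_eq, ← IO_eq, h1, PB_cst]
  refine h ι Λ c hc (fun m => P (m + 1))
    (fun m => PB f (Φ (m + 1)) - if m = 0 then IO z ψ else 0) (fun m => ?_) ?_ fun m => ?_
  · refine sub_mem (PB_mem f (hΦ (m + 1))) ?_
    split_ifs
    · exact IO_mem z hψ
    · exact zero_mem _
  · rw [DD_eq, if_pos rfl, map_sub, DD_IO c hz, e, map_sub, IO_PB f', hf', IO_one (hΦ 0),
      map_zero, sub_zero, sub_neg_eq_add, h2]
  · rw [DD_eq, IO_eq, if_neg m.succ_ne_zero, sub_zero, map_sub, ← h2 (m + 1)]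
    split_ifs
    · rw [IO_IO_self, sub_zero]
    · rw [map_zero, sub_zero]

end Pool.Agent.P.MP_878f14_gt.Sg
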