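import Pool.Agent.P.MP_878f14_gt.Sg.PGeo
import Pool.Agent.P.MP_878f14_gt.Bridge

/-!
The assembly.
-/

open Filter Topology
open scoped ContDiff

namespace Pool.Agent.P.MP_878f14_gt.Sg

theorem cupM_len {ι Λ : Type} (ε : ι → Λ → Λ → ℝ) (is : List ι) :
    ∀ l : List Λ, l.length ≠ 2 * is.length → cupM ε is l = 0 := by
  induction is with
  | nil => intro l hl; exact if_neg hl
  | cons i is ih =>
    intro l hl
    match l, hl with
    | [], _ => rfl
    | [_], _ => rfl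
    | g :: h :: l, hl =>
      simp only [cupM]
      rw [ih l (by simp at hl; omega), mul_zero]

theorem cupM_nm {ι Λ : Type} [One Λ] (ε : ι → Λ → Λ → ℝ) (h1 : ∀ i g, ε i 1 g = 0)
    (h2 : ∀ i g, ε i g 1 = 0) (is : List ι) : Nm (cupM ε is) := by
  induction is with
  | nil =>
    intro l hl
    cases l with
    | nil => simp at hl
    | cons g l => simp [cupM]
  | cons i is ih =>
    intro l hl
    match l, hl with
    | [], _ => rfl
    | [_], _ => rfl
    | g :: h :: l, hl =>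
      simp only [cupM]
      rcases List.mem_cons.1 hl with rfl | hl
      · rw [h1, zero_mul]
      rcases List.mem_cons.1 hl with rfl | hl
      · rw [h2, zero_mul]
      · rw [ih l hl, mul_zero]

theorem cupV_smpl {ι Λ I J : Type} (ε : ι → Λ → Λ → ℝ) (g : I → I → Λ) (e : J → I)
    (is : List ι) : ∀ (a : J) (l : List J),
    cupV (fun i a b c => ε i (g (e a) (e b)) (g (e b) (e c))) is (a :: l) =
      cupM ε is (smpl g ((a :: l).map e)) := by
  induction is with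
  | nil => intro a l; cases l <;> simp [cupV, cupM, smpl]
  | cons i is ih =>
    intro a l
    match l with
    | [] => rfl
    | [_] => rfl
    | b :: c :: l =>
      simp only [cupV, List.map_cons, smpl, cupM]
      rw [ih]
      rfl

/-- The conclusion, for a multilinear map. -/
def Out {T : Type} [NormedAddCommGroup T] [NormedSpace ℝ T] {n : ℕ}
    (P : MultilinearMap ℝ (fun _ : Fin (n + 1) => T →L[ℝ] T) ℝ) : Prop :=
  ∃ (d : ℕ) (U : Set (Fin d → ℝ)), IsOpen U ∧ ∃ (H : Haefliger U T (Fin d))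
    (B : Fin d → (Fin d → ℝ) → (Fin d → ℝ) →L[ℝ] T →L[ℝ] T)
    (Θ : (Fin d → ℝ) → (Fin (2 * n + 2) → Fin d → ℝ) → ℝ),
    H.IsConn B ∧ (∀ a, ∀ p ∈ H.W a, ∀ v, Θ p v = cw P (curv (B a) p) v) ∧
    ¬∃ η : (Fin d → ℝ) → (Fin d → ℝ) [⋀^Fin (2 * n + 1)]→L[ℝ] ℝ,
      ContDiffOn ℝ ∞ η U ∧ ∀ p ∈ U, ∀ v, extDeriv η p v = Θ p v

theorem out_of_act (hCup : S_Cup) (hNorm : S_Norm) (hDual : S_Dual) (hPos : S_Pos)
    (hFin : S_Fin) (hGeo : S_Geo) {D ι T X : Type} [Monoid D] [Fintype ι] [DecidableEq ι]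
    [NormedAddCommGroup T] [NormedSpace ℝ T] [FiniteDimensional ℝ T] [NormedAddCommGroup X]
    [NormedSpace ℝ X] (A : Act D ι T X) {n : ℕ}
    (P : MultilinearMap ℝ (fun _ : Fin (n + 1) => T →L[ℝ] T) ℝ)
    (hP : ∀ (g : (T →L[ℝ] T)ˣ) (Y : Fin (n + 1) → T →L[ℝ] T),
      P (fun t => g.val * Y t * g.inv) = P Y)
    (hne : ¬Exact A.c (polyP fun is : Fin (n + 1) → ι => P fun t => A.J (is t))) : Out P := by
  have hpi : 2 * Real.pi ≠ 0 := by positivity
  choose sec hsec using fun x : MonoidHom.mrange A.act => MonoidHom.mem_mrange.1 x.2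
  let ε : ι → MonoidHom.mrange A.act → MonoidHom.mrange A.act → ℝ :=
    fun i x y => A.E (sec x) (sec y) i / (2 * Real.pi)
  let κ : (Fin (n + 1) → ι) → ℝ := fun is => P fun t => A.J (is t)
  have h1 : A.act (sec 1) = A.act 1 := (hsec 1).trans (map_one _).symm
  have hnm : Nm (cupP κ ε) := fun l hl => Finset.sum_eq_zero fun is _ => by
    rw [cupM_nm ε (fun i g => by simp only [ε]; rw [A.E_congr h1 rfl, A.E_one_left]; simp)
      (fun i g => by simp only [ε]; rw [A.E_congr rfl h1, A.E_one_right]; simp) _ l hl, mul_zero]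
  have hlen : ∀ l : List (MonoidHom.mrange A.act), l.length ≠ 2 * (n + 1) → cupP κ ε l = 0 :=
    fun l hl => Finset.sum_eq_zero fun is _ => by rw [cupM_len ε _ l (by simpa using hl), mul_zero]
  obtain ⟨z, hz1, hz2, hz3⟩ := hDual _ (cupP κ ε) (2 * (n + 1)) hlen (by
    rintro ⟨β, hβ⟩
    obtain ⟨β', hn, e⟩ := hNorm _ β (2 * (n + 1)) (hβ ▸ hnm) (hβ ▸ hlen)
    refine hne (hCup ι D _ A.act.mrangeRestrict A.c (fun i g => A.al g A.x0 i / (2 * Real.pi)) ε
      A.cen (fun i => Subtype.ext (A.act_c i)) (fun i => ?_) (fun i j => ?_) (fun i g h => ?_)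
      (n + 1) κ β' hn (e.trans hβ))
    · rw [A.al_one _ A.x0_mem]
      simp
    · rw [A.al_c]
      split_ifs
      · exact div_self hpi
      · exact zero_div _
    · simp only [ε]
      rw [A.E_congr (hsec (A.act.mrangeRestrict g) : _ = A.act g)
        (hsec (A.act.mrangeRestrict h) : _ = A.act h)]
      simp only [Act.E, Pi.sub_apply]
      ring)
  obtain ⟨I, _, g, y, hg1, hg2, hy1, hy2, hy3⟩ := hPos _ (2 * (n + 1)) z (by omega) hz1 hz2
  obtain ⟨d, e, y', he, hy1', hy2', hy3'⟩ := hFin I y hy2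
  refine ⟨d, _, @hGeo D ι T X (Fin d) _ _ _ _ _ _ _ _ _ _ (PartialOrder.lift e he) A n P hP
    (fun a b => sec (g (e a) (e b))) (fun i a b c => ε i (g (e a) (e b)) (g (e b) (e c))) y'
    (fun a => ?_) (fun a b c hab hbc => ?_) (fun i a b c _ _ => ?_) (fun l hl => ?_) hy2' ?_⟩
  · rw [hsec, hg1]
    rfl
  · rw [map_mul, hsec, hsec, hsec, ← hg2 (e a) (e b) (e c) hab hbc]
    rfl
  · simp only [ε]
    rw [mul_div_cancel₀ _ hpi]
    rfl
  · have := hy1 _ (hy1' l hl)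
    rw [List.pairwise_map, List.length_map] at this
    exact this
  · rw [← hy3 _ hnm, ← hy3' fun l => cupP κ ε (smpl g l)] at hz3
    refine ne_of_eq_of_ne (Finsupp.sum_congr fun l hl => ?_) hz3
    have := (hy1 _ (hy1' l hl)).2
    obtain _ | ⟨a, l⟩ := l
    · simp at this
    simp only [cupV_smpl]
    rfl

theorem out_of_rot (hProd : S_Prod) (hTwo : S_TwoU) (hT1 : S_Tor1) (hT2 : S_Tor2)
    (hU : S_ActU) (hPi : S_ActPi) (hMap : S_ActMap) (hTr : S_Tr) (hMon : S_Mon) (hCup : S_Cup)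
    (hNorm : S_Norm) (hDual : S_Dual) (hPos : S_Pos) (hFin : S_Fin) (hGeo : S_Geo) (l m n : ℕ)
    (P : MultilinearMap ℝ (fun _ : Fin (n + 1) => Tr l m →L[ℝ] Tr l m) ℝ)
    (hsym : ∀ (σ : Equiv.Perm (Fin (n + 1))) (X : Fin (n + 1) → Tr l m →L[ℝ] Tr l m),
      P (fun t => X (σ t)) = P X)
    (hP : ∀ (g : (Tr l m →L[ℝ] Tr l m)ˣ) (X : Fin (n + 1) → Tr l m →L[ℝ] Tr l m),
      P (fun t => g.val * X t * g.inv) = P X)
    (x : Fin l → ℝ) (hx : P (fun _ => rot m x) ≠ 0)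
    (hq : n + 1 + min (Finset.univ.filter fun j => x j ≠ 0).card ((n + 1) / 4) ≤ 2 * l + m) :
    Out P := by
  obtain ⟨s, a, k, hk, ha, hne⟩ := hMon l m n P hsym hP x hx hq
  choose A hA1 hA2 using fun j : s => hU (Fin (k j))
  obtain ⟨B, hB1, hB2⟩ := hPi s _ _ _ A
  obtain ⟨e, he⟩ := hTr l m s k hk
  obtain ⟨C, hC1, hC2⟩ := hMap _ _ _ _ _ B e
  have hJ : ∀ j : s, C.J j = JJ m j.1 := fun j => ContinuousLinearMap.ext fun v => by
    obtain ⟨v, rfl⟩ := e.surjective v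
    rw [hC2, hB2, hA2, he]
  have hc : C.c = fun j => Pi.mulSingle j (zc (Fin (k j))) := funext fun j => by
    rw [hC1, hB1, hA1]
  refine out_of_act hCup hNorm hDual hPos hFin hGeo C P hP fun h => hne ?_
  simp only [hJ] at h
  rw [hc] at h
  refine hProd s (fun j => UU (Fin (k j))) (fun j => zc _) a (fun j => cen_zc _) (fun j => ?_) _ h
  rcases ha j with h2 | ⟨h1, h2⟩
  · rw [h2]
    exact hTwo _
  · obtain ⟨t, -, ht⟩ := Finset.exists_subset_card_eq (s := (Finset.univ : Finset (Fin (k j))))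
      (n := a j - 1) (by simp; omega)
    have := hT2 _ t _ (hT1 _ t)
    rwa [ht, Nat.sub_add_cancel h1] at this

theorem Out.bridge {T : Type} [NormedAddCommGroup T] [NormedSpace ℝ T] {n : ℕ}
    {P : (Fin (n + 1) → T →L[ℝ] T) → ℝ} (hP : IsInvPoly P) (h : Out (toML P hP)) :
    ∃ (d : ℕ) (U : Set (Fin d → ℝ)), IsOpen U ∧ NonzeroClass U P := by
  obtain ⟨d, U, hU, H, A, Θ, hA, hΘ, hne⟩ := h
  refine ⟨d, U, hU, _, H, fun a p v => A a p v, Θ,
    ⟨fun a p => (A a p).isLinear, fun a v => ?_, hA.2⟩, fun a p hp v => ?_, hne⟩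
  · exact (hA.1 a).clm_apply contDiffOn_const
  · rw [hΘ a p hp v, bridge_curv (A a) p
      (((hA.1 a).contDiffAt ((H.isOpen a).mem_nhds hp)).differentiableAt (by simp))]
    rfl

end Pool.Agent.P.MP_878f14_gt.Sg
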