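import Pool.Agent.P.MP_878f14_gt.Sg.StU

/-!
Transport of an action along a linear equivalence of the transversal.
-/

open scoped ContDiff

namespace Pool.Agent.P.MP_878f14_gt.Sg

namespace ActMap

variable {T T' : Type} [NormedAddCommGroup T] [NormedSpace ℝ T] [NormedAddCommGroup T']
  [NormedSpace ℝ T']

/-- conjugation of operators -/
noncomputable def cj (e : T ≃L[ℝ] T') : (T →L[ℝ] T) →L[ℝ] (T' →L[ℝ] T') :=
  ((e.arrowCongr e : (T →L[ℝ] T) ≃L[ℝ] (T' →L[ℝ] T')) : (T →L[ℝ] T) →L[ℝ] (T' →L[ℝ] T'))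

theorem cj_apply (e : T ≃L[ℝ] T') (A : T →L[ℝ] T) (v : T') : cj e A v = e (A (e.symm v)) := rfl

theorem cj_mul (e : T ≃L[ℝ] T') (A B : T →L[ℝ] T) : cj e (A * B) = cj e A * cj e B := by
  ext v
  simp only [cj_apply, ContinuousLinearMap.mul_apply, ContinuousLinearEquiv.symm_apply_apply]

theorem cj_one (e : T ≃L[ℝ] T') : cj e 1 = 1 := by
  ext v
  simp only [cj_apply, ContinuousLinearMap.one_apply, ContinuousLinearEquiv.apply_symm_apply]

theorem cj_unit (e : T ≃L[ℝ] T') {A : T →L[ℝ] T} (h : IsUnit A) : IsUnit (cj e A) := by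
  obtain ⟨u, rfl⟩ := h
  refine ⟨⟨cj e u.val, cj e u.inv, ?_, ?_⟩, rfl⟩
  · rw [← cj_mul, u.val_inv, cj_one]
  · rw [← cj_mul, u.inv_val, cj_one]

/-- conjugation of maps -/
def cf (e : T ≃L[ℝ] T') : Function.End T →* Function.End T' where
  toFun f := fun v => e (f (e.symm v))
  map_one' := funext fun v => e.apply_symm_apply v
  map_mul' f g := funext fun v => by
    change e (f (g (e.symm v))) = e (f (e.symm (e (g (e.symm v)))))
    rw [e.symm_apply_apply]

theorem cf_inj (e : T ≃L[ℝ] T') {f g : Function.End T} (h : cf e f = cf e g) : f = g := by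
  funext v
  have h1 : e (f (e.symm (e v))) = e (g (e.symm (e v))) := congrFun h (e v)
  rw [e.symm_apply_apply] at h1
  exact e.injective h1

theorem cf_fderiv (e : T ≃L[ℝ] T') {f : T → T} (hf : ContDiff ℝ ∞ f) (y : T) :
    fderiv ℝ (fun v => e (f (e.symm v))) (e y) = cj e (fderiv ℝ f y) := by
  have h1 : HasFDerivAt f (fderiv ℝ f y) (e.symm (e y)) := by
    rw [e.symm_apply_apply]
    exact (hf.differentiable (by simp) y).hasFDerivAt
  have h2 := e.hasFDerivAt.comp (e y) (h1.comp (e y) e.symm.hasFDerivAt)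
  exact h2.fderiv

end ActMap

open ActMap in
theorem p_actMap : S_ActMap := by
  intro D ι T T' X _ _ _ _ _ _ _ _ _ A e
  refine ⟨{
    c := A.c
    cen := A.cen
    act := (cf e).comp A.act
    sm := fun g => e.contDiff.comp ((A.sm g).comp e.symm.contDiff)
    S := A.S
    x0 := A.x0
    x0_mem := A.x0_mem
    star := A.star
    pt := fun x => e (A.pt x)
    pt_sm := e.contDiff.comp A.pt_sm
    fr := fun x => cj e (A.fr x)
    fr_sm := (cj e).contDiff.comp A.fr_sm
    unit := fun x hx => cj_unit e (A.unit x hx)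
    hat := A.hat
    hat_mem := A.hat_mem
    hat_sm := A.hat_sm
    hat_one := A.hat_one
    hat_mul := A.hat_mul
    pt_hat := fun g x hx => ?_
    al := A.al
    al_sm := A.al_sm
    al_mul := A.al_mul
    J := fun i => cj e (A.J i)
    R := fun t => cj e (A.R t)
    R_sm := (cj e).contDiff.comp A.R_sm
    R_d := fun t s => ?_
    R_J := fun t i => by rw [← cj_mul, ← cj_mul, A.R_J]
    J_J := fun i j => by rw [← cj_mul, ← cj_mul, A.J_J]
    R_inv := fun t => by rw [← cj_mul, A.R_inv, cj_one]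
    key := fun g x hx => ?_
    act_c := fun i => by rw [MonoidHom.comp_apply, A.act_c, map_one]
    al_c := A.al_c
    ker := fun g g' h => A.ker g g' (cf_inj e h) }, rfl, fun j v => ?_⟩
  · change e (A.pt (A.hat g x)) = e (A.act g (e.symm (e (A.pt x))))
    rw [e.symm_apply_apply, A.pt_hat g x hx]
  · have h1 : HasFDerivAt A.R (fderiv ℝ A.R t) t :=
      (A.R_sm.differentiable (by simp) t).hasFDerivAt
    have h2 : fderiv ℝ (fun t => cj e (A.R t)) t = (cj e).comp (fderiv ℝ A.R t) :=
      ((cj e).hasFDerivAt.comp t h1).fderiv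
    rw [h2, ContinuousLinearMap.comp_apply, A.R_d, cj_mul, map_sum]
    simp only [map_smul]
  · have h1 : fderiv ℝ (((cf e).comp A.act g : Function.End T') : T' → T') (e (A.pt x)) =
        cj e (fderiv ℝ (A.act g : T → T) (A.pt x)) := cf_fderiv e (A.sm g) (A.pt x)
    change fderiv ℝ (((cf e).comp A.act g : Function.End T') : T' → T') (e (A.pt x)) *
      cj e (A.fr x) = cj e (A.fr (A.hat g x)) * cj e (A.R (A.al g x))
    rw [h1, ← cj_mul, ← cj_mul, A.key g x hx]
  · change cj e (A.J j) (e v) = _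
    rw [cj_apply, e.symm_apply_apply]

end Pool.Agent.P.MP_878f14_gt.Sg
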