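import Pool.Agent.P.MP_878f14_gt.Sg.StU

/-! Products of actions. -/

open scoped ContDiff

namespace Pool.Agent.P.MP_878f14_gt.Sg

namespace ActPi

variable {ι : Type} [Fintype ι] [DecidableEq ι] {T : ι → Type} [∀ j, NormedAddCommGroup (T j)]
  [∀ j, NormedSpace ℝ (T j)]

/-- the block diagonal operator -/
noncomputable def dg (f : ∀ j, T j →L[ℝ] T j) : (∀ j, T j) →L[ℝ] ∀ j, T j :=
  ContinuousLinearMap.pi fun j => (f j).comp (ContinuousLinearMap.proj j)

omit [Fintype ι] [DecidableEq ι] in
@[simp] theorem dg_apply (f : ∀ j, T j →L[ℝ] T j) (v : ∀ j, T j) (j : ι) :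
    dg f v j = f j (v j) := rfl

/-- the block diagonal operator as a linear function of the blocks -/
noncomputable def dgL : (∀ j, T j →L[ℝ] T j) →L[ℝ] (∀ j, T j) →L[ℝ] ∀ j, T j :=
  LinearMap.mkContinuous
    { toFun := dg
      map_add' := fun _ _ => ContinuousLinearMap.ext fun _ => rfl
      map_smul' := fun _ _ => ContinuousLinearMap.ext fun _ => rfl } 1 fun f => by
    rw [one_mul]
    refine ContinuousLinearMap.opNorm_le_bound _ (norm_nonneg _) fun v => ?_
    refine (pi_norm_le_iff_of_nonneg (by positivity)).2 fun j => ?_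
    exact ((f j).le_opNorm (v j)).trans
      (mul_le_mul (norm_le_pi_norm f j) (norm_le_pi_norm v j) (norm_nonneg _) (norm_nonneg _))

omit [DecidableEq ι] in
theorem dgL_apply (f : ∀ j, T j →L[ℝ] T j) : dgL f = dg f := rfl

omit [Fintype ι] [DecidableEq ι] in
theorem dg_mul (f g : ∀ j, T j →L[ℝ] T j) : dg f * dg g = dg fun j => f j * g j :=
  ContinuousLinearMap.ext fun _ => rfl

omit [Fintype ι] [DecidableEq ι] in
theorem dg_one : dg (fun j => (1 : T j →L[ℝ] T j)) = 1 := ContinuousLinearMap.ext fun _ => rfl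

omit [Fintype ι] [DecidableEq ι] in
theorem dg_unit {f : ∀ j, T j →L[ℝ] T j} (h : ∀ j, IsUnit (f j)) : IsUnit (dg f) := by
  choose u hu using h
  refine ⟨⟨dg f, dg fun j => ((u j)⁻¹ : (T j →L[ℝ] T j)ˣ), ?_, ?_⟩, rfl⟩
  · rw [dg_mul, ← dg_one]
    congr 1
    funext j
    rw [← hu, Units.mul_inv]
  · rw [dg_mul, ← dg_one]
    congr 1
    funext j
    rw [← hu, Units.inv_mul]

omit [DecidableEq ι] in
theorem fderiv_map {f : ∀ j, T j → T j} (hf : ∀ j, ContDiff ℝ ∞ (f j)) (x : ∀ j, T j) :
    fderiv ℝ (fun (y : ∀ j, T j) j => f j (y j)) x = dg fun j => fderiv ℝ (f j) (x j) :=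
  (hasFDerivAt_pi.2 fun j =>
    ((hf j).differentiable (by simp) (x j)).hasFDerivAt.comp x
      (ContinuousLinearMap.proj (R := ℝ) (φ := T) j).hasFDerivAt).fderiv

omit [DecidableEq ι] in
theorem cdp (j : ι) : ContDiff ℝ ∞ (fun y : ∀ j, T j => y j) :=
  (ContinuousLinearMap.proj (R := ℝ) (φ := T) j).contDiff

/-- one coordinate as a function on the unit type -/
noncomputable def pu (j : ι) : (ι → ℝ) →L[ℝ] (Unit → ℝ) :=
  ContinuousLinearMap.pi fun _ => ContinuousLinearMap.proj j

end ActPi

open ActPi in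
theorem p_actPi : S_ActPi := by
  intro ι _ _ D T X _ _ _ _ _ _ A
  have hJ : ∀ (j : ι) (v : ∀ j, T j), dg (Pi.single j ((A j).J ())) v =
      Pi.single j ((A j).J () (v j)) := by
    intro j v
    funext i
    by_cases h : i = j
    · subst h; simp
    · simp [h]
  have hcomm : ∀ (f : ∀ j, T j →L[ℝ] T j) (i : ι), f i * (A i).J () = (A i).J () * f i →
      dg f * dg (Pi.single i ((A i).J ())) = dg (Pi.single i ((A i).J ())) * dg f := by
    intro f i h
    rw [dg_mul, dg_mul]
    congr 1
    funext j
    by_cases hj : j = i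
    · subst hj; simpa using h
    · simp [hj]
  have hR : ∀ t : ι → ℝ, HasFDerivAt (fun t : ι → ℝ => dg fun j => (A j).R (pu j t))
      ((dgL (T := T)).comp (ContinuousLinearMap.pi fun j =>
        (fderiv ℝ (A j).R (pu j t)).comp (pu j))) t := fun t =>
    (dgL (T := T)).hasFDerivAt.comp t (hasFDerivAt_pi.2 fun j =>
      ((A j).R_sm.differentiable (by simp) _).hasFDerivAt.comp t (pu j).hasFDerivAt)
  refine ⟨{
    c := fun j => Pi.mulSingle j ((A j).c ())
    cen := fun j g => ?_
    act :=
      { toFun := fun g y j => (A j).act (g j) (y j)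
        map_one' := by
          funext y j
          rw [Pi.one_apply, map_one]; rfl
        map_mul' := fun g h => by
          funext y j
          rw [Pi.mul_apply, map_mul]; rfl }
    sm := fun g => contDiff_pi.2 fun j => ((A j).sm (g j)).comp (cdp j)
    S := {x | ∀ j, x j ∈ (A j).S}
    x0 := fun j => (A j).x0
    x0_mem := fun j => (A j).x0_mem
    star := fun x hx t h0 h1 j => (A j).star (x j) (hx j) t h0 h1
    pt := fun x j => (A j).pt (x j)
    pt_sm := contDiff_pi.2 fun j => (A j).pt_sm.comp (cdp j)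
    fr := fun x => dg fun j => (A j).fr (x j)
    fr_sm := (dgL (T := T)).contDiff.comp
      (contDiff_pi.2 fun j => (A j).fr_sm.comp (cdp j))
    unit := fun x hx => dg_unit fun j => (A j).unit _ (hx j)
    hat := fun g x j => (A j).hat (g j) (x j)
    hat_mem := fun g x hx j => (A j).hat_mem _ _ (hx j)
    hat_sm := fun g x hx => contDiffAt_pi.2 fun j =>
      ((A j).hat_sm (g j) (x j) (hx j)).comp x (cdp j).contDiffAt
    hat_one := fun x hx => funext fun j => (A j).hat_one _ (hx j)
    hat_mul := fun g h x hx => funext fun j => (A j).hat_mul _ _ _ (hx j)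
    pt_hat := fun g x hx => funext fun j => (A j).pt_hat _ _ (hx j)
    al := fun g x j => (A j).al (g j) (x j) ()
    al_sm := fun g x hx => contDiffAt_pi.2 fun j =>
      ContDiffAt.comp (g := fun y => (A j).al (g j) y ()) (f := fun y : ∀ j, X j => y j) x
        (contDiffAt_pi.1 ((A j).al_sm (g j) (x j) (hx j)) ()) (cdp j).contDiffAt
    al_mul := fun g h x hx => funext fun j => congrFun ((A j).al_mul _ _ _ (hx j)) ()
    J := fun j => dg (Pi.single j ((A j).J ()))
    R := fun t => dg fun j => (A j).R (pu j t)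
    R_sm := (dgL (T := T)).contDiff.comp (contDiff_pi.2 fun j => (A j).R_sm.comp (pu j).contDiff)
    R_d := fun t s => ?_
    R_J := fun t i => hcomm _ i ((A i).R_J _ ())
    J_J := fun i j => hcomm _ j ?_
    R_inv := fun t => ?_
    key := fun g x hx => ?_
    act_c := fun i => ?_
    al_c := fun i j => ?_
    ker := fun g g' h => ?_ }, fun _ => rfl, hJ⟩
  · funext i
    by_cases h : i = j
    · subst h
      simpa using (A i).cen () (g i)
    · simp [h]
  · rw [(hR t).fderiv]
    have e : (∑ i, s i • dg (Pi.single i ((A i).J ()))) = dg fun j => s j • (A j).J () := by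
      simp only [← dgL_apply, ← map_smul, ← map_sum]
      congr 1
      funext j
      rw [Finset.sum_apply, Finset.sum_eq_single j]
      · simp
      · intro i _ hi
        simp [hi.symm]
      · simp
    rw [e, dg_mul]
    change dg (fun j => fderiv ℝ (A j).R (pu j t) (pu j s)) = _
    congr 1
    funext j
    rw [(A j).R_d]
    simp [pu]
  · by_cases h : j = i
    · subst h; simp
    · simp [h]
  · rw [dg_mul, ← dg_one]
    congr 1
    funext j
    rw [map_neg, (A j).R_inv]
  · change fderiv ℝ (fun (y : ∀ j, T j) j => (A j).act (g j) (y j)) _ * _ = _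
    rw [fderiv_map fun j => (A j).sm (g j), dg_mul, dg_mul]
    congr 1
    funext j
    exact (A j).key (g j) (x j) (hx j)
  · funext y j
    change (A j).act (Pi.mulSingle (M := D) i ((A i).c ()) j) (y j) = y j
    by_cases h : j = i
    · subst h
      rw [Pi.mulSingle_eq_same, (A j).act_c]; rfl
    · rw [Pi.mulSingle_eq_of_ne h, map_one]; rfl
  · change (A i).al (Pi.mulSingle (M := D) j ((A j).c ()) i) (A i).x0 () = _
    by_cases h : i = j
    · subst h
      rw [Pi.mulSingle_eq_same, (A i).al_c]; simp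
    · rw [Pi.mulSingle_eq_of_ne h, if_neg h]
      have h1 := congrFun ((A i).al_mul 1 1 _ (A i).x0_mem) ()
      rw [mul_one, (A i).hat_one _ (A i).x0_mem, Pi.add_apply] at h1
      linarith
  · have h1 : ∀ j, (A j).act (g j) = (A j).act (g' j) := fun j => by
      funext y
      have := congrFun (congrFun h (Pi.single j y)) j
      change (A j).act (g j) (Pi.single (M := T) j y j) =
        (A j).act (g' j) (Pi.single (M := T) j y j) at this
      rwa [Pi.single_eq_same] at this
    choose t ht using fun j => ((A j).ker _ _ (h1 j)).2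
    exact ⟨fun x hx => funext fun j => ((A j).ker _ _ (h1 j)).1 _ (hx j),
      fun j => t j (), fun x hx => funext fun j => congrFun (ht j _ (hx j)) ()⟩

end Pool.Agent.P.MP_878f14_gt.Sg
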