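import Pool.Agent.P.MP_878f14_gt.Sg.StU

/-!
The derivative cocycle of the monoid `UU κ` is reduced to a circle.
-/

open scoped ContDiff
open Complex

namespace Pool.Agent.P.MP_878f14_gt.Sg

namespace PActU

theorem norm_ee (t : ℝ) : ‖ee t‖ = 1 := Complex.norm_exp_I_mul_ofReal t

theorem conj_ee (t : ℝ) : starRingEnd ℂ (ee t) = ee (-t) := by
  unfold ee
  rw [← Complex.exp_conj]
  congr 1
  simp

theorem ee_zero : ee 0 = 1 := by simp [ee]

theorem ee_neg_mul (t : ℝ) : ee (-t) * ee t = 1 := by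
  rw [← ee_add, neg_add_cancel, ee_zero]

theorem ee_ne (t : ℝ) : ee t ≠ 0 := Complex.exp_ne_zero _

theorem hasDerivAt_ee (t : ℝ) : HasDerivAt ee (I * ee t) t := by
  have h1 : HasDerivAt (fun s : ℝ => I * (s : ℂ)) I t := by
    simpa using (Complex.ofRealCLM.hasDerivAt (x := t)).const_mul I
  have h2 := h1.cexp
  rw [mul_comm] at h2
  exact h2

theorem contDiff_ee : ContDiff ℝ ∞ ee :=
  (contDiff_const.mul Complex.ofRealCLM.contDiff).cexp

section

variable {κ : Type} [Fintype κ]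

/-- Multiplication by `w` on the plane, zero on the parameters. -/
noncomputable def LL (κ : Type) [Fintype κ] : ℂ →L[ℝ] TT κ →L[ℝ] TT κ :=
  ((ContinuousLinearMap.compL ℝ (TT κ) ℂ (TT κ)) (ContinuousLinearMap.inl ℝ ℂ (κ → ℝ))).comp
    ((((ContinuousLinearMap.compL ℝ (TT κ) ℂ ℂ).flip)
      (ContinuousLinearMap.fst ℝ ℂ (κ → ℝ))).comp (ContinuousLinearMap.mul ℝ ℂ))

theorem LL_apply (w : ℂ) (v : TT κ) : LL κ w v = (w * v.1, 0) := rfl

/-- Multiplication by `w` on the plane, the identity on the parameters. -/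
noncomputable def Rot (κ : Type) [Fintype κ] (w : ℂ) : TT κ →L[ℝ] TT κ :=
  LL κ w + (ContinuousLinearMap.inr ℝ ℂ (κ → ℝ)).comp (ContinuousLinearMap.snd ℝ ℂ (κ → ℝ))

theorem Rot_apply (w : ℂ) (v : TT κ) : Rot κ w v = (w * v.1, v.2) := by
  unfold Rot
  rw [add_apply, LL_apply]
  simp

theorem Rot_sm : ContDiff ℝ ∞ (Rot κ) := (LL κ).contDiff.add contDiff_const

theorem Rot_mul (w w' : ℂ) : Rot κ w * Rot κ w' = Rot κ (w * w') := by
  refine ContinuousLinearMap.ext fun v => ?_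
  rw [mul_apply_eq_comp, Rot_apply, Rot_apply, Rot_apply, mul_assoc]

theorem Rot_one : Rot κ 1 = 1 := by
  refine ContinuousLinearMap.ext fun v => ?_
  rw [Rot_apply, one_mul]
  rfl

theorem Rot_tri (w : ℂ) : Tri (Rot κ w) :=
  ⟨1, fun _ => one_pos, fun v s => by rw [Rot_apply]; simp⟩

theorem fib_mul_Rot (Y : TT κ →L[ℝ] TT κ) (w z : ℂ) : fib (Y * Rot κ w) z = fib Y (w * z) := by
  rw [fib_apply, fib_apply, mul_apply_eq_comp, Rot_apply]

theorem aa_mul_Rot (hAng : S_Ang) (Y : TT κ →L[ℝ] TT κ) (w : ℂ) :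
    aa (fib (Y * Rot κ w)) = aa (fib Y) * w := by
  have h1 := hAng.1 (fib Y) (w * 1)
  have h2 := hAng.1 (fib Y) (w * I)
  rw [aa, fib_mul_Rot, fib_mul_Rot, h1, h2]
  simp only [map_mul, conj_I, map_one]
  linear_combination (-(aa (fib Y) * w) / 2 + bb (fib Y) * starRingEnd ℂ w / 2) * I_mul_I

theorem bb_mul_Rot (hAng : S_Ang) (Y : TT κ →L[ℝ] TT κ) (w : ℂ) :
    bb (fib (Y * Rot κ w)) = bb (fib Y) * starRingEnd ℂ w := by
  have h1 := hAng.1 (fib Y) (w * 1)
  have h2 := hAng.1 (fib Y) (w * I)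
  rw [bb, fib_mul_Rot, fib_mul_Rot, h1, h2]
  simp only [map_mul, conj_I, map_one]
  linear_combination ((aa (fib Y) * w) / 2 - bb (fib Y) * starRingEnd ℂ w / 2) * I_mul_I

theorem osc_mul_Rot (hAng : S_Ang) (Y : TT κ →L[ℝ] TT κ) (t φ : ℝ) :
    osc (fib (Y * Rot κ (ee t))) φ = osc (fib Y) (φ + t) := by
  unfold osc
  rw [aa_mul_Rot hAng, bb_mul_Rot hAng, conj_ee]
  congr 2
  have e : ee (-2 * (φ + t)) = ee (-t) * ee (-t) * ee (-2 * φ) := by
    rw [← ee_add, ← ee_add]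
    congr 1
    ring
  have e' : ee (-t) = (ee t)⁻¹ := eq_inv_of_mul_eq_one_left (ee_neg_mul t)
  rw [e, e']
  field_simp

theorem fib_sm : ContDiff ℝ ∞ (fib : (TT κ →L[ℝ] TT κ) → ℂ →L[ℝ] ℂ) :=
  contDiff_const.clm_comp (contDiff_id.clm_comp contDiff_const)

theorem aa_sm : ContDiff ℝ ∞ aa :=
  ((contDiff_id.clm_apply contDiff_const).sub
    (contDiff_const.mul (contDiff_id.clm_apply contDiff_const))).div_const 2

theorem aa_one : aa 1 = 1 := by
  simp only [aa, one_apply_eq_self, I_mul_I]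
  norm_num

theorem bb_one : bb 1 = 0 := by
  simp only [bb, one_apply_eq_self, I_mul_I]
  norm_num

theorem osc_one (φ : ℝ) : osc 1 φ = 0 := by
  simp [osc, bb_one]

/-- The normalised frames. -/
def SS0 (κ : Type) [Fintype κ] : Set (TT κ × (TT κ →L[ℝ] TT κ)) :=
  {x | Tri x.2 ∧ (aa (fib x.2)).im = 0 ∧ ‖bb (fib x.2)‖ < (aa (fib x.2)).re}

theorem aa_eq {x : TT κ × (TT κ →L[ℝ] TT κ)} (hx : x ∈ SS0 κ) :
    aa (fib x.2) = ‖aa (fib x.2)‖ • ee 0 := by
  have h : 0 ≤ (aa (fib x.2)).re := (norm_nonneg _).trans hx.2.2.le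
  have e : aa (fib x.2) = ((aa (fib x.2)).re : ℂ) := Complex.ext rfl hx.2.1
  rw [ee_zero, real_smul, mul_one, e, Complex.norm_real, Real.norm_of_nonneg h]

theorem dt_pos (hAng : S_Ang) {x : TT κ × (TT κ →L[ℝ] TT κ)} (hx : x ∈ SS0 κ) :
    0 < dt (fib x.2) := by
  rw [hAng.2.1, normSq_eq_norm_sq, normSq_eq_norm_sq]
  have h1 : ‖bb (fib x.2)‖ < ‖aa (fib x.2)‖ := hx.2.2.trans_le (re_le_norm _)
  have := norm_nonneg (bb (fib x.2))
  nlinarith

theorem unit_of {k : TT κ →L[ℝ] TT κ} (h : Tri k) (hd : 0 < dt (fib k)) : IsUnit k := by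
  rw [ContinuousLinearMap.isUnit_iff_bijective]
  have hi : Function.Injective k := by
    rw [injective_iff_map_eq_zero]
    intro v hv
    obtain ⟨C, hC, e⟩ := h
    have h2 : v.2 = 0 := funext fun s => by
      have := e v s
      rw [hv] at this
      exact (mul_eq_zero.1 this.symm).resolve_left (hC s).ne'
    have h1 : fib k v.1 = 0 := by
      rw [fib_apply, ← h2]
      exact congrArg Prod.fst hv
    rw [clm_apply] at h1
    have hr := congrArg Complex.re h1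
    have hm := congrArg Complex.im h1
    simp only [add_re, add_im, smul_re, smul_im, smul_eq_mul, zero_re, zero_im] at hr hm
    unfold dt at hd
    refine Prod.ext (Complex.ext ?_ ?_) h2
    · have : v.1.re * ((fib k 1).re * (fib k I).im - (fib k 1).im * (fib k I).re) = 0 := by
        linear_combination (fib k I).im * hr - (fib k I).re * hm
      exact (mul_eq_zero.1 this).resolve_right hd.ne'
    · have : v.1.im * ((fib k 1).re * (fib k I).im - (fib k 1).im * (fib k I).re) = 0 := by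
        linear_combination (fib k 1).re * hm - (fib k 1).im * hr
      exact (mul_eq_zero.1 this).resolve_right hd.ne'
  exact ⟨hi, (LinearMap.injective_iff_surjective (f := (k : TT κ →ₗ[ℝ] TT κ))).1 hi⟩

theorem star_mem (x : TT κ × (TT κ →L[ℝ] TT κ)) (hx : x ∈ SS0 κ) (t : ℝ) (h0 : 0 ≤ t)
    (h1 : t ≤ 1) : t • x + (1 - t) • ((0, 1) : TT κ × (TT κ →L[ℝ] TT κ)) ∈ SS0 κ := by
  obtain ⟨⟨C, hC, e⟩, hi, hb⟩ := hx
  have f1 : ∀ z, fib (t • x + (1 - t) • ((0, 1) : TT κ × (TT κ →L[ℝ] TT κ))).2 z =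
      t • fib x.2 z + (1 - t) • z := fun z => rfl
  have ea : aa (fib (t • x + (1 - t) • ((0, 1) : TT κ × (TT κ →L[ℝ] TT κ))).2) =
      t * aa (fib x.2) + (1 - t : ℝ) := by
    rw [aa, aa, f1, f1]
    simp only [real_smul]
    linear_combination (-((1 - t : ℝ) : ℂ) / 2) * I_mul_I
  have eb : bb (fib (t • x + (1 - t) • ((0, 1) : TT κ × (TT κ →L[ℝ] TT κ))).2) =
      t * bb (fib x.2) := by
    rw [bb, bb, f1, f1]
    simp only [real_smul]
    linear_combination (((1 - t : ℝ) : ℂ) / 2) * I_mul_I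
  refine ⟨⟨fun s => t * C s + (1 - t), fun s => ?_, fun v s => ?_⟩, ?_, ?_⟩
  · have := hC s
    rcases h0.eq_or_lt with h | h
    · rw [← h]
      norm_num
    · have := mul_pos h this
      linarith
  · change t * (x.2 v).2 s + (1 - t) * v.2 s = _
    rw [e]
    ring
  · rw [ea, add_im, im_ofReal_mul, ofReal_im, hi, mul_zero, add_zero]
  · rw [ea, eb, add_re, re_ofReal_mul, ofReal_re, norm_mul, Complex.norm_real,
      Real.norm_of_nonneg h0]
    rcases h0.eq_or_lt with h | h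
    · rw [← h]
      norm_num
    · have := mul_lt_mul_of_pos_left hb h
      linarith

/-- The derivative applied to the frame. -/
noncomputable def XX (g : UU κ) (x : TT κ × (TT κ →L[ℝ] TT κ)) : TT κ →L[ℝ] TT κ :=
  fderiv ℝ (mp g) x.1 * x.2

/-- The normalising unit. -/
noncomputable def uu (Y : TT κ →L[ℝ] TT κ) : ℂ :=
  (‖aa (fib Y)‖⁻¹ : ℝ) • starRingEnd ℂ (aa (fib Y))

noncomputable def hat (g : UU κ) (x : TT κ × (TT κ →L[ℝ] TT κ)) : TT κ × (TT κ →L[ℝ] TT κ) :=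
  (mp g x.1, XX g x * Rot κ (uu (XX g x)))

noncomputable def al (g : UU κ) (x : TT κ × (TT κ →L[ℝ] TT κ)) : ℝ :=
  tht g x.1 (osc (fib x.2) 0) - osc (fib (XX g x)) 0

theorem mp_sm (g : UU κ) : ContDiff ℝ ∞ (mp g) := g.2.1

theorem tht_sm (g : UU κ) : ContDiff ℝ ∞ fun z : TT κ × ℝ => tht g z.1 z.2 :=
  contDiff_snd.comp g.2.2.1

theorem mp_tri (g : UU κ) (y : TT κ) : Tri (fderiv ℝ (mp g) y) := (g.2.2.2.2 y).1

theorem mp_lift (g : UU κ) (y : TT κ) : Lift (fib (fderiv ℝ (mp g) y)) (tht g y) :=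
  (g.2.2.2.2 y).2

theorem XX_sm (g : UU κ) : ContDiff ℝ ∞ (XX g) :=
  (((mp_sm g).fderiv_right (m := ∞) le_rfl).comp contDiff_fst).mul contDiff_snd

theorem XX_mul (g h : UU κ) (x : TT κ × (TT κ →L[ℝ] TT κ)) :
    XX (g * h) x = fderiv ℝ (mp g) (mp h x.1) * XX h x := by
  unfold XX
  rw [mp_mul, fderiv_comp x.1 ((mp_sm g).differentiable (by simp) _)
    ((mp_sm h).differentiable (by simp) _), ← mul_assoc]
  rfl

theorem XX_dt (hAng : S_Ang) (g : UU κ) {x : TT κ × (TT κ →L[ℝ] TT κ)} (hx : x ∈ SS0 κ) :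
    0 < dt (fib (XX g x)) := by
  unfold XX
  rw [fib_mul _ hx.1, dt_mul]
  exact mul_pos (mp_lift g x.1).1 (dt_pos hAng hx)

theorem key_fact (hAng : S_Ang) (g : UU κ) {x : TT κ × (TT κ →L[ℝ] TT κ)} (hx : x ∈ SS0 κ) :
    aa (fib (XX g x)) = ‖aa (fib (XX g x))‖ • ee (al g x) ∧
      ∀ φ, tht g x.1 (φ + osc (fib x.2) φ) = φ + al g x + osc (fib (XX g x)) φ := by
  have l1 := hAng.2.2.2.1 (fib x.2) 0 (dt_pos hAng hx) (aa_eq hx)
  have l2 := (mp_lift g x.1).mul l1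
  rw [← fib_mul _ hx.1] at l2
  have c1 : Continuous fun φ => osc (fib x.2) φ := by
    rw [continuous_iff_continuousAt]
    intro φ
    have := ((hAng.2.2.1 (fib x.2) (dt_pos hAng hx)).2 φ).2.2.continuousAt
    exact ContinuousAt.comp (f := fun φ : ℝ => (fib x.2, φ)) this
      (continuous_const.prodMk continuous_id).continuousAt
  have c2 : Continuous (tht g x.1) :=
    (tht_sm g).continuous.comp (continuous_const.prodMk continuous_id)
  have c3 : Continuous fun φ => φ + 0 + osc (fib x.2) φ :=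
    (continuous_id.add continuous_const).add c1
  obtain ⟨t, h1, h2⟩ := hAng.2.2.2.2.1 _ _ (c2.comp c3) l2
  have e : t = al g x := by
    have := h2 0
    simp only [Function.comp_apply, add_zero, zero_add] at this
    unfold al XX
    linarith
  subst e
  refine ⟨h1, fun φ => ?_⟩
  have := h2 φ
  simp only [Function.comp_apply, add_zero] at this
  exact this

theorem uu_eq (hAng : S_Ang) (g : UU κ) {x : TT κ × (TT κ →L[ℝ] TT κ)} (hx : x ∈ SS0 κ) :
    uu (XX g x) = ee (-al g x) := by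
  have h0 : ‖aa (fib (XX g x))‖ ≠ 0 := norm_ne_zero_iff.2 (hAng.2.2.1 _ (XX_dt hAng g hx)).1
  have h1 := congrArg (starRingEnd ℂ) (key_fact hAng g hx).1
  rw [real_smul, map_mul, conj_ofReal, conj_ee, ← real_smul] at h1
  rw [uu, h1, smul_smul, inv_mul_cancel₀ h0, one_smul]

theorem uu_mul_Rot (hAng : S_Ang) (Y : TT κ →L[ℝ] TT κ) (t : ℝ) :
    Rot κ (ee t) * Rot κ (uu (Y * Rot κ (ee t))) = Rot κ (uu Y) := by
  rw [Rot_mul]
  congr 1
  unfold uu
  rw [aa_mul_Rot hAng, norm_mul, norm_ee, mul_one, map_mul, conj_ee, real_smul, real_smul]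
  linear_combination ((‖aa (fib Y)‖⁻¹ : ℝ) * starRingEnd ℂ (aa (fib Y))) * ee_neg_mul t

theorem hat_mem (hAng : S_Ang) (g : UU κ) (x : TT κ × (TT κ →L[ℝ] TT κ)) (hx : x ∈ SS0 κ) :
    hat g x ∈ SS0 κ := by
  have ea : aa (fib (hat g x).2) = (‖aa (fib (XX g x))‖ : ℝ) := by
    change aa (fib (XX g x * Rot κ (uu (XX g x)))) = _
    rw [aa_mul_Rot hAng, uu_eq hAng g hx]
    conv_lhs => rw [(key_fact hAng g hx).1]
    rw [real_smul, mul_assoc, mul_comm (ee _), ee_neg_mul, mul_one]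
  refine ⟨((mp_tri g x.1).mul hx.1).mul (Rot_tri _), by rw [ea, ofReal_im], ?_⟩
  rw [ea, ofReal_re]
  change ‖bb (fib (XX g x * Rot κ (uu (XX g x))))‖ < _
  rw [bb_mul_Rot hAng, uu_eq hAng g hx, conj_ee, norm_mul, norm_ee, mul_one]
  have h := XX_dt hAng g hx
  rw [hAng.2.1, normSq_eq_norm_sq, normSq_eq_norm_sq] at h
  exact lt_of_pow_lt_pow_left₀ 2 (norm_nonneg _) (by linarith)

theorem hat_sm (hAng : S_Ang) (g : UU κ) (x : TT κ × (TT κ →L[ℝ] TT κ)) (hx : x ∈ SS0 κ) :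
    ContDiffAt ℝ ∞ (hat g) x := by
  have h0 : aa (fib (XX g x)) ≠ 0 := (hAng.2.2.1 _ (XX_dt hAng g hx)).1
  have s1 : ContDiff ℝ ∞ fun x => aa (fib (XX g x)) := aa_sm.comp (fib_sm.comp (XX_sm g))
  have s2 : ContDiffAt ℝ ∞ (fun x => uu (XX g x)) x :=
    ((s1.contDiffAt.norm ℝ h0).inv (norm_ne_zero_iff.2 h0)).smul
      (conjCLE.contDiff.comp s1).contDiffAt
  exact ((mp_sm g).comp contDiff_fst).contDiffAt.prodMk
    ((XX_sm g).contDiffAt.mul ((Rot_sm (κ := κ)).contDiffAt.comp x s2))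

theorem XX_one (x : TT κ × (TT κ →L[ℝ] TT κ)) : XX 1 x = x.2 := by
  unfold XX
  rw [mp_one, fderiv_id]
  exact one_mul x.2

theorem hat_one (hAng : S_Ang) (x : TT κ × (TT κ →L[ℝ] TT κ)) (hx : x ∈ SS0 κ) :
    hat 1 x = x := by
  refine Prod.ext rfl ?_
  change XX 1 x * Rot κ (uu (XX 1 x)) = x.2
  have : al 1 x = 0 := by
    unfold al
    rw [tht_one, XX_one, sub_self]
  rw [uu_eq hAng 1 hx, this, neg_zero, ee_zero, Rot_one, mul_one, XX_one]

theorem XX_hat (hAng : S_Ang) (g h : UU κ) {x : TT κ × (TT κ →L[ℝ] TT κ)} (hx : x ∈ SS0 κ) :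
    XX g (hat h x) = XX (g * h) x * Rot κ (ee (-al h x)) := by
  rw [XX_mul, mul_assoc, ← uu_eq hAng h hx]
  rfl

theorem hat_mul (hAng : S_Ang) (g h : UU κ) (x : TT κ × (TT κ →L[ℝ] TT κ)) (hx : x ∈ SS0 κ) :
    hat (g * h) x = hat g (hat h x) := by
  refine Prod.ext rfl ?_
  change XX (g * h) x * Rot κ (uu (XX (g * h) x)) =
    XX g (hat h x) * Rot κ (uu (XX g (hat h x)))
  rw [XX_hat hAng g h hx, mul_assoc, uu_mul_Rot hAng]

theorem al_sm (hAng : S_Ang) (g : UU κ) (x : TT κ × (TT κ →L[ℝ] TT κ)) (hx : x ∈ SS0 κ) :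
    ContDiffAt ℝ ∞ (al g) x := by
  have s1 : ContDiffAt ℝ ∞ (fun x : TT κ × (TT κ →L[ℝ] TT κ) => osc (fib x.2) 0) x :=
    ContDiffAt.comp (f := fun x : TT κ × (TT κ →L[ℝ] TT κ) => (fib x.2, (0 : ℝ))) x
      ((hAng.2.2.1 _ (dt_pos hAng hx)).2 0).2.2
      (((fib_sm (κ := κ)).comp contDiff_snd).prodMk contDiff_const).contDiffAt
  have s2 : ContDiffAt ℝ ∞ (fun x : TT κ × (TT κ →L[ℝ] TT κ) => osc (fib (XX g x)) 0) x :=
    ContDiffAt.comp (f := fun x : TT κ × (TT κ →L[ℝ] TT κ) => (fib (XX g x), (0 : ℝ))) x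
      ((hAng.2.2.1 _ (XX_dt hAng g hx)).2 0).2.2
      ((fib_sm.comp (XX_sm g)).prodMk contDiff_const).contDiffAt
  exact (ContDiffAt.comp (f := fun x : TT κ × (TT κ →L[ℝ] TT κ) => (x.1, osc (fib x.2) 0)) x
    (tht_sm g).contDiffAt (contDiffAt_fst.prodMk s1)).sub s2

theorem al_mul (hAng : S_Ang) (g h : UU κ) (x : TT κ × (TT κ →L[ℝ] TT κ)) (hx : x ∈ SS0 κ) :
    al (g * h) x = al g (hat h x) + al h x := by
  have k1 := (key_fact hAng h hx).2 0
  have k2 := (key_fact hAng g (hat_mem hAng h x hx)).2 (al h x)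
  have e1 : osc (fib (hat h x).2) (al h x) = osc (fib (XX h x)) 0 := by
    change osc (fib (XX h x * Rot κ (uu (XX h x)))) _ = _
    rw [uu_eq hAng h hx, osc_mul_Rot hAng, add_neg_cancel]
  rw [XX_hat hAng g h hx, osc_mul_Rot hAng, add_neg_cancel, e1] at k2
  rw [zero_add, zero_add] at k1
  have e2 : al (g * h) x = tht g (hat h x).1 (al h x + osc (fib (XX h x)) 0) -
      osc (fib (XX (g * h) x)) 0 := by
    rw [← k1, al, tht_mul]
    rfl
  rw [e2, k2]
  ring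

theorem R_deriv (t s : Unit → ℝ) :
    fderiv ℝ (fun t : Unit → ℝ => Rot κ (ee (t ()))) t s =
      (∑ i : Unit, s i • LL κ I) * Rot κ (ee (t ())) := by
  have h1 : HasFDerivAt (fun t : Unit → ℝ => t ())
      (ContinuousLinearMap.proj (R := ℝ) (φ := fun _ : Unit => ℝ) ()) t :=
    (ContinuousLinearMap.proj (R := ℝ) (φ := fun _ : Unit => ℝ) ()).hasFDerivAt
  have h2 := (hasDerivAt_ee (t ())).hasFDerivAt.comp t h1
  have h3 := ((LL κ).hasFDerivAt.comp t h2).add_const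
    ((ContinuousLinearMap.inr ℝ ℂ (κ → ℝ)).comp (ContinuousLinearMap.snd ℝ ℂ (κ → ℝ)))
  have h4 : fderiv ℝ (fun t : Unit → ℝ => Rot κ (ee (t ()))) t = _ := h3.fderiv
  rw [h4]
  refine ContinuousLinearMap.ext fun v => ?_
  rw [Fintype.sum_unique, mul_apply_eq_comp, Rot_apply, smul_apply, LL_apply]
  change LL κ (s () • (I * ee (t ()))) v = _
  rw [LL_apply]
  refine Prod.ext ?_ (by simp)
  change s () • (I * ee (t ())) * v.1 = s () • (I * (ee (t ()) * v.1))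
  rw [smul_mul_assoc, mul_assoc]

theorem ker_al (hAng : S_Ang) (g g' : UU κ) (e : mp g = mp g') :
    ∃ t : ℝ, ∀ x, al g x = al g' x + t := by
  have h := hAng.2.2.2.2.2.2 (TT κ × ℝ) Set.univ (fun z => tht g z.1 z.2)
    (fun z => tht g' z.1 z.2) isPreconnected_univ (tht_sm g).continuous.continuousOn
    (tht_sm g').continuous.continuousOn fun z _ => by
      obtain ⟨r, hr, h1⟩ := (mp_lift g z.1).2.1 z.2
      obtain ⟨r', hr', h2⟩ := (mp_lift g' z.1).2.1 z.2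
      rw [e] at h1
      exact (hAng.2.2.2.2.2.1 r r' _ _ hr hr' (h1.symm.trans h2)).2
  refine ⟨tht g 0 0 - tht g' 0 0, fun x => ?_⟩
  have := h (x.1, osc (fib x.2) 0) trivial (0, 0) trivial
  unfold al XX
  rw [e]
  linarith

/-- The reduction. -/
noncomputable def AU (hAng : S_Ang) (κ : Type) [Fintype κ] :
    Act (UU κ) Unit (TT κ) (TT κ × (TT κ →L[ℝ] TT κ)) where
  c := fun _ => zc κ
  cen := fun _ => cen_zc κ
  act := (MonoidHom.fst _ _).comp (UU κ).subtype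
  sm := mp_sm
  S := SS0 κ
  x0 := (0, 1)
  x0_mem := ⟨Tri.one, by simp [fib_one, aa_one], by simp [fib_one, aa_one, bb_one]⟩
  star := star_mem
  pt := Prod.fst
  pt_sm := contDiff_fst
  fr := Prod.snd
  fr_sm := contDiff_snd
  unit := fun _ hx => unit_of hx.1 (dt_pos hAng hx)
  hat := hat
  hat_mem := hat_mem hAng
  hat_sm := hat_sm hAng
  hat_one := hat_one hAng
  hat_mul := hat_mul hAng
  pt_hat := fun _ _ _ => rfl
  al := fun g x _ => al g x
  al_sm := fun g x hx => contDiffAt_pi.2 fun _ => al_sm hAng g x hx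
  al_mul := fun g h x hx => funext fun _ => al_mul hAng g h x hx
  J := fun _ => LL κ I
  R := fun t => Rot κ (ee (t ()))
  R_sm := Rot_sm.comp (contDiff_ee.comp (contDiff_apply ℝ ℝ ()))
  R_d := R_deriv
  R_J := fun t _ => ContinuousLinearMap.ext fun v => by
    rw [mul_apply_eq_comp, mul_apply_eq_comp, Rot_apply, Rot_apply, LL_apply, LL_apply,
      mul_left_comm]
  J_J := fun _ _ => rfl
  R_inv := fun t => by
    rw [Rot_mul, Pi.neg_apply, mul_comm, ee_neg_mul, Rot_one]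
  key := fun g x hx => by
    change XX g x = XX g x * Rot κ (uu (XX g x)) * Rot κ (ee (al g x))
    rw [uu_eq hAng g hx, mul_assoc, Rot_mul, ee_neg_mul, Rot_one, mul_one]
  act_c := fun _ => rfl
  al_c := fun _ _ => by
    have e : XX (zc κ) ((0, 1) : TT κ × (TT κ →L[ℝ] TT κ)) = 1 := XX_one (0, 1)
    rw [if_pos rfl, al, e, tht_zc, fib_one, osc_one]
    ring
  ker := fun g g' e => by
    have e' : mp g = mp g' := e
    obtain ⟨t, ht⟩ := ker_al hAng g g' e'
    refine ⟨fun x _ => ?_, fun _ => t, fun x _ => funext fun _ => ht x⟩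
    unfold hat XX
    rw [e']

end

end PActU

theorem p_actU (hAng : S_Ang) : S_ActU := fun κ _ =>
  ⟨PActU.AU hAng κ, rfl, fun v => PActU.LL_apply I v⟩

end Pool.Agent.P.MP_878f14_gt.Sg
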