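import Pool.Agent.P.MP_878f14_gt.Sg.StU

/-!
Lifts of the action of a linear map of the plane on directions.
-/

open scoped ContDiff
open Complex

namespace Pool.Agent.P.MP_878f14_gt.Sg

namespace PAng

theorem norm_ee (t : ℝ) : ‖ee t‖ = 1 := Complex.norm_exp_I_mul_ofReal t

theorem conj_ee (t : ℝ) : starRingEnd ℂ (ee t) = ee (-t) := by
  unfold ee
  rw [← Complex.exp_conj]
  congr 1
  simp

theorem ee_int (k : ℤ) : ee (2 * Real.pi * k) = 1 := by
  unfold ee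
  rw [← Complex.exp_int_mul_two_pi_mul_I k]
  congr 1
  push_cast
  ring

theorem polar (w : ℂ) : w = ‖w‖ • ee (arg w) := by
  unfold ee
  rw [Complex.real_smul, mul_comm I, Complex.norm_mul_exp_arg_mul_I]

theorem part1 (A : ℂ →L[ℝ] ℂ) (z : ℂ) : A z = aa A * z + bb A * starRingEnd ℂ z := by
  rw [clm_apply]
  unfold aa bb
  apply Complex.ext <;> simp <;> ring

theorem part2 (A : ℂ →L[ℝ] ℂ) : dt A = normSq (aa A) - normSq (bb A) := by
  unfold dt aa bb
  simp [normSq_apply]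
  ring

theorem aa_ne {A : ℂ →L[ℝ] ℂ} (h : 0 < dt A) : aa A ≠ 0 := by
  intro e
  rw [part2, e, map_zero] at h
  linarith [normSq_nonneg (bb A)]

theorem re_pos {A : ℂ →L[ℝ] ℂ} (h : 0 < dt A) (φ : ℝ) :
    0 < (1 + bb A / aa A * ee (-2 * φ)).re := by
  have h1 : ‖bb A‖ < ‖aa A‖ := by
    rw [part2, normSq_eq_norm_sq, normSq_eq_norm_sq] at h
    exact lt_of_pow_lt_pow_left₀ 2 (norm_nonneg _) (by linarith)
  have h2 : ‖bb A / aa A * ee (-2 * φ)‖ < 1 := by
    rw [norm_mul, norm_ee, mul_one, norm_div, div_lt_one (norm_pos_iff.2 (aa_ne h))]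
    exact h1
  have h3 := Complex.abs_re_le_norm (bb A / aa A * ee (-2 * φ))
  have h4 := neg_abs_le (bb A / aa A * ee (-2 * φ)).re
  rw [add_re, one_re]
  linarith

theorem smooth {A : ℂ →L[ℝ] ℂ} (h : 0 < dt A) (φ : ℝ) :
    ContDiffAt ℝ ∞ (fun p : (ℂ →L[ℝ] ℂ) × ℝ => osc p.1 p.2) (A, φ) := by
  have e1 : ∀ z : ℂ, ContDiff ℝ ∞ fun p : (ℂ →L[ℝ] ℂ) × ℝ => p.1 z := fun z =>
    contDiff_fst.clm_apply contDiff_const
  have ha : ContDiff ℝ ∞ fun p : (ℂ →L[ℝ] ℂ) × ℝ => aa p.1 :=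
    ((e1 1).sub (contDiff_const.mul (e1 I))).div_const 2
  have hb : ContDiff ℝ ∞ fun p : (ℂ →L[ℝ] ℂ) × ℝ => bb p.1 :=
    ((e1 1).add (contDiff_const.mul (e1 I))).div_const 2
  have he : ContDiff ℝ ∞ fun p : (ℂ →L[ℝ] ℂ) × ℝ => ee (-2 * p.2) :=
    (contDiff_const.mul (Complex.ofRealCLM.contDiff.comp (contDiff_const.mul contDiff_snd))).cexp
  have hi : ContDiffAt ℝ ∞ (fun p : (ℂ →L[ℝ] ℂ) × ℝ => (aa p.1)⁻¹) (A, φ) :=
    ha.contDiffAt.inv (aa_ne h)
  have hw : ContDiffAt ℝ ∞ (fun p : (ℂ →L[ℝ] ℂ) × ℝ => 1 + bb p.1 / aa p.1 * ee (-2 * p.2))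
      (A, φ) := by
    simp only [div_eq_mul_inv]
    exact contDiffAt_const.add ((hb.contDiffAt.mul hi).mul he.contDiffAt)
  have hl : ContDiffAt ℝ ∞ Complex.log (1 + bb A / aa A * ee (-2 * φ)) :=
    (Complex.contDiffAt_log (Or.inl (re_pos h φ))).restrict_scalars ℝ
  have := Complex.imCLM.contDiff.contDiffAt.comp (A, φ) (hl.comp (A, φ) hw)
  exact this.congr_of_eventuallyEq (Filter.Eventually.of_forall fun p => (Complex.log_im _).symm)

theorem part4 (A : ℂ →L[ℝ] ℂ) (t : ℝ) (h : 0 < dt A) (ht : aa A = ‖aa A‖ • ee t) :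
    Lift A fun φ => φ + t + osc A φ := by
  refine ⟨h, fun φ => ?_, fun φ => ?_⟩
  · have hw : 1 + bb A / aa A * ee (-2 * φ) ≠ 0 := fun e => by
      have := re_pos h φ
      rw [e] at this
      simp at this
    refine ⟨‖aa A‖ * ‖1 + bb A / aa A * ee (-2 * φ)‖,
      mul_pos (norm_pos_iff.2 (aa_ne h)) (norm_pos_iff.2 hw), ?_⟩
    have e1 : A (ee φ) = aa A * ee φ * (1 + bb A / aa A * ee (-2 * φ)) := by
      have e2 : ee (-φ) = ee φ * ee (-2 * φ) := by rw [← ee_add]; congr 1; ring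
      have := aa_ne h
      rw [part1, conj_ee, e2]
      field_simp
    have e3 := polar (1 + bb A / aa A * ee (-2 * φ))
    rw [e1, ee_add, ee_add]
    unfold osc
    calc aa A * ee φ * (1 + bb A / aa A * ee (-2 * φ))
        = (‖aa A‖ • ee t) * ee φ * (‖1 + bb A / aa A * ee (-2 * φ)‖ •
          ee (arg (1 + bb A / aa A * ee (-2 * φ)))) := by rw [← ht, ← e3]
      _ = _ := by
        simp only [Complex.real_smul, ofReal_mul]
        ring
  · have e : ee (-2 * (φ + 2 * Real.pi)) = ee (-2 * φ) := by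
      have : -2 * (φ + 2 * Real.pi) = -2 * φ + 2 * Real.pi * ((-2 : ℤ) : ℝ) := by
        push_cast; ring
      rw [this, ee_add, ee_int, mul_one]
    show φ + 2 * Real.pi + t + osc A (φ + 2 * Real.pi) = φ + t + osc A φ + 2 * Real.pi
    unfold osc
    rw [e]
    ring

theorem part6 (r r' s s' : ℝ) (hr : 0 < r) (hr' : 0 < r') (h : r • ee s = r' • ee s') :
    r = r' ∧ ∃ k : ℤ, s = s' + 2 * Real.pi * k := by
  have h1 : r = r' := by
    have := congrArg norm h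
    rwa [norm_smul, norm_smul, norm_ee, norm_ee, mul_one, mul_one, Real.norm_of_nonneg hr.le,
      Real.norm_of_nonneg hr'.le] at this
  subst h1
  have h2 : ee s = ee s' := smul_right_injective ℂ hr.ne' h
  obtain ⟨k, hk⟩ := Complex.exp_eq_exp_iff_exists_int.1 h2
  refine ⟨rfl, k, ?_⟩
  have := congrArg Complex.im hk
  simp at this
  linarith

theorem part7 (Y : Type) [TopologicalSpace Y] (Z : Set Y) (f g : Y → ℝ) (hZ : IsPreconnected Z)
    (hf : ContinuousOn f Z) (hg : ContinuousOn g Z)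
    (h : ∀ z ∈ Z, ∃ k : ℤ, f z = g z + 2 * Real.pi * k) :
    ∀ z ∈ Z, ∀ z' ∈ Z, f z - g z = f z' - g z' := by
  have hpi := Real.pi_pos
  have key : ∀ z ∈ Z, ∀ z' ∈ Z, ¬ f z - g z < f z' - g z' := by
    intro z hz z' hz' hlt
    obtain ⟨k, hk⟩ := h z hz
    obtain ⟨k', hk'⟩ := h z' hz'
    have h1 : (k : ℝ) < k' := by
      have : 2 * Real.pi * k < 2 * Real.pi * k' := by linarith
      exact lt_of_mul_lt_mul_left this (by positivity)
    have h2 : (k : ℝ) + 1 ≤ k' := by exact_mod_cast (show k < k' by exact_mod_cast h1)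
    have h3 : 2 * Real.pi * k + Real.pi ∈ Set.Icc (f z - g z) (f z' - g z') :=
      ⟨by linarith, by nlinarith⟩
    obtain ⟨y, hy, e⟩ := hZ.intermediate_value hz hz' (hf.sub hg) h3
    obtain ⟨j, hj⟩ := h y hy
    have e' : f y - g y = 2 * Real.pi * k + Real.pi := e
    have h4 : Real.pi * (2 * j) = Real.pi * (2 * k + 1) := by linarith
    have h5 : (2 * j : ℝ) = 2 * k + 1 := mul_left_cancel₀ hpi.ne' h4
    have h6 : 2 * j = 2 * k + 1 := by exact_mod_cast h5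
    omega
  intro z hz z' hz'
  exact le_antisymm (not_lt.1 (key z' hz' z hz)) (not_lt.1 (key z hz z' hz'))

theorem part5 (A : ℂ →L[ℝ] ℂ) (Θ : ℝ → ℝ) (hΘ : Continuous Θ) (h : Lift A Θ) :
    ∃ t : ℝ, aa A = ‖aa A‖ • ee t ∧ ∀ φ, Θ φ = φ + t + osc A φ := by
  have h0 := part4 A _ h.1 (polar (aa A))
  have hk : ∀ φ, ∃ k : ℤ, Θ φ = φ + arg (aa A) + osc A φ + 2 * Real.pi * k := fun φ => by
    obtain ⟨r, hr, e⟩ := h.2.1 φ
    obtain ⟨r', hr', e'⟩ := h0.2.1 φ
    exact (part6 r r' _ _ hr hr' (e.symm.trans e')).2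
  have hc : Continuous fun φ => φ + arg (aa A) + osc A φ := by
    refine (continuous_id.add continuous_const).add (continuous_iff_continuousAt.2 fun φ => ?_)
    exact ContinuousAt.comp (f := fun φ : ℝ => (A, φ)) (smooth h.1 φ).continuousAt
      (continuous_const.prodMk continuous_id).continuousAt
  obtain ⟨k, hk0⟩ := hk 0
  refine ⟨arg (aa A) + 2 * Real.pi * k, ?_, fun φ => ?_⟩
  · rw [ee_add, ee_int, mul_one]
    exact polar _
  · have := part7 ℝ Set.univ Θ _ isPreconnected_univ hΘ.continuousOn hc.continuousOn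
      (fun φ _ => hk φ) φ trivial 0 trivial
    linarith

end PAng

open PAng in
theorem p_ang : S_Ang :=
  ⟨part1, part2, fun _ h => ⟨aa_ne h, fun φ => ⟨re_pos h φ,
    Complex.abs_arg_lt_pi_div_two_iff.2 (Or.inl (re_pos h φ)), smooth h φ⟩⟩, part4, part5, part6,
    part7⟩

end Pool.Agent.P.MP_878f14_gt.Sg
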