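import Pool.Agent.P.MP_878f14_gt.Sg.StU

/-!
A smooth function without zeros on a vector space has a smooth argument.
-/

open scoped ContDiff
open Complex Filter Topology

namespace Pool.Agent.P.MP_878f14_gt.Sg

namespace Arg

variable {E : Type} [NormedAddCommGroup E] [NormedSpace ℝ E]

theorem exists_log (a : E → ℂ) (ha : Continuous a) (h0 : ∀ y, a y ≠ 0) :
    ∃ L : E → ℂ, Continuous L ∧ ∀ y, exp (L y) = a y := by
  obtain ⟨F, ⟨-, hF⟩, -⟩ := Complex.isCoveringMap_exp.existsUnique_continuousMap_lifts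
    (⟨fun y => ⟨a y, h0 y⟩, ha.subtype_mk _⟩ : C(E, {z : ℂ // z ≠ 0})) 0 (log (a 0))
    (Subtype.ext (exp_log (h0 0)))
  exact ⟨F, F.continuous, fun y => congrArg Subtype.val (congrFun hF y)⟩

theorem smooth {a L : E → ℂ} (ha : ContDiff ℝ ∞ a) (hL : Continuous L)
    (he : ∀ y, exp (L y) = a y) : ContDiff ℝ ∞ L := by
  refine contDiff_iff_contDiffAt.mpr fun y0 => ?_
  have h0 : a y0 ≠ 0 := he y0 ▸ exp_ne_zero _
  have h1 : ContDiffAt ℝ ∞ (fun y => L y0 + log (a y / a y0)) y0 := by
    refine contDiffAt_const.add ?_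
    have h2 : ContDiffAt ℝ ∞ log (a y0 / a y0) := by
      rw [div_self h0]
      exact (Complex.contDiffAt_log one_mem_slitPlane).restrict_scalars ℝ
    exact h2.comp y0 (f := fun y => a y / a y0) (ha.contDiffAt.div_const _)
  refine h1.congr_of_eventuallyEq ?_
  have h3 : Continuous fun y => (L y - L y0).im := continuous_im.comp (hL.sub continuous_const)
  have h4 : ∀ᶠ y in 𝓝 y0, (L y - L y0).im ∈ Set.Ioo (-Real.pi) Real.pi :=
    h3.continuousAt.eventually (Ioo_mem_nhds (by simpa using Real.pi_pos)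
      (by simpa using Real.pi_pos))
  filter_upwards [h4] with y hy
  rw [← he y, ← he y0, ← exp_sub, log_exp hy.1 hy.2.le]
  ring

end Arg

theorem p_arg : S_Arg := by
  intro E _ _ a ha h0
  obtain ⟨L, hL, he⟩ := Arg.exists_log a ha.continuous h0
  refine ⟨fun y => (L y).im, imCLM.contDiff.comp (Arg.smooth ha hL he), fun y => ?_⟩
  rw [← he y, norm_exp, ee, real_smul, ofReal_exp, ← exp_add, mul_comm, re_add_im]

end Pool.Agent.P.MP_878f14_gt.Sg
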