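import Pool.Agent.P.MP_878f14_gt.Sg.DefA

/-!
Universal chains of coloured vertices.
-/

namespace Pool.Agent.P.MP_878f14_gt.Sg

namespace Col

open Finset

/-- one step of the cone construction -/
def stp (p i : ℕ) (m : List (ℕ × ℕ)) : List (ℕ × ℕ) :=
  m.map (Prod.map (up i) id) ++ [(p + 1, p + 1)]

/-- the universal chains -/
noncomputable def hh : ℕ → (List (ℕ × ℕ) →₀ ℝ)
  | 0 => Finsupp.single [(0, 0)] 1
  | p + 1 => ∑ i ∈ range (p + 2), ((-1 : ℝ) ^ (p + 1) * (-1) ^ i) • (hh p).mapDomain (stp p i)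

/-- the pairing of a chain and a cochain -/
noncomputable def ev {X : Type} (ψ : X → ℝ) : (X →₀ ℝ) →ₗ[ℝ] ℝ := Finsupp.linearCombination ℝ ψ

theorem ev_eq {X : Type} (ψ : X → ℝ) (z : X →₀ ℝ) : (z.sum fun m r => r * ψ m) = ev ψ z := by
  simp [ev, Finsupp.linearCombination_apply]

theorem ev_map {X Y : Type} (ψ : Y → ℝ) (f : X → Y) (z : X →₀ ℝ) :
    ev ψ (z.mapDomain f) = ev (fun m => ψ (f m)) z :=
  Finsupp.linearCombination_mapDomain ℝ f z

theorem ev_succ (p : ℕ) (ψ : Co (ℕ × ℕ)) : ev ψ (hh (p + 1)) =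
    ∑ i ∈ range (p + 2), ((-1 : ℝ) ^ (p + 1) * (-1) ^ i) * ev (fun m => ψ (stp p i m)) (hh p) := by
  rw [hh, map_sum]
  exact sum_congr rfl fun i _ => by rw [map_smul, ev_map, smul_eq_mul]

theorem ev_congr {X : Type} {ψ φ : X → ℝ} {z : X →₀ ℝ} (h : ∀ m ∈ z.support, ψ m = φ m) :
    ev ψ z = ev φ z := by
  rw [← ev_eq, ← ev_eq]
  exact Finsupp.sum_congr fun m hm => by rw [h m hm]

theorem ev_add_mul {X : Type} (ψ φ : X → ℝ) (c : ℝ) (z : X →₀ ℝ) :
    ev (fun m => ψ m + c * φ m) z = ev ψ z + c * ev φ z := by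
  rw [← ev_eq, ← ev_eq, ← ev_eq]
  simp only [Finsupp.sum, mul_sum, ← sum_add_distrib]
  exact sum_congr rfl fun m _ => by ring

theorem up_mono (i : ℕ) {a b : ℕ} (h : a ≤ b) : up i a ≤ up i b := by
  unfold up
  split_ifs <;> omega

theorem up_le (i a : ℕ) : up i a ≤ a + 1 := by
  unfold up
  split_ifs <;> omega

theorem up_up {i j : ℕ} (h : i ≤ j) (v : ℕ) : up (j + 1) (up i v) = up i (up j v) := by
  unfold up
  split_ifs <;> omega

theorem supp (p : ℕ) : ∀ m ∈ (hh p).support, m.length = p + 1 ∧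
    m.Pairwise (fun x y => x.1 ≤ y.1 ∧ x.2 < y.2) ∧ ∀ x ∈ m, x.1 ≤ p ∧ x.2 ≤ p := by
  classical
  induction p with
  | zero =>
    intro m hm
    have e : m = [(0, 0)] := mem_singleton.1 (Finsupp.support_single_subset hm)
    subst e
    simp
  | succ p ih =>
    intro m hm
    rw [hh] at hm
    obtain ⟨i, -, hi⟩ := Finsupp.mem_support_finsetSum m hm
    obtain ⟨m', hm', e⟩ := mem_image.1
      (Finsupp.mapDomain_support (Finsupp.support_smul hi))
    obtain ⟨h1, h2, h3⟩ := ih m' hm'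
    have h4 : ∀ x ∈ m'.map (Prod.map (up i) id), x.1 ≤ p + 1 ∧ x.2 ≤ p := fun x hx => by
      obtain ⟨y, hy, rfl⟩ := List.mem_map.1 hx
      exact ⟨(up_le i y.1).trans (Nat.succ_le_succ (h3 y hy).1), (h3 y hy).2⟩
    subst e
    refine ⟨by simp [stp, h1], ?_, fun x hx => ?_⟩
    · rw [stp, List.pairwise_append]
      refine ⟨List.pairwise_map.2 (h2.imp fun h => ⟨up_mono i h.1, h.2⟩), by simp,
        fun x hx y hy => ?_⟩
      rw [List.mem_singleton.1 hy]
      exact ⟨(h4 x hx).1, Nat.lt_succ_of_le (h4 x hx).2⟩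
    · rcases List.mem_append.1 hx with hx | hx
      · exact ⟨(h4 x hx).1, (h4 x hx).2.trans (Nat.le_succ p)⟩
      · rw [List.mem_singleton.1 hx]
        exact ⟨le_rfl, le_rfl⟩

theorem cob_append {X : Type} (x : X) (m : List X) (ψ : Co X) :
    cob ψ (m ++ [x]) = cob (fun l => ψ (l ++ [x])) m + (-1) ^ m.length * ψ m := by
  induction m generalizing ψ with
  | nil => simp [cob]
  | cons a m ih =>
    simp only [List.cons_append, cob, ih, List.length_cons, pow_succ]
    have e : sh a (fun l => ψ (l ++ [x])) = fun l => sh a ψ (l ++ [x]) := rfl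
    rw [e]
    simp only [sh]
    ring

theorem cob_map {X Y : Type} (f : X → Y) (m : List X) (ψ : Co Y) :
    cob ψ (m.map f) = cob (fun l => ψ (l.map f)) m := by
  induction m generalizing ψ with
  | nil => simp [cob]
  | cons a m ih =>
    simp only [List.map_cons, cob, ih]
    rfl

theorem cancel (a : ℕ → ℕ → ℝ) (h : ∀ i j, i ≤ j → a (j + 1) i = a i j) (n : ℕ) :
    ∑ i ∈ range (n + 1), (-1 : ℝ) ^ i * ∑ j ∈ range n, (-1) ^ j * a i j = 0 := by
  induction n with
  | zero => simp
  | succ n ih =>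
    rw [sum_range_succ]
    simp only [sum_range_succ _ n, mul_add] at ih ⊢
    have e : (-1 : ℝ) ^ (n + 1) * ∑ i ∈ range n, (-1) ^ i * a (n + 1) i =
        -∑ i ∈ range n, (-1 : ℝ) ^ i * ((-1) ^ n * a i n) := by
      rw [← sum_neg_distrib, mul_sum]
      exact sum_congr rfl fun i hi => by
        rw [h i n (mem_range.1 hi).le]
        ring
    rw [sum_add_distrib, e, h n n le_rfl]
    linear_combination ih

theorem bd (p : ℕ) : ∀ ψ : Co (ℕ × ℕ), ev (cob ψ) (hh (p + 1)) =
    ∑ i ∈ range (p + 2), (-1) ^ i * ev (fun m => ψ (m.map (Prod.map (up i) id))) (hh p) := by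
  have step : ∀ p : ℕ, (∀ φ : Co (ℕ × ℕ), ∑ i ∈ range (p + 2),
      (-1 : ℝ) ^ i * ev (cob fun l => φ (l.map (Prod.map (up i) id))) (hh p) = 0) →
      ∀ ψ : Co (ℕ × ℕ), ev (cob ψ) (hh (p + 1)) = ∑ i ∈ range (p + 2),
        (-1) ^ i * ev (fun m => ψ (m.map (Prod.map (up i) id))) (hh p) := fun p h0 ψ => by
    rw [ev_succ]
    have e : ∀ i, ev (fun m => cob ψ (stp p i m)) (hh p) =
        ev (cob fun l => ψ (l.map (Prod.map (up i) id) ++ [(p + 1, p + 1)])) (hh p) +
          (-1) ^ (p + 1) * ev (fun m => ψ (m.map (Prod.map (up i) id))) (hh p) := fun i => by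
      rw [← ev_add_mul]
      exact ev_congr fun m hm => by
        rw [stp, cob_append, cob_map, List.length_map, (supp p m hm).1]
    have h1 := h0 fun l => ψ (l ++ [(p + 1, p + 1)])
    have h2 : (-1 : ℝ) ^ (p + 1) * (-1) ^ (p + 1) = 1 := by
      rw [← mul_pow]
      simp
    rw [← zero_add (∑ i ∈ range (p + 2), (-1 : ℝ) ^ i *
      ev (fun m => ψ (m.map (Prod.map (up i) id))) (hh p)), ← mul_zero ((-1 : ℝ) ^ (p + 1)), ← h1,
      mul_sum, ← sum_add_distrib]
    refine sum_congr rfl fun i _ => ?_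
    rw [e]
    linear_combination (-1 : ℝ) ^ i * ev (fun m => ψ (m.map (Prod.map (up i) id))) (hh p) * h2
  induction p with
  | zero =>
    refine step 0 fun φ => ?_
    simp [hh, ev, cob, sum_range_succ]
  | succ p ih =>
    refine step (p + 1) fun φ => ?_
    simp only [ih]
    refine cancel (fun i j => ev (fun m => φ ((m.map (Prod.map (up j) id)).map
      (Prod.map (up i) id))) (hh p)) (fun i j hij => ?_) (p + 2)
    congr 2
    funext m
    simp only [List.map_map]
    congr 2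
    funext x
    simp [Prod.map, up_up hij]

theorem last (p : ℕ) : ∀ w : Co ℕ, (∀ (l₁ : List ℕ) a l₂, w (l₁ ++ a :: a :: l₂) = 0) →
    ev (fun m => w (m.map Prod.fst)) (hh p) = w (List.range (p + 1)) := by
  induction p with
  | zero =>
    intro w _
    simp [hh, ev]
  | succ p ih =>
    intro w hw
    rw [ev_succ]
    have e : ∀ i, ev (fun m => w ((stp p i m).map Prod.fst)) (hh p) =
        w ((List.range (p + 1)).map (up i) ++ [p + 1]) := fun i => by
      rw [← ih (fun l => w (l.map (up i) ++ [p + 1])) fun l₁ a l₂ => by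
        simpa using hw (l₁.map (up i)) (up i a) (l₂.map (up i) ++ [p + 1])]
      congr 2
      funext m
      simp [stp, Function.comp_def]
    simp only [e]
    rw [sum_range_succ, sum_eq_zero, zero_add, ← mul_pow]
    · have e2 : (List.range (p + 1)).map (up (p + 1)) = List.range (p + 1) := by
        conv_rhs => rw [← List.map_id (List.range (p + 1))]
        exact List.map_congr_left fun v hv => if_pos (List.mem_range.1 hv)
      rw [e2, ← List.range_succ]
      simp
    · intro i hi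
      have e3 : up i p = p + 1 := if_neg (by have := mem_range.1 hi; omega)
      rw [List.range_succ, List.map_append, List.map_singleton, e3, List.append_assoc]
      rw [show w ((List.range p).map (up i) ++ ([p + 1] ++ [p + 1])) = 0 from hw _ _ [], mul_zero]

end Col

theorem p_col : S_Col := by
  refine ⟨Col.hh, fun p m hm => ?_, fun p ψ => ?_, fun p w hw => ?_⟩
  · obtain ⟨h1, h2, h3⟩ := Col.supp p m hm
    exact ⟨h1, h2, fun x hx => (h3 x hx).1⟩
  · simp only [Col.ev_eq]
    exact Col.bd p ψ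
  · rw [Col.ev_eq (fun m : List (ℕ × ℕ) => w (m.map Prod.fst))]
    exact Col.last p w hw

end Pool.Agent.P.MP_878f14_gt.Sg
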