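import Pool.Agent.P.MP_878f14_gt.Sg.StG

/-!
An abelian connection with prescribed curvature on the thickened nerve.
-/

open Filter Topology
open scoped ContDiff

namespace Pool.Agent.P.MP_878f14_gt.Sg

namespace Conn

variable {I : Type} [Fintype I] [DecidableEq I] [PartialOrder I] {ρ : I → (I → ℝ) → ℝ}

omit [PartialOrder I] in
theorem fn_single (j : I) : fn ρ (Pi.single j 1) = ρ j := by
  funext p
  simp [fn, Pi.single_apply]

omit [DecidableEq I] in
theorem rho_at (hρ : IsRho ρ) (hO : IsOpen (MM I)) {p : I → ℝ} (hp : p ∈ MM I) (j : I) :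
    ContDiffAt ℝ ∞ (ρ j) p := (hρ.sm j).contDiffAt (hO.mem_nhds hp)

omit [DecidableEq I] in
theorem fn_at (hρ : IsRho ρ) (hO : IsOpen (MM I)) {p : I → ℝ} (hp : p ∈ MM I) (r : I → ℝ) :
    ContDiffAt ℝ ∞ (fn ρ r) p :=
  ContDiffAt.sum fun j _ => contDiffAt_const.mul (rho_at hρ hO hp j)

omit [DecidableEq I] in
theorem rho_zero (hρ : IsRho ρ) {p : I → ℝ} (hp : p ∈ MM I) {j : I} (hj : p ∉ WC j) :
    ρ j p = 0 := (hρ.supp j p hp hj).self_of_nhds

/-- the average of the transition functions -/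
def bt (ρ : I → (I → ℝ) → ℝ) (α : I → I → (I → ℝ) → ℝ) (a : I) (p : I → ℝ) : ℝ :=
  ∑ k, ρ k p * α a k p

omit [DecidableEq I] in
theorem bt_at (hρ : IsRho ρ) (hO : IsOpen (MM I)) {α : I → I → (I → ℝ) → ℝ}
    (hα : ∀ a b, ∀ p ∈ WC a ∩ WC b, ContDiffAt ℝ ∞ (α a b) p) {a : I} {p : I → ℝ}
    (hp : p ∈ WC a) : ContDiffAt ℝ ∞ (bt ρ α a) p := by
  refine ContDiffAt.sum fun k _ => ?_
  by_cases hk : p ∈ WC k
  · exact (rho_at hρ hO hp.1 k).mul (hα a k p ⟨hp, hk⟩)
  · refine (contDiffAt_const (c := (0 : ℝ))).congr_of_eventuallyEq ?_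
    filter_upwards [hρ.supp k p hp.1 hk] with q hq
    rw [hq, zero_mul]

omit [DecidableEq I] in
theorem bt_sub (hρ : IsRho ρ) {α : I → I → (I → ℝ) → ℝ} {ε : I → I → I → ℝ}
    (hε : ∀ a b c, ∀ p ∈ WC a ∩ WC b ∩ WC c, α a b p + α b c p - α a c p = ε a b c) {a b : I}
    {p : I → ℝ} (hp : p ∈ WC a ∩ WC b) :
    bt ρ α a p = bt ρ α b p + α a b p - fn ρ (ε a b) p := by
  have h1 : α a b p = ∑ k, ρ k p * α a b p := by
    rw [← Finset.sum_mul, hρ.sum p hp.1.1, one_mul]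
  rw [h1, bt, bt, fn, ← Finset.sum_add_distrib, ← Finset.sum_sub_distrib]
  refine Finset.sum_congr rfl fun k _ => ?_
  by_cases hk : p ∈ WC k
  · rw [← hε a b k p ⟨hp, hk⟩]
    ring
  · rw [rho_zero hρ hp.1.1 hk]
    ring

omit [DecidableEq I] in
/-- a combination which is constant on the charts through `p` has zero derivative -/
theorem fn_const (hρ : IsRho ρ) (hO : IsOpen (MM I)) {p : I → ℝ} (hp : p ∈ MM I)
    {r₁ r₂ r₃ : I → ℝ} {t : ℝ} (h : ∀ k, p ∈ WC k → r₁ k - r₂ k + r₃ k = t) :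
    fderiv ℝ (fn ρ r₁) p - fderiv ℝ (fn ρ r₂) p + fderiv ℝ (fn ρ r₃) p = 0 := by
  have d : ∀ r, HasFDerivAt (fn ρ r) (fderiv ℝ (fn ρ r) p) p := fun r =>
    ((fn_at hρ hO hp r).differentiableAt (by simp)).hasFDerivAt
  have e : ∀ k, ∀ᶠ q in 𝓝 p, (r₁ k - r₂ k + r₃ k) * ρ k q = t * ρ k q := by
    intro k
    by_cases hk : p ∈ WC k
    · exact Eventually.of_forall fun q => by rw [h k hk]
    · filter_upwards [hρ.supp k p hp hk] with q hq
      rw [hq, mul_zero, mul_zero]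
  have e' : (fun _ => t) =ᶠ[𝓝 p] fun q => fn ρ r₁ q - fn ρ r₂ q + fn ρ r₃ q := by
    filter_upwards [eventually_all.2 e, hO.mem_nhds hp] with q hq hq'
    have : t = ∑ k, t * ρ k q := by rw [← Finset.mul_sum, hρ.sum q hq', mul_one]
    rw [this, fn, fn, fn, ← Finset.sum_sub_distrib, ← Finset.sum_add_distrib]
    refine Finset.sum_congr rfl fun k _ => ?_
    rw [← hq k]
    ring
  exact ((((d r₁).fun_sub (d r₂)).fun_add (d r₃)).congr_of_eventuallyEq e').unique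
    (hasFDerivAt_const t p)

end Conn

theorem p_conn (hOpen : S_Open) : S_Conn := by
  intro I _ _ _ ρ hρ α ε hα hε hc
  obtain ⟨hO, hW, -, hch, -⟩ := hOpen I
  have top : (∞ : WithTop ℕ∞) + 1 ≤ ∞ := le_of_eq rfl
  refine ⟨fun a p => -fderiv ℝ (Conn.bt ρ α a) p - ∑ j, ρ j p • fderiv ℝ (fn ρ (ε a j)) p,
    fun a p hp => ?_, fun a b p hp => ?_⟩
  · have h1 := Conn.bt_at hρ hO hα hp
    have h2 := fun j => Conn.fn_at hρ hO hp.1 (ε a j)
    have h3 := fun j => Conn.rho_at hρ hO hp.1 j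
    have h4 : ContDiffAt ℝ ∞ (fderiv ℝ (Conn.bt ρ α a)) p := h1.fderiv_right top
    have h5 : ∀ j, ContDiffAt ℝ ∞ (fderiv ℝ (fn ρ (ε a j))) p := fun j => (h2 j).fderiv_right top
    refine ⟨h4.neg.sub (ContDiffAt.sum fun j _ => (h3 j).smul (h5 j)), fun v w => ?_⟩
    have hd := ((h4.differentiableAt (by simp)).hasFDerivAt.fun_neg).fun_sub
      (HasFDerivAt.fun_sum fun j (_ : j ∈ Finset.univ) =>
        ((h3 j).differentiableAt (by simp)).hasFDerivAt.fun_smul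
          ((h5 j).differentiableAt (by simp)).hasFDerivAt)
    have m2 : minSmoothness ℝ 2 ≤ ∞ := by
      rw [minSmoothness_of_isRCLikeNormedField]
      exact WithTop.coe_le_coe.2 (le_top : (2 : ℕ∞) ≤ ⊤)
    have s1 := (h1.isSymmSndFDerivAt m2).eq v w
    have s2 := fun j => ((h2 j).isSymmSndFDerivAt m2).eq v w
    rw [hd.fderiv]
    simp only [two, Conn.fn_single, sub_apply, neg_apply, sum_apply, add_apply, smul_apply,
      ContinuousLinearMap.smulRight_apply, smul_eq_mul, s1, s2,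
      Finset.sum_add_distrib, Finset.sum_sub_distrib]
    ring
  · have d : ∀ {f : (I → ℝ) → ℝ}, ContDiffAt ℝ ∞ f p → HasFDerivAt f (fderiv ℝ f p) p :=
      fun h => (h.differentiableAt (by simp)).hasFDerivAt
    have e : Conn.bt ρ α a =ᶠ[𝓝 p] fun q => Conn.bt ρ α b q + α a b q - fn ρ (ε a b) q := by
      filter_upwards [((hW a).inter (hW b)).mem_nhds hp] with q hq
      exact Conn.bt_sub hρ hε hq
    have e1 := ((((d (Conn.bt_at hρ hO hα hp.2)).fun_add (d (hα a b p hp))).fun_sub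
      (d (Conn.fn_at hρ hO hp.1.1 (ε a b)))).congr_of_eventuallyEq e).fderiv
    have e2 : ∑ j, ρ j p • (fderiv ℝ (fn ρ (ε b j)) p - fderiv ℝ (fn ρ (ε a j)) p +
        fderiv ℝ (fn ρ (ε a b)) p) = 0 := by
      refine Finset.sum_eq_zero fun j _ => ?_
      by_cases hj : p ∈ WC j
      · rw [Conn.fn_const hρ hO hp.1.1 (t := ε a b j) fun k hk => ?_, smul_zero]
        have := hc _ (hch p hp.1.1) a hp.1 b hp.2 j hj k hk
        linarith
      · rw [Conn.rho_zero hρ hp.1.1 hj, zero_smul]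
    simp only [smul_add, smul_sub, Finset.sum_add_distrib, Finset.sum_sub_distrib] at e2
    rw [← Finset.sum_smul, hρ.sum p hp.1.1, one_smul] at e2
    beta_reduce
    rw [e1]
    linear_combination (norm := abel1) -e2

end Pool.Agent.P.MP_878f14_gt.Sg
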