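import Pool.Agent.P.MP_878f14_gt.Sg.DefA

/-!
Cup products of transgressed two-cocycles.
-/

namespace Pool.Agent.P.MP_878f14_gt.Sg

namespace Cup

variable {D : Type}

theorem dl_lin [Mul D] (a : ℝ) :
    ∀ (l : List D) (φ ψ : Co D), dl (φ + a • ψ) l = dl φ l + a * dl ψ l
  | [], _, _ => by simp [dl]
  | [_], _, _ => by simp [dl]
  | g :: h :: l, φ, ψ => by
    have e : sh g (φ + a • ψ) = sh g φ + a • sh g ψ := rfl
    simp only [dl]
    rw [e, dl_lin a (h :: l)]
    simp only [Pi.add_apply, Pi.smul_apply, smul_eq_mul]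
    ring

theorem dl_zero [Mul D] (l : List D) : dl (0 : Co D) l = 0 := by
  have := dl_lin 1 l (0 : Co D) 0
  rw [smul_zero, add_zero] at this
  linarith

theorem dl_smul [Mul D] (a : ℝ) (l : List D) (ψ : Co D) : dl (a • ψ) l = a * dl ψ l := by
  have := dl_lin a l 0 ψ
  rwa [zero_add, dl_zero, zero_add] at this

theorem ins_lin (u : D) (a : ℝ) : ∀ (l : List D) (φ ψ : Co D),
    ins id id u (φ + a • ψ) l = ins id id u φ l + a * ins id id u ψ l
  | [], _, _ => by simp [ins]
  | g :: l, φ, ψ => by
    have e : sh (id g) (φ + a • ψ) = sh (id g) φ + a • sh (id g) ψ := rfl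
    simp only [ins]
    rw [e, ins_lin u a l]
    simp only [Pi.add_apply, Pi.smul_apply, smul_eq_mul]
    ring

theorem ins_van (u : D) : ∀ (l : List D) (φ : Co D), (∀ l, u ∈ l → φ l = 0) →
    ins id id u φ l = 0
  | [], _, h => h _ (by simp)
  | g :: l, φ, h => by
    simp only [ins]
    rw [h _ (by simp), ins_van u l (sh (id g) φ) fun l' hl => h _ (List.mem_cons_of_mem _ hl),
      sub_zero]

theorem dl_map {Λ : Type} [Monoid D] [Monoid Λ] (π : D →* Λ) :
    ∀ (l : List D) (β : Co Λ), dl (fun l => β (l.map π)) l = dl β (l.map π)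
  | [], _ => rfl
  | [_], _ => rfl
  | g :: h :: l, β => by
    have e := dl_map π (h :: l) (sh (π g) β)
    simp only [dl, List.map_cons, map_mul] at e ⊢
    rw [← e]
    rfl

/-- Product with a cochain of degree one. -/
def cup1 (f : D → ℝ) (w : Co D) : Co D
  | [] => 0
  | g :: l => f g * w l

/-- Product with a cochain of degree two. -/
def cup2 (e : D → D → ℝ) (w : Co D) : Co D
  | g :: h :: l => e g h * w l
  | _ => 0

theorem dl_cup1 [Mul D] (f : D → ℝ) {w : Co D} (hw : ∀ l, dl w l = 0) :
    ∀ l, dl (cup1 f w) l = cup2 (fun g h => f h - f (g * h) + f g) w l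
  | [] => rfl
  | [_] => rfl
  | g :: h :: l => by
    have e : sh g (cup1 f w) = f g • w := rfl
    simp only [dl, cup1, cup2]
    rw [e, dl_smul, hw]
    ring

theorem dl_cup2 [Mul D] {e : D → D → ℝ} {w : Co D} (hw : ∀ l, dl w l = 0)
    (he : ∀ g h k, e h k - e (g * h) k + e g (h * k) - e g h = 0) :
    ∀ l, dl (cup2 e w) l = 0
  | [] => rfl
  | [_] => rfl
  | [_, _] => by simp [dl, cup2]
  | g :: h :: k :: l => by
    have e1 : sh g (cup2 e w) = cup1 (e g) w := by
      funext m
      cases m <;> rfl
    rw [dl, e1, dl_cup1 _ hw]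
    simp only [cup2]
    linear_combination w l * he g h k

theorem ins_cup1 (u : D) (f : D → ℝ) {w : Co D} (hw : ∀ l, u ∈ l → w l = 0) :
    ∀ l, ins id id u (cup1 f w) l = f u * w l
  | [] => rfl
  | g :: l => by
    have e : sh (id g) (cup1 f w) = 0 + f g • w := by rw [zero_add]; rfl
    simp only [ins]
    rw [e, ins_lin, ins_van u l w hw, ins_van u l 0 fun _ _ => rfl]
    simp [cup1]

variable {ι : Type} [Fintype ι] [DecidableEq ι] [Monoid D]

/-- A cochain times a monomial. -/
def pl (α₀ : ι → ℕ) (w : Co D) : Fam ι D := fun α => if α = α₀ then w else 0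

/-- Families with a normalised primitive. -/
def Ex (c : ι → D) (Ψ : Fam ι D) : Prop := ∃ Φ : Fam ι D, (∀ α, Nm (Φ α)) ∧ tot c Φ = Ψ

theorem Ex.lin {c : ι → D} {Ψ Ψ' : Fam ι D} (h : Ex c Ψ) (h' : Ex c Ψ') (a : ℝ) :
    Ex c (Ψ + a • Ψ') := by
  obtain ⟨Φ, h1, rfl⟩ := h
  obtain ⟨Φ', h2, rfl⟩ := h'
  refine ⟨Φ + a • Φ', fun α l hl => by simp [h1 α l hl, h2 α l hl], ?_⟩
  funext α l
  simp only [tot, Pi.add_apply, Pi.smul_apply, smul_eq_mul, dl_lin, ins_lin]
  rw [mul_add, Finset.mul_sum, add_add_add_comm, ← Finset.sum_add_distrib]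
  congr 1
  refine Finset.sum_congr rfl fun i _ => ?_
  split_ifs <;> simp

theorem Ex.zero (c : ι → D) : Ex c 0 := by
  refine ⟨0, fun _ _ _ => rfl, ?_⟩
  funext α l
  simp [tot, dl_zero, ins_van _ l 0 fun _ _ => rfl]

theorem Ex.sum {c : ι → D} {σ : Type} (s : Finset σ) (a : σ → ℝ) (Ψ : σ → Fam ι D)
    (h : ∀ x, Ex c (Ψ x)) : Ex c (∑ x ∈ s, a x • Ψ x) := by
  classical
  induction s using Finset.induction_on with
  | empty => simpa using Ex.zero c
  | insert x s hx ih =>
    rw [Finset.sum_insert hx, add_comm]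
    exact ih.lin (h x) _

theorem tot_pl (c : ι → D) (α₀ : ι → ℕ) (φ : Co D) (α : ι → ℕ) (l : List D) :
    tot c (pl α₀ φ) α l = pl α₀ (dl φ) α l +
      ∑ i, pl (α₀ + Pi.single i 1) (ins id id (c i) φ) α l := by
  unfold tot pl
  congr 1
  · split_ifs
    · rfl
    · exact dl_zero l
  · refine Finset.sum_congr rfl fun i _ => ?_
    by_cases h : α = α₀ + Pi.single i 1
    · have h1 : α i ≠ 0 := by simp [h]
      have h2 : Function.update α i (α i - 1) = α₀ := by
        funext j
        by_cases hj : j = i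
        · subst hj
          simp [h]
        · simp [h, hj]
      rw [if_neg h1, if_pos h2, if_pos h]
    · rw [if_neg h]
      split_ifs with h1 h2
      · rfl
      · refine absurd ?_ h
        funext j
        by_cases hj : j = i
        · subst hj
          simp [← h2]
          omega
        · simp [← h2, hj]
      · exact ins_van _ l 0 fun _ _ => rfl

omit [Fintype ι] in
theorem cnt_succ {N : ℕ} (is : Fin (N + 1) → ι) :
    cnt is = Pi.single (is 0) 1 + cnt fun t : Fin N => is t.succ := by
  funext j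
  simp only [cnt, Pi.add_apply]
  rw [Fin.card_filter_univ_succ', Pi.single_apply]
  simp only [eq_comm]

end Cup

open Cup in
theorem p_cup : S_Cup := by
  intro ι _ _ D Λ _ _ π c lam ε _ hc h1 hj hm N κ β hβ hd
  have e1 : ∀ i g h, π g = 1 → ε i (π g) (π h) = 0 := fun i g h hg => by
    have := hm i 1 h
    rw [one_mul, h1, map_one] at this
    rw [hg]
    linarith
  have e2 : ∀ i g h, π h = 1 → ε i (π g) (π h) = 0 := fun i g h hg => by
    have := hm i g 1
    rw [mul_one, h1, map_one] at this
    rw [hg]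
    linarith
  set W : List ι → Co D := fun is l => cupM ε is (l.map π) with hW
  have w1 : ∀ i is, W (i :: is) = cup2 (fun g h => ε i (π g) (π h)) (W is) := fun i is => by
    funext l
    rcases l with _ | ⟨g, _ | ⟨h, l⟩⟩ <;> rfl
  have w2 : ∀ is l g, g ∈ l → π g = 1 → W is l = 0 := by
    intro is
    induction is with
    | nil =>
      intro l g hg _
      rcases l with _ | ⟨a, l⟩
      · simp at hg
      · rfl
    | cons i is ih =>
      intro l g hg hg1
      rw [w1]
      rcases l with _ | ⟨a, _ | ⟨b, l⟩⟩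
      · rfl
      · rfl
      · simp only [cup2]
        rcases List.mem_cons.1 hg with rfl | hg
        · rw [e1 i _ _ hg1, zero_mul]
        · rcases List.mem_cons.1 hg with rfl | hg
          · rw [e2 i _ _ hg1, zero_mul]
          · rw [ih l g hg hg1, mul_zero]
  have w3 : ∀ is l, dl (W is) l = 0 := by
    intro is
    induction is with
    | nil =>
      intro l
      rcases l with _ | ⟨a, _ | ⟨b, l⟩⟩
      · rfl
      · rfl
      · have e : sh a (W []) = 0 := rfl
        rw [dl, e, dl_zero]
        simp [hW, cupM]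
    | cons i is ih =>
      rw [w1]
      refine dl_cup2 ih fun g h k => ?_
      have a1 := hm i (g * h) k
      have a2 := hm i g (h * k)
      rw [mul_assoc, a2, hm i h k, hm i g h] at a1
      linarith
  have step : ∀ i is α₀, Ex c (pl (α₀ + Pi.single i 1) (W is) - pl α₀ (W (i :: is))) := by
    intro i is α₀
    refine ⟨pl α₀ (cup1 (lam i) (W is)), fun α l hl => ?_, ?_⟩
    · unfold pl
      split_ifs
      · rcases l with _ | ⟨a, l⟩
        · rfl
        · rcases List.mem_cons.1 hl with rfl | hl
          · simp [cup1, h1]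
          · simp [cup1, w2 is l 1 hl (map_one π)]
      · rfl
    · funext α l
      rw [tot_pl, Finset.sum_eq_single i]
      · have a1 : ins id id (c i) (cup1 (lam i) (W is)) = W is := by
          funext m
          rw [ins_cup1 _ _ fun l hl => w2 is l _ hl (hc i), hj, if_pos rfl, one_mul]
        have a2 : dl (cup1 (lam i) (W is)) = -W (i :: is) := by
          funext m
          rw [dl_cup1 _ (w3 is), w1]
          rcases m with _ | ⟨a, _ | ⟨b, m⟩⟩
          · simp [cup2]
          · simp [cup2]
          · simp only [cup2, Pi.neg_apply]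
            rw [hm]
            ring
        rw [a1, a2]
        simp only [pl, Pi.sub_apply]
        split_ifs <;> simp [sub_eq_neg_add]
      · intro j _ hji
        unfold pl
        split_ifs
        · rw [ins_cup1 _ _ fun l hl => w2 is l _ hl (hc j), hj, if_neg hji.symm, zero_mul]
        · rfl
      · simp
  have main : ∀ (n : ℕ) (is : Fin n → ι) (α₀ : ι → ℕ),
      Ex c (pl (α₀ + cnt is) (W []) - pl α₀ (W (List.ofFn is))) := by
    intro n
    induction n with
    | zero =>
      intro is α₀
      have : cnt is = 0 := by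
        funext j
        simp [cnt]
      rw [this, add_zero, List.ofFn_zero, sub_self]
      exact Ex.zero c
    | succ n ih =>
      intro is α₀
      have := (ih (fun t => is t.succ) (α₀ + Pi.single (is 0) 1)).lin
        (step (is 0) (List.ofFn fun t : Fin n => is t.succ) α₀) 1
      rw [one_smul, sub_add_sub_cancel] at this
      rwa [cnt_succ, List.ofFn_succ, ← add_assoc]
  have last : Ex c (pl 0 fun l => cupP κ ε (l.map π)) := by
    refine ⟨pl 0 fun l => β (l.map π), fun α l hl => ?_, ?_⟩
    · unfold pl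
      split_ifs
      · exact hβ _ (List.mem_map.2 ⟨1, hl, map_one π⟩)
      · rfl
    · funext α l
      rw [tot_pl, Finset.sum_eq_zero, add_zero]
      · unfold pl
        split_ifs
        · rw [dl_map, hd]
        · rfl
      · intro i _
        unfold pl
        split_ifs
        · exact ins_van _ _ _ fun m hm => hβ _ (List.mem_map.2 ⟨_, hm, hc i⟩)
        · rfl
  obtain ⟨Φ, f1, f2⟩ := (Ex.sum Finset.univ κ _ fun is => main N is 0).lin last 1
  refine ⟨Φ, f1, f2.trans ?_⟩
  funext α l
  simp only [Pi.add_apply, Finset.sum_apply, Pi.smul_apply, Pi.sub_apply, smul_eq_mul, one_mul,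
    zero_add, mul_sub, Finset.sum_sub_distrib]
  have a1 : ∑ is : Fin N → ι, κ is * pl 0 (W (List.ofFn is)) α l =
      pl 0 (fun l => cupP κ ε (l.map π)) α l := by
    unfold pl
    split_ifs
    · rfl
    · simp
  rw [a1, sub_add_cancel]
  unfold cst polyP pl
  rcases l with _ | ⟨a, l⟩
  · rw [if_pos List.length_nil]
    refine Finset.sum_congr rfl fun is _ => ?_
    by_cases h : α = cnt is
    · rw [if_pos h, if_pos h.symm]
      simp [hW, cupM]
    · rw [if_neg h, if_neg (Ne.symm h)]
      simp
  · rw [if_neg (by simp)]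
    refine Finset.sum_eq_zero fun is _ => ?_
    split_ifs <;> simp [hW, cupM]

end Pool.Agent.P.MP_878f14_gt.Sg
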