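import Pool.Agent.P.MP_878f14_gt.Sg.StG

/-!
The Chern-Weil sum of an abelian curvature.
-/

namespace Pool.Agent.P.MP_878f14_gt.Sg

open Finset Equiv

namespace Cwf

/-- Interleave two families. -/
def il {α : Type} : ∀ N : ℕ, (Fin N → α) → (Fin N → α) → List α
  | 0, _, _ => []
  | N + 1, x, y => x 0 :: y 0 :: il N (Fin.tail x) (Fin.tail y)

theorem il_length {α : Type} (N : ℕ) (x y : Fin N → α) : (il N x y).length = 2 * N := by
  induction N with
  | zero => rfl
  | succ N ih => simp only [il, List.length_cons, ih]; omega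

theorem il_ev {α : Type} (d : α) (N : ℕ) (x y : Fin N → α) (s : Fin N) :
    (il N x y).getD (2 * s) d = x s := by
  induction N with
  | zero => exact s.elim0
  | succ N ih =>
    refine Fin.cases rfl (fun s => ?_) s
    have e : 2 * (s.succ : ℕ) = 2 * s + 1 + 1 := by rw [Fin.val_succ]; omega
    rw [e, il, List.getD_cons_succ, List.getD_cons_succ, ih]
    rfl

theorem il_od {α : Type} (d : α) (N : ℕ) (x y : Fin N → α) (s : Fin N) :
    (il N x y).getD (2 * s + 1) d = y s := by
  induction N with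
  | zero => exact s.elim0
  | succ N ih =>
    refine Fin.cases rfl (fun s => ?_) s
    have e : 2 * (s.succ : ℕ) + 1 = 2 * s + 1 + 1 + 1 := by rw [Fin.val_succ]; omega
    rw [e, il, List.getD_cons_succ, List.getD_cons_succ, ih]
    rfl

theorem wed_eq {ι I : Type} [Fintype I] [DecidableEq I] (ε : ι → I → I → I → ℝ) (a : I) (N : ℕ)
    (is : Fin N → ι) (Ψ : List (I → ℝ) → ℝ) :
    wed ε a (List.ofFn is) Ψ =
      ∑ js : Fin N → I, Ψ (il N (fun s => Pi.single (js s) 1) fun s => ε (is s) a (js s)) := by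
  induction N generalizing Ψ with
  | zero => simp [wed, il]
  | succ N ih =>
    rw [List.ofFn_succ, wed, ← (Fin.consEquiv fun _ : Fin (N + 1) => I).sum_comp,
      Fintype.sum_prod_type]
    refine sum_congr rfl fun j _ => ?_
    rw [ih]
    rfl

/-- Pairs of an index and a parity. -/
def pe (n : ℕ) : Fin (n + 1) × Fin 2 ≃ Fin (2 * n + 2) :=
  finProdFinEquiv.trans (finCongr (by ring))

theorem pe0 {n : ℕ} (t : Fin (n + 1)) : pe n (t, 0) = ev t := by
  ext; simp [pe, ev]

theorem pe1 {n : ℕ} (t : Fin (n + 1)) : pe n (t, 1) = od t := by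
  ext; simp [pe, od]; omega

theorem det_eq {n : ℕ} (M : Matrix (Fin (2 * n + 2)) (Fin (2 * n + 2)) ℝ) :
    M.det = ∑ σ : Perm (Fin (2 * n + 2)), ((Perm.sign σ : ℤ) : ℝ) *
      ∏ s, (M (ev s) (σ (ev s)) * M (od s) (σ (od s))) := by
  rw [← Matrix.det_transpose, Matrix.det_apply']
  refine sum_congr rfl fun σ _ => ?_
  congr 1
  rw [← (pe n).prod_comp, Fintype.prod_prod_type]
  refine prod_congr rfl fun s _ => ?_
  rw [Fin.prod_univ_two, pe0, pe1]
  rfl

theorem anti {n : ℕ} (x y : Fin (n + 1) → Fin (2 * n + 2) → ℝ) (S : Finset (Fin (n + 1))) :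
    ∑ σ : Perm (Fin (2 * n + 2)), ((Perm.sign σ : ℤ) : ℝ) *
      ∏ s, (x s (σ (ev s)) * y s (σ (od s)) -
        if s ∈ S then x s (σ (od s)) * y s (σ (ev s)) else 0) =
    2 ^ S.card * ∑ σ : Perm (Fin (2 * n + 2)), ((Perm.sign σ : ℤ) : ℝ) *
      ∏ s, (x s (σ (ev s)) * y s (σ (od s))) := by
  induction S using Finset.induction_on with
  | empty => simp
  | insert s₀ S h ih =>
    rw [card_insert_of_notMem h, pow_succ', mul_assoc, ← ih]
    set R : Perm (Fin (2 * n + 2)) → ℝ := fun σ => ∏ s ∈ univ.erase s₀,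
      (x s (σ (ev s)) * y s (σ (od s)) - if s ∈ S then x s (σ (od s)) * y s (σ (ev s)) else 0)
      with hR
    have e1 : ∀ σ : Perm (Fin (2 * n + 2)), ∏ s, (x s (σ (ev s)) * y s (σ (od s)) -
        if s ∈ insert s₀ S then x s (σ (od s)) * y s (σ (ev s)) else 0) =
        (x s₀ (σ (ev s₀)) * y s₀ (σ (od s₀)) - x s₀ (σ (od s₀)) * y s₀ (σ (ev s₀))) * R σ := by
      intro σ
      rw [← mul_prod_erase univ _ (mem_univ s₀), if_pos (mem_insert_self _ _)]
      congr 1
      refine prod_congr rfl fun s hs => ?_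
      simp only [mem_insert, ne_of_mem_erase hs, false_or]
    have e2 : ∀ σ : Perm (Fin (2 * n + 2)), ∏ s, (x s (σ (ev s)) * y s (σ (od s)) -
        if s ∈ S then x s (σ (od s)) * y s (σ (ev s)) else 0) =
        x s₀ (σ (ev s₀)) * y s₀ (σ (od s₀)) * R σ := by
      intro σ
      rw [← mul_prod_erase univ _ (mem_univ s₀), if_neg h, sub_zero]
    have hne : ev s₀ ≠ od s₀ := by
      simp only [ev, od, Ne, Fin.mk.injEq]; omega
    have e3 : ∀ σ : Perm (Fin (2 * n + 2)), R (σ * swap (ev s₀) (od s₀)) = R σ := by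
      intro σ
      refine prod_congr rfl fun s hs => ?_
      have hs' : (s : ℕ) ≠ s₀ := fun e => ne_of_mem_erase hs (Fin.ext e)
      have a1 : swap (ev s₀) (od s₀) (ev s) = ev s := swap_apply_of_ne_of_ne
        (by simp only [ev, Ne, Fin.mk.injEq]; omega) (by simp only [ev, od, Ne, Fin.mk.injEq]; omega)
      have a2 : swap (ev s₀) (od s₀) (od s) = od s := swap_apply_of_ne_of_ne
        (by simp only [ev, od, Ne, Fin.mk.injEq]; omega) (by simp only [od, Ne, Fin.mk.injEq]; omega)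
      simp only [Perm.mul_apply, a1, a2]
    have e4 : ∑ σ : Perm (Fin (2 * n + 2)), ((Perm.sign σ : ℤ) : ℝ) *
        (x s₀ (σ (od s₀)) * y s₀ (σ (ev s₀)) * R σ) =
        -∑ σ : Perm (Fin (2 * n + 2)), ((Perm.sign σ : ℤ) : ℝ) *
          (x s₀ (σ (ev s₀)) * y s₀ (σ (od s₀)) * R σ) := by
      rw [← sum_neg_distrib, ← Equiv.sum_comp (Equiv.mulRight (swap (ev s₀) (od s₀)))]
      refine sum_congr rfl fun σ _ => ?_
      simp only [Equiv.coe_mulRight, e3, Perm.mul_apply, swap_apply_left, swap_apply_right,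
        Perm.sign_mul, Perm.sign_swap hne]
      simp
    simp_rw [e1, e2, sub_mul, mul_sub]
    rw [sum_sub_distrib, e4]
    ring

end Cwf

open Cwf in
theorem p_cwf : S_Cwf := by
  intro I ι 𝔸 _ _ _ _ _ _ ρ n P J ε t a p v
  unfold cw
  have e1 : ∀ c : Fin (n + 1) → ι → ℝ, P (fun s => ∑ i, c s i • J i) =
      ∑ is : Fin (n + 1) → ι, (∏ s, c s (is s)) * P fun s => J (is s) := by
    intro c
    rw [P.map_sum]
    exact sum_congr rfl fun is _ => P.map_smul_univ (fun s => c s (is s)) fun s => J (is s)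
  simp_rw [e1, mul_sum]
  rw [sum_comm]
  refine sum_congr rfl fun is _ => ?_
  rw [wed_eq]
  simp_rw [← mul_assoc]
  rw [← sum_mul, mul_right_comm]
  congr 1
  simp_rw [prod_mul_distrib, prod_const, card_univ, Fintype.card_fin, two, prod_univ_sum,
    Fintype.piFinset_univ, mul_sum]
  rw [sum_comm]
  refine sum_congr rfl fun js _ => ?_
  have h := anti (fun s b => fderiv ℝ (fn ρ (Pi.single (js s) 1)) p (v b))
    (fun s b => fderiv ℝ (fn ρ (ε (is s) a (js s))) p (v b)) univ
  simp only [mem_univ, if_true, card_univ, Fintype.card_fin] at h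
  simp_rw [mul_left_comm _ (t ^ (n + 1))]
  rw [← mul_sum, h, dets, if_pos (by rw [il_length]; ring), det_eq, mul_pow, mul_left_comm,
    mul_assoc]
  congr 2
  refine sum_congr rfl fun σ _ => ?_
  congr 1
  refine prod_congr rfl fun s _ => ?_
  simp only [Matrix.of_apply, ev, od, il_ev, il_od]

end Pool.Agent.P.MP_878f14_gt.Sg
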