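import Pool.Agent.P.MP_878f14_gt.Sg.StG

/-!
The forms `f dr₁ ⋯ dr_k` and their exterior derivatives.
-/

open Filter Topology
open scoped ContDiff

namespace Pool.Agent.P.MP_878f14_gt.Sg

namespace Det

variable {E : Type} [NormedAddCommGroup E] [NormedSpace ℝ E]

/-- Alternatisation as a continuous linear map. -/
noncomputable def altL (E : Type) [NormedAddCommGroup E] [NormedSpace ℝ E] (k : ℕ) :
    ContinuousMultilinearMap ℝ (fun _ : Fin k => E) ℝ →L[ℝ] E [⋀^Fin k]→L[ℝ] ℝ :=
  LinearMap.mkContinuous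
    { toFun := fun f => ContinuousMultilinearMap.alternatization f
      map_add' := fun f g => map_add _ f g
      map_smul' := fun c f => by
        ext v
        simp only [ContinuousMultilinearMap.alternatization_apply_apply,
          ContinuousAlternatingMap.smul_apply, smul_apply,
          RingHom.id_apply, Finset.smul_sum]
        exact Finset.sum_congr rfl fun σ _ => smul_comm _ _ _ }
    (Fintype.card (Equiv.Perm (Fin k))) (fun f => by
      refine ContinuousAlternatingMap.opNorm_le_bound _ (by positivity) fun v => ?_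
      change ‖ContinuousMultilinearMap.alternatization f v‖ ≤ _
      rw [ContinuousMultilinearMap.alternatization_apply_apply]
      refine (norm_sum_le _ _).trans ?_
      have h : ∀ σ : Equiv.Perm (Fin k), ‖Equiv.Perm.sign σ • f (v ∘ σ)‖ ≤ ‖f‖ * ∏ i, ‖v i‖ := by
        intro σ
        have h1 : ‖Equiv.Perm.sign σ • f (v ∘ σ)‖ = ‖f (v ∘ σ)‖ := by
          rcases Int.units_eq_one_or (Equiv.Perm.sign σ) with h | h <;> simp [h]
        rw [h1]
        refine (f.le_opNorm _).trans (le_of_eq ?_)
        congr 1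
        exact Equiv.prod_comp σ fun i => ‖v i‖
      refine (Finset.sum_le_sum fun σ _ => h σ).trans (le_of_eq ?_)
      rw [Finset.sum_const, Finset.card_univ, nsmul_eq_mul, mul_assoc])

/-- The wedge product of `k` linear forms. -/
noncomputable def wdg {k : ℕ} (L : Fin k → E →L[ℝ] ℝ) : E [⋀^Fin k]→L[ℝ] ℝ :=
  altL E k ((ContinuousMultilinearMap.mkPiAlgebra ℝ (Fin k) ℝ).compContinuousLinearMap L)

theorem wdg_apply {k : ℕ} (L : Fin k → E →L[ℝ] ℝ) (v : Fin k → E) :
    wdg L v = (Matrix.of fun a b : Fin k => L a (v b)).det := by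
  change ContinuousMultilinearMap.alternatization
    ((ContinuousMultilinearMap.mkPiAlgebra ℝ (Fin k) ℝ).compContinuousLinearMap L) v = _
  rw [ContinuousMultilinearMap.alternatization_apply_apply, ← Matrix.det_transpose,
    Matrix.det_apply]
  refine Finset.sum_congr rfl fun σ _ => ?_
  simp

theorem contDiff_wdg (k : ℕ) : ContDiff ℝ ∞ (fun L : Fin k → E →L[ℝ] ℝ => wdg L) :=
  (altL E k).contDiff.comp (ContinuousMultilinearMap.contDiff
    (ContinuousMultilinearMap.compContinuousLinearMapLRight (E := fun _ : Fin k => E)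
      (ContinuousMultilinearMap.mkPiAlgebra ℝ (Fin k) ℝ)))

/-- The model form. -/
noncomputable def mdl (k : ℕ) (y : Fin (k + 1) → ℝ) : (Fin (k + 1) → ℝ) [⋀^Fin k]→L[ℝ] ℝ :=
  y 0 • wdg fun a : Fin k => ContinuousLinearMap.proj (R := ℝ) (φ := fun _ => ℝ) a.succ

theorem om_diff (k : ℕ) (y : Fin (k + 1) → ℝ) : DifferentiableAt ℝ (mdl k) y :=
  (differentiableAt_apply 0 y).smul_const _

theorem extDeriv_om (k : ℕ) (y : Fin (k + 1) → ℝ) (w : Fin (k + 1) → Fin (k + 1) → ℝ) :
    extDeriv (mdl k) y w = (Matrix.of fun a b : Fin (k + 1) => w b a).det := by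
  rw [extDeriv_apply (om_diff k y), Matrix.det_succ_row_zero]
  refine Finset.sum_congr rfl fun i _ => ?_
  set c : ℝ := (Matrix.of fun a b : Fin k => (i.removeNth w) b a.succ).det with hc
  have h1 : (fun z : Fin (k + 1) → ℝ => mdl k z (i.removeNth w)) = fun z => z 0 * c := by
    funext z
    simp only [mdl, ContinuousAlternatingMap.smul_apply, wdg_apply, smul_eq_mul]
    rfl
  have h2 : HasFDerivAt (fun z : Fin (k + 1) → ℝ => z 0 * c)
      (c • ContinuousLinearMap.proj (R := ℝ) (φ := fun _ : Fin (k + 1) => ℝ) 0) y :=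
    (hasFDerivAt_apply (𝕜 := ℝ) 0 y).mul_const c
  rw [h1, h2.fderiv]
  have h3 : ((Matrix.of fun a b : Fin (k + 1) => w b a).submatrix Fin.succ i.succAbove).det = c :=
    rfl
  rw [h3]
  simp only [smul_apply, ContinuousLinearMap.proj_apply, smul_eq_mul,
    Matrix.of_apply, zsmul_eq_mul]
  push_cast
  ring

end Det

open Det in
theorem p_det : S_Det := by
  intro E _ _ _ k U u hU hu
  have hat : ∀ p ∈ U, ∀ i, ContDiffAt ℝ ∞ (u i) p := fun p hp i =>
    (hu i).contDiffAt (hU.mem_nhds hp)
  have hF : ∀ p ∈ U, ContDiffAt ℝ ∞ (fun q i => u i q) p := fun p hp =>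
    contDiffAt_pi.2 (hat p hp)
  have hD : ∀ p ∈ U, ∀ x i, fderiv ℝ (fun q i => u i q) p x i = fderiv ℝ (u i) p x := by
    intro p hp x i
    rw [fderiv_pi fun i => (hat p hp i).differentiableAt (by simp)]
    rfl
  refine ⟨fun p => u 0 p • wdg fun a : Fin k => fderiv ℝ (u a.succ) p, ?_, fun p hp => ⟨?_, ?_⟩⟩
  · refine (hu 0).smul ((contDiff_wdg k).comp_contDiffOn (contDiffOn_pi.2 fun a => ?_))
    exact (hu a.succ).fderiv_of_isOpen hU (by simp)
  · intro v
    simp only [ContinuousAlternatingMap.smul_apply, wdg_apply, smul_eq_mul]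
  · intro v
    have he : (fun p => u 0 p • wdg fun a : Fin k => fderiv ℝ (u a.succ) p) =ᶠ[𝓝 p]
        fun x => (mdl k ((fun q i => u i q) x)).compContinuousLinearMap
          (fderiv ℝ (fun q i => u i q) x) := by
      filter_upwards [hU.mem_nhds hp] with x hx
      ext w
      simp only [ContinuousAlternatingMap.smul_apply, wdg_apply, smul_eq_mul, mdl,
        ContinuousAlternatingMap.compContinuousLinearMap_apply, Function.comp_apply,
        ContinuousLinearMap.proj_apply, hD x hx]
    rw [he.extDeriv_eq, extDeriv_pullback (om_diff k _)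
      ((hF p hp).of_le (m := 2) (WithTop.coe_le_coe.2 (le_top : (2 : ℕ∞) ≤ ⊤))) (by simp),
      ContinuousAlternatingMap.compContinuousLinearMap_apply, extDeriv_om]
    simp only [Function.comp_apply, hD p hp]

end Pool.Agent.P.MP_878f14_gt.Sg
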