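import Pool.Agent.P.MP_878f14_gt.Sg.StU

open scoped ContDiff
open Complex

namespace Pool.Agent.P.MP_878f14_gt.Sg

namespace Dir

theorem ee_zero : ee 0 = 1 := by simp [ee]

theorem ee_half : ee (Real.pi / 2) = I := by
  unfold ee
  rw [mul_comm]
  apply Complex.ext
  · rw [exp_ofReal_mul_I_re, Real.cos_pi_div_two, I_re]
  · rw [exp_ofReal_mul_I_im, Real.sin_pi_div_two, I_im]

/-- The map with real part `P` and imaginary part `Q`. -/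
noncomputable def cm (P Q : ℝ → ℝ → ℝ) (ζ : ℂ) : ℂ := P ζ.re ζ.im + I * Q ζ.re ζ.im

theorem cm_smooth {P Q : ℝ → ℝ → ℝ} (hP : ContDiff ℝ ∞ fun p : ℝ × ℝ => P p.1 p.2)
    (hQ : ContDiff ℝ ∞ fun p : ℝ × ℝ => Q p.1 p.2) : ContDiff ℝ ∞ (cm P Q) := by
  have h : ContDiff ℝ ∞ fun ζ : ℂ => (ζ.re, ζ.im) := reCLM.contDiff.prodMk imCLM.contDiff
  have h1 : ContDiff ℝ ∞ fun ζ : ℂ => P ζ.re ζ.im :=
    ContDiff.comp (g := fun p : ℝ × ℝ => P p.1 p.2) (f := fun ζ : ℂ => (ζ.re, ζ.im)) hP h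
  have h2 : ContDiff ℝ ∞ fun ζ : ℂ => Q ζ.re ζ.im :=
    ContDiff.comp (g := fun p : ℝ × ℝ => Q p.1 p.2) (f := fun ζ : ℂ => (ζ.re, ζ.im)) hQ h
  exact (ofRealCLM.contDiff.comp h1).add (contDiff_const.mul (ofRealCLM.contDiff.comp h2))

theorem cm_fderiv {P Q : ℝ → ℝ → ℝ} (h : ContDiff ℝ ∞ (cm P Q)) (ζ : ℂ) :
    (fderiv ℝ (cm P Q) ζ 1).re = deriv (fun s => P s ζ.im) ζ.re ∧
    (fderiv ℝ (cm P Q) ζ 1).im = deriv (fun s => Q s ζ.im) ζ.re ∧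
    (fderiv ℝ (cm P Q) ζ I).re = deriv (P ζ.re) ζ.im ∧
    (fderiv ℝ (cm P Q) ζ I).im = deriv (Q ζ.re) ζ.im := by
  have e : (ζ.re : ℂ) + I * ζ.im = ζ := by rw [mul_comm]; exact re_add_im ζ
  have hF : HasFDerivAt (cm P Q) (fderiv ℝ (cm P Q) ζ) ((ζ.re : ℂ) + I * ζ.im) := by
    rw [e]
    exact (h.differentiable (by simp) ζ).hasFDerivAt
  have l1 : HasDerivAt (fun s : ℝ => (s : ℂ) + I * ζ.im) 1 ζ.re :=
    (ofRealCLM.hasDerivAt (x := ζ.re)).add_const _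
  have l2 : HasDerivAt (fun t : ℝ => (ζ.re : ℂ) + I * t) I ζ.im := by
    have := ((ofRealCLM.hasDerivAt (x := ζ.im)).const_mul I).const_add (ζ.re : ℂ)
    simpa using this
  have d1 := HasFDerivAt.comp_hasDerivAt (f := fun s : ℝ => (s : ℂ) + I * ζ.im) ζ.re hF l1
  have d2 := HasFDerivAt.comp_hasDerivAt (f := fun t : ℝ => (ζ.re : ℂ) + I * t) ζ.im hF l2
  have r1 := (reCLM.hasFDerivAt.comp_hasDerivAt _ d1).deriv
  have r2 := (imCLM.hasFDerivAt.comp_hasDerivAt _ d1).deriv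
  have r3 := (reCLM.hasFDerivAt.comp_hasDerivAt _ d2).deriv
  have r4 := (imCLM.hasFDerivAt.comp_hasDerivAt _ d2).deriv
  refine ⟨r1.symm.trans ?_, r2.symm.trans ?_, r3.symm.trans ?_, r4.symm.trans ?_⟩ <;>
  · refine congrArg (fun f => deriv f _) (funext fun s => ?_)
    simp [cm]

theorem part1 (κ : Type) [Fintype κ] (f : ℂ → ℂ) (hf : ContDiff ℝ ∞ f) (y : TT κ) :
    Tri (fderiv ℝ (Prod.map f id : TT κ → TT κ) y) ∧
      fib (fderiv ℝ (Prod.map f id : TT κ → TT κ) y) = fderiv ℝ f y.1 := by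
  have h : HasFDerivAt (Prod.map f id : TT κ → TT κ)
      ((fderiv ℝ f y.1).prodMap (ContinuousLinearMap.id ℝ (κ → ℝ))) y :=
    HasFDerivAt.prodMap y (hf.differentiable (by simp) y.1).hasFDerivAt (hasFDerivAt_id y.2)
  rw [h.fderiv]
  exact ⟨⟨1, fun _ => one_pos, fun v s => by simp⟩, ContinuousLinearMap.ext fun _ => rfl⟩

theorem part2 (hMk : S_Mk) (κ : Type) [Fintype κ] (φ₀ : ℝ) (f : ℂ → ℂ) (hf : DirMap φ₀ f) :
    ∃ x : UU κ, mp x = Prod.map f id ∧ ∀ y, tht x y φ₀ = φ₀ := by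
  obtain ⟨x, h1, h2⟩ := (hMk κ).2.1 (Prod.map f id) (hf.1.prodMap contDiff_id)
    (fun y => ⟨(part1 κ f hf.1 y).1, by rw [(part1 κ f hf.1 y).2]; exact (hf.2 y.1).1⟩)
    (Set.univ ×ˢ {φ₀}) (fun _ => φ₀) (isPreconnected_univ.prod isPreconnected_singleton)
    continuousOn_const (fun z hz => by
      have e : z.2 = φ₀ := hz.2
      rw [(part1 κ f hf.1 z.1).2, e]
      exact (hf.2 z.1.1).2)
  exact ⟨x, h1, fun y => h2 (y, φ₀) ⟨Set.mem_univ _, rfl⟩⟩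

end Dir

theorem p_dir (hMk : S_Mk) : S_Dir := by
  refine ⟨Dir.part1, Dir.part2 hMk, fun κ _ M _ φ₀ f hf => ?_, fun a b ha hb h1 h2 => ?_,
    fun a b ha hb h1 h2 => ?_⟩
  · choose x hx1 hx2 using fun g => Dir.part2 hMk κ φ₀ (f g) (hf g)
    refine ⟨{ toFun := x, map_one' := ?_, map_mul' := fun g h => ?_ }, fun g => ⟨hx1 g, hx2 g⟩⟩
    · refine (hMk κ).1 _ _ ?_ ⟨0, φ₀, by rw [hx2, tht_one]⟩
      rw [hx1, map_one, mp_one]
      rfl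
    · refine (hMk κ).1 _ _ ?_ ⟨0, φ₀, by rw [tht_mul, hx2, hx2, hx2]⟩
      rw [mp_mul, hx1, hx1, hx1, map_mul]
      rfl
  · have hs : ContDiff ℝ ∞ (Dir.cm a fun _ => b) := Dir.cm_smooth ha (hb.comp contDiff_snd)
    refine ⟨hs, fun ζ => ?_⟩
    obtain ⟨e1, e2, _, e4⟩ := Dir.cm_fderiv hs ζ
    rw [deriv_const] at e2
    change 0 < dt (fderiv ℝ (Dir.cm a fun _ => b) ζ) ∧ ∃ r : ℝ, 0 < r ∧
      fderiv ℝ (Dir.cm a fun _ => b) ζ (ee 0) = r • ee 0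
    refine ⟨?_, _, h1 ζ.re ζ.im, ?_⟩
    · rw [dt, e1, e2, e4, zero_mul, sub_zero]
      exact mul_pos (h1 _ _) (h2 _)
    · rw [Dir.ee_zero]
      apply Complex.ext
      · rw [e1]; simp
      · rw [e2]; simp
  · have hs : ContDiff ℝ ∞ (Dir.cm (fun s _ => a s) b) := Dir.cm_smooth (ha.comp contDiff_fst) hb
    refine ⟨hs, fun ζ => ?_⟩
    obtain ⟨e1, _, e3, e4⟩ := Dir.cm_fderiv hs ζ
    rw [deriv_const] at e3
    change 0 < dt (fderiv ℝ (Dir.cm (fun s _ => a s) b) ζ) ∧ ∃ r : ℝ, 0 < r ∧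
      fderiv ℝ (Dir.cm (fun s _ => a s) b) ζ (ee (Real.pi / 2)) = r • ee (Real.pi / 2)
    refine ⟨?_, _, h2 ζ.re ζ.im, ?_⟩
    · rw [dt, e1, e3, e4, mul_zero, sub_zero]
      exact mul_pos (h1 _) (h2 _ _)
    · rw [Dir.ee_half]
      apply Complex.ext
      · rw [e3]; simp
      · rw [e4]; simp

end Pool.Agent.P.MP_878f14_gt.Sg
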