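import Pool.Agent.P.MP_878f14_gt.Sg.DefA

/-!
A cochain which is not a coboundary is detected by a cycle of the bar complex.
-/

namespace Pool.Agent.P.MP_878f14_gt.Sg

theorem p_dual (hFace : S_Face) : S_Dual := by
  intro Λ _ w n hw hnb
  classical
  rcases n with _ | p
  · refine ⟨Finsupp.single [] 1, ?_, ?_, ?_⟩
    · intro l hl
      rw [Finsupp.mem_support_single] at hl
      rw [hl.1]; rfl
    · intro β
      rw [Finsupp.sum_single_index (by simp)]
      simp [dl]
    · rw [Finsupp.sum_single_index (by simp), one_mul]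
      intro h0
      refine hnb ⟨fun l => 0, funext fun l => ?_⟩
      rcases l with _ | ⟨g, l⟩
      · rw [h0]; rfl
      · rw [hw _ (by simp)]
        obtain ⟨face, hf⟩ := hFace Λ l.length
        rw [(hf (g :: l) rfl).2]
        simp
  · obtain ⟨face, hf⟩ := hFace Λ p
    let V := {l : List Λ // l.length = p + 1}
    let bd : (V →₀ ℝ) →ₗ[ℝ] (List Λ →₀ ℝ) := Finsupp.linearCombination ℝ
      fun l : V => ∑ i ∈ Finset.range (p + 2), ((-1 : ℝ) ^ i) • Finsupp.single (face i l.1) (1 : ℝ)
    let Wl : (V →₀ ℝ) →ₗ[ℝ] ℝ := Finsupp.linearCombination ℝ fun l : V => w l.1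
    have hbd : ∀ (φ : (List Λ →₀ ℝ) →ₗ[ℝ] ℝ) (l : V), φ (bd (Finsupp.single l 1)) =
        ∑ i ∈ Finset.range (p + 2), (-1 : ℝ) ^ i * φ (Finsupp.single (face i l.1) 1) := by
      intro φ l
      simp only [bd, Finsupp.linearCombination_single, one_smul, map_sum, map_smul, smul_eq_mul]
    have hex : ∃ z : V →₀ ℝ, bd z = 0 ∧ Wl z ≠ 0 := by
      by_contra hne
      push Not at hne
      have hmem : Wl ∈ (LinearMap.ker bd).dualAnnihilator := by
        rw [Submodule.mem_dualAnnihilator]
        intro z hz
        exact hne z hz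
      rw [← LinearMap.range_dualMap_eq_dualAnnihilator_ker] at hmem
      obtain ⟨φ, hφ⟩ := hmem
      refine hnb ⟨fun l => if l.length = p then φ (Finsupp.single l 1) else 0, funext fun l => ?_⟩
      by_cases hl : l.length = p + 1
      · have h1 : φ (bd (Finsupp.single ⟨l, hl⟩ 1)) = Wl (Finsupp.single ⟨l, hl⟩ 1) := by
          rw [← hφ]; rfl
        rw [hbd] at h1
        rw [(hf l hl).2]
        have h2 : Wl (Finsupp.single ⟨l, hl⟩ 1) = w l := by
          simp only [Wl, Finsupp.linearCombination_single, one_smul]
        rw [← h2, ← h1]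
        refine Finset.sum_congr rfl fun i hi => ?_
        rw [if_pos ((hf l hl).1 i (by have := Finset.mem_range.1 hi; omega)).1]
      · rw [hw l hl]
        rcases l with _ | ⟨g, l⟩
        · rfl
        · obtain ⟨face', hf'⟩ := hFace Λ l.length
          rw [(hf' (g :: l) rfl).2]
          refine Finset.sum_eq_zero fun i hi => ?_
          have h3 := ((hf' (g :: l) rfl).1 i (by have := Finset.mem_range.1 hi; omega)).1
          rw [if_neg, mul_zero]
          rw [h3]
          intro h4
          exact hl (by simp [h4])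
    obtain ⟨z, hz0, hz1⟩ := hex
    have hs : ∀ u : Co Λ, ((z.mapDomain Subtype.val).sum fun l r => r * u l) =
        Finsupp.linearCombination ℝ (fun l : V => u l.1) z := by
      intro u
      rw [Finsupp.sum_mapDomain_index_inj Subtype.val_injective, Finsupp.linearCombination_apply]
      rfl
    refine ⟨z.mapDomain Subtype.val, ?_, ?_, ?_⟩
    · intro l hl
      have := Finsupp.mapDomain_support hl
      obtain ⟨v, _, rfl⟩ := Finset.mem_image.1 this
      exact v.2
    · intro β
      rw [hs]
      have h5 : Finsupp.linearCombination ℝ (fun l : V => dl β l.1) =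
          (Finsupp.linearCombination ℝ β).comp bd := by
        refine Finsupp.lhom_ext' fun l => LinearMap.ext_ring ?_
        simp only [LinearMap.comp_apply, Finsupp.lsingle_apply]
        rw [hbd, Finsupp.linearCombination_single, one_smul, (hf l.1 l.2).2]
        simp only [Finsupp.linearCombination_single, one_smul]
      rw [h5, LinearMap.comp_apply, hz0, map_zero]
    · rw [hs]; exact hz1

end Pool.Agent.P.MP_878f14_gt.Sg
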