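import Pool.Agent.P.MP_878f14_gt.Sg.DefA

/-!
Extension of a cocycle from sorted triples to comparable triples.
-/

namespace Pool.Agent.P.MP_878f14_gt.Sg

namespace Eps

variable {I : Type} [PartialOrder I] [DecidableLE I]

/-- the alternating extension -/
def ext (ε : I → I → I → ℝ) (a b c : I) : ℝ :=
  if a ≤ b then (if b ≤ c then ε a b c else if a ≤ c then -ε a c b else ε c a b)
  else if b ≤ c then (if a ≤ c then -ε b a c else ε b c a) else -ε c b a

theorem three (ε : I → I → I → ℝ) (s : Set I) (hs : IsChain (· ≤ ·) s) (κ : ℝ) (η : I → I → ℝ)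
    (h : ∀ a ∈ s, ∀ b ∈ s, ∀ c ∈ s, a ≤ b → b ≤ c → η a b + η b c - η a c = κ * ε a b c) :
    ∀ a ∈ s, ∀ b ∈ s, ∀ c ∈ s, (if a ≤ b then η a b else -η b a) +
      (if b ≤ c then η b c else -η c b) - (if a ≤ c then η a c else -η c a) =
        κ * ext ε a b c := by
  intro a ha b hb c hc
  have t : ∀ x ∈ s, ∀ y ∈ s, ¬x ≤ y → y ≤ x := fun x hx y hy hxy =>
    (hs.total hx hy).resolve_left hxy
  unfold ext
  by_cases h1 : a ≤ b <;> by_cases h2 : b ≤ c <;> by_cases h3 : a ≤ c <;>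
    simp only [h1, h2, h3, if_true, if_false]
  · exact h a ha b hb c hc h1 h2
  · exact absurd (h1.trans h2) h3
  · linear_combination -h a ha c hc b hb h3 (t b hb c hc h2)
  · linear_combination h c hc a ha b hb (t a ha c hc h3) h1
  · linear_combination -h b hb a ha c hc (t a ha b hb h1) h3
  · linear_combination h b hb c hc a ha h2 (t a ha c hc h3)
  · exact absurd (h3.trans (t b hb c hc h2)) h1
  · linear_combination -h c hc b hb a ha (t b hb c hc h2) (t a ha b hb h1)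

end Eps

theorem p_eps : S_Eps := by
  intro I _ _ ε _ h
  refine ⟨Eps.ext ε, fun a b c h1 h2 => by simp only [Eps.ext, h1, h2, if_true],
    fun s hs a ha b hb c hc d hd => ?_, Eps.three ε⟩
  have hmin : ∀ x ∈ s, ∀ y ∈ s, ∃ m ∈ s, m ≤ x ∧ m ≤ y := fun x hx y hy =>
    (hs.total hx hy).elim (fun e => ⟨x, hx, le_rfl, e⟩) fun e => ⟨y, hy, e, le_rfl⟩
  obtain ⟨m1, h1, ma, mb⟩ := hmin a ha b hb
  obtain ⟨m2, h2, mc, md⟩ := hmin c hc d hd
  obtain ⟨m, -, h3, h4⟩ := hmin m1 h1 m2 h2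
  have key := Eps.three ε {x | x ∈ s ∧ m ≤ x} (hs.mono fun x hx => hx.1) 1 (ε m)
    fun x hx y _ z _ hxy hyz => by linear_combination -h m x y z hx.2 hxy hyz
  have ha' : a ∈ {x | x ∈ s ∧ m ≤ x} := ⟨ha, h3.trans ma⟩
  have hb' : b ∈ {x | x ∈ s ∧ m ≤ x} := ⟨hb, h3.trans mb⟩
  have hc' : c ∈ {x | x ∈ s ∧ m ≤ x} := ⟨hc, h4.trans mc⟩
  have hd' : d ∈ {x | x ∈ s ∧ m ≤ x} := ⟨hd, h4.trans md⟩
  linear_combination -key b hb' c hc' d hd' + key a ha' c hc' d hd' - key a ha' b hb' d hd' +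
    key a ha' b hb' c hc'

end Pool.Agent.P.MP_878f14_gt.Sg
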