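import Pool.Agent.P.MP_878f14_gt.Sg.DefA

/-!
The coboundary of monoid cochains as an alternating sum over faces.
-/

namespace Pool.Agent.P.MP_878f14_gt.Sg

namespace PFace

variable {Λ : Type} [Monoid Λ]

/-- The faces of a simplex of the bar complex. -/
def face : ℕ → List Λ → List Λ
  | 0, l => l.tail
  | 1, g :: h :: l => g * h :: l
  | i + 2, g :: l => g :: face (i + 1) l
  | _ + 1, _ => []

theorem seg_ss (g : Λ) (l : List Λ) (a b : ℕ) : seg (g :: l) (a + 1) (b + 1) = seg l a b := by
  simp [seg]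

theorem seg_zs (g : Λ) (l : List Λ) (b : ℕ) : seg (g :: l) 0 (b + 1) = g * seg l 0 b := by
  simp [seg]

theorem seg_zz (l : List Λ) : seg l 0 0 = 1 := by simp [seg]

theorem up_zero (i : ℕ) : up (i + 1) 0 = 0 := by simp [up]

theorem up_succ (i a : ℕ) : up (i + 1) (a + 1) = up i a + 1 := by
  unfold up
  split_ifs <;> omega

theorem up_bot (a : ℕ) : up 0 a = a + 1 := by simp [up]

theorem geom : ∀ (i p : ℕ) (l : List Λ), l.length = p + 1 → i ≤ p + 1 →
    (face i l).length = p ∧
      ∀ a b, a ≤ b → b ≤ p → seg (face i l) a b = seg l (up i a) (up i b)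
  | _, _, [], h, _ => by simp at h
  | 0, p, g :: l, h, _ => by
    refine ⟨by simpa [face] using h, fun a b _ _ => ?_⟩
    rw [up_bot, up_bot, seg_ss]
    rfl
  | 1, p, [g], h, _ => by
    obtain rfl : p = 0 := by simpa using h.symm
    refine ⟨rfl, fun a b hab hb => ?_⟩
    obtain rfl : b = 0 := by omega
    obtain rfl : a = 0 := by omega
    rw [up_zero, seg_zz, seg_zz]
  | 1, p, g :: g' :: l, h, _ => by
    refine ⟨by simpa [face] using h, fun a b hab _ => ?_⟩
    show seg (g * g' :: l) a b = _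
    rcases b with _ | b
    · obtain rfl : a = 0 := by omega
      rw [up_zero, seg_zz, seg_zz]
    · rcases a with _ | a
      · rw [up_zero, up_succ, up_bot, seg_zs, seg_zs, seg_zs, mul_assoc]
      · rw [up_succ, up_succ, up_bot, up_bot, seg_ss, seg_ss, seg_ss]
  | i + 2, 0, _ :: _, _, hi => by omega
  | i + 2, p + 1, g :: l, h, hi => by
    obtain ⟨h1, h2⟩ := geom (i + 1) p l (by simpa using h) (by omega)
    refine ⟨by simpa [face] using h1, fun a b hab hb => ?_⟩
    show seg (g :: face (i + 1) l) a b = _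
    rcases b with _ | b
    · obtain rfl : a = 0 := by omega
      rw [up_zero, seg_zz, seg_zz]
    · rcases a with _ | a
      · rw [up_zero, up_succ, seg_zs, seg_zs, h2 0 b (by omega) (by omega), up_zero]
      · rw [up_succ, up_succ, seg_ss, seg_ss, h2 a b (by omega) (by omega)]

theorem alt : ∀ (l : List Λ) (g : Λ) (β : Co Λ),
    dl β (g :: l) = ∑ i ∈ Finset.range (l.length + 2), (-1) ^ i * β (face i (g :: l))
  | [], g, β => by simp [dl, Finset.sum_range_succ, face]
  | h :: l, g, β => by
    have ih := alt l h (sh g β)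
    rw [Finset.sum_range_succ'] at ih
    rw [List.length_cons, Finset.sum_range_succ', Finset.sum_range_succ', dl, ih]
    have e : ∑ i ∈ Finset.range (l.length + 1), (-1 : ℝ) ^ (i + 1 + 1) *
        β (face (i + 1 + 1) (g :: h :: l)) =
        -∑ i ∈ Finset.range (l.length + 1), (-1 : ℝ) ^ (i + 1) * sh g β (face (i + 1) (h :: l)) := by
      rw [← Finset.sum_neg_distrib]
      refine Finset.sum_congr rfl fun i _ => ?_
      show (-1 : ℝ) ^ (i + 1 + 1) * β (g :: face (i + 1) (h :: l)) =
        -((-1 : ℝ) ^ (i + 1) * β (g :: face (i + 1) (h :: l)))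
      ring
    rw [e]
    show _ = _ + (-1 : ℝ) ^ (0 + 1) * β (g * h :: l) + (-1 : ℝ) ^ 0 * β (h :: l)
    have e2 : sh g β (face 0 (h :: l)) = β (g :: l) := rfl
    rw [e2]
    ring

end PFace

theorem p_face : S_Face := by
  intro Λ _ p
  refine ⟨PFace.face, fun l hl => ⟨fun i hi => PFace.geom i p l hl hi, fun β => ?_⟩⟩
  rcases l with _ | ⟨g, l⟩
  · simp at hl
  · obtain rfl : l.length = p := by simpa using hl
    exact PFace.alt l g β

end Pool.Agent.P.MP_878f14_gt.Sg
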