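import Pool.Agent.P.MP_878f14_gt.Sg.DefA

/-!
The poset can be taken finite.
-/

namespace Pool.Agent.P.MP_878f14_gt.Sg

namespace PFin

theorem cob_map {I J : Type} (e : J → I) (l : List J) :
    ∀ ψ : Co I, cob ψ (l.map e) = cob (fun m => ψ (m.map e)) l := by
  induction l with
  | nil => intro ψ; rfl
  | cons a l ih =>
    intro ψ
    rw [List.map_cons, cob, cob, ih]
    rfl

end PFin

theorem p_fin : S_Fin := by
  intro I y hy
  classical
  let s : Finset I := y.support.biUnion List.toFinset
  let e : Fin s.card → I := fun i => (s.equivFin.symm i).1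
  have he : Function.Injective e :=
    Subtype.val_injective.comp s.equivFin.symm.injective
  have hme : Function.Injective (List.map e) := List.map_injective_iff.2 he
  have hr : (y.support : Set (List I)) ⊆ Set.range (List.map e) := by
    intro l hl
    have h1 : ∀ a ∈ l, a ∈ Set.range e := by
      intro a ha
      have h2 : a ∈ s := Finset.mem_biUnion.2 ⟨l, hl, List.mem_toFinset.2 ha⟩
      exact ⟨s.equivFin ⟨a, h2⟩, by simp [e]⟩
    rw [Set.range_list_map]
    exact h1
  let y' : List (Fin s.card) →₀ ℝ := y.comapDomain (List.map e) hme.injOn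
  have hyy : y'.mapDomain (List.map e) = y := Finsupp.mapDomain_comapDomain _ hme y hr
  have hs : ∀ w : Co I, (y'.sum fun l r => r * w (l.map e)) = y.sum fun l r => r * w l := by
    intro w
    conv_rhs => rw [← hyy]
    rw [Finsupp.sum_mapDomain_index_inj hme]
  refine ⟨s.card, e, y', he, ?_, ?_, hs⟩
  · intro l hl
    rw [Finsupp.mem_support_iff] at hl ⊢
    exact hl
  · intro ψ'
    have h3 := hy (Function.extend (List.map e) ψ' 0)
    rw [← hs] at h3
    rw [← h3]
    refine Finsupp.sum_congr fun l _ => ?_
    rw [PFin.cob_map]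
    congr 2
    funext m
    rw [hme.extend_apply]

end Pool.Agent.P.MP_878f14_gt.Sg
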