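import Pool.Agent.P.MP_878f14_gt.Sg.StU

/-!
A smooth flow on the line fixing a half line.
-/

open scoped ContDiff

namespace Pool.Agent.P.MP_878f14_gt.Sg

namespace PFlo

/-- The auxiliary polynomial. -/
def nn (x d : ℝ) : ℝ := x ^ 2 - 1 + d * x

/-- The multiplier of the flow of translations in the coordinate `x - 1/x`. -/
noncomputable def qq (x d : ℝ) : ℝ := 2 / (Real.sqrt (nn x d ^ 2 + 4 * x ^ 2) - nn x d)

/-- The coordinate `x - 1/x`. -/
noncomputable def cc (x : ℝ) : ℝ := x - x⁻¹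

/-- The flat exponential. -/
noncomputable def ex (x : ℝ) : ℝ := Real.exp x * expNegInvGlue x

/-- The flow. -/
noncomputable def fl (t x : ℝ) : ℝ := x * qq x (Real.log (qq (ex x) t))

/-- The straightening coordinate. -/
noncomputable def ps (x : ℝ) : ℝ := cc (Real.exp (cc x))

theorem arg_pos (x d : ℝ) : 0 < nn x d ^ 2 + 4 * x ^ 2 := by
  rcases eq_or_ne x 0 with h | h
  · subst h; simp [nn]
  · have : 0 < x ^ 2 := by positivity
    positivity

theorem den_pos (x d : ℝ) : 0 < Real.sqrt (nn x d ^ 2 + 4 * x ^ 2) - nn x d := by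
  rcases eq_or_ne x 0 with h | h
  · subst h; simp [nn]
  · have h2 : 0 < x ^ 2 := by positivity
    have : nn x d < Real.sqrt (nn x d ^ 2 + 4 * x ^ 2) := by
      apply Real.lt_sqrt_of_sq_lt
      linarith
    linarith

theorem qq_pos (x d : ℝ) : 0 < qq x d := div_pos two_pos (den_pos x d)

theorem qq_zero_right (x : ℝ) : qq x 0 = 1 := by
  have h : nn x 0 ^ 2 + 4 * x ^ 2 = (x ^ 2 + 1) ^ 2 := by unfold nn; ring
  unfold qq
  rw [h, Real.sqrt_sq (by positivity)]
  have : x ^ 2 + 1 - nn x 0 = 2 := by unfold nn; ring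
  rw [this]; norm_num

theorem qq_zero_left (d : ℝ) : qq 0 d = 1 := by
  have h : nn 0 d = -1 := by unfold nn; ring
  unfold qq
  rw [h]; norm_num

theorem qq_smooth : ContDiff ℝ ∞ fun p : ℝ × ℝ => qq p.1 p.2 := by
  have hn : ContDiff ℝ ∞ fun p : ℝ × ℝ => nn p.1 p.2 := by
    unfold nn; fun_prop
  have ha : ContDiff ℝ ∞ fun p : ℝ × ℝ => nn p.1 p.2 ^ 2 + 4 * p.1 ^ 2 :=
    (hn.pow 2).add (contDiff_const.mul (contDiff_fst.pow 2))
  have hs : ContDiff ℝ ∞ fun p : ℝ × ℝ => Real.sqrt (nn p.1 p.2 ^ 2 + 4 * p.1 ^ 2) :=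
    ha.sqrt fun p => (arg_pos p.1 p.2).ne'
  exact contDiff_const.div (hs.sub hn) fun p => (den_pos p.1 p.2).ne'

theorem cc_qq {x : ℝ} (hx : 0 < x) (d : ℝ) : cc (x * qq x d) = cc x + d := by
  have hd := den_pos x d
  have hs : Real.sqrt (nn x d ^ 2 + 4 * x ^ 2) ^ 2 = nn x d ^ 2 + 4 * x ^ 2 :=
    Real.sq_sqrt (arg_pos x d).le
  unfold cc qq
  generalize Real.sqrt (nn x d ^ 2 + 4 * x ^ 2) = s at hd hs
  have hn : nn x d = x ^ 2 - 1 + d * x := rfl
  generalize nn x d = n at hd hs hn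
  have h1 : x * (2 / (s - n)) = (s + n) / (2 * x) := by
    field_simp
    linarith
  have h2 : (x * (2 / (s - n)))⁻¹ = (s - n) / (2 * x) := by
    field_simp
  rw [h2, h1]
  field_simp
  linarith

theorem cc_lt {x y : ℝ} (hx : 0 < x) (hxy : x < y) : cc x < cc y := by
  unfold cc
  have : y⁻¹ < x⁻¹ := inv_strictAnti₀ hx hxy
  linarith

theorem ps_lt {x y : ℝ} (hx : 0 < x) (hxy : x < y) : ps x < ps y :=
  cc_lt (Real.exp_pos _) (Real.exp_lt_exp.mpr (cc_lt hx hxy))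

theorem le_of_ps {x y : ℝ} (hy : 0 < y) (h : ps x ≤ ps y) : x ≤ y := by
  by_contra hc
  exact absurd (ps_lt hy (not_le.mp hc)) (not_lt.mpr h)

theorem ex_pos {x : ℝ} (hx : 0 < x) : ex x = Real.exp (cc x) := by
  unfold ex cc expNegInvGlue
  rw [if_neg (not_le.mpr hx), ← Real.exp_add]
  congr 1

theorem ex_nonpos {x : ℝ} (hx : x ≤ 0) : ex x = 0 := by
  unfold ex
  rw [expNegInvGlue.zero_of_nonpos hx, mul_zero]

theorem fl_pos {x : ℝ} (hx : 0 < x) (t : ℝ) : 0 < fl t x := mul_pos hx (qq_pos _ _)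

theorem ps_fl {x : ℝ} (hx : 0 < x) (t : ℝ) : ps (fl t x) = ps x + t := by
  unfold ps fl
  rw [cc_qq hx, Real.exp_add, Real.exp_log (qq_pos _ _), ex_pos hx, cc_qq (Real.exp_pos _)]

theorem fl_nonpos {x : ℝ} (hx : x ≤ 0) (t : ℝ) : fl t x = x := by
  unfold fl
  rw [ex_nonpos hx, qq_zero_left, Real.log_one, qq_zero_right, mul_one]

theorem fl_zero (x : ℝ) : fl 0 x = x := by
  unfold fl
  rw [qq_zero_right, Real.log_one, qq_zero_right, mul_one]

theorem fl_add (s t x : ℝ) : fl (s + t) x = fl s (fl t x) := by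
  rcases le_or_gt x 0 with hx | hx
  · rw [fl_nonpos hx, fl_nonpos hx, fl_nonpos hx]
  · have h : ps (fl (s + t) x) = ps (fl s (fl t x)) := by
      rw [ps_fl hx, ps_fl (fl_pos hx t), ps_fl hx]; ring
    exact le_antisymm (le_of_ps (fl_pos (fl_pos hx t) s) h.le) (le_of_ps (fl_pos hx _) h.ge)

theorem qq_comp {a b : ℝ × ℝ → ℝ} (ha : ContDiff ℝ ∞ a) (hb : ContDiff ℝ ∞ b) :
    ContDiff ℝ ∞ fun p => qq (a p) (b p) :=
  ContDiff.comp (g := fun p : ℝ × ℝ => qq p.1 p.2) (f := fun p => (a p, b p)) qq_smooth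
    (ha.prodMk hb)

theorem fl_smooth : ContDiff ℝ ∞ fun p : ℝ × ℝ => fl p.1 p.2 := by
  have he : ContDiff ℝ ∞ ex := Real.contDiff_exp.mul expNegInvGlue.contDiff
  have h0 : ContDiff ℝ ∞ fun p : ℝ × ℝ => ex p.2 :=
    ContDiff.comp (g := ex) (f := Prod.snd) he contDiff_snd
  have h1 : ContDiff ℝ ∞ fun p : ℝ × ℝ => qq (ex p.2) p.1 := qq_comp h0 contDiff_fst
  have h2 : ContDiff ℝ ∞ fun p : ℝ × ℝ => Real.log (qq (ex p.2) p.1) :=
    h1.log fun p => (qq_pos _ _).ne'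
  have h3 : ContDiff ℝ ∞ fun p : ℝ × ℝ => qq p.2 (Real.log (qq (ex p.2) p.1)) :=
    qq_comp contDiff_snd h2
  unfold fl
  exact contDiff_snd.mul h3

theorem fl_mono (t : ℝ) : Monotone (fl t) := by
  intro x y hxy
  rcases le_or_gt y 0 with hy | hy
  · rw [fl_nonpos hy, fl_nonpos (hxy.trans hy)]; exact hxy
  · rcases le_or_gt x 0 with hx | hx
    · rw [fl_nonpos hx]; exact hx.trans (fl_pos hy t).le
    · apply le_of_ps (fl_pos hy t)
      rw [ps_fl hx, ps_fl hy]
      rcases hxy.eq_or_lt with h | h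
      · rw [h]
      · linarith [ps_lt hx h]

theorem fl_diff (t : ℝ) : Differentiable ℝ (fl t) := by
  have h : ContDiff ℝ ∞ fun x : ℝ => fl t x :=
    ContDiff.comp (g := fun p : ℝ × ℝ => fl p.1 p.2) (f := fun x : ℝ => (t, x)) fl_smooth
      (contDiff_const.prodMk contDiff_id)
  exact h.differentiable (by simp)

theorem fl_diff' (x : ℝ) : Differentiable ℝ fun s => fl s x := by
  have h : ContDiff ℝ ∞ fun s : ℝ => fl s x :=
    ContDiff.comp (g := fun p : ℝ × ℝ => fl p.1 p.2) (f := fun s : ℝ => (s, x)) fl_smooth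
      (contDiff_id.prodMk contDiff_const)
  exact h.differentiable (by simp)

theorem deriv_fl_pos (t x : ℝ) : 0 < deriv (fl t) x := by
  refine lt_of_le_of_ne (fl_mono t).deriv_nonneg fun h => ?_
  have h1 : HasDerivAt (fl (-t) ∘ fl t) (deriv (fl (-t)) (fl t x) * deriv (fl t) x) x :=
    ((fl_diff (-t)) (fl t x)).hasDerivAt.comp x (fl_diff t x).hasDerivAt
  have h2 : fl (-t) ∘ fl t = id := by
    funext y
    simp only [Function.comp_apply, id]
    rw [← fl_add, neg_add_cancel, fl_zero]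
  rw [h2, ← h, mul_zero] at h1
  exact one_ne_zero ((hasDerivAt_id x).unique h1)

theorem ps_diff {x : ℝ} (hx : 0 < x) : DifferentiableAt ℝ ps x := by
  have hc : ∀ y : ℝ, 0 < y → DifferentiableAt ℝ cc y := fun y hy =>
    differentiableAt_id.sub (differentiableAt_inv hy.ne')
  exact DifferentiableAt.comp (g := cc) (f := fun x => Real.exp (cc x)) x
    (hc _ (Real.exp_pos _)) (hc x hx).exp

theorem deriv_orbit_pos (t : ℝ) : 0 < deriv (fun s => fl s 1) t := by
  have hm : Monotone fun s => fl s 1 := by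
    intro a b hab
    apply le_of_ps (fl_pos one_pos b)
    rw [ps_fl one_pos, ps_fl one_pos]
    linarith
  refine lt_of_le_of_ne hm.deriv_nonneg fun h => ?_
  have h1 : HasDerivAt (ps ∘ fun s => fl s 1)
      (deriv ps (fl t 1) * deriv (fun s => fl s 1) t) t :=
    (ps_diff (fl_pos one_pos t)).hasDerivAt.comp t (fl_diff' 1 t).hasDerivAt
  have h2 : (ps ∘ fun s => fl s 1) = fun s => ps 1 + s := by
    funext s
    simp only [Function.comp_apply]
    rw [ps_fl one_pos]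
  rw [h2, ← h, mul_zero] at h1
  exact one_ne_zero (((hasDerivAt_id t).const_add (ps 1)).unique h1)

end PFlo

theorem p_flo : S_Flo :=
  ⟨PFlo.fl, PFlo.fl_smooth, PFlo.fl_zero, PFlo.fl_add, fun t _ hx => PFlo.fl_nonpos hx t,
    PFlo.deriv_fl_pos, PFlo.deriv_orbit_pos⟩

end Pool.Agent.P.MP_878f14_gt.Sg
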