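import Pool.Agent.P.MP_878f14_gt.Sg.StG

/-!
The geometric part: a Haefliger structure on the thickened nerve and its Chern-Weil form.
-/

open Filter Topology MeasureTheory
open scoped ContDiff

namespace Pool.Agent.P.MP_878f14_gt.Sg

/-- A one-form times a constant vector. -/
noncomputable def sr (E : Type) {F : Type} [NormedAddCommGroup E] [NormedSpace ℝ E]
    [NormedAddCommGroup F] [NormedSpace ℝ F] (J : F) : (E →L[ℝ] ℝ) →L[ℝ] E →L[ℝ] F :=
  ContinuousLinearMap.compL ℝ E ℝ F (ContinuousLinearMap.toSpanSingleton ℝ J)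

theorem sr_apply {E F : Type} [NormedAddCommGroup E] [NormedSpace ℝ E] [NormedAddCommGroup F]
    [NormedSpace ℝ F] (J : F) (b : E →L[ℝ] ℝ) (v : E) : sr E J b v = b v • J := rfl

section
variable {D ι T X : Type} [Monoid D] [Fintype ι] [DecidableEq ι] [NormedAddCommGroup T]
  [NormedSpace ℝ T] [NormedAddCommGroup X] [NormedSpace ℝ X] (A : Act D ι T X)

theorem Act.al_one (x : X) (hx : x ∈ A.S) : A.al 1 x = 0 := by
  have := A.al_mul 1 1 x hx
  rw [mul_one, A.hat_one x hx] at this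
  simpa using this

/-- The defect of additivity. -/
def Act.E (g h : D) : ι → ℝ := A.al (g * h) A.x0 - A.al g A.x0 - A.al h A.x0

theorem Act.E_eq (g h : D) : A.E g h = A.al g (A.hat h A.x0) - A.al g A.x0 := by
  rw [Act.E, A.al_mul g h _ A.x0_mem]
  abel

theorem Act.E_congr {g g' h h' : D} (hg : A.act g = A.act g') (hh : A.act h = A.act h') :
    A.E g h = A.E g' h' := by
  obtain ⟨t, ht⟩ := (A.ker g g' hg).2
  rw [A.E_eq, A.E_eq, (A.ker h h' hh).1 _ A.x0_mem, ht _ A.x0_mem,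
    ht _ (A.hat_mem _ _ A.x0_mem)]
  abel

theorem Act.E_one_left (h : D) : A.E 1 h = 0 := by
  rw [Act.E, one_mul, A.al_one _ A.x0_mem]
  abel

theorem Act.E_one_right (g : D) : A.E g 1 = 0 := by
  rw [Act.E, mul_one, A.al_one _ A.x0_mem]
  abel

theorem Act.E_coc (g h k : D) : A.E h k - A.E (g * h) k + A.E g (h * k) - A.E g h = 0 := by
  simp only [Act.E, mul_assoc]
  abel

theorem Act.R_inv' (t : ι → ℝ) : A.R (-t) * A.R t = 1 := by simpa using A.R_inv (-t)

/-- The abelian connection. -/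
noncomputable def Act.ab {E : Type} [NormedAddCommGroup E] [NormedSpace ℝ E]
    (B : ι → E → E →L[ℝ] ℝ) (p : E) : E →L[ℝ] T →L[ℝ] T :=
  ∑ i, sr E (A.J i) ((2 * Real.pi) • B i p)

theorem Act.ab_apply {E : Type} [NormedAddCommGroup E] [NormedSpace ℝ E]
    (B : ι → E → E →L[ℝ] ℝ) (p v : E) : A.ab B p v = ∑ i, (2 * Real.pi * B i p v) • A.J i := by
  simp only [Act.ab, sum_apply, sr_apply, smul_apply,
    smul_eq_mul]

theorem Act.ab_sm {E : Type} [NormedAddCommGroup E] [NormedSpace ℝ E]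
    (B : ι → E → E →L[ℝ] ℝ) (p : E) (h : ∀ i, ContDiffAt ℝ ∞ (B i) p) :
    ContDiffAt ℝ ∞ (A.ab B) p := by
  refine ContDiffAt.sum fun i _ => ?_
  exact (sr E (A.J i)).contDiff.contDiffAt.comp p ((h i).const_smul (2 * Real.pi))

theorem Act.ab_curv {E : Type} [NormedAddCommGroup E] [NormedSpace ℝ E]
    (B : ι → E → E →L[ℝ] ℝ) (p : E) (h : ∀ i, ContDiffAt ℝ ∞ (B i) p) (v w : E) :
    curv (A.ab B) p v w =
      ∑ i, (2 * Real.pi * (fderiv ℝ (B i) p v w - fderiv ℝ (B i) p w v)) • A.J i := by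
  have h0 : ∀ i, HasFDerivAt (fun p => sr E (A.J i) ((2 * Real.pi) • B i p))
      ((sr E (A.J i)).comp ((2 * Real.pi) • fderiv ℝ (B i) p)) p := fun i =>
    (sr E (A.J i)).hasFDerivAt.comp p
      (((h i).differentiableAt (by simp)).hasFDerivAt.const_smul (2 * Real.pi))
  have h1 : HasFDerivAt (A.ab B)
      (∑ i, (sr E (A.J i)).comp ((2 * Real.pi) • fderiv ℝ (B i) p)) p :=
    HasFDerivAt.fun_sum (u := Finset.univ) fun i _ => h0 i
  have h2 : ∀ v w, fderiv ℝ (A.ab B) p v w =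
      ∑ i, (2 * Real.pi * fderiv ℝ (B i) p v w) • A.J i := fun v w => by
    rw [h1.fderiv]
    simp only [sum_apply, ContinuousLinearMap.comp_apply, sr_apply,
      smul_apply, smul_eq_mul]
  have h3 : A.ab B p v * A.ab B p w = A.ab B p w * A.ab B p v := by
    rw [A.ab_apply, A.ab_apply]
    refine Commute.sum_left _ _ _ fun i _ => Commute.sum_right _ _ _ fun j _ => ?_
    exact (Commute.smul_left (A.J_J i j) _).smul_right _
  rw [curv, h2, h2, h3, sub_self, add_zero, ← Finset.sum_sub_distrib]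
  refine Finset.sum_congr rfl fun i _ => ?_
  rw [← sub_smul, mul_sub]

theorem Act.ab_tr {E : Type} [NormedAddCommGroup E] [NormedSpace ℝ E]
    (B B' : ι → E → E →L[ℝ] ℝ) (α : ι → E → ℝ) (t : ι → ℝ) (p : E)
    (hα : ∀ i, DifferentiableAt ℝ (α i) p) (h : ∀ i, B' i p = B i p + fderiv ℝ (α i) p) :
    DifferentiableAt ℝ (fun y => A.R fun i => 2 * Real.pi * α i y + t i) p ∧
    ∀ v, A.R (fun i => 2 * Real.pi * α i p + t i) * A.ab B' p v =
      A.ab B p v * A.R (fun i => 2 * Real.pi * α i p + t i) +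
        fderiv ℝ (fun y => A.R fun i => 2 * Real.pi * α i y + t i) p v := by
  have h1 : HasFDerivAt (fun y i => 2 * Real.pi * α i y + t i)
      (ContinuousLinearMap.pi fun i => (2 * Real.pi) • fderiv ℝ (α i) p) p :=
    hasFDerivAt_pi.2 fun i => ((hα i).hasFDerivAt.const_mul _).add_const _
  have h2 := (A.R_sm.differentiable (by simp) _).hasFDerivAt.comp p h1
  refine ⟨h2.differentiableAt, fun v => ?_⟩
  have h3 : fderiv ℝ (fun y => A.R fun i => 2 * Real.pi * α i y + t i) p = _ := h2.fderiv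
  rw [h3, ContinuousLinearMap.comp_apply, A.R_d, ← add_mul, A.ab_apply, A.ab_apply,
    ← Finset.sum_add_distrib, Finset.mul_sum, Finset.sum_mul]
  refine Finset.sum_congr rfl fun i _ => ?_
  rw [← add_smul, mul_smul_comm, smul_mul_assoc, A.R_J, h]
  simp [mul_add]

end

theorem cupV_congr {ι I : Type} [PartialOrder I] (ε ε' : ι → I → I → I → ℝ)
    (h : ∀ i a b c, a ≤ b → b ≤ c → ε' i a b c = ε i a b c) (is : List ι) :
    ∀ l : List I, l.Pairwise (· ≤ ·) → cupV ε' is l = cupV ε is l := by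
  induction is with
  | nil => intro l _; rfl
  | cons i is ih =>
    intro l hl
    match l, hl with
    | [], _ => rfl
    | [_], _ => rfl
    | [_, _], _ => rfl
    | a :: b :: c :: l, hl =>
      simp only [cupV]
      rw [ih _ hl.of_cons.of_cons, h i a b c (List.rel_of_pairwise_cons hl (by simp))
        (List.rel_of_pairwise_cons hl.of_cons (by simp))]

theorem p_geo (hOpen : S_Open) (hPar : S_Par) (hThick : S_Thick) (hOrd : S_Ord) (hEps : S_Eps)
    (hConn : S_Conn) (hGA : S_GaugeA) (hGB : S_GaugeB) (hCwf : S_Cwf) (hGlu : S_Glu)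
    (hZig : S_Zig) (hInt : S_Int2) (hStk : S_StkL) : S_Geo := by
  intro D ι T X I _ _ _ _ _ _ _ _ _ _ _ A n P hP g ε y hg1 hg2 hε hy hcyc hne
  classical
  have : CompleteSpace T := FiniteDimensional.complete ℝ T
  have hoo : (∞ : WithTop ℕ∞) ≠ 0 := by simp
  have hpi : 2 * Real.pi ≠ 0 := by positivity
  obtain ⟨hM, hW, hcov, hch, -⟩ := hOpen I
  obtain ⟨ρ, hρ⟩ := hPar I
  obtain ⟨Y, hY, hYG⟩ := hThick I X A.S A.x0 (fun a b => A.hat (g a b)) A.x0_mem A.star
    (fun a b _ x hx => ⟨A.hat_mem _ x hx, A.hat_sm _ x hx⟩)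
    (fun a x hx => ((A.ker _ 1 ((hg1 a).trans (map_one _).symm)).1 x hx).trans (A.hat_one x hx))
    (fun a b c hab hbc x hx => (A.hat_mul _ _ x hx).symm.trans
      ((A.ker _ _ (hg2 a b c hab hbc)).1 x hx))
  have hcmp : ∀ a b : I, ∀ p ∈ WC a ∩ WC b, a ≤ b ∨ b ≤ a := fun a b p hp =>
    (hch p hp.1.1).total hp.1 hp.2
  -- frames
  let k : I → (I → ℝ) → T →L[ℝ] T := fun a p => A.fr (Y a p)
  let k' : I → (I → ℝ) → T →L[ℝ] T := fun a p => Ring.inverse (A.fr (Y a p))
  have hk : ∀ a, ∀ p ∈ WC a, k a p * k' a p = 1 ∧ k' a p * k a p = 1 := fun a p hp =>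
    ⟨Ring.mul_inverse_cancel _ (A.unit _ (hY a p hp).1),
      Ring.inverse_mul_cancel _ (A.unit _ (hY a p hp).1)⟩
  have hks : ∀ a, ∀ p ∈ WC a, ContDiffAt ℝ ∞ (k a) p := fun a p hp =>
    A.fr_sm.contDiffAt.comp p (hY a p hp).2
  have hks' : ∀ a, ∀ p ∈ WC a, ContDiffAt ℝ ∞ (k' a) p := fun a p hp => by
    obtain ⟨u, hu⟩ := A.unit _ (hY a p hp).1
    have := contDiffAt_ringInverse ℝ (n := ∞) u
    rw [hu] at this
    exact ContDiffAt.comp (g := Ring.inverse) p this (hks a p hp)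
  have hnear : ∀ a, ∀ p ∈ WC a, ∀ᶠ y in 𝓝 p, k a y * k' a y = 1 ∧ k' a y * k a y = 1 :=
    fun a p hp => by filter_upwards [(hW a).mem_nhds hp] with y hy using hk a y hy
  have hD : ∀ a b, a ≤ b → ∀ p ∈ WC a ∩ WC b,
      fderiv ℝ (A.act (g a b) : T → T) (A.pt (Y b p)) =
        k a p * A.R (A.al (g a b) (Y b p)) * k' b p := fun a b hab p hp => by
    have := A.key (g a b) _ (hY b p hp.2).1
    rw [← hYG a b hab p hp] at this
    rw [← this, mul_assoc, (hk b p hp.2).1, mul_one]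
  have hD' : ∀ a b, a ≤ b → ∀ p ∈ WC a ∩ WC b,
      fderiv ℝ (A.act (g a b) : T → T) (A.pt (Y b p)) *
        (k b p * A.R (-A.al (g a b) (Y b p)) * k' a p) = 1 := fun a b hab p hp => by
    rw [hD a b hab p hp]
    simp only [mul_assoc]
    rw [← mul_assoc (k' b p), (hk b p hp.2).2, one_mul, ← mul_assoc (A.R _), A.R_inv, one_mul,
      (hk a p hp.1).1]
  obtain ⟨H, hHW, hHg⟩ := hOrd (I → ℝ) T I (MM I) WC (fun a p => A.pt (Y a p))
    (fun a b => A.act (g a b)) hW hcov
    (fun a p hp => (A.pt_sm.contDiffAt.comp p (hY a p hp).2).contDiffWithinAt) hcmp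
    (fun a b => A.sm _) hg1 (fun a b c hab hbc => by rw [← hg2 a b c hab hbc, map_mul]; rfl)
    (fun a b hab p hp => ⟨by
      rw [hYG a b hab p hp, A.pt_hat _ _ (hY b p hp.2).1], by
      rw [hD a b hab p hp]
      exact ((A.unit _ (hY a p hp.1).1).mul ⟨⟨_, _, A.R_inv _, A.R_inv' _⟩, rfl⟩).mul
        (A.unit _ (hY b p hp.2).1).ringInverse⟩)
  -- the cocycles
  have hE : ∀ i a b c, a ≤ b → b ≤ c → A.E (g a b) (g b c) i = 2 * Real.pi * ε i a b c := hε
  have hact : ∀ a, A.act (g a a) = A.act 1 := fun a => (hg1 a).trans (map_one _).symm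
  choose ε' he1 he2 he3 using fun i => hEps I (ε i) (fun a b hab => ⟨by
      have := hE i a a b le_rfl hab
      rw [A.E_congr (hact a) rfl, A.E_one_left] at this
      exact (mul_eq_zero.1 this.symm).resolve_left hpi, by
      have := hE i a b b hab le_rfl
      rw [A.E_congr rfl (hact b), A.E_one_right] at this
      exact (mul_eq_zero.1 this.symm).resolve_left hpi⟩) (fun a b c d hab hbc hcd => by
      have := congrFun (A.E_coc (g a b) (g b c) (g c d)) i
      rw [A.E_congr (hg2 a b c hab hbc) rfl, A.E_congr rfl (hg2 b c d hbc hcd), Pi.sub_apply,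
        Pi.add_apply, Pi.sub_apply, hE i b c d hbc hcd, hE i a c d (hab.trans hbc) hcd,
        hE i a b d hab (hbc.trans hcd), hE i a b c hab hbc, Pi.zero_apply] at this
      refine (mul_eq_zero.1 (?_ : 2 * Real.pi * _ = 0)).resolve_left hpi
      linarith)
  let η : ι → (I → ℝ) → I → I → ℝ := fun i p a b =>
    (A.al (g a b) (Y b p) i - A.al (g a b) A.x0 i) / (2 * Real.pi)
  let α : ι → I → I → (I → ℝ) → ℝ := fun i a b p => if a ≤ b then η i p a b else -η i p b a
  have hηs : ∀ i a b, ∀ p ∈ WC b, ContDiffAt ℝ ∞ (fun p => η i p a b) p := fun i a b p hp =>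
    ((contDiffAt_pi.1 ((A.al_sm (g a b) _ (hY b p hp).1).comp p (hY b p hp).2) i).sub
      contDiffAt_const).div_const _
  have hαs : ∀ i a b, ∀ p ∈ WC a ∩ WC b, ContDiffAt ℝ ∞ (α i a b) p := fun i a b p hp => by
    by_cases hab : a ≤ b
    · simpa only [α, if_pos hab] using hηs i a b p hp.2
    · simpa only [α, if_neg hab] using (hηs i b a p hp.1).neg
  choose B hB1 hB2 using fun i => hConn I ρ hρ (α i) (ε' i) (hαs i) (fun a b c p hp => by
      have := he3 i {a | p ∈ WC a} (hch p hp.2.1) 1 (η i p) (fun a ha b hb c hc hab hbc => by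
        obtain ⟨t, ht⟩ := (A.ker _ _ (hg2 a b c hab hbc)).2
        have e1 := congrFun (ht _ (hY c p hc).1) i
        have e2 := congrFun (ht _ A.x0_mem) i
        rw [A.al_mul _ _ _ (hY c p hc).1, ← hYG b c hbc p ⟨hb, hc⟩] at e1
        have e3 := hε i a b c hab hbc
        simp only [Pi.add_apply] at e1 e2
        simp only [η]
        field_simp
        linarith) a hp.1.1 b hp.1.2 c hp.2
      rwa [one_mul] at this) (he2 i)
  have hGA' := fun a p (hp : p ∈ WC a) => hGA _ _ (k a) (k' a) (A.ab fun i => B i a) p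
    (hks a p hp) (hks' a p hp) (A.ab_sm _ p fun i => (hB1 i a p hp).1) (hnear a p hp)
  -- the global form
  let κ : (Fin (n + 1) → ι) → ℝ := fun is => (2 * -(2 * Real.pi)) ^ (n + 1) * P fun s => A.J (is s)
  let Θ : ∀ k : ℕ, (I → ℝ) → (Fin k → I → ℝ) → ℝ := fun k p v =>
    if h : ∃ a : I, p ∈ WC a then
      ∑ is : Fin (n + 1) → ι, κ is * wed ε' h.choose (List.ofFn is) (dets ρ p v) else 0
  obtain ⟨hG1, hG2⟩ := hGlu I ι ρ hρ ε' he2 (2 * (n + 1) + 1) (n + 1) κ Θ
  have hΘ : ∀ k, ∀ b, ∀ p ∈ WC b, ∀ v, Θ k p v =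
      ∑ is : Fin (n + 1) → ι, κ is * wed ε' b (List.ofFn is) (dets ρ p v) := fun k b p hp v => by
    have h : ∃ a : I, p ∈ WC a := ⟨b, hp⟩
    simp only [Θ, dif_pos h]
    exact Finset.sum_congr rfl fun is _ => by rw [hG1 p _ h.choose_spec b hp]
  refine ⟨hM, H, fun a => gauge (k a) (k' a) (A.ab fun i => B i a), Θ (2 * n + 2), ⟨?_, ?_⟩, ?_, ?_⟩
  · intro a p hp
    rw [hHW] at hp
    exact (hGA' a p hp).1.contDiffWithinAt
  · intro a b p hp
    rw [hHW] at hp
    have := A.ab_tr (fun i => B i a) (fun i => B i b) (fun i => α i a b)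
      (if a ≤ b then A.al (g a b) A.x0 else -A.al (g b a) A.x0) p
      (fun i => (hαs i a b p hp).differentiableAt hoo) fun i => hB2 i a b p hp
    refine hGB _ _ (k a) (k' a) (k b) (k' b) _ (H.g a b) _ _ p
      ((hks a p hp.1).differentiableAt hoo) ((hks b p hp.2).differentiableAt hoo)
      ((hks' b p hp.2).differentiableAt hoo) this.1 (hk a p hp.1).2 (hnear b p hp.2) ?_ this.2
    filter_upwards [((hW a).inter (hW b)).mem_nhds hp] with q hq
    by_cases hab : a ≤ b
    · rw [(hHg a b hab q hq).1, hD a b hab q hq]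
      congr 3
      funext i
      simp only [α, η, if_pos hab]
      field_simp
      ring
    · have hba := (hcmp a b q hq).resolve_left hab
      rw [← mul_one (H.g a b q), ← hD' b a hba q ⟨hq.2, hq.1⟩, ← mul_assoc,
        (hHg b a hba q ⟨hq.2, hq.1⟩).2, one_mul]
      congr 3
      funext i
      simp only [α, η, if_neg hab, Pi.neg_apply]
      field_simp
      ring
  · intro a p hp v
    rw [hHW] at hp
    have e := hCwf I ι _ ρ n P A.J ε' (-(2 * Real.pi)) a p v
    rw [Finset.mul_sum] at e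
    rw [hΘ _ a p hp]
    simp only [κ, mul_assoc _ (P _)]
    rw [← e]
    unfold cw
    refine Finset.sum_congr rfl fun σ _ => ?_
    congr 1
    let u : (T →L[ℝ] T)ˣ := ⟨k a p, k' a p, (hk a p hp).1, (hk a p hp).2⟩
    rw [← hP u]
    congr 1
    funext t
    rw [(hGA' a p hp).2, A.ab_curv _ p fun i => (hB1 i a p hp).1]
    congr 2
    refine Finset.sum_congr rfl fun i _ => ?_
    rw [(hB1 i a p hp).2, mul_neg, neg_mul]
  · rintro ⟨ζ, hζ, hd⟩
    choose ψ hψ using fun is : Fin (n + 1) → ι => hZig ι I ε' he2 _ _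
      (hInt I ρ hρ (2 * (n + 1) + 1) (by omega)) (List.ofFn is)
    let Θ' : ∀ k : ℕ, (I → ℝ) → (Fin k → I → ℝ) → ℝ := fun k p v =>
      if h : 2 * n + 1 = k then ζ p fun i => v (Fin.cast h i) else 0
    have h1 : ∀ l ∈ y.support, cob (intL (2 * (n + 1) + 1) Θ') l =
        (2 * -(2 * Real.pi)) ^ (n + 1) * (∑ is : Fin (n + 1) → ι, P (fun s => A.J (is s)) *
          cupV ε (List.ofFn is) l) + ∑ is : Fin (n + 1) → ι, κ is * cob (ψ is) l := by
      intro l hl
      obtain ⟨hs, hlen⟩ := hy l hl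
      rw [← hStk I _ (2 * n + 1) ζ Θ' Θ hζ (fun p _ v => by simp [Θ'])
        (fun p hp v => (hd p hp v).symm) l hs hlen.le (by omega)]
      obtain _ | ⟨a, l⟩ := l
      · simp at hlen
      rw [hG2 a l hs hlen.le (hΘ _), Finset.mul_sum, ← Finset.sum_add_distrib]
      refine Finset.sum_congr rfl fun is _ => ?_
      rw [hψ is a l hs hlen.le (by simp at hlen ⊢; omega), cupV_congr ε ε' he1 _ _ hs]
      simp only [κ]
      ring
    have h2 := hcyc (intL (2 * (n + 1) + 1) Θ')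
    have h3 : ∑ l ∈ y.support, y l * ∑ is : Fin (n + 1) → ι, κ is * cob (ψ is) l = 0 := by
      simp only [Finset.mul_sum]
      rw [Finset.sum_comm]
      refine Finset.sum_eq_zero fun is _ => ?_
      have := hcyc (ψ is)
      simp only [mul_left_comm _ (κ is)]
      rw [← Finset.mul_sum]
      exact mul_eq_zero_of_right _ this
    rw [Finsupp.sum, Finset.sum_congr rfl fun l hl => by rw [h1 l hl, mul_add],
      Finset.sum_add_distrib, h3, add_zero] at h2
    simp only [mul_left_comm _ ((2 * -(2 * Real.pi)) ^ (n + 1))] at h2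
    rw [← Finset.mul_sum] at h2
    exact mul_ne_zero (pow_ne_zero _ (mul_ne_zero two_ne_zero (neg_ne_zero.2 hpi))) hne h2

end Pool.Agent.P.MP_878f14_gt.Sg
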