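import Pool.Agent.P.MP_878f14_gt.Sg.StG

/-!
The integral of a glued form.
-/

open Filter Topology MeasureTheory
open scoped ContDiff

namespace Pool.Agent.P.MP_878f14_gt.Sg

namespace Glu

variable {I ι : Type} [Fintype I] [PartialOrder I] {ρ : I → (I → ℝ) → ℝ}

theorem fn_smooth (hρ : IsRho ρ) (r : I → ℝ) : ContDiffOn ℝ ∞ (fn ρ r) (MM I) :=
  ContDiffOn.sum fun j _ => contDiffOn_const.mul (hρ.sm j)

theorem fderiv_add (hρ : IsRho ρ) (hO : IsOpen (MM I)) {p : I → ℝ} (hp : p ∈ MM I)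
    (x y : I → ℝ) (t : ℝ) :
    fderiv ℝ (fn ρ (x + t • y)) p = fderiv ℝ (fn ρ x) p + t • fderiv ℝ (fn ρ y) p := by
  have hd : ∀ r, DifferentiableAt ℝ (fn ρ r) p := fun r =>
    ((fn_smooth hρ r).contDiffAt (hO.mem_nhds hp)).differentiableAt (by simp)
  have e : fn ρ (x + t • y) = fn ρ x + t • fn ρ y := by
    funext q
    simp only [fn, Pi.add_apply, Pi.smul_apply, smul_eq_mul, Finset.mul_sum,
      ← Finset.sum_add_distrib]
    exact Finset.sum_congr rfl fun j _ => by ring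
  rw [e]
  exact ((hd x).hasFDerivAt.add ((hd y).hasFDerivAt.const_smul t)).fderiv

theorem fderiv_zero (hρ : IsRho ρ) (hO : IsOpen (MM I)) {p : I → ℝ} (hp : p ∈ MM I)
    {s : Set I} (hs : ∀ j ∉ s, p ∉ WC j) (x : I → ℝ) (t : ℝ) (hx : ∀ a ∈ s, x a = t) :
    fderiv ℝ (fn ρ x) p = 0 := by
  have h1 : ∀ᶠ q in 𝓝 p, ∀ j, j ∉ s → ρ j q = 0 := eventually_all.2 fun j => by
    by_cases hj : j ∈ s
    · exact Eventually.of_forall fun _ h => absurd hj h
    · exact (hρ.supp j p hp (hs j hj)).mono fun q hq _ => hq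
  have h2 : fn ρ x =ᶠ[𝓝 p] fun _ => t := by
    filter_upwards [h1, hO.mem_nhds hp] with q hq hq'
    have e : ∀ j, x j * ρ j q = t * ρ j q := fun j => by
      by_cases hj : j ∈ s
      · rw [hx j hj]
      · rw [hq j hj, mul_zero, mul_zero]
    simp only [fn, e, ← Finset.mul_sum, hρ.sum q hq', mul_one]
  rw [h2.fderiv_eq]
  exact fderiv_const_apply t

omit [PartialOrder I] in
theorem dets_row {k : ℕ} (p : I → ℝ) (v : Fin k → I → ℝ) (r₁ r₂ : List (I → ℝ))
    (h : r₁.length + (r₂.length + 1) = k) (x : I → ℝ) :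
    dets ρ p v (r₁ ++ x :: r₂) =
      ((Matrix.of fun a b : Fin k =>
        fderiv ℝ (fn ρ ((r₁ ++ 0 :: r₂).getD a 0)) p (v b)).updateRow ⟨r₁.length, by omega⟩
        fun b => fderiv ℝ (fn ρ x) p (v b)).det := by
  rw [dets, if_pos (by simpa using h)]
  congr 1
  ext a b
  by_cases e : a = ⟨r₁.length, by omega⟩
  · subst e
    simp
  · rw [Matrix.updateRow_ne e]
    have e' : (a : ℕ) ≠ r₁.length := fun h => e (Fin.ext h)
    have : (r₁ ++ x :: r₂).getD a 0 = (r₁ ++ 0 :: r₂).getD a 0 := by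
      rcases lt_or_gt_of_ne e' with h1 | h1
      · rw [List.getD_append _ _ _ _ h1, List.getD_append _ _ _ _ h1]
      · rw [List.getD_append_right _ _ _ _ h1.le, List.getD_append_right _ _ _ _ h1.le]
        obtain ⟨m, hm⟩ : ∃ m, (a : ℕ) - r₁.length = m + 1 := ⟨a - r₁.length - 1, by omega⟩
        rw [hm, List.getD_cons_succ, List.getD_cons_succ]
    simp only [Matrix.of_apply, this]

theorem good_dets (hρ : IsRho ρ) (hO : IsOpen (MM I)) {p : I → ℝ} (hp : p ∈ MM I)
    {s : Set I} (hs : ∀ j ∉ s, p ∉ WC j) {k : ℕ} (v : Fin k → I → ℝ) :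
    Good s (dets ρ p v) := by
  intro r₁ r₂
  by_cases h : r₁.length + (r₂.length + 1) = k
  · refine ⟨fun x y t => ?_, fun x t hx => ?_⟩
    · rw [dets_row p v r₁ r₂ h, dets_row p v r₁ r₂ h x, dets_row p v r₁ r₂ h y,
        ← Matrix.det_updateRow_smul, ← Matrix.det_updateRow_add, fderiv_add hρ hO hp]
      rfl
    · rw [dets_row p v r₁ r₂ h, fderiv_zero hρ hO hp hs x t hx]
      exact Matrix.det_eq_zero_of_row_eq_zero ⟨r₁.length, by omega⟩ fun b => by simp
  · have e : ∀ x, dets ρ p v (r₁ ++ x :: r₂) = 0 := fun x => if_neg (by simpa using h)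
    exact ⟨fun x y t => by simp [e], fun x _ _ => e x⟩

omit [PartialOrder I] in
theorem wed_int [DecidableEq I] {S : Type} [MeasurableSpace S] (μ : Measure S)
    (ε : ι → I → I → I → ℝ) (a : I) (is : List ι) :
    ∀ Ψ : S → List (I → ℝ) → ℝ, (∀ rs, Integrable (fun s => Ψ s rs) μ) →
      Integrable (fun s => wed ε a is (Ψ s)) μ ∧
        ∫ s, wed ε a is (Ψ s) ∂μ = wed ε a is (fun rs => ∫ s, Ψ s rs ∂μ) := by
  induction is with
  | nil => exact fun Ψ h => ⟨h [], rfl⟩
  | cons i is ih =>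
    intro Ψ h
    have h1 := fun j => ih (fun s rs => Ψ s (Pi.single j 1 :: ε i a j :: rs)) fun rs => h _
    simp only [wed]
    refine ⟨integrable_finsetSum _ fun j _ => (h1 j).1, ?_⟩
    rw [integral_finsetSum _ fun j _ => (h1 j).1]
    exact Finset.sum_congr rfl fun j _ => (h1 j).2

theorem cont_dets (hρ : IsRho ρ) (hO : IsOpen (MM I)) {k : ℕ} {f : (Fin k → ℝ) → I → ℝ}
    (hf : ContDiff ℝ ∞ f) {K : Set (Fin k → ℝ)} (hK : ∀ s ∈ K, f s ∈ MM I)
    (rs : List (I → ℝ)) :
    ContinuousOn (fun s => dets ρ (f s) (fun b => fderiv ℝ f s (Pi.single b 1)) rs) K := by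
  unfold dets
  split_ifs
  · refine (continuous_id.matrix_det).comp_continuousOn (f := fun s => Matrix.of fun a b : Fin k =>
      fderiv ℝ (fn ρ (rs.getD a 0)) (f s) (fderiv ℝ f s (Pi.single b 1)))
      (continuousOn_pi.2 fun a => continuousOn_pi.2 fun b => ?_)
    have h1 : ContinuousOn (fun s => fderiv ℝ (fn ρ (rs.getD a 0)) (f s)) K :=
      ((fn_smooth hρ _).continuousOn_fderiv_of_isOpen hO (by simp)).comp
        hf.continuous.continuousOn hK
    have h2 : Continuous fun s => fderiv ℝ f s (Pi.single b 1) :=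
      (hf.continuous_fderiv (by simp)).clm_apply continuous_const
    exact h1.clm_apply h2.continuousOn
  · exact continuousOn_const

end Glu

open Glu in
theorem p_glu (hOpen : S_Open) (hSmp : S_Smp) (hWed : S_Wed) : S_Glu := by
  intro I ι _ _ _ _ ρ hρ ε hε n N κ Θ
  obtain ⟨hO, -, hU, hC, hH⟩ := hOpen I
  refine ⟨fun p b hb b' hb' k v is => hWed ι I ε hε {a | p ∈ WC a} {a | p ∈ WC a} subset_rfl
    (hC p hb.1) b hb b' hb' is _ (good_dets hρ hO hb.1 (fun j hj => hj) v),
    fun a l hP hn hΘ => ?_⟩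
  have hch : IsChain (· ≤ ·) {x | x ∈ a :: l} := fun x hx y hy hne => by
    have : Std.Symm fun x y : I => x ≤ y ∨ y ≤ x := ⟨fun _ _ h => Or.symm h⟩
    exact (hP.imp (S := fun x y : I => x ≤ y ∨ y ≤ x) Or.inl).forall hx hy hne
  let A : Fin (l.length + 1) → I → ℝ := fun i => VV n ((a :: l).get i)
  obtain ⟨s1, s2, -, -⟩ := hSmp (I → ℝ) l.length A
  have hin : ∀ s ∈ Set.Icc (0 : Fin l.length → ℝ) 1, smp l.length A s ∈ MM I ∧
      ∀ j ∉ {x | x ∈ a :: l}, smp l.length A s ∉ WC j := fun s hs => by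
    obtain ⟨h1, h2⟩ := hH n (a :: l).toFinset (by simpa only [List.coe_toFinset] using hch)
      ((List.toFinset_card_le _).trans hn) (smp l.length A s)
      (convexHull_mono (by
        rintro _ ⟨i, rfl⟩
        exact ⟨_, List.mem_toFinset.2 (List.get_mem (a :: l) i), rfl⟩) (s2 s hs))
    refine ⟨h1, fun j hj hW => ?_⟩
    have h3 := hW.2.1
    rw [h2 j fun h => hj (List.mem_toFinset.1 h)] at h3
    norm_num at h3
  have hint : ∀ rs, Integrable (fun s => dets ρ (smp l.length A s)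
      (fun b => fderiv ℝ (smp l.length A) s (Pi.single b 1)) rs)
      (volume.restrict (Set.Icc (0 : Fin l.length → ℝ) 1)) := fun rs =>
    (cont_dets hρ hO s1 (fun s hs => (hin s hs).1) rs).integrableOn_compact isCompact_Icc
  have hw := fun is : Fin N → ι => wed_int _ ε a (List.ofFn is) _ hint
  have e1 : LL n ρ (a :: l) 1 = fun rs => ∫ s in Set.Icc (0 : Fin l.length → ℝ) 1,
      dets ρ (smp l.length A s) (fun b => fderiv ℝ (smp l.length A) s (Pi.single b 1)) rs := by
    funext rs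
    refine setIntegral_congr_fun measurableSet_Icc fun s hs => ?_
    have e : fn ρ 1 (smp l.length A s) = 1 := by
      simp only [fn, Pi.one_apply, one_mul]
      exact hρ.sum _ (hin s hs).1
    show fn ρ 1 (smp l.length A s) * _ = _
    rw [e, one_mul]
  rw [e1]
  have e2 : intL n Θ (a :: l) = ∫ s in Set.Icc (0 : Fin l.length → ℝ) 1, ∑ is : Fin N → ι,
      κ is * wed ε a (List.ofFn is) (dets ρ (smp l.length A s)
        fun b => fderiv ℝ (smp l.length A) s (Pi.single b 1)) := by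
    refine setIntegral_congr_fun measurableSet_Icc fun s hs => ?_
    obtain ⟨h1, h2⟩ := hin s hs
    obtain ⟨b, hb⟩ := Set.mem_iUnion.1 (hU.symm ▸ h1 : smp l.length A s ∈ ⋃ a : I, WC a)
    have hb' : b ∈ {x | x ∈ a :: l} := by_contra fun h => h2 b h hb
    refine (hΘ b _ hb _).trans (Finset.sum_congr rfl fun is _ => ?_)
    rw [hWed ι I ε hε _ _ subset_rfl hch b hb' a List.mem_cons_self _ _
      (good_dets hρ hO h1 h2 _)]
  rw [e2, integral_finsetSum _ fun is _ => (hw is).1.const_mul (κ is)]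
  exact Finset.sum_congr rfl fun is _ => by rw [integral_const_mul, (hw is).2]

end Pool.Agent.P.MP_878f14_gt.Sg
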