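import Pool.Agent.P.MP_878f14_gt.Sg.StG

/-!
The formal properties of the integrals over simplices.
-/

open Filter Topology MeasureTheory
open scoped ContDiff

namespace Pool.Agent.P.MP_878f14_gt.Sg

namespace PInt2

theorem getD_mid {X : Type} (r₁ r₂ : List X) (z d : X) :
    (r₁ ++ z :: r₂).getD r₁.length d = z := by
  induction r₁ with
  | nil => rfl
  | cons a r ih => simp

theorem getD_ne {X : Type} (r₁ r₂ : List X) (z z' d : X) (m : ℕ) (h : m ≠ r₁.length) :
    (r₁ ++ z :: r₂).getD m d = (r₁ ++ z' :: r₂).getD m d := by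
  induction r₁ generalizing m with
  | nil =>
    cases m with
    | zero => exact absurd rfl h
    | succ m => rfl
  | cons a r ih =>
    cases m with
    | zero => rfl
    | succ m => exact ih m fun e => h (by simp [e])

theorem cob_zero {I : Type} (l : List I) (ψ : Co I)
    (h : ∀ l' : List I, l'.length + 1 = l.length → ψ l' = 0) : cob ψ l = 0 := by
  induction l generalizing ψ with
  | nil => rfl
  | cons a l ih =>
    have h1 : ψ l = 0 := h l rfl
    have h2 : cob (sh a ψ) l = 0 := ih _ fun l' hl => h (a :: l') (by simp [hl])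
    simp [cob, h1, h2]

variable {I : Type} [Fintype I] [PartialOrder I] {ρ : I → (I → ℝ) → ℝ}

theorem fn_sm (h : IsRho ρ) (r : I → ℝ) : ContDiffOn ℝ ∞ (fn ρ r) (MM I) :=
  ContDiffOn.sum fun j _ => contDiffOn_const.mul (h.sm j)

omit [PartialOrder I] in
theorem fn_lin (x y : I → ℝ) (t : ℝ) (p : I → ℝ) :
    fn ρ (x + t • y) p = fn ρ x p + t * fn ρ y p := by
  simp only [fn, Pi.add_apply, Pi.smul_apply, smul_eq_mul, Finset.mul_sum,
    ← Finset.sum_add_distrib]
  exact Finset.sum_congr rfl fun j _ => by ring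

theorem fn_one (h : IsRho ρ) {p : I → ℝ} (hp : p ∈ MM I) : fn ρ 1 p = 1 := by
  simpa [fn] using h.sum p hp

/-- Near a point of a simplex, a vector which is constant on the vertices gives a constant. -/
theorem fn_const (h : IsRho ρ) (hO : IsOpen (MM I)) {p : I → ℝ} (hp : p ∈ MM I) {s : Set I}
    (hs : ∀ j, j ∉ s → p j = -1) {x : I → ℝ} {t : ℝ} (hx : ∀ a ∈ s, x a = t) :
    fn ρ x =ᶠ[𝓝 p] fun _ => t := by
  have h1 : ∀ᶠ q in 𝓝 p, ∀ j, j ∉ s → ρ j q = 0 := by
    rw [eventually_all]
    intro j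
    by_cases hj : j ∈ s
    · exact Eventually.of_forall fun q hq => absurd hj hq
    · have hw : p ∉ WC j := fun hw => by
        have := hw.2.1
        rw [hs j hj] at this
        linarith
      exact (h.supp j p hp hw).mono fun q hq _ => hq
  filter_upwards [h1, hO.mem_nhds hp] with q hq hq'
  have e : fn ρ x q = ∑ j, t * ρ j q := by
    refine Finset.sum_congr rfl fun j _ => ?_
    by_cases hj : j ∈ s
    · rw [hx j hj]
    · rw [hq j hj, mul_zero, mul_zero]
  rw [e, ← Finset.mul_sum, h.sum q hq', mul_one]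

theorem fd_lin (h : IsRho ρ) (hO : IsOpen (MM I)) {p : I → ℝ} (hp : p ∈ MM I) (x y : I → ℝ)
    (t : ℝ) (v : I → ℝ) : fderiv ℝ (fn ρ (x + t • y)) p v =
      fderiv ℝ (fn ρ x) p v + t * fderiv ℝ (fn ρ y) p v := by
  have d : ∀ r, DifferentiableAt ℝ (fn ρ r) p := fun r =>
    ((fn_sm h r).contDiffAt (hO.mem_nhds hp)).differentiableAt (by simp)
  have e : fn ρ (x + t • y) = fun q => fn ρ x q + t * fn ρ y q := funext (fn_lin x y t)
  have hd := (d x).hasFDerivAt.add ((d y).hasFDerivAt.const_mul t)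
  have e2 : fderiv ℝ (fn ρ (x + t • y)) p = fderiv ℝ (fn ρ x) p + t • fderiv ℝ (fn ρ y) p := by
    rw [e]
    exact hd.fderiv
  rw [e2]
  simp

omit [PartialOrder I] in
theorem dets_row {k : ℕ} (p : I → ℝ) (v : Fin k → I → ℝ) (r₁ r₂ : List (I → ℝ))
    (hk : r₁.length + (r₂.length + 1) = k) :
    ∃ (M : Matrix (Fin k) (Fin k) ℝ) (i : Fin k), ∀ z : I → ℝ, dets ρ p v (r₁ ++ z :: r₂) =
      (M.updateRow i fun b => fderiv ℝ (fn ρ z) p (v b)).det := by
  refine ⟨Matrix.of fun a b : Fin k => fderiv ℝ (fn ρ ((r₁ ++ 0 :: r₂).getD a 0)) p (v b),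
    ⟨r₁.length, by omega⟩, fun z => ?_⟩
  unfold dets
  rw [if_pos (by simpa using hk)]
  congr 1
  ext a b
  rw [Matrix.updateRow_apply]
  split_ifs with ha
  · rw [ha]
    simp only [Matrix.of_apply, getD_mid]
  · simp only [Matrix.of_apply]
    rw [getD_ne r₁ r₂ z 0 0 a fun e => ha (Fin.ext e)]

theorem dets_lin (h : IsRho ρ) (hO : IsOpen (MM I)) {p : I → ℝ} (hp : p ∈ MM I) {k : ℕ}
    (v : Fin k → I → ℝ) (r₁ r₂ : List (I → ℝ)) (x y : I → ℝ) (t : ℝ) :
    dets ρ p v (r₁ ++ (x + t • y) :: r₂) =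
      dets ρ p v (r₁ ++ x :: r₂) + t * dets ρ p v (r₁ ++ y :: r₂) := by
  by_cases hk : r₁.length + (r₂.length + 1) = k
  · obtain ⟨M, i, hM⟩ := dets_row (ρ := ρ) p v r₁ r₂ hk
    rw [hM, hM, hM]
    have e : (fun b => fderiv ℝ (fn ρ (x + t • y)) p (v b)) =
        (fun b => fderiv ℝ (fn ρ x) p (v b)) + t • fun b => fderiv ℝ (fn ρ y) p (v b) := by
      funext b
      exact fd_lin h hO hp x y t (v b)
    rw [e, Matrix.det_updateRow_add, Matrix.det_updateRow_smul]
  · unfold dets
    rw [if_neg (by simpa using hk), if_neg (by simpa using hk), if_neg (by simpa using hk)]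
    simp

omit [PartialOrder I] in
theorem dets_zero {p : I → ℝ} {k : ℕ} (v : Fin k → I → ℝ) (r₁ r₂ : List (I → ℝ)) {x : I → ℝ}
    {t : ℝ} (hx : fn ρ x =ᶠ[𝓝 p] fun _ => t) : dets ρ p v (r₁ ++ x :: r₂) = 0 := by
  by_cases hk : r₁.length + (r₂.length + 1) = k
  · obtain ⟨M, i, hM⟩ := dets_row (ρ := ρ) p v r₁ r₂ hk
    rw [hM]
    refine Matrix.det_eq_zero_of_row_eq_zero i fun b => ?_
    rw [Matrix.updateRow_self, hx.fderiv_eq]
    simp
  · unfold dets
    rw [if_neg (by simpa using hk)]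

/-- The integrand. -/
noncomputable def G (ρ : I → (I → ℝ) → ℝ) (k : ℕ) (A : Fin (k + 1) → I → ℝ) (f : I → ℝ)
    (rs : List (I → ℝ)) (s : Fin k → ℝ) : ℝ :=
  fn ρ f (smp k A s) * dets ρ (smp k A s) (fun b => fderiv ℝ (smp k A) s (Pi.single b 1)) rs

theorem G_int (h : IsRho ρ) (hO : IsOpen (MM I)) {k : ℕ} {A : Fin (k + 1) → I → ℝ}
    (hA : ContDiff ℝ ∞ (smp k A)) (hm : ∀ s ∈ Set.Icc (0 : Fin k → ℝ) 1, smp k A s ∈ MM I)
    (f : I → ℝ) (rs : List (I → ℝ)) :
    IntegrableOn (G ρ k A f rs) (Set.Icc (0 : Fin k → ℝ) 1) := by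
  refine ContinuousOn.integrableOn_compact isCompact_Icc ?_
  have c0 : ContinuousOn (smp k A) (Set.Icc (0 : Fin k → ℝ) 1) := hA.continuous.continuousOn
  have c1 : ContinuousOn (fun s => fn ρ f (smp k A s)) (Set.Icc (0 : Fin k → ℝ) 1) :=
    (fn_sm h f).continuousOn.comp c0 hm
  refine c1.mul ?_
  unfold dets
  split_ifs
  · simp only [Matrix.det_apply', Matrix.of_apply]
    refine continuousOn_finsetSum _ fun σ _ => continuousOn_const.mul ?_
    refine continuousOn_finsetProd _ fun b _ => ?_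
    have c2 := ((fn_sm h (rs.getD (σ b) 0)).continuousOn_fderiv_of_isOpen hO (by simp)).comp c0 hm
    have c3 : Continuous fun s => fderiv ℝ (smp k A) s (Pi.single b 1) :=
      (hA.continuous_fderiv (by simp)).clm_apply continuous_const
    exact c2.clm_apply c3.continuousOn
  · exact continuousOn_const

end PInt2

open PInt2 in
theorem p_int2 (hOpen : S_Open) (hSmp : S_Smp) (hDet : S_Det) (hStkL : S_StkL) : S_Int2 := by
  intro I _ _ _ ρ h n hn
  obtain ⟨hO, -, -, -, hH⟩ := hOpen I
  have hL : ∀ (a : I) (l : List I) f rs, LL n ρ (a :: l) f rs =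
      ∫ s in Set.Icc (0 : Fin l.length → ℝ) 1, G ρ l.length (fun i => VV n ((a :: l).get i)) f rs s := fun _ _ _ _ => rfl
  have hull : ∀ (a : I) (l : List I), (a :: l).Pairwise (· ≤ ·) → (a :: l).length ≤ n →
      ∀ s ∈ Set.Icc (0 : Fin l.length → ℝ) 1,
        smp l.length (fun i => VV n ((a :: l).get i)) s ∈ MM I ∧
        ∀ j, j ∉ {b | b ∈ a :: l} → smp l.length (fun i => VV n ((a :: l).get i)) s j = -1 := by
    intro a l hp hl s hs
    have h1 := (hSmp (I → ℝ) l.length fun i => VV n ((a :: l).get i)).2.1 s hs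
    have h2 : Set.range (fun i : Fin (l.length + 1) => VV n ((a :: l).get i)) ⊆
        VV n '' ((a :: l).toFinset : Set I) := by
      rintro _ ⟨i, rfl⟩
      exact ⟨_, Finset.mem_coe.2 (List.mem_toFinset.2 (List.get_mem _ _)), rfl⟩
    have h3 : IsChain (· ≤ ·) ((a :: l).toFinset : Set I) := by
      intro x hx y hy hxy
      have hx' := List.mem_toFinset.1 (Finset.mem_coe.1 hx)
      have hy' := List.mem_toFinset.1 (Finset.mem_coe.1 hy)
      have hp' : (a :: l).Pairwise fun x y => x ≤ y ∨ y ≤ x := hp.imp Or.inl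
      have : Std.Symm fun x y : I => x ≤ y ∨ y ≤ x := ⟨fun _ _ e => Or.symm e⟩
      exact hp'.forall hx' hy' hxy
    have h4 := hH n _ h3 ((List.toFinset_card_le _).trans hl) _ (convexHull_mono h2 h1)
    exact ⟨h4.1, fun j hj => h4.2 j fun e => hj (List.mem_toFinset.1 e)⟩
  have hint : ∀ (a : I) (l : List I), (a :: l).Pairwise (· ≤ ·) → (a :: l).length ≤ n →
      ∀ f rs, IntegrableOn (G ρ l.length (fun i => VV n ((a :: l).get i)) f rs)
        (Set.Icc (0 : Fin l.length → ℝ) 1) := fun a l hp hl f rs =>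
    G_int h hO (hSmp (I → ℝ) l.length _).1 (fun s hs => (hull a l hp hl s hs).1) f rs
  have hdeg : ∀ l f rs, rs.length + 1 ≠ List.length l → LL n ρ l f rs = 0 := by
    intro l f rs hl
    cases l with
    | nil => rfl
    | cons a l =>
      rw [hL]
      have hne : rs.length ≠ l.length := fun e => hl (by simp [e])
      simp [G, dets, hne]
  refine ⟨fun _ _ => rfl, hdeg, fun a f => ?_, fun l f hp hl r₁ r₂ => ?_,
    fun l f f' t rs hp hl => ?_, fun l f rs hp hl hf => ?_, fun l f rs hp hl => ?_⟩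
  · rw [hL]
    have e : ∀ s ∈ Set.Icc (0 : Fin ([] : List I).length → ℝ) 1,
        G ρ ([] : List I).length (fun i => VV n ([a].get i)) f [] s = f a := by
      intro s hs
      obtain ⟨m1, m2⟩ := hull a [] (by simp) hn s hs
      have h1 := (fn_const h hO m1 m2 (x := f) (t := f a) (by simp)).eq_of_nhds
      unfold G
      rw [h1]
      simp [dets]
    rw [setIntegral_congr_fun measurableSet_Icc e]
    simp [Measure.real, Real.volume_Icc_pi]
  · cases l with
    | nil => exact ⟨fun _ _ _ => by simp [LL, intL], fun _ _ _ => rfl⟩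
    | cons a l =>
      refine ⟨fun x y t => ?_, fun x t hx => ?_⟩
      · rw [hL, hL, hL, ← integral_const_mul,
          ← integral_add (hint a l hp hl _ _) ((hint a l hp hl _ _).const_mul t)]
        refine setIntegral_congr_fun measurableSet_Icc fun s hs => ?_
        simp only [G]
        rw [dets_lin h hO (hull a l hp hl s hs).1]
        ring
      · rw [hL]
        refine setIntegral_eq_zero_of_forall_eq_zero fun s hs => ?_
        obtain ⟨m1, m2⟩ := hull a l hp hl s hs
        unfold G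
        rw [dets_zero _ r₁ r₂ (fn_const h hO m1 m2 hx), mul_zero]
  · cases l with
    | nil => simp [LL, intL]
    | cons a l =>
      rw [hL, hL, hL, ← integral_const_mul,
        ← integral_add (hint a l hp hl _ _) ((hint a l hp hl _ _).const_mul t)]
      refine setIntegral_congr_fun measurableSet_Icc fun s _ => ?_
      simp only [G]
      rw [fn_lin]
      ring
  · cases l with
    | nil => rfl
    | cons a l =>
      rw [hL]
      refine setIntegral_eq_zero_of_forall_eq_zero fun s hs => ?_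
      obtain ⟨m1, m2⟩ := hull a l hp hl s hs
      unfold G
      rw [(fn_const h hO m1 m2 hf).eq_of_nhds, zero_mul]
  · by_cases hk : l.length = rs.length + 2
    · obtain ⟨η, h1, h2⟩ := hDet (I → ℝ) rs.length (MM I)
        (fun a => fn ρ ((f :: rs).getD a 0)) hO fun _ => fn_sm h _
      refine (hStkL I n rs.length η (fun _ p v => fn ρ f p * dets ρ p v rs)
        (fun _ p v => fn ρ 1 p * dets ρ p v (f :: rs)) h1 (fun p hp v => ?_) (fun p hp v => ?_)
        l hp hl hk).symm
      · rw [(h2 p hp).1 v]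
        simp [dets]
      · rw [(h2 p hp).2 v, fn_one h hp, one_mul]
        simp only [dets, List.length_cons, if_true]
    · rw [hdeg l 1 (f :: rs) fun e => hk (by simpa using e.symm)]
      exact cob_zero l _ fun l' hl' => hdeg l' f rs (by omega)

end Pool.Agent.P.MP_878f14_gt.Sg
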