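import Pool.Agent.P.MP_878f14_gt.Sg.StU

/-!
The linear action of the covering group is linked to its action on the circle direction.
-/

open scoped ContDiff
open Complex

namespace Pool.Agent.P.MP_878f14_gt.Sg

namespace PLink

theorem norm_ee (φ : ℝ) : ‖ee φ‖ = 1 := by
  unfold ee
  rw [mul_comm]
  exact norm_exp_ofReal_mul_I φ

theorem ee_sm : ContDiff ℝ ∞ ee := by
  unfold ee
  exact (contDiff_const.mul ofRealCLM.contDiff).cexp

theorem ee_two_pi : ee (2 * Real.pi) = 1 := by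
  unfold ee
  rw [← exp_two_pi_mul_I]
  congr 1
  push_cast
  ring

/-- The logarithm of the stretching factor. -/
noncomputable def ell (g : GG) (φ : ℝ) : ℝ := Real.log ‖g.1.1 (ee φ)‖

theorem ell_spec (g : GG) (φ : ℝ) :
    0 < ‖g.1.1 (ee φ)‖ ∧ g.1.1 (ee φ) = Real.exp (ell g φ) • ee (g.1.2 φ) := by
  obtain ⟨r, hr, e⟩ := g.2.2.2.1 φ
  have h : ‖g.1.1 (ee φ)‖ = r := by
    rw [e, norm_smul, norm_ee, mul_one, Real.norm_of_nonneg hr.le]
  refine ⟨h ▸ hr, ?_⟩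
  rw [ell, h, Real.exp_log hr, e]

theorem ell_sm (g : GG) : ContDiff ℝ ∞ (ell g) := by
  have h1 : ContDiff ℝ ∞ fun φ => g.1.1 (ee φ) := g.1.1.contDiff.comp ee_sm
  exact (h1.norm ℂ fun φ => norm_pos_iff.1 (ell_spec g φ).1).log fun φ => (ell_spec g φ).1.ne'

theorem ell_one (φ : ℝ) : ell 1 φ = 0 := by
  have : ell 1 φ = Real.log ‖ee φ‖ := rfl
  rw [this, norm_ee, Real.log_one]

theorem ell_mul (g h : GG) (φ : ℝ) : ell (g * h) φ = ell g (h.1.2 φ) + ell h φ := by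
  have e : ell (g * h) φ = Real.log ‖g.1.1 (h.1.1 (ee φ))‖ := rfl
  rw [e, (ell_spec h φ).2, map_smul, norm_smul, Real.norm_of_nonneg (Real.exp_pos _).le,
    Real.log_mul (Real.exp_pos _).ne' (ell_spec g _).1.ne', Real.log_exp, add_comm]
  rfl

/-- The action attached to a flow on the line. -/
theorem flow_rep (hMkG : S_MkG) (hDir : S_Dir) (κ : Type) [Fintype κ] (Fl : ℝ → ℝ → ℝ)
    (h1 : ContDiff ℝ ∞ fun p : ℝ × ℝ => Fl p.1 p.2) (h2 : ∀ x, Fl 0 x = x)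
    (h3 : ∀ s t x, Fl (s + t) x = Fl s (Fl t x)) (h4 : ∀ t x, 0 < deriv (Fl t) x) :
    ∃ ρ : GG →* UU κ, ∀ g, mp (ρ g) =
      Prod.map (fun ζ : ℂ => (Fl (ell g ζ.im) ζ.re : ℂ) + I * (g.1.2 ζ.im : ℝ)) id ∧
      ∀ y, tht (ρ g) y 0 = 0 := by
  let f : GG →* Function.End ℂ :=
    { toFun := fun g ζ => (Fl (ell g ζ.im) ζ.re : ℂ) + I * (g.1.2 ζ.im : ℝ)
      map_one' := by
        funext ζ
        change (Fl (ell 1 ζ.im) ζ.re : ℂ) + I * (ζ.im : ℝ) = ζ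
        rw [ell_one, h2, mul_comm, re_add_im]
      map_mul' := fun g h => by
        funext ζ
        change (Fl (ell (g * h) ζ.im) ζ.re : ℂ) + I * (g.1.2 (h.1.2 ζ.im) : ℝ) =
          (Fl (ell g ((Fl (ell h ζ.im) ζ.re : ℂ) + I * (h.1.2 ζ.im : ℝ)).im)
            ((Fl (ell h ζ.im) ζ.re : ℂ) + I * (h.1.2 ζ.im : ℝ)).re : ℂ) +
            I * (g.1.2 ((Fl (ell h ζ.im) ζ.re : ℂ) + I * (h.1.2 ζ.im : ℝ)).im : ℝ)
        have e1 : ((Fl (ell h ζ.im) ζ.re : ℂ) + I * (h.1.2 ζ.im : ℝ)).im = h.1.2 ζ.im := by simp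
        have e2 : ((Fl (ell h ζ.im) ζ.re : ℂ) + I * (h.1.2 ζ.im : ℝ)).re =
            Fl (ell h ζ.im) ζ.re := by simp
        rw [e1, e2, ell_mul, h3] }
  refine hDir.2.2.1 κ GG 0 f fun g => ?_
  exact hDir.2.2.2.1 (fun s φ => Fl (ell g φ) s) g.1.2
    (h1.comp (((ell_sm g).comp contDiff_snd).prodMk contDiff_fst)) g.2.1
    (fun s φ => h4 _ _) (hMkG.2.2.1 g)

/-- A change of the real part. -/
theorem re_map (hDir : S_Dir) (κ : Type) [Fintype κ] (a : ℝ → ℝ) (h1 : ContDiff ℝ ∞ a)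
    (h2 : ∀ s, 0 < deriv a s) :
    ∃ u : UU κ, mp u = Prod.map (fun ζ : ℂ => (a ζ.re : ℂ) + I * (ζ.im : ℝ)) id ∧
      ∀ y, tht u y 0 = 0 :=
  hDir.2.1 κ 0 _ (hDir.2.2.2.1 (fun s _ => a s) id (h1.comp contDiff_fst) contDiff_id
    (fun s _ => h2 s) fun φ => by simp)

/-- The linear action. -/
theorem lin_rep (hDir : S_Dir) (κ : Type) [Fintype κ] :
    ∃ ρ : GG →* UU κ, ∀ g, mp (ρ g) = Prod.map g.1.1 id ∧ ∀ y φ, tht (ρ g) y φ = g.1.2 φ := by
  have hs : ∀ g : GG, ContDiff ℝ ∞ (Prod.map g.1.1 id : TT κ → TT κ) := fun g =>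
    g.1.1.contDiff.prodMap contDiff_id
  let F : GG → UU κ := fun g =>
    ⟨((Prod.map g.1.1 id : TT κ → TT κ), fun z => (Prod.map g.1.1 id z.1, g.1.2 z.2)), hs g,
      ((hs g).comp contDiff_fst).prodMk (g.2.1.comp contDiff_snd), fun _ => rfl, fun y => by
        obtain ⟨a, b⟩ := hDir.1 κ g.1.1 g.1.1.contDiff y
        refine ⟨a, ?_⟩
        have e : fib (fderiv ℝ (Prod.map g.1.1 id : TT κ → TT κ) y) = g.1.1 := by
          rw [b, ContinuousLinearMap.fderiv]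
        change Lift (fib (fderiv ℝ (Prod.map g.1.1 id : TT κ → TT κ) y)) g.1.2
        rw [e]
        exact g.2.2⟩
  exact ⟨{ toFun := F, map_one' := rfl, map_mul' := fun _ _ => rfl }, fun _ => ⟨rfl, fun _ _ => rfl⟩⟩

theorem exp_split (ζ : ℂ) : exp ζ = Real.exp ζ.re • ee ζ.im := by
  unfold ee
  rw [real_smul, ofReal_exp, ← Complex.exp_add, mul_comm, re_add_im]

theorem fderiv_exp_apply (ζ v : ℂ) : fderiv ℝ exp ζ v = v * exp ζ := by
  rw [((Complex.hasDerivAt_exp ζ).hasFDerivAt.restrictScalars ℝ).fderiv]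
  simp

/-- Polar coordinates. -/
theorem polar (hDir : S_Dir) (κ : Type) [Fintype κ] :
    ∃ u : UU κ, mp u = Prod.map exp id ∧ ∀ y φ, tht u y φ = φ + y.1.im := by
  have he : ContDiff ℝ ∞ (exp : ℂ → ℂ) := Complex.contDiff_exp
  have hs : ContDiff ℝ ∞ (Prod.map exp id : TT κ → TT κ) := he.prodMap contDiff_id
  refine ⟨⟨((Prod.map exp id : TT κ → TT κ), fun z => (Prod.map exp id z.1, z.2 + z.1.1.im)), hs,
    (hs.comp contDiff_fst).prodMk (contDiff_snd.add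
      (imCLM.contDiff.comp (contDiff_fst.comp contDiff_fst))), fun _ => rfl, fun y => ?_⟩,
    rfl, fun _ _ => rfl⟩
  obtain ⟨a, b⟩ := hDir.1 κ exp he y
  refine ⟨a, ?_⟩
  change Lift (fib (fderiv ℝ (Prod.map exp id : TT κ → TT κ) y)) fun φ => φ + y.1.im
  rw [b]
  refine ⟨?_, fun φ => ⟨Real.exp y.1.re, Real.exp_pos _, ?_⟩, fun φ => by ring⟩
  · have h := normSq_pos.2 (Complex.exp_ne_zero y.1)
    rw [normSq_apply] at h
    rw [dt, fderiv_exp_apply, fderiv_exp_apply]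
    simp only [one_mul, mul_re, mul_im, I_re, I_im]
    linarith
  · rw [fderiv_exp_apply, exp_split, ee_add, mul_smul_comm]

end PLink

open PLink in
theorem p_link (hMk : S_Mk) (hMkG : S_MkG) (hDir : S_Dir) (hFlo : S_Flo) : S_Link := by
  intro κ _
  obtain ⟨Fl, f1, f2, f3, f4, f5, f6⟩ := hFlo
  obtain ⟨rl, hl⟩ := lin_rep hDir κ
  obtain ⟨r1, h1⟩ := flow_rep hMkG hDir κ (fun t s => s + t) (contDiff_snd.add contDiff_fst)
    (fun x => add_zero x) (fun s t x => by ring) (fun t x => by simp)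
  obtain ⟨rx, hx⟩ := flow_rep hMkG hDir κ Fl f1 f2 f3 f5
  obtain ⟨rc, hc⟩ := flow_rep hMkG hDir κ (fun _ s => s) contDiff_snd
    (fun _ => rfl) (fun _ _ _ => rfl) (fun t x => by simp)
  obtain ⟨p, hp, hp'⟩ := polar hDir κ
  obtain ⟨u, hu, hu'⟩ := re_map hDir κ (fun s => Fl s 1)
    (f1.comp (contDiff_id.prodMk contDiff_const)) f6
  obtain ⟨v, hv, hv'⟩ := re_map hDir κ (fun s => -Real.exp (-s)) contDiff_id.neg.exp.neg
    (fun s => by
      have h : HasDerivAt (fun s => -Real.exp (-s)) (-(Real.exp (-s) * -1)) s :=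
        ((hasDerivAt_id s).neg.exp).neg
      rw [h.deriv]
      have := Real.exp_pos (-s)
      linarith)
  have ext := (hMk κ).1
  have e1 : ∀ g, rl g * p = p * r1 g := by
    intro g
    refine ext _ _ ?_ ⟨0, 0, ?_⟩
    · rw [mp_mul, mp_mul, (hl g).1, hp, (h1 g).1]
      funext y
      refine Prod.ext ?_ rfl
      change g.1.1 (exp y.1) =
        exp (((y.1.re + ell g y.1.im : ℝ) : ℂ) + I * (g.1.2 y.1.im : ℝ))
      rw [exp_split y.1, map_smul, (ell_spec g _).2, smul_smul, ← Real.exp_add, exp_split]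
      simp
    · rw [tht_mul, tht_mul, (hl g).2, hp', hp', (h1 g).2, (h1 g).1]
      simp
  have e2 : ∀ g, rx g * u = u * r1 g := by
    intro g
    refine ext _ _ ?_ ⟨0, 0, ?_⟩
    · rw [mp_mul, mp_mul, (hx g).1, hu, (h1 g).1]
      funext y
      refine Prod.ext ?_ rfl
      simp only [Function.comp_apply, Prod.map_fst, add_re, add_im, ofReal_re, ofReal_im, mul_re,
        mul_im, I_re, I_im, zero_mul, one_mul, mul_zero, sub_zero, zero_add, add_zero]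
      rw [add_comm y.1.re, f3]
    · rw [tht_mul, tht_mul, hu', (h1 g).2, hu', (hx g).2]
  have e3 : ∀ g, rx g * v = v * rc g := by
    intro g
    refine ext _ _ ?_ ⟨0, 0, ?_⟩
    · rw [mp_mul, mp_mul, (hx g).1, hv, (hc g).1]
      funext y
      refine Prod.ext ?_ rfl
      simp only [Function.comp_apply, Prod.map_fst, add_re, add_im, ofReal_re, ofReal_im, mul_re,
        mul_im, I_re, I_im, zero_mul, one_mul, mul_zero, sub_zero, zero_add, add_zero]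
      rw [f4 _ _ (neg_nonpos.2 (Real.exp_pos _).le)]
    · rw [tht_mul, tht_mul, hv', (hc g).2, hv', (hx g).2]
  refine ⟨rl, rc, ?_, ?_, fun g => ⟨(hc g).1, fun y => ?_⟩⟩
  · exact .trans _ _ _ (.symm _ _ (.rel _ _ ⟨p, e1⟩))
      (.trans _ _ _ (.rel _ _ ⟨u, e2⟩) (.symm _ _ (.rel _ _ ⟨v, e3⟩)))
  · refine ext _ _ ?_ ⟨0, 0, ?_⟩
    · rw [(hl _).1, mp_zc]
      funext y
      refine Prod.ext ?_ rfl
      change ee (2 * Real.pi) * y.1 = y.1
      rw [ee_two_pi, one_mul]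
    · rw [(hl _).2, tht_zc]
      rfl
  · refine (hMk κ).2.2 (rc g) y 0 _ ((hc g).2 y) ?_
    have hd : DirMap (Real.pi / 2) fun ζ : ℂ => (ζ.re : ℂ) + I * (g.1.2 ζ.im : ℝ) :=
      hDir.2.2.2.2 id (fun _ φ => g.1.2 φ) contDiff_id (g.2.1.comp contDiff_snd)
        (fun s => by simp) (fun _ φ => hMkG.2.2.1 g φ)
    rw [(hc g).1, (hDir.1 κ _ hd.1 y).2]
    exact (hd.2 y.1).2

end Pool.Agent.P.MP_878f14_gt.Sg
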