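import Pool.Agent.P.MP_878f14_gt.Sg.StU

/-!
Existence and uniqueness of lifts.
-/

open scoped ContDiff
open Complex

namespace Pool.Agent.P.MP_878f14_gt.Sg

namespace Mk

variable {κ : Type} [Fintype κ]

theorem ee_int (t : ℝ) (k : ℤ) : ee (t + 2 * Real.pi * k) = ee t := by
  have h : ee (2 * Real.pi * k) = 1 := by
    unfold ee
    refine Eq.trans ?_ (exp_int_mul_two_pi_mul_I k)
    congr 1
    push_cast
    ring
  rw [ee_add, h, mul_one]

theorem lift_tht (x : UU κ) (y : TT κ) : Lift (fib (fderiv ℝ (mp x) y)) (tht x y) :=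
  (x.2.2.2.2 y).2

theorem tht_cont (x : UU κ) : Continuous fun z : TT κ × ℝ => tht x z.1 z.2 :=
  continuous_snd.comp x.2.2.1.continuous

theorem fib_smooth {F : TT κ → TT κ} (hF : ContDiff ℝ ∞ F) :
    ContDiff ℝ ∞ fun y => fib (fderiv ℝ F y) := by
  have h1 : ContDiff ℝ ∞ (fderiv ℝ F) := hF.fderiv_right (m := ∞) (by simp)
  exact contDiff_const.clm_comp (h1.clm_comp contDiff_const)

theorem aa_smooth {F : TT κ → TT κ} (hF : ContDiff ℝ ∞ F) :
    ContDiff ℝ ∞ fun y => aa (fib (fderiv ℝ F y)) := by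
  have h1 := fib_smooth hF
  exact ((h1.clm_apply contDiff_const).sub
    (contDiff_const.mul (h1.clm_apply contDiff_const))).div_const 2

theorem ext (hAng : S_Ang) (x y : UU κ) (h : mp x = mp y) (p : TT κ) (φ : ℝ)
    (e : tht x p φ = tht y p φ) : x = y := by
  have h1 : ∀ z : TT κ × ℝ, tht x z.1 z.2 = tht y z.1 z.2 := fun z => by
    have := hAng.2.2.2.2.2.2 (TT κ × ℝ) Set.univ (fun z => tht x z.1 z.2) (fun z => tht y z.1 z.2)
      isPreconnected_univ (tht_cont x).continuousOn (tht_cont y).continuousOn (fun z _ => by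
        obtain ⟨r, hr, e1⟩ := (lift_tht x z.1).2.1 z.2
        obtain ⟨r', hr', e2⟩ := (lift_tht y z.1).2.1 z.2
        rw [h, e2] at e1
        exact (hAng.2.2.2.2.2.1 r r' _ _ hr hr' e1.symm).2) z trivial (p, φ) trivial
    have e' : tht x p φ - tht y p φ = 0 := sub_eq_zero.2 e
    exact sub_eq_zero.1 (this.trans e')
  refine Subtype.ext (Prod.ext h (funext fun z => Prod.ext ?_ (h1 z)))
  exact (x.2.2.2.1 z).trans ((congrFun h z.1).trans (y.2.2.2.1 z).symm)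

theorem osc_smooth (hAng : S_Ang) (A : TT κ → ℂ →L[ℝ] ℂ) (hA : ContDiff ℝ ∞ A)
    (hd : ∀ y, 0 < dt (A y)) : ContDiff ℝ ∞ fun z : TT κ × ℝ => osc (A z.1) z.2 := by
  refine contDiff_iff_contDiffAt.2 fun z => ?_
  have a1 := ((hAng.2.2.1 _ (hd z.1)).2 z.2).2.2
  have a2 : ContDiff ℝ ∞ fun z : TT κ × ℝ => (A z.1, z.2) :=
    (hA.comp contDiff_fst).prodMk contDiff_snd
  have a3 := ContDiffAt.comp (g := fun p : (ℂ →L[ℝ] ℂ) × ℝ => osc p.1 p.2)
    (f := fun z : TT κ × ℝ => (A z.1, z.2)) z a1 a2.contDiffAt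
  exact a3

theorem build (hAng : S_Ang) {F : TT κ → TT κ} (hF : ContDiff ℝ ∞ F)
    (hd : ∀ y, Tri (fderiv ℝ F y) ∧ 0 < dt (fib (fderiv ℝ F y))) (t : TT κ → ℝ)
    (ht : ContDiff ℝ ∞ t)
    (e : ∀ y, aa (fib (fderiv ℝ F y)) = ‖aa (fib (fderiv ℝ F y))‖ • ee (t y)) :
    ∃ x : UU κ, mp x = F ∧ ∀ y φ, tht x y φ = φ + t y + osc (fib (fderiv ℝ F y)) φ := by
  have h1 := osc_smooth hAng (fun y => fib (fderiv ℝ F y)) (fib_smooth hF) fun y => (hd y).2
  exact ⟨⟨(F, fun z => (F z.1, z.2 + t z.1 + osc (fib (fderiv ℝ F z.1)) z.2)), hF,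
    (hF.comp contDiff_fst).prodMk ((contDiff_snd.add (ht.comp contDiff_fst)).add h1),
    fun _ => rfl, fun y => ⟨(hd y).1, hAng.2.2.2.1 _ (t y) (hd y).2 (e y)⟩⟩, rfl, fun _ _ => rfl⟩

end Mk

open Mk in
theorem p_mk (hAng : S_Ang) (hArg : S_Arg) : S_Mk := by
  intro κ _
  refine ⟨fun x y h e => ?_, fun F hF hd Z t hZ ht hz => ?_, fun x y φ₀ φ₁ h0 h1 => ?_⟩
  · obtain ⟨p, φ, e⟩ := e
    exact Mk.ext hAng x y h p φ e
  · obtain ⟨t0, s0, e0⟩ := hArg (TT κ) _ (aa_smooth hF) fun y => (hAng.2.2.1 _ (hd y).2).1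
    obtain ⟨x0, m0, a0⟩ := build hAng hF hd t0 s0 e0
    rcases Z.eq_empty_or_nonempty with rfl | ⟨z0, hz0⟩
    · exact ⟨x0, m0, fun z h => absurd h (Set.notMem_empty z)⟩
    have hk : ∀ z ∈ Z, ∃ k : ℤ, t z = tht x0 z.1 z.2 + 2 * Real.pi * k := fun z h => by
      obtain ⟨r, hr, e1⟩ := hz z h
      obtain ⟨r', hr', e2⟩ := (lift_tht x0 z.1).2.1 z.2
      rw [m0, e1] at e2
      exact (hAng.2.2.2.2.2.1 r r' _ _ hr hr' e2).2
    obtain ⟨k, hk0⟩ := hk z0 hz0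
    obtain ⟨x, m, a⟩ := build hAng hF hd (fun y => t0 y + 2 * Real.pi * k)
      (s0.add contDiff_const) fun y => by rw [ee_int]; exact e0 y
    refine ⟨x, m, fun z h => ?_⟩
    have := hAng.2.2.2.2.2.2 (TT κ × ℝ) Z t (fun z => tht x0 z.1 z.2) hZ ht
      (tht_cont x0).continuousOn hk z h z0 hz0
    have e1 := a0 z.1 z.2
    rw [a]
    linarith
  · have hl := lift_tht x y
    have hc : Continuous (tht x y) := (tht_cont x).comp (Continuous.prodMk_right y)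
    obtain ⟨t, -, e⟩ := hAng.2.2.2.2.1 _ _ hc hl
    obtain ⟨r, hr, e1⟩ := h1
    obtain ⟨r', hr', e2⟩ := hl.2.1 φ₁
    rw [e1] at e2
    obtain ⟨k, hk⟩ := (hAng.2.2.2.2.2.1 r' r _ _ hr' hr e2.symm).2
    have b0 := abs_lt.1 ((hAng.2.2.1 _ hl.1).2 φ₀).2.1
    have b1 := abs_lt.1 ((hAng.2.2.1 _ hl.1).2 φ₁).2.1
    have c0 := e φ₀
    have c1 := e φ₁
    have hpi := Real.pi_pos
    have k1 : (k : ℝ) < 1 := by nlinarith [b0.1, b0.2, b1.1, b1.2]
    have k2 : (-1 : ℝ) < k := by nlinarith [b0.1, b0.2, b1.1, b1.2]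
    have k3 : k < 1 := by exact_mod_cast k1
    have k4 : -1 < k := by exact_mod_cast k2
    have k5 : k = 0 := by omega
    rw [hk, k5]
    simp

end Pool.Agent.P.MP_878f14_gt.Sg
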