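import Pool.Agent.P.MP_878f14_gt.Sg.StU

open scoped ContDiff
open Complex

namespace Pool.Agent.P.MP_878f14_gt.Sg

namespace MkG

theorem ee_re (t : ℝ) : (ee t).re = Real.cos t := by
  unfold ee
  rw [mul_comm, exp_ofReal_mul_I_re]

theorem ee_im (t : ℝ) : (ee t).im = Real.sin t := by
  unfold ee
  rw [mul_comm, exp_ofReal_mul_I_im]

theorem ee_int (t : ℝ) (k : ℤ) : ee (t + 2 * Real.pi * k) = ee t := by
  have e : t + 2 * Real.pi * k = t + k * (2 * Real.pi) := by ring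
  apply Complex.ext
  · rw [ee_re, ee_re, e, Real.cos_add_int_mul_two_pi]
  · rw [ee_im, ee_im, e, Real.sin_add_int_mul_two_pi]

theorem ee_deriv (φ : ℝ) : HasDerivAt ee (I * ee φ) φ := by
  have h := ((Complex.ofRealCLM.hasDerivAt (x := φ)).const_mul I).cexp
  have e : cexp (I * ofRealCLM φ) * (I * ofRealCLM 1) = I * ee φ := by
    simp only [ofRealCLM_apply, ofReal_one, mul_one, ee]
    ring
  rw [e] at h
  exact h

theorem dt_eq (A : ℂ →L[ℝ] ℂ) (φ : ℝ) :
    dt A = (A (ee φ)).re * (A (I * ee φ)).im - (A (ee φ)).im * (A (I * ee φ)).re := by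
  have h := ee_sq φ
  rw [clm_apply A (ee φ), clm_apply A (I * ee φ)]
  simp only [dt, add_re, add_im, smul_re, smul_im, smul_eq_mul, mul_re, mul_im, I_re, I_im]
  linear_combination (-((A 1).re * (A I).im - (A 1).im * (A I).re)) * h

theorem deriv_pos {A : ℂ →L[ℝ] ℂ} {Θ : ℝ → ℝ} (hΘ : ContDiff ℝ ∞ Θ) (h : Lift A Θ) (φ : ℝ) :
    0 < deriv Θ φ := by
  have h0 : HasDerivAt Θ (deriv Θ φ) φ := (hΘ.differentiable (by simp) φ).hasDerivAt
  have h1 : HasDerivAt (fun φ => A (ee φ)) (A (I * ee φ)) φ :=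
    A.hasFDerivAt.comp_hasDerivAt φ (ee_deriv φ)
  have h2 : HasDerivAt (fun φ => ee (-Θ φ)) ((-deriv Θ φ) • (I * ee (-Θ φ))) φ :=
    HasDerivAt.scomp (h := fun φ => -Θ φ) φ (ee_deriv (-Θ φ)) h0.neg
  have h3 := Complex.imCLM.hasFDerivAt.comp_hasDerivAt φ (h1.mul h2)
  have h4 : (Complex.imCLM ∘ ((fun φ => A (ee φ)) * fun φ => ee (-Θ φ))) = fun _ => (0 : ℝ) := by
    funext ψ
    obtain ⟨r, _, e⟩ := h.2.1 ψ
    simp only [Function.comp_apply, Pi.mul_apply, imCLM_apply, e, mul_im, smul_re, smul_im,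
      smul_eq_mul, ee_re, ee_im, Real.cos_neg, Real.sin_neg]
    ring
  rw [h4] at h3
  have h5 := h3.unique (hasDerivAt_const φ (0 : ℝ))
  obtain ⟨r, hr, e⟩ := h.2.1 φ
  have h6 := dt_eq A φ
  have h7 := Real.cos_sq_add_sin_sq (Θ φ)
  simp only [imCLM_apply, e, add_im, mul_im, mul_re, smul_re, smul_im, smul_eq_mul, ee_re, ee_im,
    Real.cos_neg, Real.sin_neg, I_re, I_im] at h5
  simp only [e, smul_re, smul_im, smul_eq_mul, ee_re, ee_im] at h6
  have h8 : dt A = r * r * deriv Θ φ := by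
    linear_combination h6 + r * h5 + r * r * deriv Θ φ * h7
  have h9 := h.1
  rw [h8] at h9
  exact (mul_pos_iff_of_pos_left (mul_pos hr hr)).1 h9

end MkG

theorem p_mkG (hAng : S_Ang) (hArg : S_Arg) : S_MkG := by
  obtain ⟨_, _, a3, a4, a5, a6, a7⟩ := hAng
  refine ⟨fun g g' hA ⟨φ0, h0⟩ => ?_, fun A φ₀ t hA hd ht hr => ?_,
    fun g φ => MkG.deriv_pos g.2.1 g.2.2 φ, fun g φ φ' => ?_⟩
  · have hk : ∀ φ, ∃ k : ℤ, g.1.2 φ = g'.1.2 φ + 2 * Real.pi * k := by
      intro φ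
      obtain ⟨r, hr, e⟩ := g.2.2.2.1 φ
      obtain ⟨r', hr', e'⟩ := g'.2.2.2.1 φ
      rw [hA] at e
      exact (a6 r r' _ _ hr hr' (e.symm.trans e')).2
    have hc := a7 ℝ Set.univ g.1.2 g'.1.2 isPreconnected_univ g.2.1.continuous.continuousOn
      g'.2.1.continuous.continuousOn (fun z _ => hk z)
    obtain ⟨k, hk0⟩ := hk φ0
    have hp := Real.pi_pos
    have e0 : g.1.2 φ0 - g'.1.2 φ0 = 2 * Real.pi * k := by linarith
    rw [e0, abs_lt] at h0
    have k1 : (k : ℝ) < 1 := by nlinarith [h0.2]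
    have k2 : (-1 : ℝ) < k := by nlinarith [h0.1]
    have k3 : k = 0 := by
      have b1 : k < 1 := by exact_mod_cast k1
      have b2 : -1 < k := by exact_mod_cast k2
      omega
    rw [k3] at e0
    refine Subtype.ext (Prod.ext hA (funext fun φ => ?_))
    have e1 := hc φ (Set.mem_univ _) φ0 (Set.mem_univ _)
    rw [e0] at e1
    simp only [Int.cast_zero, mul_zero] at e1
    exact sub_eq_zero.1 e1
  · have sa : ContDiff ℝ ∞ fun s => aa (A s) :=
      ((hA.clm_apply contDiff_const).sub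
        (contDiff_const.mul (hA.clm_apply contDiff_const))).div_const 2
    obtain ⟨τ, hτ, eτ⟩ := hArg ℝ (fun s => aa (A s)) sa (fun s => (a3 (A s) (hd s)).1)
    have so : ContDiff ℝ ∞ fun p : ℝ × ℝ => osc (A p.1) p.2 :=
      contDiff_iff_contDiffAt.2 fun p =>
        ContDiffAt.comp (g := fun p : (ℂ →L[ℝ] ℂ) × ℝ => osc p.1 p.2)
          (f := fun p : ℝ × ℝ => (A p.1, p.2)) p ((a3 (A p.1) (hd p.1)).2 p.2).2.2
          ((hA.comp contDiff_fst).prodMk contDiff_snd).contDiffAt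
    have so1 : ∀ s, ContDiff ℝ ∞ fun φ => osc (A s) φ := fun s =>
      ContDiff.comp (g := fun p : ℝ × ℝ => osc (A p.1) p.2) (f := fun φ : ℝ => (s, φ)) so
        (contDiff_const.prodMk contDiff_id)
    have so2 : Continuous fun s => osc (A s) φ₀ :=
      Continuous.comp (g := fun p : ℝ × ℝ => osc (A p.1) p.2) (f := fun s : ℝ => (s, φ₀))
        so.continuous (continuous_id.prodMk continuous_const)
    have hk : ∀ s, ∃ k : ℤ, t s = (φ₀ + τ s + osc (A s) φ₀) + 2 * Real.pi * k := by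
      intro s
      obtain ⟨r, hr0, e⟩ := hr s
      obtain ⟨r', hr', e'⟩ := (a4 (A s) (τ s) (hd s) (eτ s)).2.1 φ₀
      exact (a6 r r' _ _ hr0 hr' (e.symm.trans e')).2
    have hc := a7 ℝ Set.univ t (fun s => φ₀ + τ s + osc (A s) φ₀) isPreconnected_univ
      ht.continuousOn ((continuous_const.add hτ.continuous).add so2).continuousOn
      (fun z _ => hk z)
    obtain ⟨k, hk0⟩ := hk 0
    refine ⟨fun s => ⟨(A s, fun φ => φ + (τ s + 2 * Real.pi * k) + osc (A s) φ),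
      (contDiff_id.add contDiff_const).add (so1 s),
      a4 (A s) (τ s + 2 * Real.pi * k) (hd s) (by rw [MkG.ee_int]; exact eτ s)⟩,
      fun s => ⟨rfl, ?_⟩, ?_⟩
    · have e1 := hc s (Set.mem_univ _) 0 (Set.mem_univ _)
      show φ₀ + (τ s + 2 * Real.pi * k) + osc (A s) φ₀ = t s
      linarith
    · exact (contDiff_snd.add ((hτ.comp contDiff_fst).add contDiff_const)).add so
  · obtain ⟨t, _, e⟩ := a5 g.1.1 g.1.2 g.2.1.continuous g.2.2
    have b1 := abs_lt.1 ((a3 g.1.1 g.2.2.1).2 φ).2.1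
    have b2 := abs_lt.1 ((a3 g.1.1 g.2.2.1).2 φ').2.1
    rw [e φ, e φ', abs_lt]
    constructor <;> linarith [b1.1, b1.2, b2.1, b2.2]

end Pool.Agent.P.MP_878f14_gt.Sg
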