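import Pool.Agent.P.MP_878f14_gt.Sg.StU
import Pool.Agent.P.MP_878f14_gt.Idx

/-!
The choice of a monomial and of the numbers of parameters.
-/

namespace Pool.Agent.P.MP_878f14_gt.Sg

namespace PMon

theorem poly_ne {ι : Type} [Fintype ι] [DecidableEq ι] {N : ℕ} (κ : (Fin N → ι) → ℝ)
    (hκ : ∀ (σ : Equiv.Perm (Fin N)) (is : Fin N → ι), κ (fun t => is (σ t)) = κ is)
    (is : Fin N → ι) (h : κ is ≠ 0) : polyP κ (cnt is) ≠ 0 := by
  have key : ∀ js : Fin N → ι, cnt js = cnt is → κ js = κ is := by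
    intro js hj
    let e : ∀ c, {t // js t = c} ≃ {t // is t = c} := fun c => Fintype.equivOfCardEq (by
      rw [Fintype.card_subtype, Fintype.card_subtype]
      exact congrFun hj c)
    have h1 : js = fun t => is (Equiv.ofFiberEquiv e t) :=
      funext fun t => (Equiv.ofFiberEquiv_map e t).symm
    rw [h1]
    exact hκ _ is
  have h2 : polyP κ (cnt is) =
      ((Finset.univ.filter fun js : Fin N → ι => cnt js = cnt is).card : ℝ) * κ is := by
    unfold polyP
    rw [← Finset.sum_filter, Finset.sum_congr rfl fun js hjs => key js (Finset.mem_filter.1 hjs).2,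
      Finset.sum_const, nsmul_eq_mul]
  rw [h2]
  refine mul_ne_zero (Nat.cast_ne_zero.2 (Finset.card_pos.2 ⟨is, ?_⟩).ne') h
  simp

theorem choose_k {ι : Type} [Fintype ι] [DecidableEq ι] (a : ι → ℕ) (j0 : ι) (M : ℕ)
    (ha : ∀ j, a j = 2 ∨ 4 ≤ a j) (hM : ∑ j, a j + min (Fintype.card ι) ((∑ j, a j) / 4) ≤ M) :
    ∃ k : ι → ℕ, ∑ j, (2 + k j) = M ∧ ∀ j, a j = 2 ∨ (1 ≤ a j ∧ a j ≤ k j + 1) := by
  have h1 : ∑ j, (2 + if a j = 2 then 0 else a j - 1) =
      ∑ j, a j + (Finset.univ.filter fun j => a j ≠ 2).card := by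
    rw [Finset.card_filter, ← Finset.sum_add_distrib]
    refine Finset.sum_congr rfl fun j _ => ?_
    rcases ha j with h | h
    · simp [h]
    · have : a j ≠ 2 := by omega
      simp only [this, if_false, ne_eq, not_false_eq_true, if_true]
      omega
  have h2 : (Finset.univ.filter fun j => a j ≠ 2).card ≤ Fintype.card ι :=
    Finset.card_le_univ _
  have h3 : (Finset.univ.filter fun j => a j ≠ 2).card * 4 ≤ ∑ j, a j := by
    have := Finset.card_nsmul_le_sum (Finset.univ.filter fun j => a j ≠ 2) a 4 fun j hj => by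
      have := (Finset.mem_filter.1 hj).2
      rcases ha j with h | h
      · exact absurd h this
      · exact h
    rw [smul_eq_mul] at this
    exact this.trans (Finset.sum_le_sum_of_subset (Finset.filter_subset _ _))
  obtain ⟨d, hd⟩ : ∃ d, ∑ j, (2 + if a j = 2 then 0 else a j - 1) + d = M :=
    Nat.exists_eq_add_of_le (by rw [h1]; omega) |>.imp fun d hd => hd.symm
  refine ⟨fun j => (if a j = 2 then 0 else a j - 1) + if j = j0 then d else 0, ?_, fun j => ?_⟩
  · simp only [← add_assoc]
    rw [Finset.sum_add_distrib, Finset.sum_ite_eq' Finset.univ j0, if_pos (Finset.mem_univ _), hd]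
  · rcases ha j with h | h
    · exact Or.inl h
    · have : a j ≠ 2 := by omega
      simp only [this, if_false]
      omega

end PMon

theorem p_mon : S_Mon := by
  intro l m n P hσ hP x hx hn
  rw [idx_rot, P.map_sum (g := fun (_ : Fin (n + 1)) (j : Fin l) => x j • JJ m j)] at hx
  obtain ⟨i, -, hi⟩ := Finset.exists_ne_zero_of_sum_ne_zero hx
  rw [P.map_smul_univ (fun t => x (i t)) (fun t => JJ m (i t)), smul_eq_mul] at hi
  obtain ⟨h1, h2⟩ := mul_ne_zero_iff.1 hi
  let s : Finset (Fin l) := Finset.univ.image i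
  let is : Fin (n + 1) → s := fun t => ⟨i t, Finset.mem_image_of_mem _ (Finset.mem_univ t)⟩
  have hc : ∀ j : s, cnt is j = (Finset.univ.filter fun t => i t = j.1).card := fun j => by
    unfold cnt
    exact congrArg Finset.card (Finset.filter_congr fun t _ => Subtype.ext_iff)
  have ha : ∀ j : s, cnt is j = 2 ∨ 4 ≤ cnt is j := by
    rintro ⟨j, hj⟩
    rw [hc]
    have e := hP ⟨idxC m j, idxC m j, idxC_sq m j, idxC_sq m j⟩ fun t => JJ m (i t)
    simp only [idxC_conj] at e
    rw [P.map_smul_univ (fun t => if i t = j then (-1 : ℝ) else 1) (fun t => JJ m (i t)),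
      smul_eq_mul, Finset.prod_ite, Finset.prod_const, Finset.prod_const, one_pow,
      mul_one] at e
    have e' : (-1 : ℝ) ^ (Finset.univ.filter fun t => i t = j).card = 1 :=
      mul_right_cancel₀ h2 (e.trans (one_mul _).symm)
    have ev' := (neg_one_pow_eq_one_iff_even (by norm_num)).1 e'
    obtain ⟨t, -, rfl⟩ := Finset.mem_image.1 hj
    have pos : 0 < (Finset.univ.filter fun s => i s = i t).card :=
      Finset.card_pos.2 ⟨t, by simp⟩
    obtain ⟨r, hr⟩ := ev'
    show (Finset.univ.filter fun s => i s = i t).card = 2 ∨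
      4 ≤ (Finset.univ.filter fun s => i s = i t).card
    omega
  have hsum : ∑ j, cnt is j = n + 1 := by
    have := Finset.card_eq_sum_card_fiberwise (f := is) (s := Finset.univ) (t := Finset.univ)
      fun t _ => Finset.mem_coe.2 (Finset.mem_univ _)
    rw [Finset.card_univ, Fintype.card_fin] at this
    exact this.symm
  have hcard : Fintype.card s ≤ (Finset.univ.filter fun j => x j ≠ 0).card := by
    rw [Fintype.card_coe]
    refine Finset.card_le_card fun j hj => ?_
    obtain ⟨t, -, rfl⟩ := Finset.mem_image.1 hj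
    exact Finset.mem_filter.2 ⟨Finset.mem_univ _,
      Finset.prod_ne_zero_iff.1 h1 t (Finset.mem_univ t)⟩
  obtain ⟨k, hk1, hk2⟩ := PMon.choose_k (cnt is) (is 0) (2 * l + m) ha (by rw [hsum]; omega)
  exact ⟨s, cnt is, k, hk1, hk2, PMon.poly_ne _
    (fun σ js => hσ σ fun t => JJ m (js t).1) is h2⟩

end Pool.Agent.P.MP_878f14_gt.Sg
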