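import Pool.Agent.P.MP_878f14_gt.Sg.DefA

namespace Pool.Agent.P.MP_878f14_gt.Sg

namespace Norm

variable {D : Type} [Monoid D]

/-- Replace every entry `g` by `g - 1`, multilinearly. -/
def nz : Co D → List D → ℝ
  | φ, [] => φ []
  | φ, g :: l => nz (sh g φ) l - nz (sh 1 φ) l

theorem nz_lin (l : List D) : ∀ a b c d : Co D,
    nz (fun m => a m - b m + c m - d m) l = nz a l - nz b l + nz c l - nz d l := by
  induction l with
  | nil => intro a b c d; rfl
  | cons g l ih =>
    intro a b c d
    have h1 := ih (sh g a) (sh g b) (sh g c) (sh g d)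
    have h2 := ih (sh 1 a) (sh 1 b) (sh 1 c) (sh 1 d)
    change nz (fun m => sh g a m - sh g b m + sh g c m - sh g d m) l -
      nz (fun m => sh 1 a m - sh 1 b m + sh 1 c m - sh 1 d m) l = _
    rw [h1, h2]
    simp only [nz]
    ring

theorem dl_sub : ∀ (l : List D) (a b : Co D), dl (fun m => a m - b m) l = dl a l - dl b l
  | [], _, _ => by simp [dl]
  | [_], _, _ => by simp [dl]
  | g :: h :: l, a, b => by
    have h1 := dl_sub (h :: l) (sh g a) (sh g b)
    change _ - dl (fun m => sh g a m - sh g b m) (h :: l) = _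
    rw [h1]
    simp only [dl]
    ring

theorem nm_nz (l : List D) : ∀ φ : Co D, (1 : D) ∈ l → nz φ l = 0 := by
  induction l with
  | nil => intro φ h; simp at h
  | cons g l ih =>
    intro φ h
    rcases List.mem_cons.1 h with rfl | h
    · simp [nz]
    · simp [nz, ih _ h]

theorem nz_of_nm (l : List D) : ∀ w : Co D, Nm w → nz w l = w l := by
  induction l with
  | nil => intro w _; rfl
  | cons g l ih =>
    intro w hw
    have h1 : ∀ x : D, Nm (sh x w) := fun x m hm => hw _ (List.mem_cons_of_mem _ hm)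
    have h2 : sh 1 w l = 0 := hw _ List.mem_cons_self
    simp only [nz]
    rw [ih _ (h1 g), ih _ (h1 1), h2, sub_zero]
    rfl

theorem dl_nz : ∀ (l : List D) (φ : Co D), dl (nz φ) l = nz (dl φ) l
  | [], _ => rfl
  | [_], _ => by simp [dl, nz, sh]
  | g :: h :: l, φ => by
    have e : ∀ x y : D, nz (sh y (sh x (dl φ))) l = nz (sh y φ) l - nz (sh (x * y) φ) l +
        nz (sh x φ) l - nz (sh y (dl (sh x φ))) l := fun x y => nz_lin l _ _ _ _
    have h1 := dl_nz (h :: l) (sh g φ)
    have h2 := dl_nz (h :: l) (sh 1 φ)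
    have h3 : dl (sh g (nz φ)) (h :: l) = _ := dl_sub (h :: l) (nz (sh g φ)) (nz (sh 1 φ))
    rw [dl, h3, h1, h2]
    simp only [nz, e, mul_one, one_mul]
    ring

end Norm

theorem p_norm : S_Norm := by
  intro Λ _ β _ h _
  exact ⟨Norm.nz β, fun l hl => Norm.nm_nz l β hl,
    funext fun l => (Norm.dl_nz l β).trans (Norm.nz_of_nm l _ h)⟩

end Pool.Agent.P.MP_878f14_gt.Sg
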