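import Pool.Agent.P.MP_878f14_gt.Sg.StG

/-!
The thickened nerve and its charts are open; simplices of chains lie in it.
-/

open Filter Topology

namespace Pool.Agent.P.MP_878f14_gt.Sg

namespace POpen

variable {I : Type} [Fintype I] [PartialOrder I]

theorem isOpen_MM : IsOpen (MM I) := by
  rw [isOpen_iff_mem_nhds]
  rintro t0 ⟨hc, j, hj⟩
  have h1 : ∀ᶠ t : I → ℝ in 𝓝 t0, ∀ i, t0 i < 0 → t i < 0 := by
    rw [eventually_all]
    intro i
    by_cases hi : t0 i < 0
    · have : ∀ᶠ t : I → ℝ in 𝓝 t0, t i < 0 :=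
        (continuous_apply i).continuousAt.eventually (gt_mem_nhds hi)
      exact this.mono fun t ht _ => ht
    · exact Eventually.of_forall fun t h => absurd h hi
  have h2 : ∀ᶠ t : I → ℝ in 𝓝 t0, 2 < t j :=
    (continuous_apply j).continuousAt.eventually (lt_mem_nhds hj)
  filter_upwards [h1, h2] with t ht1 ht2
  refine ⟨hc.mono ?_, j, ht2⟩
  intro i hi
  by_contra h
  have h' : t0 i < 0 := lt_of_not_ge h
  exact absurd (ht1 i h') (not_lt.mpr hi)

theorem isOpen_WC (a : I) : IsOpen (WC a) := by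
  have e : WC a =
      MM I ∩ ({t : I → ℝ | 0 < t a} ∩ ⋂ j ∈ {j : I | j < a}, {t : I → ℝ | t j < 1}) := by
    ext t
    simp only [WC, Set.mem_ofPred_eq, Set.mem_inter_iff, Set.mem_iInter]
  rw [e]
  refine isOpen_MM.inter (IsOpen.inter ?_ ?_)
  · exact isOpen_lt continuous_const (continuous_apply a)
  · exact (Set.toFinite _).isOpen_biInter fun j _ =>
      isOpen_lt (continuous_apply j) continuous_const

theorem cover : ⋃ a : I, WC a = MM I := by
  ext t
  rw [Set.mem_iUnion]
  constructor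
  · rintro ⟨a, ha⟩
    exact ha.1
  · intro ht
    obtain ⟨j, hj⟩ := ht.2
    have hne : ({i : I | 1 ≤ t i}).Nonempty := ⟨j, by
      show 1 ≤ t j
      linarith⟩
    obtain ⟨a, ha⟩ := (Set.toFinite _).exists_minimal hne
    refine ⟨a, ht, ?_, ?_⟩
    · have : 1 ≤ t a := ha.prop
      linarith
    · intro i hi
      by_contra h
      have h' : 1 ≤ t i := not_lt.mp h
      exact absurd (ha.le_of_le h' hi.le) (not_le_of_gt hi)

omit [Fintype I] in
theorem chain (p : I → ℝ) (hp : p ∈ MM I) : IsChain (· ≤ ·) {a : I | p ∈ WC a} :=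
  hp.1.mono fun _ ha => le_of_lt ha.2.1

omit [Fintype I] in
theorem hull [DecidableEq I] (n : ℕ) (s : Finset I) (hs : IsChain (· ≤ ·) (s : Set I))
    (hn : s.card ≤ n) (p : I → ℝ) (hp : p ∈ convexHull ℝ (VV n '' (s : Set I))) :
    p ∈ MM I ∧ ∀ j ∉ s, p j = -1 := by
  have hne : s.Nonempty := by
    rcases s.eq_empty_or_nonempty with h | h
    · subst h
      simp at hp
    · exact h
  have hC : convexHull ℝ (VV n '' (s : Set I)) ⊆
      {q : I → ℝ | (∀ j ∉ s, q j = -1) ∧ ∑ i ∈ s, (q i + 1) = 4 * (n : ℝ)} := by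
    apply convexHull_min
    · rintro _ ⟨a, ha, rfl⟩
      have ha' : a ∈ s := ha
      refine ⟨fun j hj => ?_, ?_⟩
      · have : j ≠ a := fun h => hj (h ▸ ha')
        simp [VV, this]
      · simp [VV, ha']
    · rintro x ⟨hx1, hx2⟩ y ⟨hy1, hy2⟩ u v _ _ huv
      refine ⟨fun j hj => ?_, ?_⟩
      · simp only [Pi.add_apply, Pi.smul_apply, smul_eq_mul, hx1 j hj, hy1 j hj]
        linarith
      · have e : ∀ i ∈ s, (u • x + v • y) i + 1 = u * (x i + 1) + v * (y i + 1) := by
          intro i _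
          simp only [Pi.add_apply, Pi.smul_apply, smul_eq_mul]
          linear_combination (-1 : ℝ) * huv
        rw [Finset.sum_congr rfl e, Finset.sum_add_distrib, ← Finset.mul_sum, ← Finset.mul_sum,
          hx2, hy2]
        linear_combination (4 * (n : ℝ)) * huv
  obtain ⟨h1, h2⟩ := hC hp
  refine ⟨⟨hs.mono ?_, ?_⟩, h1⟩
  · intro i hi
    by_contra h
    have h' : p i = -1 := h1 i h
    have hi' : 0 ≤ p i := hi
    linarith
  · by_contra h
    push Not at h
    have h3 : ∑ i ∈ s, (p i + 1) ≤ ∑ _i ∈ s, (3 : ℝ) :=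
      Finset.sum_le_sum fun i _ => by linarith [h i]
    rw [h2, Finset.sum_const, nsmul_eq_mul] at h3
    have h4 : (s.card : ℝ) ≤ n := by exact_mod_cast hn
    have h5 : (1 : ℝ) ≤ s.card := by exact_mod_cast hne.card_pos
    linarith

end POpen

theorem p_open : S_Open := fun _ _ _ _ =>
  ⟨POpen.isOpen_MM, POpen.isOpen_WC, POpen.cover, POpen.chain,
    fun n s hs hn p hp => POpen.hull n s hs hn p hp⟩

end Pool.Agent.P.MP_878f14_gt.Sg
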