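import Pool.Agent.P.MP_878f14_gt.Sg.StG

/-!
Ordered transition maps with invertible derivative give a Haefliger structure.
-/

open Filter Topology
open scoped ContDiff

namespace Pool.Agent.P.MP_878f14_gt.Sg

namespace POrd

variable {T : Type} [NormedAddCommGroup T] [NormedSpace ℝ T]

/-- `h` is a smooth local inverse of `G` at `x`. -/
structure IsInv (G : T → T) (x : T) (h : T → T) : Prop where
  val : h (G x) = x
  sm : ∀ᶠ y in 𝓝 (G x), ContDiffAt ℝ ∞ h y
  left : ∀ᶠ z in 𝓝 x, h (G z) = z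
  right : ∀ᶠ y in 𝓝 (G x), G (h y) = y

theorem exists_inv [FiniteDimensional ℝ T] {G : T → T} (hG : ContDiff ℝ ∞ G) {x : T}
    (hx : IsUnit (fderiv ℝ G x)) : ∃ h, IsInv G x h := by
  have : CompleteSpace T := FiniteDimensional.complete ℝ T
  have hne : (∞ : WithTop ℕ∞) ≠ 0 := by simp
  have hd : Differentiable ℝ G := hG.differentiable hne
  have key : ∀ z : T, IsUnit (fderiv ℝ G z) →
      ∃ e : T ≃L[ℝ] T, HasFDerivAt G (e : T →L[ℝ] T) z := by
    intro z hz
    obtain ⟨u, hu⟩ := hz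
    refine ⟨ContinuousLinearEquiv.ofUnit u, ?_⟩
    have : ((ContinuousLinearEquiv.ofUnit u : T ≃L[ℝ] T) : T →L[ℝ] T) = fderiv ℝ G z := by
      rw [← hu]; rfl
    rw [this]; exact (hd z).hasFDerivAt
  obtain ⟨e, he⟩ := key x hx
  let φ : OpenPartialHomeomorph T T := (hG.contDiffAt (x := x)).toOpenPartialHomeomorph G he hne
  have hφ : (φ : T → T) = G := rfl
  have hsrc : x ∈ φ.source := (hG.contDiffAt (x := x)).mem_toOpenPartialHomeomorph_source he hne
  have htgt : G x ∈ φ.target := φ.map_source hsrc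
  have hval : φ.symm (G x) = x := φ.left_inv hsrc
  refine ⟨φ.symm, hval, ?_, ?_, ?_⟩
  · have hc : Continuous (fderiv ℝ G) := hG.continuous_fderiv hne
    have h1 : ∀ᶠ z in 𝓝 x, IsUnit (fderiv ℝ G z) :=
      hc.continuousAt.eventually (Units.isOpen.mem_nhds hx)
    have h2 : ContinuousAt φ.symm (G x) := φ.continuousAt_symm htgt
    have h3 : ∀ᶠ y in 𝓝 (G x), IsUnit (fderiv ℝ G (φ.symm y)) := by
      have h4 : Tendsto φ.symm (𝓝 (G x)) (𝓝 x) := by
        have := h2.tendsto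
        rwa [hval] at this
      exact h4.eventually h1
    filter_upwards [h3, φ.open_target.mem_nhds htgt] with y hy hy'
    obtain ⟨e', he'⟩ := key _ hy
    exact φ.contDiffAt_symm hy' he' hG.contDiffAt
  · filter_upwards [φ.open_source.mem_nhds hsrc] with z hz
    exact φ.left_inv hz
  · filter_upwards [φ.open_target.mem_nhds htgt] with y hy
    exact φ.right_inv hy

omit [NormedSpace ℝ T] in
/-- Cancellation of a locally injective map. -/
theorem cancel {G h k k' : T → T} {x y : T} (hl : ∀ᶠ z in 𝓝 x, h (G z) = z)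
    (hk : Tendsto k (𝓝 y) (𝓝 x)) (hk' : Tendsto k' (𝓝 y) (𝓝 x))
    (he : ∀ᶠ z in 𝓝 y, G (k z) = G (k' z)) : k =ᶠ[𝓝 y] k' := by
  filter_upwards [hk.eventually hl, hk'.eventually hl, he] with z h1 h2 h3
  rw [← h1, h3, h2]

open Classical in
/-- A chosen local inverse. -/
noncomputable def inv (G : T → T) (x : T) : T → T :=
  if h : ∃ k, IsInv G x k then h.choose else id

theorem inv_spec [FiniteDimensional ℝ T] {G : T → T} (hG : ContDiff ℝ ∞ G) {x : T}
    (hx : IsUnit (fderiv ℝ G x)) : IsInv G x (inv G x) := by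
  have h := exists_inv hG hx
  unfold inv
  rw [dif_pos h]
  exact h.choose_spec

end POrd

open POrd in
theorem p_ord : S_Ord := by
  intro E T I _ _ _ _ _ _ U W f G hW hU hf hcmp hG hid hmul hfG
  classical
  let γ : I → I → E → T → T := fun a b p => if a ≤ b then G a b else inv (G b a) (f a p)
  have γle : ∀ a b p, a ≤ b → γ a b p = G a b := fun a b p h => if_pos h
  have γlt : ∀ a b, ∀ p ∈ W a ∩ W b, ¬a ≤ b → b ≤ a ∧ G b a (f a p) = f b p ∧
      IsInv (G b a) (f a p) (γ a b p) := by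
    intro a b p hp h
    have hba : b ≤ a := (hcmp a b p hp).resolve_left h
    obtain ⟨h1, h2⟩ := hfG b a hba p ⟨hp.2, hp.1⟩
    refine ⟨hba, h1.symm, ?_⟩
    have : γ a b p = inv (G b a) (f a p) := if_neg h
    rw [this]
    exact inv_spec (hG b a) h2
  have sm : ∀ a b, ∀ p ∈ W a ∩ W b, ∀ᶠ y in 𝓝 (f b p), ContDiffAt ℝ ∞ (γ a b p) y := by
    intro a b p hp
    by_cases h : a ≤ b
    · rw [γle a b p h]; exact Eventually.of_forall fun y => (hG a b).contDiffAt
    · obtain ⟨_, h1, h2⟩ := γlt a b p hp h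
      rw [← h1]; exact h2.sm
  have mp : ∀ a b, ∀ p ∈ W a ∩ W b, γ a b p (f b p) = f a p := by
    intro a b p hp
    by_cases h : a ≤ b
    · rw [γle a b p h]; exact (hfG a b h p hp).1.symm
    · obtain ⟨_, h1, h2⟩ := γlt a b p hp h
      rw [← h1]; exact h2.val
  have td : ∀ a b, ∀ p ∈ W a ∩ W b, Tendsto (γ a b p) (𝓝 (f b p)) (𝓝 (f a p)) := by
    intro a b p hp
    have := (sm a b p hp).self_of_nhds.continuousAt
    rw [← mp a b p hp]; exact this
  have ch : ∀ m a b, m ≤ a → m ≤ b → ∀ p ∈ W a ∩ W b,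
      ∀ᶠ y in 𝓝 (f b p), G m a (γ a b p y) = G m b y := by
    intro m a b hma hmb p hp
    by_cases h : a ≤ b
    · rw [γle a b p h]
      exact Eventually.of_forall fun y => congrFun (hmul m a b hma h) y
    · obtain ⟨hba, h1, h2⟩ := γlt a b p hp h
      have h3 := h2.right
      rw [h1] at h3
      filter_upwards [h3] with y hy
      rw [← hmul m b a hmb hba, Function.comp_apply, hy]
  have rf : ∀ a, ∀ p ∈ W a, γ a a p =ᶠ[𝓝 (f a p)] id := by
    intro a p _
    rw [γle a a p le_rfl, hid]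
  have coc : ∀ a b c, ∀ p ∈ W a ∩ W b ∩ W c, γ a c p =ᶠ[𝓝 (f c p)] γ a b p ∘ γ b c p := by
    intro a b c p hp
    obtain ⟨⟨ha, hb⟩, hc⟩ := hp
    obtain ⟨m, hm, hma, hmb, hmc⟩ : ∃ m, p ∈ W m ∧ m ≤ a ∧ m ≤ b ∧ m ≤ c := by
      rcases hcmp a b p ⟨ha, hb⟩ with h1 | h1
      · rcases hcmp a c p ⟨ha, hc⟩ with h2 | h2
        · exact ⟨a, ha, le_rfl, h1, h2⟩
        · exact ⟨c, hc, h2, h2.trans h1, le_rfl⟩
      · rcases hcmp b c p ⟨hb, hc⟩ with h2 | h2
        · exact ⟨b, hb, h1, le_rfl, h2⟩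
        · exact ⟨c, hc, h2.trans h1, h2, le_rfl⟩
    have hinv := inv_spec (hG m a) (hfG m a hma p ⟨hm, ha⟩).2
    refine cancel hinv.left (td a c p ⟨ha, hc⟩)
      ((td a b p ⟨ha, hb⟩).comp (td b c p ⟨hb, hc⟩)) ?_
    filter_upwards [ch m a c hma hmc p ⟨ha, hc⟩, ch m b c hmb hmc p ⟨hb, hc⟩,
      (td b c p ⟨hb, hc⟩).eventually (ch m a b hma hmb p ⟨ha, hb⟩)] with y h1 h2 h3
    rw [h1, Function.comp_apply, h3, h2]
  have lc : ∀ a b, ∀ p ∈ W a ∩ W b, ∀ᶠ p' in 𝓝 p, γ a b p' =ᶠ[𝓝 (f b p')] γ a b p := by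
    intro a b p hp
    by_cases h : a ≤ b
    · refine Eventually.of_forall fun p' => ?_
      rw [γle a b p h, γle a b p' h]
    · obtain ⟨_, _, h2⟩ := γlt a b p hp h
      have hca : ContinuousAt (f a) p :=
        (hf a).continuousOn.continuousAt ((hW a).mem_nhds hp.1)
      filter_upwards [hca.eventually h2.left.eventually_nhds,
        ((hW a).inter (hW b)).mem_nhds hp] with p' h3 hp'
      obtain ⟨_, h4, h5⟩ := γlt a b p' hp' h
      have h6 := h5.right
      rw [h4] at h6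
      filter_upwards [(td a b p' hp').eventually h3, h6] with y h7 h8
      rw [← h7, h8]
  refine ⟨⟨W, f, γ, hW, hU, hf, sm, mp, lc, rf, coc⟩, rfl, ?_⟩
  intro a b hab p hp
  have hne : (∞ : WithTop ℕ∞) ≠ 0 := by simp
  refine ⟨?_, ?_⟩
  · show fderiv ℝ (γ a b p) (f b p) = _
    rw [γle a b p hab]
  · show fderiv ℝ (γ b a p) (f a p) * _ = 1
    have h1 := (coc b a b p ⟨⟨hp.2, hp.1⟩, hp.2⟩).symm.trans (rf b p hp.2)
    rw [γle a b p hab] at h1
    have h2 := h1.fderiv_eq (𝕜 := ℝ)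
    have h3 : DifferentiableAt ℝ (γ b a p) (G a b (f b p)) := by
      rw [← (hfG a b hab p hp).1]
      exact (sm b a p ⟨hp.2, hp.1⟩).self_of_nhds.differentiableAt hne
    rw [fderiv_comp _ h3 ((hG a b).differentiable hne _), fderiv_id,
      ← (hfG a b hab p hp).1] at h2
    exact h2

end Pool.Agent.P.MP_878f14_gt.Sg
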