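import Pool.Agent.P.MP_878f14_gt.Sg.StG

/-!
A partition of unity on the thickened nerve.
-/

open Filter Topology
open scoped ContDiff

namespace Pool.Agent.P.MP_878f14_gt.Sg

namespace Par

variable {I : Type} [Fintype I] [PartialOrder I]

open Classical in
/-- The unnormalised bump. -/
noncomputable def bump (k : I) (p : I → ℝ) : ℝ :=
  expNegInvGlue (p k - 1 / 4) *
    ∏ j ∈ Finset.univ.filter (fun j => j < k), expNegInvGlue (3 / 4 - p j)

theorem bump_sm (k : I) : ContDiff ℝ ∞ (bump k) := by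
  unfold bump
  refine ContDiff.mul ?_ (contDiff_prod fun j _ => ?_)
  · exact expNegInvGlue.contDiff.comp ((contDiff_apply ℝ ℝ k).sub contDiff_const)
  · exact expNegInvGlue.contDiff.comp (contDiff_const.sub (contDiff_apply ℝ ℝ j))

theorem bump_nonneg (k : I) (p : I → ℝ) : 0 ≤ bump k p :=
  mul_nonneg (expNegInvGlue.nonneg _) (Finset.prod_nonneg fun _ _ => expNegInvGlue.nonneg _)

theorem sum_pos {p : I → ℝ} (hp : p ∈ MM I) : 0 < ∑ k, bump k p := by
  classical
  obtain ⟨j, hj⟩ := hp.2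
  obtain ⟨k, hk⟩ := (Set.toFinite {i | 1 / 2 ≤ p i}).exists_minimal
    ⟨j, show 1 / 2 ≤ p j by linarith⟩
  refine Finset.sum_pos' (fun k _ => bump_nonneg k p) ⟨k, Finset.mem_univ _, ?_⟩
  have h1 : 1 / 2 ≤ p k := hk.1
  refine mul_pos (expNegInvGlue.pos_of_pos (by linarith)) (Finset.prod_pos fun i hi => ?_)
  have h2 : i < k := (Finset.mem_filter.1 hi).2
  have h3 : ¬1 / 2 ≤ p i := fun h => h2.not_ge (hk.2 h h2.le)
  exact expNegInvGlue.pos_of_pos (by linarith)

theorem bump_zero (k : I) {p : I → ℝ} (hp : p ∈ MM I) (hk : p ∉ WC k) :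
    ∀ᶠ q in 𝓝 p, bump k q = 0 := by
  classical
  by_cases h : 0 < p k
  · have h1 : ∃ j, j < k ∧ 1 ≤ p j := by
      by_contra hn
      exact hk ⟨hp, h, fun j hj => lt_of_not_ge fun h1 => hn ⟨j, hj, h1⟩⟩
    obtain ⟨j, hj, h1⟩ := h1
    have h2 : ∀ᶠ q : I → ℝ in 𝓝 p, 3 / 4 < q j :=
      continuousAt_const.eventually_lt (continuous_apply j).continuousAt (by linarith)
    filter_upwards [h2] with q hq
    unfold bump
    refine mul_eq_zero_of_right _ (Finset.prod_eq_zero (i := j) ?_ ?_)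
    · simpa using hj
    · exact expNegInvGlue.zero_of_nonpos (by linarith)
  · have h2 : ∀ᶠ q : I → ℝ in 𝓝 p, q k < 1 / 4 :=
      (continuous_apply k).continuousAt.eventually_lt continuousAt_const (by linarith)
    filter_upwards [h2] with q hq
    unfold bump
    exact mul_eq_zero_of_left (expNegInvGlue.zero_of_nonpos (by linarith)) _

end Par

open Par in
theorem p_par (_hOpen : S_Open) : S_Par := by
  intro I _ _
  refine ⟨fun k p => bump k p / ∑ j, bump j p, fun k => ?_, fun p hp => ?_, fun k p hp hk => ?_⟩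
  · exact (bump_sm k).contDiffOn.div (ContDiff.sum fun j _ => bump_sm j).contDiffOn
      fun p hp => (sum_pos hp).ne'
  · rw [← Finset.sum_div, div_self (sum_pos hp).ne']
  · filter_upwards [bump_zero k hp hk] with q hq
    rw [hq, zero_div]

end Pool.Agent.P.MP_878f14_gt.Sg
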