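import Pool.Agent.P.MP_878f14_gt.Sg.StU

/-!
Additive functions on the monoid of paths vanish on paths of rotations.
-/

open scoped ContDiff
open Complex

namespace Pool.Agent.P.MP_878f14_gt.Sg

namespace Perf

theorem ee_zero : ee 0 = 1 := by simp [ee]

theorem ee_re (t : ℝ) : (ee t).re = Real.cos t := by
  unfold ee
  rw [mul_comm, exp_ofReal_mul_I_re]

theorem ee_im (t : ℝ) : (ee t).im = Real.sin t := by
  unfold ee
  rw [mul_comm, exp_ofReal_mul_I_im]

theorem ee_half : ee (Real.pi / 2) = I := by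
  apply Complex.ext
  · rw [ee_re, Real.cos_pi_div_two, I_re]
  · rw [ee_im, Real.sin_pi_div_two, I_im]

theorem rotG_add (s t : ℝ) : rotG (s + t) = rotG s * rotG t := by
  refine Subtype.ext (Prod.ext (ContinuousLinearMap.ext fun z => ?_) (funext fun φ => ?_))
  · change ee (s + t) * z = ee s * (ee t * z)
    rw [ee_add, mul_assoc]
  · change φ + (s + t) = φ + t + s
    ring

/-- A family of shears, normalised by a dilation, is killed by every additive function. -/
theorem fam (hM : S_MkG) (A : ℝ → ℂ →L[ℝ] ℂ) (D : ℂ →L[ℝ] ℂ) (φ₀ : ℝ) (hA : ContDiff ℝ ∞ A)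
    (hd : ∀ x, 0 < dt (A x)) (hf : ∀ x, A x (ee φ₀) = ee φ₀) (hD : 0 < dt D)
    (hDf : D (ee φ₀) = (2 : ℝ) • ee φ₀) (h2 : ∀ x, A x * A x = A (2 * x))
    (h3 : ∀ x, D * A x = A (2 * x) * D) {V : Type} [AddCommGroup V] (η : G0 → V)
    (hη : ∀ g h, η (g * h) = η g + η h) :
    ∃ u : ℝ → GG, (∀ x, (u x).1.1 = A x ∧ (u x).1.2 φ₀ = φ₀) ∧
      ∀ f : ℝ → ℝ, ContDiff ℝ ∞ f → (∀ s ≤ 0, f s = f 0) → (∀ s, 1 ≤ s → f s = f 1) →
        ∃ g : G0, (∀ s, g.1 s = u (f s)) ∧ η g = 0 := by
  obtain ⟨u, hu, su⟩ := hM.2.1 A φ₀ (fun _ => φ₀) hA hd continuous_const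
    fun s => ⟨1, one_pos, by rw [hf, one_smul]⟩
  obtain ⟨d, hd', -⟩ := hM.2.1 (fun _ => D) φ₀ (fun _ => φ₀) contDiff_const (fun _ => hD)
    continuous_const fun _ => ⟨2, two_pos, hDf⟩
  have ext : ∀ g g' : GG, g.1.1 = g'.1.1 → g.1.2 φ₀ = φ₀ → g'.1.2 φ₀ = φ₀ → g = g' :=
    fun g g' h1 h2 h3 => hM.1 g g' h1 ⟨φ₀, by
      rw [h2, h3, sub_self, abs_zero]
      exact Real.two_pi_pos⟩
  have fx : ∀ g g' : GG, g.1.2 φ₀ = φ₀ → g'.1.2 φ₀ = φ₀ → (g * g').1.2 φ₀ = φ₀ :=
    fun g g' h h' => by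
      change g.1.2 (g'.1.2 φ₀) = φ₀
      rw [h', h]
  have r2 : ∀ x, u x * u x = u (2 * x) := fun x =>
    ext _ _ (by
      change (u x).1.1 * (u x).1.1 = _
      rw [(hu x).1, (hu _).1, h2]) (fx _ _ (hu x).2 (hu x).2) (hu _).2
  have r3 : ∀ x, d 0 * u x = u (2 * x) * d 0 := fun x =>
    ext _ _ (by
      change (d 0).1.1 * (u x).1.1 = (u (2 * x)).1.1 * (d 0).1.1
      rw [(hu x).1, (hu _).1, (hd' 0).1, h3]) (fx _ _ (hd' 0).2 (hu x).2)
      (fx _ _ (hu _).2 (hd' 0).2)
  refine ⟨u, hu, fun f sf f0 f1 => ?_⟩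
  let g : G0 := ⟨fun s => u (f s), su.comp ((sf.comp contDiff_fst).prodMk contDiff_snd),
    fun s hs => by beta_reduce; rw [f0 s hs], fun s hs => by beta_reduce; rw [f1 s hs]⟩
  let c : G0 := ⟨fun _ => d 0, (d 0).2.1.comp contDiff_snd, fun _ _ => rfl, fun _ _ => rfl⟩
  have e : c * g = g * g * c := Subtype.ext (funext fun s => by
    change d 0 * u (f s) = u (f s) * u (f s) * d 0
    rw [r2, r3])
  have e' := congrArg η e
  rw [hη, hη, hη] at e'
  refine ⟨g, fun _ => rfl, ?_⟩
  have h : η c + η g + η g = η c + η g := by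
    conv_rhs => rw [e']
    abel
  exact add_eq_left.mp h

/-- The upper shear. -/
noncomputable def shU (x : ℝ) : ℂ →L[ℝ] ℂ := 1 + x • imCLM.smulRight (1 : ℂ)

/-- The lower shear. -/
noncomputable def shL (x : ℝ) : ℂ →L[ℝ] ℂ := 1 + x • reCLM.smulRight I

theorem shU_re (x : ℝ) (z : ℂ) : (shU x z).re = z.re + x * z.im := by simp [shU]

theorem shU_im (x : ℝ) (z : ℂ) : (shU x z).im = z.im := by simp [shU]

theorem shL_re (x : ℝ) (z : ℂ) : (shL x z).re = z.re := by simp [shL]

theorem shL_im (x : ℝ) (z : ℂ) : (shL x z).im = z.im + x * z.re := by simp [shL]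

end Perf

open Perf in
theorem p_perf (hMkG : S_MkG) : S_Perf := by
  intro V _ _ η hη a g sa ha a0 a1 hg
  have pi := Real.pi_pos
  obtain ⟨u, hu, ku⟩ := fam hMkG shU (1 + reCLM.smulRight (1 : ℂ)) 0
    (contDiff_const.add (contDiff_id.smul contDiff_const))
    (fun x => by simp [dt, shU_re, shU_im])
    (fun x => by rw [ee_zero]; apply Complex.ext <;> simp [shU_re, shU_im])
    (by simp [dt]) (by rw [ee_zero]; apply Complex.ext <;> simp; norm_num)
    (fun x => ContinuousLinearMap.ext fun z => by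
      apply Complex.ext <;> simp [shU_re, shU_im]; ring)
    (fun x => ContinuousLinearMap.ext fun z => by
      apply Complex.ext <;> simp [shU_re, shU_im]; ring) η hη
  obtain ⟨l, hl, kl⟩ := fam hMkG shL (1 + imCLM.smulRight I) (Real.pi / 2)
    (contDiff_const.add (contDiff_id.smul contDiff_const))
    (fun x => by simp [dt, shL_re, shL_im])
    (fun x => by rw [ee_half]; apply Complex.ext <;> simp [shL_re, shL_im])
    (by simp [dt]) (by rw [ee_half]; apply Complex.ext <;> simp; norm_num)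
    (fun x => ContinuousLinearMap.ext fun z => by
      apply Complex.ext <;> simp [shL_re, shL_im]; ring)
    (fun x => ContinuousLinearMap.ext fun z => by
      apply Complex.ext <;> simp [shL_re, shL_im]; ring) η hη
  have cp : ∀ s, 1 + Real.cos (a s / 4) ≠ 0 := fun s => by
    have := Real.cos_nonneg_of_neg_pi_div_two_le_of_le (x := a s / 4) (by linarith [ha s])
      (by linarith [ha s])
    positivity
  have sq : ContDiff ℝ ∞ fun s => Real.sin (a s / 4) := (sa.div_const 4).sin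
  obtain ⟨U, hU, eU⟩ := ku (fun s => -Real.sin (a s / 4) / (1 + Real.cos (a s / 4)))
    (sq.neg.div (contDiff_const.add (sa.div_const 4).cos) cp)
    (fun s hs => by rw [a0 s hs]) (fun s hs => by rw [a1 s hs])
  obtain ⟨L, hL, eL⟩ := kl (fun s => Real.sin (a s / 4)) sq
    (fun s hs => by rw [a0 s hs]) (fun s hs => by rw [a1 s hs])
  have key : ∀ s, rotG (a s / 4) = U.1 s * L.1 s * U.1 s := fun s => by
    rw [hU, hL]
    have c0 := cp s
    have h1 := ha s
    generalize a s = b at c0 h1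
    generalize ht : b / 4 = t at c0
    refine hMkG.1 _ _ ?_ ⟨0, ?_⟩
    · change rotL t = (u _).1.1 * (l _).1.1 * (u _).1.1
      rw [(hu _).1, (hl _).1]
      refine ContinuousLinearMap.ext fun z => ?_
      change ee t * z = shU _ (shL _ (shU _ z))
      have sc := Real.sin_sq_add_cos_sq t
      apply Complex.ext
      · rw [shU_re, shL_re, shL_im, shU_re, shU_im, mul_re, ee_re, ee_im]
        field_simp
        linear_combination (z.re * (1 + Real.cos t) - z.im * Real.sin t) * sc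
      · rw [shU_im, shL_im, shU_re, shU_im, mul_im, ee_re, ee_im]
        field_simp
        linear_combination z.im * sc
    · change |0 + t - (u _).1.2 ((l _).1.2 ((u _).1.2 0))| < 2 * Real.pi
      rw [(hu _).2]
      have b1 := hMkG.2.2.2 (l (Real.sin t)) 0 (Real.pi / 2)
      have b2 := hMkG.2.2.2 (u (-Real.sin t / (1 + Real.cos t))) ((l (Real.sin t)).1.2 0) 0
      rw [(hl _).2] at b1
      rw [(hu _).2] at b2
      obtain ⟨r, hr, er⟩ := (l (Real.sin t)).2.2.2.1 0
      have e1 := congrArg Complex.re er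
      rw [(hl _).1, ee_zero, shL_re, smul_re, ee_re, one_re, smul_eq_mul] at e1
      generalize (l (Real.sin t)).1.2 0 = θ at b1 b2 e1
      have c1 : 0 < Real.cos |θ| := by
        rw [Real.cos_abs]
        exact pos_of_mul_pos_left (b := r) (by linarith [mul_comm r (Real.cos θ)]) hr.le
      have c2 : |θ| < Real.pi / 2 := by
        by_contra h
        have := Real.cos_nonpos_of_pi_div_two_le_of_le (not_lt.mp h) (by
          rw [sub_self, sub_zero, sub_zero] at b1
          linarith)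
        linarith
      rw [abs_lt] at b2 c2 ⊢
      constructor <;> linarith [b2.1, b2.2, c2.1, c2.2, h1.1, h1.2]
  have e : g = U * L * U * (U * L * U) * (U * L * U) * (U * L * U) :=
    Subtype.ext (funext fun s => by
      change g.1 s = U.1 s * L.1 s * U.1 s * (U.1 s * L.1 s * U.1 s) * (U.1 s * L.1 s * U.1 s) *
        (U.1 s * L.1 s * U.1 s)
      rw [← key, ← rotG_add, ← rotG_add, ← rotG_add, hg]
      congr 1
      ring)
  rw [e]
  simp only [hη, eU, eL, add_zero]

end Pool.Agent.P.MP_878f14_gt.Sg
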