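import Pool.Agent.P.MP_878f14_gt.Sg.DefA

/-!
A cycle of the bar complex comes from a cycle in the nerve of a poset.
-/

namespace Pool.Agent.P.MP_878f14_gt.Sg

namespace Pos

open Finset

/-! pairings of chains and cochains -/

theorem pr_sum {X Y : Type} (f : X →₀ ℝ) (G : X → (Y →₀ ℝ)) (φ : Y → ℝ) :
    ((f.sum fun a r => r • G a).sum fun l s => s * φ l) =
      f.sum fun a r => r * (G a).sum fun l s => s * φ l := by
  have e : ∀ z : Y →₀ ℝ, (z.sum fun l s => s * φ l) = Finsupp.linearCombination ℝ φ z := by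
    intro z
    simp [Finsupp.linearCombination_apply]
  rw [e, map_finsuppSum]
  refine Finsupp.sum_congr fun a _ => ?_
  rw [map_smul, smul_eq_mul, e]

theorem pr_map {X Y : Type} (f : X → Y) (v : X →₀ ℝ) (φ : Y → ℝ) :
    ((v.mapDomain f).sum fun l s => s * φ l) = v.sum fun l s => s * φ (f l) :=
  Finsupp.sum_mapDomain_index (fun _ => zero_mul _) (fun _ _ _ => add_mul _ _ _)

theorem supp_sum {X Y : Type} (f : X →₀ ℝ) (G : X → (Y →₀ ℝ)) {l : Y}
    (h : l ∈ (f.sum fun a r => r • G a).support) : ∃ a ∈ f.support, l ∈ (G a).support := by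
  classical
  obtain ⟨a, ha, hl⟩ := mem_biUnion.1 (Finsupp.support_sum h)
  exact ⟨a, ha, Finsupp.support_smul hl⟩

theorem supp_map {X Y : Type} (f : X → Y) (v : X →₀ ℝ) {l : Y}
    (h : l ∈ (v.mapDomain f).support) : ∃ a ∈ v.support, f a = l := by
  classical
  exact mem_image.1 (Finsupp.mapDomain_support h)

theorem cob_map {X Y : Type} (f : X → Y) (m : List X) (ψ : Co Y) :
    cob ψ (m.map f) = cob (fun l => ψ (l.map f)) m := by
  induction m generalizing ψ with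
  | nil => simp [cob]
  | cons a m ih =>
    simp only [List.map_cons, cob, ih]
    rfl

/-! segments and simplices -/

variable {Λ : Type} [Monoid Λ]

theorem seg_self (l : List Λ) (a : ℕ) : seg l a a = 1 := by
  unfold seg
  rw [List.drop_eq_nil_of_le (by simp), List.prod_nil]

theorem seg_mul (l : List Λ) {a b c : ℕ} (h1 : a ≤ b) (h2 : b ≤ c) :
    seg l a b * seg l b c = seg l a c := by
  unfold seg
  rw [← List.prod_append]
  congr 1
  have e : l.take b = (l.take c).take b := by rw [List.take_take, min_eq_left h2]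
  rw [e]
  generalize l.take c = m
  obtain ⟨k, rfl⟩ := Nat.exists_eq_add_of_le h1
  rw [List.drop_take, ← List.drop_drop, Nat.add_sub_cancel_left, List.take_append_drop]

theorem seg_cons (x : Λ) (l : List Λ) (a b : ℕ) : seg (x :: l) (a + 1) (b + 1) = seg l a b := by
  simp [seg]

omit [Monoid Λ] in
theorem smpl_map {I J : Type} (g : J → J → Λ) (f : I → J) :
    ∀ l : List I, smpl g (l.map f) = smpl (fun a b => g (f a) (f b)) l
  | [] => rfl
  | [_] => rfl
  | a :: b :: l => by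
    have := smpl_map g f (b :: l)
    simp only [List.map_cons, smpl] at this ⊢
    rw [this]

omit [Monoid Λ] in
theorem smpl_congr {I : Type} {g g' : I → I → Λ} :
    ∀ l : List I, l.Pairwise (fun a b => g a b = g' a b) → smpl g l = smpl g' l
  | [], _ => rfl
  | [_], _ => rfl
  | a :: b :: l, h => by
    have h' := List.pairwise_cons.1 h
    simp only [smpl]
    rw [h'.1 b (by simp), smpl_congr (b :: l) h'.2]

omit [Monoid Λ] in
theorem mem_smpl {I : Type} (g : I → I → Λ) (a : I) (l₂ : List I) :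
    ∀ l₁ : List I, g a a ∈ smpl g (l₁ ++ a :: a :: l₂)
  | [] => by simp [smpl]
  | [b] => by simp [smpl]
  | b :: c :: l => by
    have := mem_smpl g a l₂ (c :: l)
    simp only [List.cons_append, smpl] at this ⊢
    exact List.mem_cons_of_mem _ this

theorem smpl_range (σ : List Λ) : smpl (seg σ) (List.range (σ.length + 1)) = σ := by
  induction σ with
  | nil => rfl
  | cons x σ ih =>
    have e1 : smpl (seg (x :: σ)) ((List.range (σ.length + 1)).map Nat.succ) = σ := by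
      rw [smpl_map]
      simp only [Nat.succ_eq_add_one, seg_cons]
      exact ih
    rw [List.length_cons, List.range_succ_eq_map]
    rw [List.range_succ_eq_map, List.map_cons] at e1 ⊢
    simp only [smpl]
    rw [e1]
    simp [seg]

/-! the poset -/

/-- partial tables of transition elements -/
structure El (Λ : Type) where
  T : Set (ℕ × ℕ × Λ)

/-- the colours of a table -/
def cols (a : El Λ) : Set ℕ := {i | (i, i, (1 : Λ)) ∈ a.T}

/-- consistent tables -/
structure Ok (a : El Λ) : Prop where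
  fn : ∀ i j l l', (i, j, l) ∈ a.T → (i, j, l') ∈ a.T → l = l'
  top : ∃ m, IsGreatest (cols a) m
  ex : ∀ i ∈ cols a, ∀ j ∈ cols a, i ≤ j → ∃ l, (i, j, l) ∈ a.T
  co : ∀ i j k l l', (i, j, l) ∈ a.T → (j, k, l') ∈ a.T → (i, k, l * l') ∈ a.T

/-- the order on tables -/
def Le (a b : El Λ) : Prop := a = b ∨ (Ok a ∧ Ok b ∧ a.T ⊆ b.T)

/-- the order on tables as a partial order -/
@[reducible] def ord (Λ : Type) [Monoid Λ] : PartialOrder (El Λ) where
  le := Le
  le_refl _ := Or.inl rfl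
  le_trans a b c h1 h2 := by
    rcases h1 with rfl | h1
    · exact h2
    · rcases h2 with rfl | h2
      · exact Or.inr h1
      · exact Or.inr ⟨h1.1, h2.2.1, h1.2.2.trans h2.2.2⟩
  le_antisymm a b h1 h2 := by
    rcases h1 with rfl | h1
    · rfl
    · rcases h2 with rfl | h2
      · rfl
      · cases a
        cases b
        exact congrArg El.mk (Set.Subset.antisymm h1.2.2 h2.2.2)

theorem Le.ok {a b : El Λ} (h : Le a b) (hb : Ok b) : Ok a ∧ a.T ⊆ b.T := by
  rcases h with rfl | h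
  · exact ⟨hb, fun _ h => h⟩
  · exact ⟨h.1, h.2.2⟩

theorem Le.eq {a b : El Λ} (h : Le a b) (hb : ¬ Ok b) : a = b := by
  rcases h with h | h
  · exact h
  · exact absurd h.2.1 hb

/-- the largest colour -/
noncomputable def tp (a : El Λ) : ℕ := sSup (cols a)

theorem Ok.tp {a : El Λ} (h : Ok a) : IsGreatest (cols a) (tp a) := by
  obtain ⟨m, hm⟩ := h.top
  rw [Pos.tp, hm.csSup_eq]
  exact hm

open Classical in
/-- the transition elements -/
noncomputable def gg (a b : El Λ) : Λ :=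
  if h : Ok b ∧ ∃ l, (tp a, tp b, l) ∈ b.T then h.2.choose else 1

theorem gg_eq {a b : El Λ} (hb : Ok b) {l : Λ} (h : (tp a, tp b, l) ∈ b.T) : gg a b = l := by
  have h' : Ok b ∧ ∃ l, (tp a, tp b, l) ∈ b.T := ⟨hb, l, h⟩
  rw [gg, dif_pos h']
  exact hb.fn _ _ _ _ h'.2.choose_spec h

theorem gg_not {a b : El Λ} (hb : ¬ Ok b) : gg a b = 1 := by
  rw [gg, dif_neg fun h => hb h.1]

theorem gg_self (a : El Λ) : gg a a = 1 := by
  by_cases h : Ok a
  · exact gg_eq h h.tp.1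
  · exact gg_not h

theorem gg_mul {a b c : El Λ} (h1 : Le a b) (h2 : Le b c) : gg a b * gg b c = gg a c := by
  by_cases hc : Ok c
  · obtain ⟨hb, s2⟩ := h2.ok hc
    obtain ⟨ha, s1⟩ := h1.ok hb
    have m1 : tp a ∈ cols b := s1 ha.tp.1
    have m2 : tp b ∈ cols c := s2 hb.tp.1
    obtain ⟨l, hl⟩ := hb.ex _ m1 _ hb.tp.1 (hb.tp.2 m1)
    obtain ⟨l', hl'⟩ := hc.ex _ m2 _ hc.tp.1 (hc.tp.2 m2)
    rw [gg_eq hb hl, gg_eq hc hl', gg_eq hc (hc.co _ _ _ _ _ (s2 hl) hl')]
  · obtain rfl := h2.eq hc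
    obtain rfl := h1.eq hc
    rw [gg_self, one_mul]

/-- coloured vertices in increasing order -/
def Pw (x : List (ℕ × ℕ)) : Prop := x.Pairwise (fun x y => x.1 ≤ y.1 ∧ x.2 < y.2)

theorem Pw.cmp {x : List (ℕ × ℕ)} (h : Pw x) {p q : ℕ × ℕ} (hp : p ∈ x) (hq : q ∈ x)
    (hle : p.2 ≤ q.2) : p.1 ≤ q.1 := by
  induction x with
  | nil => exact absurd hp (by simp)
  | cons a x ih =>
    obtain ⟨h1, h2⟩ := List.pairwise_cons.1 h
    rcases List.mem_cons.1 hp with e1 | hp'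
    · rcases List.mem_cons.1 hq with e2 | hq'
      · rw [e1, e2]
      · rw [e1]
        exact (h1 q hq').1
    · rcases List.mem_cons.1 hq with e2 | hq'
      · have := (h1 p hp').2
        rw [e2] at hle
        omega
      · exact ih h2 hp' hq'

theorem Pw.fst_eq {x : List (ℕ × ℕ)} (h : Pw x) {p q : ℕ × ℕ} (hp : p ∈ x) (hq : q ∈ x)
    (e : p.2 = q.2) : p.1 = q.1 := le_antisymm (h.cmp hp hq e.le) (h.cmp hq hp e.ge)

theorem Pw.last {x : List (ℕ × ℕ)} (h : Pw x) (hx : x ≠ []) (d : ℕ × ℕ) :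
    x.getLastD d ∈ x ∧ ∀ p ∈ x, p.2 ≤ (x.getLastD d).2 := by
  rcases List.eq_nil_or_concat x with e | ⟨x', q, e⟩
  · exact absurd e hx
  · rw [List.concat_eq_append] at e
    subst e
    rw [List.getLastD_concat]
    refine ⟨by simp, fun p hp => ?_⟩
    rcases List.mem_append.1 hp with hp' | hp'
    · exact ((List.pairwise_append.1 h).2.2 p hp' q (by simp)).2.le
    · rw [List.mem_singleton.1 hp']

/-- the table of a simplex on a list of coloured vertices -/
def push (σ : List Λ) (x : List (ℕ × ℕ)) : El Λ :=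
  ⟨{t | ∃ p ∈ x, ∃ q ∈ x, p.2 ≤ q.2 ∧ t = (p.2, q.2, seg σ p.1 q.1)}⟩

theorem cols_push (σ : List Λ) (x : List (ℕ × ℕ)) (i : ℕ) :
    i ∈ cols (push σ x) ↔ ∃ p ∈ x, p.2 = i := by
  constructor
  · rintro ⟨p, hp, q, _, _, e⟩
    exact ⟨p, hp, (congrArg Prod.fst e).symm⟩
  · rintro ⟨p, hp, rfl⟩
    exact ⟨p, hp, p, hp, le_rfl, by rw [seg_self]⟩

theorem greatest_push (σ : List Λ) {x : List (ℕ × ℕ)} (h : Pw x) (hx : x ≠ []) (d : ℕ × ℕ) :
    IsGreatest (cols (push σ x)) (x.getLastD d).2 := by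
  obtain ⟨h1, h2⟩ := h.last hx d
  refine ⟨(cols_push σ x _).2 ⟨_, h1, rfl⟩, fun i hi => ?_⟩
  obtain ⟨p, hp, rfl⟩ := (cols_push σ x _).1 hi
  exact h2 p hp

theorem tp_push (σ : List Λ) {x : List (ℕ × ℕ)} (h : Pw x) (hx : x ≠ []) (d : ℕ × ℕ) :
    tp (push σ x) = (x.getLastD d).2 := (greatest_push σ h hx d).csSup_eq

theorem ok_push (σ : List Λ) {x : List (ℕ × ℕ)} (h : Pw x) (hx : x ≠ []) : Ok (push σ x) := by
  refine ⟨?_, ⟨_, greatest_push σ h hx (0, 0)⟩, fun i hi j hj hij => ?_, ?_⟩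
  · rintro i j l l' ⟨p, hp, q, hq, _, e⟩ ⟨p', hp', q', hq', _, e'⟩
    simp only [Prod.mk.injEq] at e e'
    rw [e.2.2, e'.2.2, h.fst_eq hp hp' (e.1.symm.trans e'.1),
      h.fst_eq hq hq' (e.2.1.symm.trans e'.2.1)]
  · obtain ⟨p, hp, rfl⟩ := (cols_push σ x _).1 hi
    obtain ⟨q, hq, rfl⟩ := (cols_push σ x _).1 hj
    exact ⟨_, p, hp, q, hq, hij, rfl⟩
  · rintro i j k l l' ⟨p, hp, q, hq, h1, e⟩ ⟨p', hp', q', hq', h2, e'⟩
    simp only [Prod.mk.injEq] at e e'
    have e2 : q.2 = p'.2 := e.2.1.symm.trans e'.1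
    refine ⟨p, hp, q', hq', by omega, ?_⟩
    rw [e.1, e'.2.1, e.2.2, e'.2.2, h.fst_eq hq hp' e2,
      seg_mul σ (h.cmp hp hp' (by omega)) (h.cmp hp' hq' h2)]

theorem le_push (σ : List Λ) {x x' : List (ℕ × ℕ)} (h : Pw x') (hx : x ≠ []) (hx' : x' ≠ [])
    (hs : x.Sublist x') : Le (push σ x) (push σ x') := by
  refine Or.inr ⟨ok_push σ (List.Pairwise.sublist hs h) hx, ok_push σ h hx', ?_⟩
  rintro t ⟨p, hp, q, hq, h1, e⟩
  exact ⟨p, hs.subset hp, q, hs.subset hq, h1, e⟩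

theorem gg_push (σ : List Λ) {x x' : List (ℕ × ℕ)} (h : Pw x') (hx : x ≠ []) (hx' : x' ≠ [])
    (hs : x.Sublist x') (d : ℕ × ℕ) :
    gg (push σ x) (push σ x') = seg σ (x.getLastD d).1 (x'.getLastD d).1 := by
  have h0 : Pw x := List.Pairwise.sublist hs h
  refine gg_eq (ok_push σ h hx') ?_
  rw [tp_push σ h0 hx d, tp_push σ h hx' d]
  have m1 := hs.subset (h0.last hx d).1
  exact ⟨_, m1, _, (h.last hx' d).1, (h.last hx' d).2 _ m1, rfl⟩

theorem push_up (σ τ : List Λ) (i n : ℕ) {x : List (ℕ × ℕ)} (h : Pw x) (hn : ∀ p ∈ x, p.1 ≤ n)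
    (hτ : ∀ a b, a ≤ b → b ≤ n → seg τ a b = seg σ (up i a) (up i b)) :
    push σ (x.map (Prod.map (up i) id)) = push τ x := by
  unfold push
  congr 1
  ext t
  constructor
  · rintro ⟨p, hp, q, hq, h1, e⟩
    obtain ⟨p', hp', rfl⟩ := List.mem_map.1 hp
    obtain ⟨q', hq', rfl⟩ := List.mem_map.1 hq
    refine ⟨p', hp', q', hq', h1, ?_⟩
    rw [e, hτ _ _ (h.cmp hp' hq' h1) (hn q' hq')]
    rfl
  · rintro ⟨p, hp, q, hq, h1, e⟩
    refine ⟨_, List.mem_map_of_mem hp, _, List.mem_map_of_mem hq, h1, ?_⟩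
    rw [e, hτ _ _ (h.cmp hp hq h1) (hn q hq)]
    rfl

end Pos

open Pos in
theorem p_pos (hFace : S_Face) (hSd : S_Sd) (hCol : S_Col) : S_Pos := by
  intro Λ _ n z hn hlen hz
  obtain ⟨sd, s1, s2, s3, s4⟩ := hSd
  obtain ⟨h, c1, c2, c3⟩ := hCol
  obtain ⟨p, rfl⟩ : ∃ p, n = p + 1 := ⟨n - 1, by omega⟩
  obtain ⟨face, hf⟩ := hFace Λ p
  let H : ℕ → List Λ → (List (El Λ) →₀ ℝ) := fun k σ =>
    (h k).sum fun m r => r • (sd _ m).mapDomain (List.map (push σ))
  have eH : ∀ k σ (φ : Co (El Λ)), ((H k σ).sum fun l s => s * φ l) =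
      (h k).sum fun m r => r * (sd _ m).sum fun c s => s * φ (c.map (push σ)) := by
    intro k σ φ
    simp only [H]
    rw [pr_sum]
    exact Finsupp.sum_congr fun m _ => by rw [pr_map]
  refine ⟨El Λ, ord Λ, gg, z.sum fun σ r => r • H (p + 1) σ, gg_self,
    fun a b c h1 h2 => gg_mul h1 h2, fun l hl => ?_, fun ψ => ?_, fun w hw => ?_⟩
  · obtain ⟨σ, _, h1⟩ := supp_sum _ _ hl
    obtain ⟨m, hm, h2⟩ := supp_sum _ _ h1
    obtain ⟨c, hc, rfl⟩ := supp_map _ _ h2
    obtain ⟨a1, a2, a3⟩ := s3 _ m c hc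
    obtain ⟨b1, b2, _⟩ := c1 _ m hm
    refine ⟨List.pairwise_map.2 (List.Pairwise.imp_of_mem (fun {x x'} hx hx' hs => ?_) a2), ?_⟩
    · exact le_push σ (List.Pairwise.sublist (a3 x' hx').2 b2) (a3 x hx).1 (a3 x' hx').1 hs
    · rw [List.length_map, a1, b1]
  · rw [pr_sum, ← hz (fun τ => (H p τ).sum fun l s => s * ψ l)]
    refine Finsupp.sum_congr fun σ hσ => ?_
    obtain ⟨f1, f2⟩ := hf σ (hlen σ hσ)
    congr 1
    rw [f2, eH]
    have e1 : ((h (p + 1)).sum fun m r => r * (sd _ m).sum fun c s =>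
        s * cob ψ (c.map (push σ))) = (h (p + 1)).sum fun m r => r *
          cob (fun l' => (sd _ l').sum fun c s => s * ψ (c.map (push σ))) m := by
      refine Finsupp.sum_congr fun m _ => ?_
      rw [← s2 _ m (fun c => ψ (c.map (push σ)))]
      simp only [cob_map]
    rw [e1, c2]
    refine Finset.sum_congr rfl fun i hi => ?_
    congr 1
    rw [eH]
    refine Finsupp.sum_congr fun m hm => ?_
    congr 1
    rw [s1, pr_map]
    refine Finsupp.sum_congr fun c hc => ?_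
    congr 2
    rw [List.map_map]
    refine List.map_congr_left fun x hx => ?_
    obtain ⟨_, _, a3⟩ := s3 _ m c hc
    obtain ⟨_, b2, b3⟩ := c1 _ m hm
    have hi' : i ≤ p + 1 := by
      have := Finset.mem_range.1 hi
      omega
    exact push_up σ _ i p (List.Pairwise.sublist (a3 x hx).2 b2)
      (fun q hq => b3 q ((a3 x hx).2.subset hq)) (f1 i hi').2
  · rw [pr_sum]
    refine Finsupp.sum_congr fun σ hσ => ?_
    congr 1
    have k1 : ∀ (l₁ : List ℕ) a l₂, w (smpl (seg σ) (l₁ ++ a :: a :: l₂)) = 0 := fun l₁ a l₂ =>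
      hw _ (seg_self σ a ▸ mem_smpl (seg σ) a l₂ l₁)
    have e2 := c3 (p + 1) (fun vs => w (smpl (seg σ) vs)) k1
    have e3 : smpl (seg σ) (List.range (p + 1 + 1)) = σ := by
      rw [← hlen σ hσ]
      exact smpl_range σ
    simp only [e3] at e2
    rw [eH _ _ (fun l => w (smpl gg l)), ← e2]
    refine Finsupp.sum_congr fun m hm => ?_
    congr 1
    rw [← s4 _ m (fun vs => w (smpl (seg σ) (vs.map Prod.fst))) (0, 0) (fun l₁ a l₂ => by
      simp only [List.map_append, List.map_cons]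
      exact k1 _ _ _)]
    refine Finsupp.sum_congr fun c hc => ?_
    congr 2
    obtain ⟨_, a2, a3⟩ := s3 _ m c hc
    obtain ⟨_, b2, _⟩ := c1 _ m hm
    rw [List.map_map, smpl_map, smpl_map]
    refine smpl_congr c (List.Pairwise.imp_of_mem (fun {x x'} hx hx' hs => ?_) a2)
    exact gg_push σ (List.Pairwise.sublist (a3 x' hx').2 b2) (a3 x hx).1 (a3 x' hx').1 hs (0, 0)

end Pool.Agent.P.MP_878f14_gt.Sg
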