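import Pool.Agent.P.MP_878f14_gt.Sg.DefA

/-!
Barycentric subdivision of lists.
-/

namespace Pool.Agent.P.MP_878f14_gt.Sg

namespace Sd

open Finset

/-- the subdivision of a list of length `n` -/
noncomputable def sdn {X : Type} : ℕ → List X → (List (List X) →₀ ℝ)
  | 0, _ => Finsupp.single [] 1
  | n + 1, l => ∑ i ∈ range (n + 1),
      ((-1 : ℝ) ^ n * (-1) ^ i) • (sdn n (l.eraseIdx i)).mapDomain fun m => m ++ [l]

/-- the pairing of a chain and a cochain -/
noncomputable def ev {X : Type} (ψ : X → ℝ) : (X →₀ ℝ) →ₗ[ℝ] ℝ := Finsupp.linearCombination ℝ ψ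

theorem ev_eq {X : Type} (ψ : X → ℝ) (z : X →₀ ℝ) : (z.sum fun m r => r * ψ m) = ev ψ z := by
  simp [ev, Finsupp.linearCombination_apply]

theorem ev_map {X Y : Type} (ψ : Y → ℝ) (f : X → Y) (z : X →₀ ℝ) :
    ev ψ (z.mapDomain f) = ev (fun m => ψ (f m)) z :=
  Finsupp.linearCombination_mapDomain ℝ f z

theorem ev_zero {X : Type} (l : List X) (ψ : Co (List X)) : ev ψ (sdn 0 l) = ψ [] := by
  simp [sdn, ev]

theorem ev_succ {X : Type} (n : ℕ) (l : List X) (ψ : Co (List X)) : ev ψ (sdn (n + 1) l) =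
    ∑ i ∈ range (n + 1),
      ((-1 : ℝ) ^ n * (-1) ^ i) * ev (fun m => ψ (m ++ [l])) (sdn n (l.eraseIdx i)) := by
  rw [sdn, map_sum]
  exact sum_congr rfl fun i _ => by rw [map_smul, ev_map, smul_eq_mul]

theorem ev_congr {X : Type} {ψ φ : X → ℝ} {z : X →₀ ℝ} (h : ∀ m ∈ z.support, ψ m = φ m) :
    ev ψ z = ev φ z := by
  rw [← ev_eq, ← ev_eq]
  exact Finsupp.sum_congr fun m hm => by rw [h m hm]

theorem ev_add_mul {X : Type} (ψ φ : X → ℝ) (c : ℝ) (z : X →₀ ℝ) :
    ev (fun m => ψ m + c * φ m) z = ev ψ z + c * ev φ z := by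
  rw [← ev_eq, ← ev_eq, ← ev_eq]
  simp only [Finsupp.sum, mul_sum, ← sum_add_distrib]
  exact sum_congr rfl fun m _ => by ring

theorem cob_sub {I : Type} (l : List I) : ∀ ψ φ : Co I,
    cob (fun m => ψ m - φ m) l = cob ψ l - cob φ l := by
  induction l with
  | nil => intro ψ φ; simp [cob]
  | cons a l ih =>
    intro ψ φ
    have h := ih (sh a ψ) (sh a φ)
    have e : sh a (fun m => ψ m - φ m) = fun m => sh a ψ m - sh a φ m := rfl
    simp only [cob]
    rw [e, h]
    ring

theorem cob_cob {I : Type} (l : List I) : ∀ ψ : Co I, cob (cob ψ) l = 0 := by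
  induction l with
  | nil => intro ψ; rfl
  | cons a l ih =>
    intro ψ
    have e : sh a (cob ψ) = fun m => ψ m - cob (sh a ψ) m := rfl
    have h : cob (cob ψ) (a :: l) = cob ψ l - cob (sh a (cob ψ)) l := rfl
    rw [h, e, cob_sub, ih]
    ring

theorem cob_sum {I : Type} (l : List I) : ∀ ψ : Co I,
    cob ψ l = ∑ i ∈ range l.length, (-1 : ℝ) ^ i * ψ (l.eraseIdx i) := by
  induction l with
  | nil => intro ψ; simp [cob]
  | cons a l ih =>
    intro ψ
    have h : cob ψ (a :: l) = ψ l - cob (sh a ψ) l := rfl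
    rw [h, ih, List.length_cons, sum_range_succ']
    simp only [List.eraseIdx_cons_succ, List.eraseIdx_cons_zero, pow_zero, one_mul, sh, pow_succ,
      mul_neg, mul_one, neg_mul, sum_neg_distrib]
    ring

theorem cob_app {I : Type} (x : I) (m : List I) : ∀ ψ : Co I,
    cob ψ (m ++ [x]) = cob (fun v => ψ (v ++ [x])) m + (-1) ^ m.length * ψ m := by
  induction m with
  | nil => intro ψ; simp [cob]
  | cons a m ih =>
    intro ψ
    have h : cob ψ (a :: m ++ [x]) = ψ (m ++ [x]) - cob (sh a ψ) (m ++ [x]) := rfl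
    have h' : cob (fun v => ψ (v ++ [x])) (a :: m) =
        ψ (m ++ [x]) - cob (fun v => sh a ψ (v ++ [x])) m := rfl
    rw [h, h', ih, List.length_cons, pow_succ]
    simp only [sh]
    ring

theorem len_erase {X : Type} {l : List X} {n i : ℕ} (hl : l.length = n + 1)
    (hi : i ∈ range (n + 1)) : (l.eraseIdx i).length = n := by
  rw [List.length_eraseIdx_of_lt (by rw [hl]; exact mem_range.1 hi), hl]
  rfl

theorem nat {X Y : Type} (f : X → Y) (n : ℕ) : ∀ l : List X,
    sdn n (l.map f) = (sdn n l).mapDomain (List.map (List.map f)) := by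
  induction n with
  | zero => intro l; simp [sdn]
  | succ n ih =>
    intro l
    rw [sdn, sdn, Finsupp.mapDomain_finsetSum]
    refine sum_congr rfl fun i _ => ?_
    rw [Finsupp.mapDomain_smul, List.eraseIdx_map, ih, ← Finsupp.mapDomain_comp,
      ← Finsupp.mapDomain_comp]
    congr 2
    funext m
    simp

theorem supp {X : Type} (n : ℕ) : ∀ l : List X, l.length = n → ∀ m ∈ (sdn n l).support,
    m.length = n ∧ m.Pairwise List.Sublist ∧ ∀ x ∈ m, x ≠ [] ∧ x.Sublist l := by
  classical
  induction n with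
  | zero =>
    intro l _ m hm
    have e : m = [] := mem_singleton.1 (Finsupp.support_single_subset hm)
    subst e
    simp
  | succ n ih =>
    intro l hl m hm
    rw [sdn] at hm
    obtain ⟨i, hi0, hi⟩ := Finsupp.mem_support_finsetSum m hm
    obtain ⟨m', hm', e⟩ := mem_image.1
      (Finsupp.mapDomain_support (Finsupp.support_smul hi))
    obtain ⟨h1, h2, h3⟩ := ih _ (len_erase hl hi0) m' hm'
    have h4 : ∀ x ∈ m', x.Sublist l := fun x hx =>
      (h3 x hx).2.trans (List.eraseIdx_sublist l i)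
    subst e
    refine ⟨by simp [h1], ?_, fun x hx => ?_⟩
    · rw [List.pairwise_append]
      refine ⟨h2, by simp, fun x hx y hy => ?_⟩
      rw [List.mem_singleton.1 hy]
      exact h4 x hx
    · rcases List.mem_append.1 hx with hx | hx
      · exact ⟨(h3 x hx).1, h4 x hx⟩
      · rw [List.mem_singleton.1 hx]
        refine ⟨?_, List.Sublist.refl _⟩
        rintro rfl
        simp at hl

theorem chain {X : Type} (n : ℕ) : ∀ l : List X, l.length = n → ∀ ψ : Co (List X),
    ev (cob ψ) (sdn n l) = cob (fun l' => ev ψ (sdn l'.length l')) l := by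
  induction n with
  | zero =>
    intro l hl ψ
    rw [List.length_eq_zero_iff.1 hl, ev_zero]
    rfl
  | succ n ih =>
    intro l hl ψ
    have h0 := cob_cob l fun l' => ev (fun v => ψ (v ++ [l])) (sdn l'.length l')
    rw [cob_sum, hl] at h0
    rw [ev_succ, cob_sum, hl]
    have e : ∀ i ∈ range (n + 1), ((-1 : ℝ) ^ n * (-1) ^ i) *
        ev (fun m => cob ψ (m ++ [l])) (sdn n (l.eraseIdx i)) =
        (-1 : ℝ) ^ n * ((-1) ^ i *
          cob (fun l' => ev (fun v => ψ (v ++ [l])) (sdn l'.length l')) (l.eraseIdx i)) +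
        (-1) ^ i * ev ψ (sdn (l.eraseIdx i).length (l.eraseIdx i)) := by
      intro i hi
      have hn := len_erase hl hi
      have h1 : ev (fun m => cob ψ (m ++ [l])) (sdn n (l.eraseIdx i)) =
          ev (fun m => cob (fun v => ψ (v ++ [l])) m + (-1) ^ n * ψ m) (sdn n (l.eraseIdx i)) :=
        ev_congr fun m hm => by rw [cob_app, (supp n _ hn m hm).1]
      have h2 : ((-1 : ℝ) ^ n) * (-1) ^ n = 1 := by
        rw [← mul_pow]
        simp
      rw [h1, ev_add_mul, ih _ hn, hn]
      linear_combination ((-1) ^ i * ev ψ (sdn n (l.eraseIdx i))) * h2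
    rw [sum_congr rfl e, sum_add_distrib, ← mul_sum, h0]
    ring

theorem last {X : Type} (d : X) (n : ℕ) : ∀ l : List X, l.length = n → ∀ w : Co X,
    (∀ (l₁ : List X) a l₂, w (l₁ ++ a :: a :: l₂) = 0) →
    ev (fun m => w (m.map fun x => x.getLastD d)) (sdn n l) = w l := by
  induction n with
  | zero =>
    intro l hl w _
    rw [List.length_eq_zero_iff.1 hl, ev_zero]
    rfl
  | succ n ih =>
    intro l hl w hw
    obtain ⟨l', x, rfl⟩ : ∃ l' x, l = l' ++ [x] := by
      rcases List.eq_nil_or_concat l with rfl | ⟨l', x, h⟩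
      · simp at hl
      · exact ⟨l', x, by simpa using h⟩
    have hl' : l'.length = n := by simpa using hl
    have e : ∀ i ∈ range (n + 1), ((-1 : ℝ) ^ n * (-1) ^ i) *
        ev (fun m => w ((m ++ [l' ++ [x]]).map fun x => x.getLastD d))
          (sdn n ((l' ++ [x]).eraseIdx i)) =
        ((-1 : ℝ) ^ n * (-1) ^ i) * w ((l' ++ [x]).eraseIdx i ++ [x]) := by
      intro i hi
      have h1 := ih _ (len_erase hl hi) (fun v => w (v ++ [x])) fun l₁ a l₂ => by
        simpa using hw l₁ a (l₂ ++ [x])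
      rw [← h1]
      congr 3
      funext m
      simp
    rw [ev_succ, sum_congr rfl e, sum_range_succ, sum_eq_zero, zero_add]
    · have h2 : ((-1 : ℝ) ^ n) * (-1) ^ n = 1 := by
        rw [← mul_pow]
        simp
      rw [h2, one_mul, List.eraseIdx_append_of_length_le hl'.le]
      simp [hl']
    · intro i hi
      rw [List.eraseIdx_append_of_lt_length (by rw [hl']; exact mem_range.1 hi)]
      have h3 := hw (l'.eraseIdx i) x []
      simp only [List.append_assoc, List.singleton_append]
      rw [h3, mul_zero]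

end Sd

theorem p_sd : S_Sd := by
  refine ⟨fun _ l => Sd.sdn l.length l, fun X Y f l => ?_, fun X l ψ => ?_, fun X l => ?_,
    fun X l w d hw => ?_⟩
  · simp only [List.length_map]
    exact Sd.nat f _ l
  · simp only [Sd.ev_eq]
    exact Sd.chain _ l rfl ψ
  · exact Sd.supp _ l rfl
  · rw [Sd.ev_eq (fun m : List (List X) => w (m.map fun x => x.getLastD d))]
    exact Sd.last d _ l rfl w hw

end Pool.Agent.P.MP_878f14_gt.Sg
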