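import Pool.Agent.P.MP_878f14_gt.Sg.DefA

/-!
Barycentric subdivision of lists.
-/

namespace Pool.Agent.P.MP_878f14_gt.Sg

namespace Sd2

open Finsupp

variable {X Y : Type}

noncomputable def sdn : ℕ → List X → (List (List X) →₀ ℝ)
  | 0, _ => single [] 1
  | n + 1, l => ∑ i ∈ Finset.range (n + 1),
      ((-1 : ℝ) ^ n * (-1) ^ i) • (sdn n (l.eraseIdx i)).mapDomain (· ++ [l])

theorem cob_eq (l : List X) : ∀ ψ : Co X,
    cob ψ l = ∑ i ∈ Finset.range l.length, (-1) ^ i * ψ (l.eraseIdx i) := by
  induction l with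
  | nil => intro ψ; simp [cob]
  | cons a l ih =>
    intro ψ
    rw [cob, ih, List.length_cons, Finset.sum_range_succ', sub_eq_neg_add,
      ← Finset.sum_neg_distrib]
    simp [sh, pow_succ]

theorem cob_snoc (x : X) (m : List X) : ∀ ψ : Co X,
    cob ψ (m ++ [x]) = cob (fun m => ψ (m ++ [x])) m + (-1) ^ m.length * ψ m := by
  induction m with
  | nil => intro ψ; simp [cob]
  | cons a m ih =>
    intro ψ
    simp only [List.cons_append, cob, ih, List.length_cons, pow_succ, sh]
    have : (sh a fun m => ψ (m ++ [x])) = fun m => ψ (a :: (m ++ [x])) := rfl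
    rw [this]
    ring

theorem cob_sub (l : List X) (ψ φ : Co X) : cob (ψ - φ) l = cob ψ l - cob φ l := by
  simp [cob_eq, mul_sub]

theorem cob_cob (l : List X) : ∀ ψ : Co X, cob (cob ψ) l = 0 := by
  induction l with
  | nil => intro ψ; rfl
  | cons a l ih =>
    intro ψ
    have : sh a (cob ψ) = ψ - cob (sh a ψ) := rfl
    rw [cob, this, cob_sub, ih]
    simp

theorem ev_succ (n : ℕ) (l : List X) (ψ : Co (List X)) :
    ((sdn (n + 1) l).sum fun m r => r * ψ m) = ∑ i ∈ Finset.range (n + 1),
      ((-1 : ℝ) ^ n * (-1) ^ i) * (sdn n (l.eraseIdx i)).sum fun m r => r * ψ (m ++ [l]) := by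
  have : ∀ z : List (List X) →₀ ℝ, ∀ ψ : Co (List X),
    (z.sum fun m r => r * ψ m) = linearCombination ℝ ψ z := fun _ _ => rfl
  simp only [this, sdn, map_sum, map_smul, smul_eq_mul, linearCombination_mapDomain]
  rfl

theorem supp (n : ℕ) : ∀ l : List X, l.length = n → ∀ m ∈ (sdn n l).support, m.length = n ∧
    m.Pairwise List.Sublist ∧ ∀ x ∈ m, x ≠ [] ∧ x.Sublist l := by
  classical
  induction n with
  | zero =>
    intro l _ m hm
    obtain rfl : m = [] := by simpa using support_single_subset hm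
    simp
  | succ n ih =>
    intro l hl m hm
    obtain ⟨i, hi, hm⟩ := Finset.mem_biUnion.1 (support_finsetSum hm)
    obtain ⟨m, hm', rfl⟩ := Finset.mem_image.1 (mapDomain_support (support_smul hm))
    obtain ⟨h1, h2, h3⟩ := ih (l.eraseIdx i) (by
      rw [List.length_eraseIdx_of_lt (hl ▸ Finset.mem_range.1 hi), hl]; rfl) m hm'
    have h4 : ∀ x ∈ m, x.Sublist l := fun x hx => (h3 x hx).2.trans (List.eraseIdx_sublist _ _)
    refine ⟨by simp [h1], List.pairwise_append.2 ⟨h2, by simp, by simpa using h4⟩, fun x hx => ?_⟩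
    rcases List.mem_append.1 hx with hx | hx
    · exact ⟨(h3 x hx).1, h4 x hx⟩
    · obtain rfl : x = l := by simpa using hx
      exact ⟨by rintro rfl; simp at hl, List.Sublist.refl _⟩

theorem nat (f : X → Y) (n : ℕ) : ∀ l : List X,
    sdn n (l.map f) = (sdn n l).mapDomain (List.map (List.map f)) := by
  induction n with
  | zero => intro l; simp [sdn]
  | succ n ih =>
    intro l
    simp only [sdn, mapDomain_finsetSum, mapDomain_smul, List.eraseIdx_map, ih, ← mapDomain_comp]
    refine Finset.sum_congr rfl fun i _ => ?_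
    congr 2
    funext m
    simp

theorem bd (n : ℕ) : ∀ l : List X, l.length = n → ∀ ψ : Co (List X),
    ((sdn n l).sum fun m r => r * cob ψ m) =
      cob (fun l' => (sdn l'.length l').sum fun m r => r * ψ m) l := by
  induction n with
  | zero =>
    intro l hl ψ
    obtain rfl := List.length_eq_zero_iff.1 hl
    simp [sdn, cob]
  | succ n ih =>
    intro l hl ψ
    have h0 := cob_cob l fun l' => (sdn l'.length l').sum fun m r => r * ψ (m ++ [l])
    rw [cob_eq, hl] at h0
    rw [ev_succ, cob_eq, hl, ← add_zero (Finset.sum _ fun i => (-1) ^ i * _),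
      ← mul_zero ((-1 : ℝ) ^ n), ← h0, Finset.mul_sum, ← Finset.sum_add_distrib]
    refine Finset.sum_congr rfl fun i hi => ?_
    have hi' : (l.eraseIdx i).length = n := by
      rw [List.length_eraseIdx_of_lt (by simpa [hl] using hi), hl]; rfl
    rw [← ih _ hi', hi', sum_congr (g2 := fun m r => r * cob (fun m => ψ (m ++ [l])) m +
      (-1) ^ n * (r * ψ m)) fun m hm => by rw [cob_snoc, (supp n _ hi' m hm).1]; ring, Finsupp.sum_add,
      ← mul_sum]
    have : ((-1 : ℝ) ^ n) * (-1) ^ n = 1 := by rw [← mul_pow]; simp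
    linear_combination ((-1) ^ i * (sdn n (l.eraseIdx i)).sum fun m r => r * ψ m) * this

theorem last (d : X) (n : ℕ) : ∀ l : List X, l.length = n → ∀ w : Co X,
    (∀ (l₁ : List X) a l₂, w (l₁ ++ a :: a :: l₂) = 0) →
    ((sdn n l).sum fun m r => r * w (m.map fun x => x.getLastD d)) = w l := by
  induction n with
  | zero =>
    intro l hl w _
    obtain rfl := List.length_eq_zero_iff.1 hl
    simp [sdn]
  | succ n ih =>
    intro l hl w hw
    obtain ⟨l, a, rfl⟩ : ∃ l' a, l = l' ++ [a] :=
      ⟨_, _, (List.dropLast_append_getLast (by rintro rfl; simp at hl)).symm⟩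
    have hl' : l.length = n := by simpa using hl
    have h : ∀ i ∈ Finset.range (n + 1), ((sdn n ((l ++ [a]).eraseIdx i)).sum fun m r =>
        r * w ((m ++ [l ++ [a]]).map fun x => x.getLastD d)) =
        w ((l ++ [a]).eraseIdx i ++ [a]) := fun i hi => by
      rw [← ih _ (by rw [List.length_eraseIdx_of_lt (by simpa [hl'] using hi), hl]; rfl)
        (fun m => w (m ++ [a])) fun l₁ b l₂ => by simpa using hw l₁ b (l₂ ++ [a])]
      simp
    rw [ev_succ n _ fun m => w (m.map fun x => x.getLastD d),
      Finset.sum_congr rfl fun i hi => by rw [h i hi], Finset.sum_range_succ,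
      Finset.sum_eq_zero fun i hi => by
        rw [List.eraseIdx_append_of_lt_length (by simpa [hl'] using hi), List.append_assoc]
        exact mul_eq_zero_of_right _ (hw _ a []),
      List.eraseIdx_append_of_length_le hl'.le, hl', Nat.sub_self, ← mul_pow]
    simp

end Sd2

theorem p_sd2 : S_Sd :=
  ⟨fun _ l => Sd2.sdn l.length l, fun _ _ f l => by
    beta_reduce; rw [List.length_map]; exact Sd2.nat f _ l,
    fun _ l ψ => Sd2.bd _ l rfl ψ, fun _ l => Sd2.supp _ l rfl,
    fun _ l w d hw => Sd2.last d _ l rfl w hw⟩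

end Pool.Agent.P.MP_878f14_gt.Sg
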