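import Pool.Agent.P.MP_878f14_gt.Sg.StG

/-! The parametrisation of a simplex by a cube. -/

open scoped ContDiff

namespace Pool.Agent.P.MP_878f14_gt.Sg

namespace Smp

variable {E : Type} [NormedAddCommGroup E] [NormedSpace ℝ E]

theorem smp_cons (k : ℕ) (a : Fin (k + 2) → E) (x : ℝ) (p : Fin k → ℝ) :
    smp (k + 1) a (Fin.cons x p) = (1 - x) • a 0 + x • smp k (Fin.tail a) p := rfl

theorem smooth (k : ℕ) : ∀ a : Fin (k + 1) → E, ContDiff ℝ ∞ (smp k a) := by
  induction k with
  | zero => exact fun a => contDiff_const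
  | succ k ih =>
    intro a
    have h0 : ContDiff ℝ ∞ fun s : Fin (k + 1) → ℝ => s 0 := contDiff_apply ℝ ℝ 0
    have h1 : ContDiff ℝ ∞ fun s : Fin (k + 1) → ℝ => (Fin.tail s : Fin k → ℝ) :=
      contDiff_pi.2 fun i => contDiff_apply ℝ ℝ i.succ
    exact ((contDiff_const.sub h0).smul contDiff_const).add (h0.smul ((ih _).comp h1))

theorem hull (k : ℕ) : ∀ (a : Fin (k + 1) → E), ∀ s ∈ Set.Icc (0 : Fin k → ℝ) 1,
    smp k a s ∈ convexHull ℝ (Set.range a) := by
  induction k with
  | zero => exact fun a s _ => subset_convexHull ℝ _ ⟨0, rfl⟩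
  | succ k ih =>
    intro a s hs
    have h1 : smp k (Fin.tail a) (Fin.tail s) ∈ convexHull ℝ (Set.range a) := by
      refine convexHull_mono ?_ (ih _ _ ⟨fun i => hs.1 i.succ, fun i => hs.2 i.succ⟩)
      rintro _ ⟨i, rfl⟩
      exact ⟨i.succ, rfl⟩
    exact convex_convexHull ℝ _ (subset_convexHull ℝ (Set.range a) ⟨0, rfl⟩) h1 (sub_nonneg.2 (hs.2 0))
      (hs.1 0) (sub_add_cancel _ _)

theorem aff (f : E →L[ℝ] ℝ) (c : ℝ) (k : ℕ) : ∀ (a : Fin (k + 1) → E), (∀ i, f (a i) = c) →
    ∀ s, f (smp k a s) = c := by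
  induction k with
  | zero => exact fun a h s => h 0
  | succ k ih =>
    intro a h s
    change f ((1 - s 0) • a 0 + s 0 • smp k (Fin.tail a) (Fin.tail s)) = c
    rw [map_add, map_smul, map_smul, h 0, ih (Fin.tail a) (fun i => h i.succ), smul_eq_mul,
      smul_eq_mul]
    ring

theorem face_one (k : ℕ) : ∀ (a : Fin (k + 2) → E) (b : Fin (k + 1)) (s : Fin k → ℝ),
    smp (k + 1) a (b.insertNth 1 s) = smp k (fun i => a (b.castSucc.succAbove i)) s := by
  have h0 : ∀ (k : ℕ) (a : Fin (k + 2) → E) (s : Fin k → ℝ),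
      smp (k + 1) a ((0 : Fin (k + 1)).insertNth 1 s) =
        smp k (fun i => a ((0 : Fin (k + 1)).castSucc.succAbove i)) s := by
    intro k a s
    rw [Fin.insertNth_zero', smp_cons, sub_self, zero_smul, one_smul, zero_add]
    rfl
  induction k with
  | zero =>
    intro a b s
    obtain rfl : b = 0 := Subsingleton.elim (α := Fin 1) _ _
    exact h0 0 a s
  | succ k ih =>
    intro a b s
    refine Fin.cases (h0 _ a s) (fun b' => ?_) b
    rw [← Fin.cons_self_tail s, Fin.insertNth_succ_cons, smp_cons, smp_cons, ih]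
    have e1 : b'.succ.castSucc.succAbove 0 = 0 := by
      rw [← Fin.succ_castSucc]
      exact Fin.succ_succAbove_zero _
    have e2 : (Fin.tail fun i => a (b'.succ.castSucc.succAbove i)) =
        fun i => Fin.tail a (b'.castSucc.succAbove i) := by
      funext i
      simp only [Fin.tail]
      rw [← Fin.succ_castSucc, Fin.succ_succAbove_succ]
    rw [e1, e2]

theorem zero_head (k : ℕ) (a : Fin (k + 2) → E) (s : Fin k → ℝ) :
    smp (k + 1) a ((0 : Fin (k + 1)).insertNth 0 s) = a 0 := by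
  rw [Fin.insertNth_zero', smp_cons, sub_zero, zero_smul, one_smul, add_zero]

theorem face_last (k : ℕ) : ∀ (a : Fin (k + 2) → E) (s : Fin k → ℝ),
    smp (k + 1) a ((Fin.last k).insertNth 0 s) = smp k (Fin.init a) s := by
  induction k with
  | zero => exact fun a s => zero_head 0 a s
  | succ k ih =>
    intro a s
    rw [← Fin.cons_self_tail s, ← Fin.succ_last, Fin.insertNth_succ_cons, smp_cons, smp_cons, ih,
      Fin.tail_init_eq_init_tail]
    rfl

theorem face_deg (k : ℕ) : ∀ (a : Fin (k + 2) → E) (b : Fin (k + 1)) (s : Fin k → ℝ) (c : Fin k),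
    b ≤ c.castSucc → ∀ t : ℝ,
      smp (k + 1) a (b.insertNth 0 (Function.update s c t)) = smp (k + 1) a (b.insertNth 0 s) := by
  induction k with
  | zero => exact fun a b s c => c.elim0
  | succ k ih =>
    intro a b s c
    refine Fin.cases (fun _ t => by rw [zero_head, zero_head]) (fun b' => ?_) b
    refine Fin.cases (fun h => ?_) (fun c' h t => ?_) c
    · exact absurd h (not_le.2 (Fin.succ_pos b'))
    · rw [← Fin.cons_self_tail s, ← Fin.cons_update, Fin.insertNth_succ_cons,
        Fin.insertNth_succ_cons, smp_cons, smp_cons, ih]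
      rwa [← Fin.succ_castSucc, Fin.succ_le_succ_iff] at h

end Smp

open Smp in
theorem p_smp : S_Smp := fun _ _ _ k a =>
  ⟨smooth k a, hull k a, fun f c => aff f c k a, fun a' b s =>
    ⟨face_one k a' b s, fun h => h ▸ face_last k a' s, face_deg k a' b s⟩⟩

end Pool.Agent.P.MP_878f14_gt.Sg
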