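import Pool.Agent.P.MP_878f14_gt.Sg.StG

/-!
Stokes on a simplex.
-/

open Filter Topology MeasureTheory
open scoped ContDiff

namespace Pool.Agent.P.MP_878f14_gt.Sg

namespace Stk

/-- the linear part of the inclusion of a face of the cube -/
noncomputable def lin {k : ℕ} (b : Fin (k + 1)) : (Fin k → ℝ) →L[ℝ] (Fin (k + 1) → ℝ) :=
  LinearMap.toContinuousLinearMap
    { toFun := fun y => b.insertNth 0 y
      map_add' := fun y z => by
        funext i
        refine b.succAboveCases ?_ (fun t => ?_) i <;> simp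
      map_smul' := fun c y => by
        funext i
        refine b.succAboveCases ?_ (fun t => ?_) i <;> simp }

lemma lin_apply {k : ℕ} (b : Fin (k + 1)) (y : Fin k → ℝ) : lin b y = b.insertNth 0 y := rfl

lemma lin_single {k : ℕ} (b : Fin (k + 1)) (t : Fin k) :
    lin b (Pi.single t 1) = Pi.single (b.succAbove t) 1 := by
  rw [lin_apply]
  funext i
  refine b.succAboveCases ?_ (fun s => ?_) i
  · simp
  · simp [Pi.single_apply]

lemma ins_has {k : ℕ} (b : Fin (k + 1)) (r : ℝ) (y : Fin k → ℝ) :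
    HasFDerivAt (fun y : Fin k → ℝ => (b.insertNth r y : Fin (k + 1) → ℝ)) (lin b) y := by
  have e : (fun y : Fin k → ℝ => (b.insertNth r y : Fin (k + 1) → ℝ)) =
      fun y => Pi.single b r + lin b y := by
    funext y i
    rw [lin_apply]
    refine b.succAboveCases ?_ (fun s => ?_) i <;> simp
  rw [e]
  exact (lin b).hasFDerivAt.const_add _

lemma face_deriv {E : Type} [NormedAddCommGroup E] [NormedSpace ℝ E] {k : ℕ}
    {F : (Fin (k + 1) → ℝ) → E} (hF : Differentiable ℝ F) (b : Fin (k + 1)) (r : ℝ)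
    (y : Fin k → ℝ) (t : Fin k) :
    fderiv ℝ F (b.insertNth r y) (Pi.single (b.succAbove t) 1) =
      fderiv ℝ (fun y : Fin k → ℝ => F (b.insertNth r y)) y (Pi.single t 1) := by
  have h := ((hF (b.insertNth r y)).hasFDerivAt.comp y (ins_has b r y)).fderiv
  have e : (fun y : Fin k → ℝ => F (b.insertNth r y)) =
      F ∘ fun y : Fin k → ℝ => (b.insertNth r y : Fin (k + 1) → ℝ) := rfl
  rw [e, h, ContinuousLinearMap.comp_apply, lin_single]

lemma deriv_zero {E : Type} [NormedAddCommGroup E] [NormedSpace ℝ E] {k : ℕ}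
    {G : (Fin k → ℝ) → E} (hG : Differentiable ℝ G) (y : Fin k → ℝ) (c : Fin k)
    (h : ∀ t, G (Function.update y c t) = G y) : fderiv ℝ G y (Pi.single c 1) = 0 := by
  have h1 : HasDerivAt (Function.update y c) (Pi.single c 1) (y c) := hasDerivAt_update y c (y c)
  have h2 : HasFDerivAt G (fderiv ℝ G y) (Function.update y c (y c)) := by
    rw [Function.update_eq_self]; exact (hG y).hasFDerivAt
  have h3 := h2.comp_hasDerivAt (y c) h1
  have h4 : G ∘ Function.update y c = fun _ => G y := funext h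
  rw [h4] at h3
  exact h3.unique (hasDerivAt_const _ _)

end Stk

open Stk in
theorem p_stk (hSmp : S_Smp) : S_Stk := by
  intro E _ _ k U η a hU hη hsub
  obtain ⟨hsm, hmem, -, -⟩ := hSmp E (k + 1) a
  have hface := (hSmp E k (Fin.init a)).2.2.2 a
  set F := smp (k + 1) a with hF
  have hFd : Differentiable ℝ F := hsm.differentiable (by simp)
  have h2 : ContDiff ℝ ∞ (fderiv ℝ F) := hsm.fderiv_right (by simp)
  have hηa : ∀ x ∈ Set.Icc (0 : Fin (k + 1) → ℝ) 1, ContDiffAt ℝ ∞ η (F x) := fun x hx =>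
    hη.contDiffAt (hU.mem_nhds (hsub (hmem x hx)))
  have h1 : ∀ x ∈ Set.Icc (0 : Fin (k + 1) → ℝ) 1, ContDiffAt ℝ ∞ (fun x => η (F x)) x :=
    fun x hx => (hηa x hx).comp x hsm.contDiffAt
  set g : Fin (k + 1) → (Fin (k + 1) → ℝ) → ℝ :=
    fun b x => η (F x) fun t => fderiv ℝ F x (Pi.single (b.succAbove t) 1) with hg
  have hgc : ∀ b, ∀ x ∈ Set.Icc (0 : Fin (k + 1) → ℝ) 1, ContDiffAt ℝ 1 (g b) x := by
    intro b x hx
    have hB := (ContinuousAlternatingMap.toContinuousMultilinearMapCLM ℝ :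
      (E [⋀^Fin k]→L[ℝ] ℝ) →L[ℝ] _).analyticOnNhd_uncurry_of_multilinear (s := Set.univ)
    have hB' := hB.contDiff (n := 1)
    have h3 : ContDiffAt ℝ 1 (fun x => (η (F x), fun t : Fin k =>
        fderiv ℝ F x (Pi.single (b.succAbove t) 1))) x :=
      ((h1 x hx).of_le (by exact_mod_cast le_top)).prodMk (contDiffAt_pi.2 fun t =>
        ((h2.of_le (by exact_mod_cast le_top)).clm_apply contDiff_const).contDiffAt)
    exact hB'.contDiffAt.comp x h3
  have key := integral_divergence_of_hasFDerivAt_off_countable' (0 : Fin (k + 1) → ℝ) 1 zero_le_one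
    (fun b x => (-1 : ℝ) ^ b.val • g b x) (fun b x => (-1 : ℝ) ^ b.val • fderiv ℝ (g b) x) ∅
    Set.countable_empty
    (fun b x hx => ((hgc b x hx).continuousAt.const_smul ((-1 : ℝ) ^ b.val)).continuousWithinAt)
    (fun x hx b => ((hgc b x ⟨fun i => (hx.1 i trivial).1.le,
      fun i => (hx.1 i trivial).2.le⟩).differentiableAt
      one_ne_zero).hasFDerivAt.const_smul ((-1 : ℝ) ^ b.val))
    (ContinuousOn.integrableOn_Icc (continuousOn_finsetSum _ fun b _ x hx =>
      (((((hgc b x hx).fderiv_right (m := 0) (by simp)).continuousAt).const_smul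
        ((-1 : ℝ) ^ b.val)).clm_apply continuousAt_const).continuousWithinAt))
  have e1 : intS (k + 1) (fun p v => extDeriv η p v) a =
      ∫ x in Set.Icc (0 : Fin (k + 1) → ℝ) 1,
        ∑ b : Fin (k + 1), ((-1 : ℝ) ^ b.val • fderiv ℝ (g b) x) (Pi.single b 1) := by
    unfold intS
    refine setIntegral_congr_fun measurableSet_Icc fun x hx => ?_
    have p1 := extDeriv_pullback ((hηa x hx).differentiableAt (by simp))
      ((hsm.of_le (m := 2) (WithTop.coe_le_coe.2 (le_top : (2 : ℕ∞) ≤ ⊤))).contDiffAt (x := x))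
      (by simp only [minSmoothness_of_isRCLikeNormedField]; exact le_rfl)
    have p2 : DifferentiableAt ℝ
        (fun x => (η (F x)).compContinuousLinearMap (fderiv ℝ F x)) x :=
      ((h1 x hx).differentiableAt (by simp)).continuousAlternatingMapCompContinuousLinearMap
        (h2.differentiable (by simp) x)
    have p3 := extDeriv_apply p2 fun s => Pi.single s 1
    rw [p1] at p3
    refine Eq.trans p3 (Finset.sum_congr rfl fun s _ => ?_)
    rw [smul_apply, smul_eq_mul, zsmul_eq_mul]
    push_cast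
    rfl
  have hI : ∀ (b : Fin (k + 1)) (r : ℝ) (a' : Fin (k + 1) → E),
      (∀ s, F (b.insertNth r s) = smp k a' s) →
      ∫ y in Set.Icc (0 : Fin k → ℝ) 1, (-1 : ℝ) ^ b.val • g b (b.insertNth r y) =
        (-1) ^ b.val * intS k (fun p v => η p v) a' := by
    intro b r a' h
    rw [integral_smul, smul_eq_mul]
    congr 2
    funext y
    simp only [hg, face_deriv hFd, h]
  have hZ : ∀ c : Fin k,
      ∫ y in Set.Icc (0 : Fin k → ℝ) 1, (-1 : ℝ) ^ (c.castSucc).val •
        g c.castSucc (c.castSucc.insertNth 0 y) = 0 := by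
    intro c
    have : ∀ y : Fin k → ℝ, g c.castSucc (c.castSucc.insertNth 0 y) = 0 := by
      intro y
      apply (η _).map_coord_zero c
      rw [face_deriv hFd]
      refine deriv_zero (fun z => ?_) y c fun t => (hface c.castSucc y).2.2 c le_rfl t
      exact (hFd _).comp z (ins_has _ _ z).differentiableAt
    simp [this]
  have f0 : ∀ b : Fin (k + 1), (0 : Fin (k + 1) → ℝ) ∘ b.succAbove = 0 := fun _ => rfl
  have f1 : ∀ b : Fin (k + 1), (1 : Fin (k + 1) → ℝ) ∘ b.succAbove = 1 := fun _ => rfl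
  rw [e1, key]
  simp only [f0, f1, Pi.one_apply, Pi.zero_apply]
  rw [Finset.sum_sub_distrib, Fin.sum_univ_castSucc (n := k + 1),
    Finset.sum_congr rfl fun b _ => hI b 1 _ fun s => (hface b s).1,
    Fin.sum_univ_castSucc (n := k) (f := fun b => ∫ y in Set.Icc (0 : Fin k → ℝ) 1,
      (-1 : ℝ) ^ b.val • g b (b.insertNth 0 y)),
    Finset.sum_eq_zero fun c _ => hZ c,
    hI (Fin.last k) 0 (Fin.init a) fun s => (hface _ s).2.1 rfl]
  have e2 : (fun j => a ((Fin.last (k + 1)).succAbove j)) = Fin.init a := by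
    funext j; rw [Fin.succAbove_last]; rfl
  rw [e2]
  simp only [Fin.val_castSucc, Fin.val_last, pow_succ]
  ring

end Pool.Agent.P.MP_878f14_gt.Sg
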