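import Pool.Agent.P.MP_878f14_gt.Sg.StG

/-!
Stokes for simplices spanned by sorted lists of vertices.
-/

open Filter Topology MeasureTheory
open scoped ContDiff

namespace Pool.Agent.P.MP_878f14_gt.Sg

namespace PStkL

theorem intL_cons {I : Type} [Fintype I] [DecidableEq I] (n : ℕ)
    (Θ : ∀ k : ℕ, (I → ℝ) → (Fin k → I → ℝ) → ℝ) (b : I) (l : List I) (k : ℕ)
    (h : l.length = k) (a : Fin (k + 1) → I)
    (ha : ∀ (i : Fin (k + 1)) (hi : i.1 < (b :: l).length), (b :: l)[i.1] = a i) :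
    intL n Θ (b :: l) = intS k (Θ k) fun i => VV n (a i) := by
  subst h
  change intS l.length (Θ l.length) (fun i => VV n ((b :: l).get i)) = _
  congr 1
  funext i
  rw [← ha i i.2]
  rfl

theorem intL_ofFn {I : Type} [Fintype I] [DecidableEq I] (n : ℕ)
    (Θ : ∀ k : ℕ, (I → ℝ) → (Fin k → I → ℝ) → ℝ) (k : ℕ) (a : Fin (k + 1) → I) :
    intL n Θ (List.ofFn a) = intS k (Θ k) fun i => VV n (a i) := by
  have e : List.ofFn a = a 0 :: List.ofFn fun i => a i.succ := List.ofFn_succ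
  rw [e]
  refine intL_cons n Θ _ _ k List.length_ofFn a fun i hi => ?_
  rw [List.getElem_of_eq e.symm hi, List.getElem_ofFn]

theorem cob_ofFn {I : Type} (m : ℕ) : ∀ (ψ : Co I) (a : Fin (m + 1) → I),
    cob ψ (List.ofFn a) =
      ∑ i : Fin (m + 1), (-1) ^ (i : ℕ) * ψ (List.ofFn fun j => a (i.succAbove j)) := by
  induction m with
  | zero =>
    intro ψ a
    rw [List.ofFn_succ, List.ofFn_zero, Fin.sum_univ_one, List.ofFn_zero]
    change ψ [] - 0 = _
    simp
  | succ m ih =>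
    intro ψ a
    rw [List.ofFn_succ, Fin.sum_univ_succ]
    change ψ _ - cob (sh (a 0) ψ) _ = _
    rw [ih, sub_eq_add_neg, ← Finset.sum_neg_distrib]
    congr 1
    · simp only [Fin.val_zero, pow_zero, one_mul, Fin.succAbove_zero]
    · refine Finset.sum_congr rfl fun i _ => ?_
      rw [List.ofFn_succ (f := fun j => a (i.succ.succAbove j))]
      simp only [Fin.val_succ, pow_succ, Fin.succ_succAbove_zero, Fin.succ_succAbove_succ, sh]
      ring

theorem intS_congr (hSmp : S_Smp) {E : Type} [NormedAddCommGroup E] [NormedSpace ℝ E] (k : ℕ)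
    (U : Set E) (η η' : E → (Fin k → E) → ℝ) (a : Fin (k + 1) → E)
    (hU : convexHull ℝ (Set.range a) ⊆ U) (h : ∀ p ∈ U, ∀ v, η p v = η' p v) :
    intS k η a = intS k η' a :=
  setIntegral_congr_fun measurableSet_Icc fun s hs => h _ (hU ((hSmp E k a).2.1 s hs)) _

end PStkL

open PStkL in
theorem p_stkL (hSmp : S_Smp) (hOpen : S_Open) (hStk : S_Stk) : S_StkL := by
  intro I _ _ _ n k η Θ Θ' hη hΘ hΘ' l hl hn hk
  obtain ⟨a, rfl⟩ : ∃ a : Fin (k + 2) → I, l = List.ofFn a :=
    ⟨fun i => l.get (i.cast hk.symm), by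
      rw [← List.ofFn_congr hk]
      exact (List.ofFn_get l).symm⟩
  rw [List.length_ofFn] at hn
  rw [List.pairwise_ofFn] at hl
  have hch : IsChain (· ≤ ·) ((Finset.univ.image a : Finset I) : Set I) := by
    intro x hx y hy _
    rw [Finset.coe_image] at hx hy
    obtain ⟨i, -, rfl⟩ := hx
    obtain ⟨j, -, rfl⟩ := hy
    rcases lt_trichotomy i j with h | h | h
    · exact Or.inl (hl h)
    · exact Or.inl (h ▸ le_rfl)
    · exact Or.inr (hl h)
  have hcard : (Finset.univ.image a).card ≤ n :=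
    Finset.card_image_le.trans (by rw [Finset.card_univ, Fintype.card_fin]; exact hn)
  have hull : convexHull ℝ (Set.range fun i => VV n (a i)) ⊆ MM I := by
    intro p hp
    refine ((hOpen I).2.2.2.2 n _ hch hcard p (convexHull_mono ?_ hp)).1
    rintro _ ⟨i, rfl⟩
    exact ⟨a i, by simp, rfl⟩
  rw [intL_ofFn, cob_ofFn, intS_congr hSmp (k + 1) (MM I) _ (fun p v => extDeriv η p v) _ hull hΘ',
    hStk _ k (MM I) η _ (hOpen I).1 hη hull]
  refine Finset.sum_congr rfl fun i _ => ?_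
  rw [intL_ofFn]
  congr 1
  refine (intS_congr hSmp k (MM I) _ _ _ ((convexHull_mono ?_).trans hull) hΘ).symm
  rintro _ ⟨j, rfl⟩
  exact ⟨_, rfl⟩

end Pool.Agent.P.MP_878f14_gt.Sg
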