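import Pool.Agent.P.MP_878f14_gt.Sg.StG

/-!
The section over the thickened nerve.
-/

open Filter Topology
open scoped ContDiff

namespace Pool.Agent.P.MP_878f14_gt.Sg

namespace Thick

variable {I : Type} [Fintype I] [PartialOrder I] {X : Type} [NormedAddCommGroup X]
  [NormedSpace ℝ X]

theorem ex_rec (m : I → ℝ) (P : I → Prop) (x0 : X) (G : I → I → X → X) :
    ∃ Y : I → X, ∀ a, (∀ b, IsLeast {c | a < c ∧ P c} b →
      Y a = m a • G a b (Y b) + (1 - m a) • x0) ∧
      ((¬∃ b, IsLeast {c | a < c ∧ P c} b) → Y a = x0) := by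
  classical
  let F : ∀ a : I, (∀ b, b > a → X) → X := fun a r =>
    if h : ∃ b, IsLeast {c | a < c ∧ P c} b then
      m a • G a h.choose (r h.choose h.choose_spec.1.1) + (1 - m a) • x0 else x0
  refine ⟨(wellFounded_gt (α := I)).fix F, fun a => ⟨fun b hb => ?_, fun h => ?_⟩⟩
  · have h : ∃ b, IsLeast {c | a < c ∧ P c} b := ⟨b, hb⟩
    have e : h.choose = b := h.choose_spec.unique hb
    rw [WellFounded.fix_eq]
    simp only [F, dif_pos h]
    subst e
    rfl
  · rw [WellFounded.fix_eq]
    simp only [F, dif_neg h]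

theorem ex_least {T : Set I} (hc : IsChain (· ≤ ·) T) (hn : T.Nonempty) : ∃ b, IsLeast T b := by
  obtain ⟨b, hb⟩ := (Set.toFinite T).exists_minimal hn
  refine ⟨b, hb.1, fun c hcT => ?_⟩
  rcases hc.total hb.1 hcT with h | h
  · exact h
  · exact hb.2 hcT h

/-- The cut-off. -/
noncomputable def cu (x : ℝ) : ℝ := 1 - Real.smoothTransition (x - 1)

theorem cu_one {x : ℝ} (h : x ≤ 1) : cu x = 1 := by
  rw [cu, Real.smoothTransition.zero_of_nonpos (by linarith), sub_zero]

theorem cu_zero {x : ℝ} (h : 2 ≤ x) : cu x = 0 := by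
  rw [cu, Real.smoothTransition.one_of_one_le (by linarith), sub_self]

theorem cu_nonneg (x : ℝ) : 0 ≤ cu x := sub_nonneg.2 (Real.smoothTransition.le_one _)

theorem cu_le (x : ℝ) : cu x ≤ 1 := sub_le_self _ (Real.smoothTransition.nonneg _)

theorem cu_sm : ContDiff ℝ ∞ cu :=
  contDiff_const.sub (Real.smoothTransition.contDiff.comp (contDiff_id.sub contDiff_const))

end Thick

open Thick in
theorem p_thick (_hOpen : S_Open) : S_Thick := by
  intro I _ _ X _ _ S x0 G hx0 hstar hG hid hcoc
  choose Z hZ using fun t : I → ℝ => ex_rec (fun a => cu (t a)) (fun c => 0 < t c) x0 G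
  have hS : ∀ t a, Z t a ∈ S := by
    intro t a
    induction a using (wellFounded_gt (α := I)).induction with
    | _ a ih =>
      by_cases h : ∃ b, IsLeast {c | a < c ∧ 0 < t c} b
      · obtain ⟨b, hb⟩ := h
        rw [(hZ t a).1 b hb]
        exact hstar _ (hG a b hb.1.1.le _ (ih b hb.1.1)).1 _ (cu_nonneg _) (cu_le _)
      · rw [(hZ t a).2 h]
        exact hx0
  have hsm : ∀ t0 ∈ MM I, ∀ j, 2 < t0 j → ∀ a, a ≤ j → ContDiffAt ℝ ∞ (fun t => Z t a) t0 := by
    intro t0 ht0 j hj a
    have hev1 : ∀ᶠ t in 𝓝 t0, ∀ i, t0 i < 0 → t i < 0 := by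
      refine eventually_all.2 fun i => ?_
      by_cases hi : t0 i < 0
      · filter_upwards [(continuous_apply i).continuousAt.eventually_lt continuousAt_const hi]
          with t ht _ using ht
      · exact Eventually.of_forall fun t h => absurd h hi
    have hev2 : ∀ᶠ t in 𝓝 t0, 2 < t j :=
      continuousAt_const.eventually_lt (continuous_apply j).continuousAt hj
    induction a using (wellFounded_gt (α := I)).induction with
    | _ a ih =>
      intro haj
      rcases haj.eq_or_lt with rfl | haj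
      · refine (contDiffAt_const (c := x0)).congr_of_eventuallyEq ?_
        filter_upwards [hev2] with t ht
        by_cases h : ∃ b, IsLeast {c | a < c ∧ 0 < t c} b
        · obtain ⟨b, hb⟩ := h
          rw [(hZ t a).1 b hb, cu_zero ht.le]
          simp
        · exact (hZ t a).2 h
      · obtain ⟨b0, hb0⟩ := ex_least (T := {c | a < c ∧ 0 ≤ t0 c})
          (ht0.1.mono fun c hc => hc.2) ⟨j, haj, by linarith⟩
        have hb0j : b0 ≤ j := hb0.2 ⟨haj, by linarith⟩
        have h1 := ih b0 hb0.1.1 hb0j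
        have h2 : ContDiffAt ℝ ∞ (fun t : I → ℝ => cu (t a)) t0 :=
          (cu_sm.comp (contDiff_apply ℝ ℝ a)).contDiffAt
        have h3 : ContDiffAt ℝ ∞ (fun t => G a b0 (Z t b0)) t0 :=
          ContDiffAt.comp (f := fun t => Z t b0) t0 (hG a b0 hb0.1.1.le _ (hS t0 b0)).2 h1
        have h7 : ContDiffAt ℝ ∞
            (fun t : I → ℝ => cu (t a) • G a b0 (Z t b0) + (1 - cu (t a)) • x0) t0 :=
          (h2.smul h3).add (((contDiffAt_const (c := (1 : ℝ))).sub h2).smul
            (contDiffAt_const (c := x0)))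
        refine h7.congr_of_eventuallyEq ?_
        filter_upwards [hev1, hev2] with t ht1 ht2
        have hsub : ∀ c, 0 < t c → 0 ≤ t0 c := fun c hc => by
          by_contra hn
          have := ht1 c (not_le.1 hn)
          linarith
        obtain ⟨b, hb⟩ := ex_least (T := {c | a < c ∧ 0 < t c})
          (ht0.1.mono fun c hc => hsub c hc.2) ⟨j, haj, by linarith⟩
        have hb0b : b0 ≤ b := hb0.2 ⟨hb.1.1, hsub b hb.1.2⟩
        rw [(hZ t a).1 b hb]
        rcases hb0b.eq_or_lt with rfl | hlt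
        · rfl
        · have h4 : t b0 ≤ 0 := by
            by_contra hn
            exact hlt.not_ge (hb.2 ⟨hb0.1.1, not_le.1 hn⟩)
          have h5 : IsLeast {c | b0 < c ∧ 0 < t c} b :=
            ⟨⟨hlt, hb.1.2⟩, fun c hc => hb.2 ⟨hb0.1.1.trans hc.1, hc.2⟩⟩
          have h6 := (hZ t b0).1 b h5
          rw [cu_one (by linarith), one_smul, sub_self, zero_smul, add_zero] at h6
          rw [h6, hcoc a b0 b hb0.1.1.le hlt.le _ (hS t b)]
  refine ⟨fun a t => Z t a, fun a p hp => ⟨hS p a, ?_⟩, fun a b hab p hp => ?_⟩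
  · obtain ⟨j, hj⟩ := hp.1.2
    refine hsm p hp.1 j hj a ?_
    rcases hp.1.1.total (show a ∈ {i | 0 ≤ p i} from hp.2.1.le)
      (show j ∈ {i | 0 ≤ p i} from by simp only [Set.mem_ofPred_eq]; linarith) with h | h
    · exact h
    · rcases h.eq_or_lt with h | h
      · exact h.ge
      · have := hp.2.2 j h
        linarith
  · obtain ⟨-, hp⟩ := hp
    show Z p a = G a b (Z p b)
    induction a using (wellFounded_gt (α := I)).induction with
    | _ a ih =>
      rcases hab.eq_or_lt with rfl | hlt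
      · exact (hid a _ (hS p a)).symm
      · obtain ⟨c, hc⟩ := ex_least (T := {c | a < c ∧ 0 < p c})
          (hp.1.1.mono fun c hc => hc.2.le) ⟨b, hlt, hp.2.1⟩
        have hcb : c ≤ b := hc.2 ⟨hlt, hp.2.1⟩
        rw [(hZ p a).1 c hc, cu_one (hp.2.2 a hlt).le, one_smul, sub_self, zero_smul, add_zero,
          ih c hc.1.1 hcb, hcoc a c b hc.1.1.le hcb _ (hS p b)]

end Pool.Agent.P.MP_878f14_gt.Sg
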