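import Pool.Agent.P.MP_878f14_gt.Sg.StU

/-! The package `Tor1`: one power of `x` for every parameter. -/

open scoped ContDiff Classical

namespace Pool.Agent.P.MP_878f14_gt.Sg

namespace Tor1

variable {κ : Type} [Fintype κ] {s : Finset κ} {i : κ}

/-- The rotation is damped by the factor `w (h i)`. -/
noncomputable def tw (hi : i ∉ s) (w : ℝ → ℝ) (hw : ContDiff ℝ ∞ w) : SS κ s →* SS κ (insert i s) where
  toFun x := ⟨fun z => ((x.1 (z.1, 0)).1, z.2 + w (z.1 i) * (x.1 (z.1, 0)).2), by
    obtain ⟨u, φ, hu, hφ, hs, hid, e⟩ := x.2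
    refine ⟨fun h => w (h i) * u h, φ, (hw.comp (contDiff_apply ℝ ℝ i)).mul hu, hφ,
      fun h h' hh => ?_, fun j hj => hid j fun h => hj (Finset.mem_insert_of_mem h), fun z => ?_⟩
    · beta_reduce
      rw [hh i (Finset.mem_insert_self _ _), hs h h' fun j hj => hh j (Finset.mem_insert_of_mem hj)]
    · beta_reduce
      rw [e]
      simp⟩
  map_one' := Subtype.ext (funext fun z => Prod.ext rfl (by
    change z.2 + w (z.1 i) * 0 = z.2
    simp))
  map_mul' x y := by
    obtain ⟨u, φ, -, -, -, -, e⟩ := x.2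
    obtain ⟨u', φ', -, -, -, hid, e'⟩ := y.2
    refine Subtype.ext (funext fun z => ?_)
    change ((x.1 (y.1 (z.1, 0))).1, z.2 + w (z.1 i) * (x.1 (y.1 (z.1, 0))).2) =
      ((x.1 ((y.1 (z.1, 0)).1, 0)).1, z.2 + w (z.1 i) * (y.1 (z.1, 0)).2 +
        w ((y.1 (z.1, 0)).1 i) * (x.1 ((y.1 (z.1, 0)).1, 0)).2)
    simp only [e, e', hid i hi, id]
    exact Prod.ext rfl (by ring)

theorem tw_apply (hi : i ∉ s) (w : ℝ → ℝ) (hw : ContDiff ℝ ∞ w) (x : SS κ s) (z : (κ → ℝ) × ℝ) :
    (tw hi w hw x).1 z = ((x.1 (z.1, 0)).1, z.2 + w (z.1 i) * (x.1 (z.1, 0)).2) := rfl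

/-- A reparametrisation of the coordinate `i`. -/
noncomputable def re (s : Finset κ) (i : κ) (e : ℝ → ℝ) (he : ContDiff ℝ ∞ e)
    (hd : ∀ t, 0 < deriv e t) : SS κ (insert i s) :=
  ⟨fun z => (fun j => Function.update (fun _ : κ => (id : ℝ → ℝ)) i e j (z.1 j), z.2),
    0, Function.update (fun _ => id) i e, contDiff_const, fun j => by
      by_cases hj : j = i
      · subst hj
        rw [Function.update_self]
        exact ⟨he, hd⟩
      · rw [Function.update_of_ne hj]
        exact ⟨contDiff_id, fun t => by simp⟩,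
    fun _ _ _ => rfl,
    fun j hj => Function.update_of_ne (fun h => hj (by rw [h]; exact Finset.mem_insert_self _ _)) _ _,
    fun z => Prod.ext rfl (add_zero _).symm⟩

theorem tw_re (hi : i ∉ s) (w w' : ℝ → ℝ) (hw : ContDiff ℝ ∞ w) (hw' : ContDiff ℝ ∞ w') (e : ℝ → ℝ)
    (he : ContDiff ℝ ∞ e) (hd : ∀ t, 0 < deriv e t) (h : ∀ t, w (e t) = w' t) (x : SS κ s) :
    tw hi w hw x * re s i e he hd = re s i e he hd * tw hi w' hw' x := by
  obtain ⟨u, φ, -, -, hs, hid, ex⟩ := x.2
  refine Subtype.ext (funext fun z => ?_)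
  change (tw hi w hw x).1 ((re s i e he hd).1 z) = (re s i e he hd).1 ((tw hi w' hw' x).1 z)
  rw [tw_apply, tw_apply]
  simp only [re, ex, Function.update_self, zero_add]
  refine Prod.ext (funext fun j => ?_) ?_
  · by_cases hj : j = i
    · subst hj
      simp [hid j hi]
    · simp [Function.update_of_ne hj]
  · have : u (fun j => Function.update (fun _ : κ => (id : ℝ → ℝ)) i e j (z.1 j)) = u z.1 :=
      hs _ _ fun j hj => by
        rw [Function.update_of_ne (fun h => hi (by rw [← h]; exact hj))]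
        rfl
    simp only [this, h]

theorem cen_zs (s : Finset κ) : Cen (zs κ s) := by
  intro g
  obtain ⟨u, φ, -, -, -, -, e⟩ := g.2
  refine Subtype.ext (funext fun z => ?_)
  change ((g.1 z).1, (g.1 z).2 + 2 * Real.pi) = g.1 (z.1, z.2 + 2 * Real.pi)
  simp only [e]
  exact Prod.ext rfl (by ring)

end Tor1

open Tor1 in
theorem p_tor1 (hB0 : S_Blk0) (hPeel : S_Peel) : S_Tor1 := by
  intro κ _ s
  induction s using Finset.induction_on with
  | empty => exact hB0 _ _
  | insert i s hi ih =>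
    rw [Finset.card_insert_of_notMem hi]
    have hχ : ContDiff ℝ ∞ fun t => 1 - Real.smoothTransition t :=
      contDiff_const.sub Real.smoothTransition.contDiff
    have e1 : ContDiff ℝ ∞ fun t : ℝ => -Real.exp (-t) :=
      (Real.contDiff_exp.comp contDiff_neg).neg
    have e2 : ContDiff ℝ ∞ fun t : ℝ => 1 + Real.exp t := contDiff_const.add Real.contDiff_exp
    have d1 : ∀ t, 0 < deriv (fun t : ℝ => -Real.exp (-t)) t := fun t => by
      have h : HasDerivAt (fun t : ℝ => -Real.exp (-t)) (-(Real.exp (-t) * -1)) t :=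
        ((hasDerivAt_neg t).exp).neg
      rw [h.deriv]
      have := Real.exp_pos (-t)
      linarith
    have d2 : ∀ t, 0 < deriv (fun t : ℝ => 1 + Real.exp t) t := fun t => by
      rw [((Real.hasDerivAt_exp t).const_add 1).deriv]
      exact Real.exp_pos t
    have hl : Linked (tw hi (fun _ => 1) contDiff_const) (tw hi (fun _ => 0) contDiff_const) := by
      refine Relation.EqvGen.trans _ (tw hi _ hχ) _ (Relation.EqvGen.rel _ _ ⟨re s i _ e1 d1, ?_⟩)
        (Relation.EqvGen.symm _ _ (Relation.EqvGen.rel _ _ ⟨re s i _ e2 d2, ?_⟩))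
      · refine tw_re hi _ _ _ _ _ e1 d1 fun t => ?_
        rw [Real.smoothTransition.zero_of_nonpos (by linarith [Real.exp_pos (-t)]), sub_zero]
      · refine tw_re hi _ _ _ _ _ e2 d2 fun t => ?_
        rw [Real.smoothTransition.one_of_one_le (by linarith [Real.exp_pos t]), sub_self]
    have h0 : tw hi (fun _ => 0) contDiff_const (zs κ s) = 1 :=
      Subtype.ext (funext fun z => (tw_apply hi _ _ _ z).trans (Prod.ext rfl (by
        change z.2 + 0 * _ = z.2
        simp)))
    have hz : tw hi (fun _ => 1) contDiff_const (zs κ s) = zs κ (insert i s) :=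
      Subtype.ext (funext fun z => (tw_apply hi _ _ _ z).trans (Prod.ext rfl (by
        change z.2 + 1 * (0 + 2 * Real.pi) = z.2 + 2 * Real.pi
        simp)))
    rw [← hz]
    exact hPeel (SS κ s) (SS κ (insert i s)) (tw hi (fun _ => 1) contDiff_const)
      (tw hi (fun _ => 0) contDiff_const) (zs κ s) s.card (cen_zs s) h0 hl ih

end Pool.Agent.P.MP_878f14_gt.Sg
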