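import Pool.Agent.P.MP_878f14_gt.Sg.StU

/-!
Twists of the plane: one more power of the Euler class.
-/

open scoped ContDiff
open Complex

namespace Pool.Agent.P.MP_878f14_gt.Sg

namespace Tor2

variable {κ : Type}

theorem ee_zero : ee 0 = 1 := by simp [ee]

theorem ee_two_pi : ee (2 * Real.pi) = 1 := by
  unfold ee
  rw [← exp_two_pi_mul_I]
  congr 1
  push_cast
  ring

theorem ee_half : ee (Real.pi / 2) = I := by
  unfold ee
  refine Eq.trans ?_ exp_pi_div_two_mul_I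
  congr 1
  push_cast
  ring

theorem normSq_ee (t : ℝ) : normSq (ee t) = 1 := by
  rw [normSq_apply, ← ee_sq t]
  ring

theorem ee_smooth : ContDiff ℝ ∞ ee := by
  have h1 : ContDiff ℝ ∞ (fun t : ℝ => I * (t : ℂ)) := contDiff_const.mul ofRealCLM.contDiff
  exact (Complex.contDiff_exp (𝕜 := ℝ)).comp h1

theorem ee_deriv {f : ℝ → ℝ} {f' s : ℝ} (h : HasDerivAt f f' s) :
    HasDerivAt (fun s => ee (f s)) (ee (f s) * (I * f')) s :=
  (h.ofReal_comp.const_mul I).cexp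

theorem nsq_smooth : ContDiff ℝ ∞ (fun v : ℂ => normSq v) := by
  simp only [normSq_apply]
  exact (reCLM.contDiff.mul reCLM.contDiff).add (imCLM.contDiff.mul imCLM.contDiff)

/-- Maps which multiply the plane coordinate by a function of its length. -/
def FF (Γ : ℝ → (κ → ℝ) → ℂ) (c : ℂ) (ψ : κ → ℝ → ℝ) : TT κ → TT κ :=
  fun y => (Γ (normSq y.1) y.2 * y.1 + c, fun j => ψ j (y.2 j))

variable [Fintype κ]

theorem FF_smooth {Γ : ℝ → (κ → ℝ) → ℂ} (c : ℂ) {ψ : κ → ℝ → ℝ}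
    (hΓ : ContDiff ℝ ∞ (fun y : TT κ => Γ (normSq y.1) y.2)) (hψ : ∀ j, ContDiff ℝ ∞ (ψ j)) :
    ContDiff ℝ ∞ (FF Γ c ψ) :=
  ((hΓ.mul contDiff_fst).add contDiff_const).prodMk
    (contDiff_pi.2 fun j => (hψ j).comp ((contDiff_apply ℝ ℝ j).comp contDiff_snd))

theorem line_deriv {F : TT κ → TT κ} (hF : ContDiff ℝ ∞ F) (y v : TT κ) :
    HasDerivAt (fun t : ℝ => F (y + t • v)) (fderiv ℝ F y v) 0 := by
  have h1 : HasDerivAt (fun t : ℝ => y + t • v) v 0 := by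
    simpa using ((hasDerivAt_id (0 : ℝ)).smul_const v).const_add y
  have h2 : HasFDerivAt F (fderiv ℝ F y) (y + (0 : ℝ) • v) := by
    rw [zero_smul, add_zero]
    exact (hF.differentiable (by simp) y).hasFDerivAt
  exact h2.comp_hasDerivAt (0 : ℝ) h1

theorem tri_FF {Γ : ℝ → (κ → ℝ) → ℂ} {c : ℂ} {ψ : κ → ℝ → ℝ} (hF : ContDiff ℝ ∞ (FF Γ c ψ))
    (hψ : ∀ j, ContDiff ℝ ∞ (ψ j) ∧ ∀ t, 0 < deriv (ψ j) t) (y : TT κ) :
    Tri (fderiv ℝ (FF Γ c ψ) y) := by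
  refine ⟨fun j => deriv (ψ j) (y.2 j), fun j => (hψ j).2 _, fun v j => ?_⟩
  have h1 : HasDerivAt (fun t : ℝ => (FF Γ c ψ (y + t • v)).2 j)
      ((fderiv ℝ (FF Γ c ψ) y v).2 j) 0 :=
    hasDerivAt_pi.1 (line_deriv hF y v).snd j
  have h2 : HasDerivAt (fun t : ℝ => y.2 j + t * v.2 j) (v.2 j) 0 := by
    simpa using ((hasDerivAt_id (0 : ℝ)).mul_const (v.2 j)).const_add (y.2 j)
  have h3 : HasDerivAt (ψ j) (deriv (ψ j) (y.2 j)) (y.2 j + 0 * v.2 j) := by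
    rw [zero_mul, add_zero]
    exact ((hψ j).1.differentiable (by simp) _).hasDerivAt
  exact h1.unique (h3.comp (0 : ℝ) h2)

theorem fib_FF {Γ : ℝ → (κ → ℝ) → ℂ} {c : ℂ} {ψ : κ → ℝ → ℝ} (hF : ContDiff ℝ ∞ (FF Γ c ψ))
    (y : TT κ) {Γ' : ℂ} (hd : HasDerivAt (fun s => Γ s y.2) Γ' (normSq y.1)) (ζ : ℂ) :
    fib (fderiv ℝ (FF Γ c ψ) y) ζ = Γ (normSq y.1) y.2 * ζ +
      ((2 * (y.1.re * ζ.re + y.1.im * ζ.im) : ℝ) : ℂ) * Γ' * y.1 := by
  have h1 : HasDerivAt (fun t : ℝ => (FF Γ c ψ (y + t • ((ζ, 0) : TT κ))).1)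
      (fib (fderiv ℝ (FF Γ c ψ) y) ζ) 0 := (line_deriv hF y (ζ, 0)).fst
  have h2 : HasDerivAt (fun t : ℝ => y.1 + t • ζ) ζ 0 := by
    simpa using ((hasDerivAt_id (0 : ℝ)).smul_const ζ).const_add y.1
  have h3 : HasDerivAt (fun t : ℝ => normSq (y.1 + t • ζ))
      (2 * (y.1.re * ζ.re + y.1.im * ζ.im)) 0 := by
    have a1 : HasDerivAt (fun t : ℝ => y.1.re + t * ζ.re) ζ.re 0 := by
      simpa using ((hasDerivAt_id (0 : ℝ)).mul_const ζ.re).const_add y.1.re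
    have a2 : HasDerivAt (fun t : ℝ => y.1.im + t * ζ.im) ζ.im 0 := by
      simpa using ((hasDerivAt_id (0 : ℝ)).mul_const ζ.im).const_add y.1.im
    have a3 := (a1.mul a1).add (a2.mul a2)
    have e1 : (fun t : ℝ => normSq (y.1 + t • ζ)) = fun t : ℝ =>
        (y.1.re + t * ζ.re) * (y.1.re + t * ζ.re) + (y.1.im + t * ζ.im) * (y.1.im + t * ζ.im) := by
      funext t
      simp [normSq_apply]
    rw [e1]
    refine HasDerivAt.congr_deriv a3 ?_
    ring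
  have h4 : HasDerivAt (fun s => Γ s y.2) Γ' (normSq (y.1 + (0 : ℝ) • ζ)) := by
    rwa [zero_smul, add_zero]
  have h5 := ((h4.scomp (0 : ℝ) h3).mul h2).add_const c
  have e2 : (fun t : ℝ => (FF Γ c ψ (y + t • ((ζ, 0) : TT κ))).1) = fun t : ℝ =>
      Γ (normSq (y.1 + t • ζ)) y.2 * (y.1 + t • ζ) + c := by
    funext t
    simp [FF]
  rw [e2] at h1
  rw [h1.unique h5]
  simp only [Function.comp_apply, zero_smul, add_zero]
  rw [real_smul]
  ring

/-- The places where the lift is known. -/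
def ZZ (κ : Type) : Set (TT κ × ℝ) :=
  {z | z.1.1 = 0} ∪ {z | z.1.1.im = 0 ∧ z.2 = Real.pi / 2}

omit [Fintype κ] in
theorem ZZ_conn : IsPreconnected (ZZ κ) := by
  refine IsPreconnected.union (((0, 0), Real.pi / 2) : TT κ × ℝ) rfl ⟨rfl, rfl⟩
    (Convex.isPreconnected ?_) (Convex.isPreconnected ?_)
  · intro x hx y hy a b _ _ _
    have hx' : x.1.1 = 0 := hx
    have hy' : y.1.1 = 0 := hy
    show a • x.1.1 + b • y.1.1 = 0
    rw [hx', hy']
    simp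
  · intro x hx y hy a b _ _ hab
    refine ⟨?_, ?_⟩
    · show (a • x.1.1 + b • y.1.1).im = 0
      simp [hx.1, hy.1]
    · show a * x.2 + b * y.2 = Real.pi / 2
      rw [hx.2, hy.2, ← add_mul, hab, one_mul]

theorem mk (hMk : S_Mk) (Γ Γ' : ℝ → (κ → ℝ) → ℂ) (c : ℂ) (ψ : κ → ℝ → ℝ)
    (ρ θ : ℝ → (κ → ℝ) → ℝ)
    (hΓ : ContDiff ℝ ∞ (fun y : TT κ => Γ (normSq y.1) y.2))
    (hψ : ∀ j, ContDiff ℝ ∞ (ψ j) ∧ ∀ t, 0 < deriv (ψ j) t)
    (hd : ∀ s h, 0 ≤ s → HasDerivAt (fun s => Γ s h) (Γ' s h) s)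
    (hp : ∀ s h, 0 ≤ s → 0 < normSq (Γ s h) +
      2 * s * ((Γ s h).re * (Γ' s h).re + (Γ s h).im * (Γ' s h).im))
    (hρ : ∀ s h, 0 ≤ s → 0 < ρ s h ∧ Γ s h = ρ s h • ee (θ s h))
    (hθ : Continuous fun y : TT κ => θ (normSq y.1) y.2) :
    ∃ x : UU κ, mp x = FF Γ c ψ ∧ ∀ v h φ, (v = 0 ∨ (v.im = 0 ∧ φ = Real.pi / 2)) →
      tht x (v, h) φ = φ + θ (normSq v) h := by
  have hF := FF_smooth c hΓ fun j => (hψ j).1
  obtain ⟨x, h1, h2⟩ := (hMk κ).2.1 (FF Γ c ψ) hF (fun y => ⟨tri_FF hF hψ y, by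
      have e := fib_FF hF y (hd _ _ (normSq_nonneg y.1))
      have := hp _ y.2 (normSq_nonneg y.1)
      unfold dt
      rw [e, e]
      generalize Γ (normSq y.1) y.2 = G at this ⊢
      generalize Γ' (normSq y.1) y.2 = G' at this ⊢
      simp only [normSq_apply] at this
      simp only [add_re, add_im, mul_re, mul_im, one_re, one_im, I_re, I_im, ofReal_re, ofReal_im]
      nlinarith⟩) (ZZ κ) (fun z => z.2 + θ (normSq z.1.1) z.1.2) ZZ_conn
    (continuous_snd.add (hθ.comp continuous_fst)).continuousOn (fun z hz => by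
      obtain ⟨r1, r2⟩ := hρ _ z.1.2 (normSq_nonneg z.1.1)
      refine ⟨_, r1, ?_⟩
      rw [fib_FF hF z.1 (hd _ _ (normSq_nonneg z.1.1)), ee_add, r2]
      have e : 2 * (z.1.1.re * (ee z.2).re + z.1.1.im * (ee z.2).im) = 0 := by
        rcases hz with hz | hz
        · have hz' : z.1.1 = 0 := hz
          simp [hz']
        · rw [hz.1, hz.2, ee_half]
          simp
      rw [e]
      simp only [real_smul, ofReal_zero]
      ring)
  exact ⟨x, h1, fun v h φ hv => h2 ((v, h), φ) hv⟩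

variable {s : Finset κ}

/-- The angle of rotation. -/
def uu (x : SS κ s) (h : κ → ℝ) : ℝ := (x.1 (h, 0)).2

/-- The map of one parameter. -/
def ph (x : SS κ s) (j : κ) (t : ℝ) : ℝ := (x.1 (fun _ => t, 0)).1 j

theorem spec (x : SS κ s) : ContDiff ℝ ∞ (uu x) ∧
    (∀ j, ContDiff ℝ ∞ (ph x j) ∧ ∀ t, 0 < deriv (ph x j) t) ∧
    ∀ z, x.1 z = (fun j => ph x j (z.1 j), z.2 + uu x z.1) := by
  obtain ⟨u, φ, hu, hφ, -, -, e⟩ := x.2
  have e1 : uu x = u := by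
    funext h
    simp [uu, e]
  have e2 : ph x = φ := by
    funext j t
    simp [ph, e]
  rw [e1, e2]
  exact ⟨hu, hφ, e⟩

theorem uu_mul (x y : SS κ s) (h : κ → ℝ) :
    uu (x * y) h = uu y h + uu x (fun j => ph y j (h j)) := by
  show (x.1 (y.1 (h, 0))).2 = _
  rw [(spec y).2.2, (spec x).2.2]
  simp

theorem ph_mul (x y : SS κ s) (j : κ) (t : ℝ) : ph (x * y) j t = ph x j (ph y j t) := by
  show (x.1 (y.1 (fun _ => t, 0))).1 j = _
  rw [(spec y).2.2, (spec x).2.2]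

theorem uu_one (h : κ → ℝ) : uu (1 : SS κ s) h = 0 := rfl

theorem ph_one (j : κ) (t : ℝ) : ph (1 : SS κ s) j t = t := rfl

theorem uu_zs (h : κ → ℝ) : uu (zs κ s) h = 2 * Real.pi := zero_add _

theorem ph_zs (j : κ) (t : ℝ) : ph (zs κ s) j t = t := rfl

theorem cen_zs : Cen (zs κ s) := by
  intro g
  refine Subtype.ext (funext fun z => ?_)
  show ((g.1 z).1, (g.1 z).2 + 2 * Real.pi) = g.1 (z.1, z.2 + 2 * Real.pi)
  rw [(spec g).2.2, (spec g).2.2]
  exact Prod.ext rfl (add_right_comm _ _ _)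

theorem tw (hMk : S_Mk) (s : Finset κ) (W : ℝ → ℝ) (hW : ContDiff ℝ ∞ W) :
    ∃ f : SS κ s →* UU κ, ∀ x,
      (∀ v h, mp (f x) (v, h) = (ee (W (normSq v) * uu x h) * v, fun j => ph x j (h j))) ∧
      ∀ v h φ, (v = 0 ∨ (v.im = 0 ∧ φ = Real.pi / 2)) →
        tht (f x) (v, h) φ = φ + W (normSq v) * uu x h := by
  have h0 : ∀ x : SS κ s, ∃ g : UU κ,
      (∀ v h, mp g (v, h) = (ee (W (normSq v) * uu x h) * v, fun j => ph x j (h j))) ∧
      ∀ v h φ, (v = 0 ∨ (v.im = 0 ∧ φ = Real.pi / 2)) →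
        tht g (v, h) φ = φ + W (normSq v) * uu x h := by
    intro x
    have hs : ContDiff ℝ ∞ (fun y : TT κ => W (normSq y.1) * uu x y.2) :=
      (hW.comp (nsq_smooth.comp contDiff_fst)).mul ((spec x).1.comp contDiff_snd)
    obtain ⟨g, g1, g2⟩ := mk hMk (fun s h => ee (W s * uu x h))
      (fun s h => ee (W s * uu x h) * (I * ((deriv W s * uu x h : ℝ) : ℂ))) 0 (ph x)
      (fun _ _ => 1) (fun s h => W s * uu x h) (ee_smooth.comp hs) (spec x).2.1
      (fun s h _ => ee_deriv ((hW.differentiable (by simp) s).hasDerivAt.mul_const _))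
      (fun s h _ => by
        rw [normSq_ee]
        simp only [mul_re, mul_im, I_re, I_im, ofReal_re, ofReal_im]
        nlinarith)
      (fun s h _ => ⟨one_pos, (one_smul _ _).symm⟩) hs.continuous
    refine ⟨g, fun v h => ?_, g2⟩
    rw [g1]
    exact Prod.ext (add_zero _) rfl
  choose g g1 g2 using h0
  refine ⟨⟨⟨g, ?_⟩, fun x y => ?_⟩, fun x => ⟨g1 x, g2 x⟩⟩
  · refine (hMk κ).1 _ _ (funext fun y => ?_) ⟨(0, 0), 0, ?_⟩
    · obtain ⟨v, h⟩ := y
      rw [g1, uu_one, mul_zero, ee_zero, one_mul]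
      rfl
    · rw [g2 _ _ _ _ (Or.inl rfl), uu_one, mul_zero, add_zero, tht_one]
  · refine (hMk κ).1 _ _ (funext fun z => ?_) ⟨(0, 0), 0, ?_⟩
    · obtain ⟨v, h⟩ := z
      show mp (g (x * y)) (v, h) = mp (g x * g y) (v, h)
      rw [mp_mul, Function.comp_apply, g1, g1, g1, map_mul, normSq_ee, one_mul, uu_mul, mul_add,
        ee_add]
      refine Prod.ext ?_ (funext fun j => ph_mul x y j _)
      show _ * _ * v = _ * (_ * v)
      ring
    · show tht (g (x * y)) (0, 0) 0 = tht (g x * g y) (0, 0) 0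
      rw [tht_mul, g1, mul_zero, g2 _ _ _ _ (Or.inl rfl), g2 _ _ _ _ (Or.inl rfl),
        g2 _ _ _ _ (Or.inl rfl), uu_mul]
      ring

/-- The factor of the map of the plane into the unit disc. -/
noncomputable def gg (s : ℝ) : ℝ := (Real.sqrt (1 + s))⁻¹

theorem gg_pos {s : ℝ} (hs : 0 ≤ s) : 0 < gg s :=
  inv_pos.2 (Real.sqrt_pos.2 (by linarith))

theorem gg_sq {s : ℝ} (hs : 0 ≤ s) : gg s * gg s * (1 + s) = 1 := by
  have h1 : 0 < Real.sqrt (1 + s) := Real.sqrt_pos.2 (by linarith)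
  have h2 : Real.sqrt (1 + s) * Real.sqrt (1 + s) = 1 + s := Real.mul_self_sqrt (by linarith)
  unfold gg
  rw [← mul_inv, h2]
  exact inv_mul_cancel₀ (by linarith)

theorem gg_deriv {s : ℝ} (hs : 0 ≤ s) : HasDerivAt gg (-(gg s ^ 3) / 2) s := by
  have h1 : 0 < Real.sqrt (1 + s) := Real.sqrt_pos.2 (by linarith)
  have h2 : HasDerivAt (fun s : ℝ => 1 + s) 1 s := (hasDerivAt_id s).const_add 1
  have h3 := (h2.sqrt (by linarith)).inv h1.ne'
  refine HasDerivAt.congr_deriv h3 ?_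
  unfold gg
  field_simp

theorem disc (hMk : S_Mk) (c : ℂ) : ∃ e : UU κ,
    (∀ v h, mp e (v, h) = ((gg (normSq v) : ℂ) * v + c, h)) ∧
      ∀ h φ, tht e (0, h) φ = φ := by
  have hs : ContDiff ℝ ∞ (fun y : TT κ => gg (normSq y.1)) := by
    have h1 : ContDiff ℝ ∞ (fun y : TT κ => 1 + normSq y.1) :=
      contDiff_const.add (nsq_smooth.comp contDiff_fst)
    have h2 : ∀ y : TT κ, 0 < 1 + normSq y.1 := fun y => by linarith [normSq_nonneg y.1]
    exact (h1.sqrt fun y => (h2 y).ne').inv fun y => (Real.sqrt_pos.2 (h2 y)).ne'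
  obtain ⟨e, e1, e2⟩ := mk (κ := κ) hMk (fun s _ => (gg s : ℂ))
    (fun s _ => ((-(gg s ^ 3) / 2 : ℝ) : ℂ)) c (fun _ => id) (fun s _ => gg s) (fun _ _ => 0)
    (ofRealCLM.contDiff.comp hs) (fun _ => ⟨contDiff_id, fun t => by simp⟩)
    (fun s _ h => (gg_deriv h).ofReal_comp)
    (fun s _ h => by
      have h1 := gg_pos h
      have h2 := gg_sq h
      have h3 : gg s * gg s * (gg s * gg s) * (1 + s) = gg s * gg s := by
        rw [mul_assoc (gg s * gg s), h2, mul_one]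
      have h4 : 0 < gg s * gg s * (gg s * gg s) := by positivity
      simp only [normSq_ofReal, ofReal_re, ofReal_im]
      nlinarith)
    (fun s _ h => ⟨gg_pos h, by rw [ee_zero, real_smul, mul_one]⟩) continuous_const
  refine ⟨e, fun v h => ?_, fun h φ => ?_⟩
  · rw [e1]
    rfl
  · rw [e2 _ _ _ (Or.inl rfl), add_zero]

theorem disc_le (v : ℂ) : normSq ((gg (normSq v) : ℂ) * v) ≤ 1 := by
  have h := normSq_nonneg v
  have h1 := gg_pos h
  have h2 := gg_sq h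
  rw [map_mul, normSq_ofReal]
  nlinarith [mul_pos h1 h1]

theorem disc_ge (v : ℂ) : 2 ≤ normSq ((gg (normSq v) : ℂ) * v + 3) := by
  have h := disc_le v
  generalize (gg (normSq v) : ℂ) * v = w at h ⊢
  simp only [normSq_apply, add_re, add_im, re_ofNat, im_ofNat] at h ⊢
  nlinarith [mul_self_nonneg w.im, mul_self_nonneg (w.re + 1)]

end Tor2

open Tor2 in
theorem p_tor2 (hPeel : S_Peel) (hMk : S_Mk) : S_Tor2 := by
  intro κ _ s a ha
  let χ : ℝ → ℝ := fun t => 1 - Real.smoothTransition (t - 1)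
  have hχ : ContDiff ℝ ∞ χ :=
    contDiff_const.sub (Real.smoothTransition.contDiff.comp (contDiff_id.sub contDiff_const))
  have χ1 : ∀ t, t ≤ 1 → χ t = 1 := fun t ht => by
    simp only [χ]
    rw [Real.smoothTransition.zero_of_nonpos (by linarith), sub_zero]
  have χ0 : ∀ t, 2 ≤ t → χ t = 0 := fun t ht => by
    simp only [χ]
    rw [Real.smoothTransition.one_of_one_le (by linarith), sub_self]
  obtain ⟨f, hf⟩ := tw hMk s (fun _ => 1) contDiff_const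
  obtain ⟨g, hg⟩ := tw hMk s χ hχ
  obtain ⟨f', hf'⟩ := tw hMk s (fun _ => 0) contDiff_const
  obtain ⟨e0, a0, b0⟩ := disc (κ := κ) hMk 0
  obtain ⟨e1, a1, b1⟩ := disc (κ := κ) hMk 3
  have z1 : f (zs κ s) = zc κ := by
    refine (hMk κ).1 _ _ (funext fun y => ?_) ⟨(0, 0), 0, ?_⟩
    · obtain ⟨v, h⟩ := y
      rw [(hf _).1, uu_zs, one_mul, ee_two_pi, one_mul]
      rfl
    · rw [(hf _).2 _ _ _ (Or.inl rfl), uu_zs, one_mul, tht_zc]
  have z0 : f' (zs κ s) = 1 := by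
    refine (hMk κ).1 _ _ (funext fun y => ?_) ⟨(0, 0), 0, ?_⟩
    · obtain ⟨v, h⟩ := y
      rw [(hf' _).1, zero_mul, ee_zero, one_mul]
      rfl
    · rw [(hf' _).2 _ _ _ (Or.inl rfl), zero_mul, add_zero, tht_one]
  have l0 : ∀ x, g x * e0 = e0 * f x := fun x => by
    refine (hMk κ).1 _ _ (funext fun y => ?_) ⟨(0, 0), 0, ?_⟩
    · obtain ⟨v, h⟩ := y
      rw [mp_mul, mp_mul, Function.comp_apply, Function.comp_apply, a0, (hg x).1, (hf x).1, a0,
        add_zero, add_zero, χ1 _ (disc_le v), map_mul normSq (ee _), normSq_ee, one_mul, one_mul]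
      refine Prod.ext ?_ rfl
      show _ * (_ * v) = _ * (_ * v)
      ring
    · rw [tht_mul, tht_mul, a0, (hf x).1, mul_zero, mul_zero, add_zero, b0, b0,
        (hg x).2 _ _ _ (Or.inl rfl), (hf x).2 _ _ _ (Or.inl rfl), χ1 _ (by simp)]
  have l1 : ∀ x, g x * e1 = e1 * f' x := fun x => by
    refine (hMk κ).1 _ _ (funext fun y => ?_) ⟨(0, 0), Real.pi / 2, ?_⟩
    · obtain ⟨v, h⟩ := y
      rw [mp_mul, mp_mul, Function.comp_apply, Function.comp_apply, a1, (hg x).1, (hf' x).1, a1,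
        χ0 _ (disc_ge v), zero_mul, ee_zero, one_mul, one_mul]
    · rw [tht_mul, tht_mul, a1, (hf' x).1, mul_zero, mul_zero, zero_add, b1, b1,
        (hg x).2 _ _ _ (Or.inr ⟨by simp, rfl⟩), (hf' x).2 _ _ _ (Or.inl rfl),
        χ0 _ (by simp; norm_num)]
  have hl : Linked f f' := Relation.EqvGen.trans _ g _ (Relation.EqvGen.rel _ _ ⟨e0, l0⟩)
    (Relation.EqvGen.symm _ _ (Relation.EqvGen.rel _ _ ⟨e1, l1⟩))
  rw [← z1]
  exact hPeel _ _ f f' (zs κ s) a cen_zs z0 hl ha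

end Pool.Agent.P.MP_878f14_gt.Sg
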