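import Pool.Agent.P.MP_878f14_gt.Sg.StU

/-! The splitting of the transversal into blocks. -/

open Complex

namespace Pool.Agent.P.MP_878f14_gt.Sg

theorem p_tr : S_Tr := by
  intro l m s k h
  have hf : Module.finrank ℝ (∀ j : s, Fin (k j) → ℝ) =
      Module.finrank ℝ (({j : Fin l // j ∉ s} → ℂ) × (Fin m → ℝ)) := by
    rw [Module.finrank_pi_fintype, Module.finrank_prod, Module.finrank_pi_fintype]
    simp only [Module.finrank_fintype_fun_eq_card, Fintype.card_fin, finrank_real_complex,
      Finset.sum_const, Finset.card_univ, smul_eq_mul]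
    rw [Finset.sum_add_distrib] at h
    simp only [Finset.sum_const, Finset.card_univ, smul_eq_mul, Fintype.card_coe] at h
    have h1 : Fintype.card {j : Fin l // j ∉ s} = l - s.card := by
      rw [Fintype.card_subtype_compl]
      simp
    have h2 : s.card ≤ l := by simpa using s.card_le_univ
    omega
  let φ := LinearEquiv.ofFinrankEq _ _ hf
  let e : (∀ j : s, TT (Fin (k j))) ≃ₗ[ℝ] Tr l m :=
    { toFun := fun v => (fun j => if hj : j ∈ s then (v ⟨j, hj⟩).1 else
          (φ fun i => (v i).2).1 ⟨j, hj⟩, (φ fun i => (v i).2).2)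
      map_add' := fun v w => by
        have : (fun i => ((v + w) i).2) = (fun i => (v i).2) + fun i => (w i).2 := rfl
        rw [this, map_add]
        refine Prod.ext (funext fun j => ?_) rfl
        by_cases hj : j ∈ s <;> simp [hj]
      map_smul' := fun c v => by
        have : (fun i => ((c • v) i).2) = c • fun i => (v i).2 := rfl
        rw [this, map_smul]
        refine Prod.ext (funext fun j => ?_) rfl
        by_cases hj : j ∈ s <;> simp [hj]
      invFun := fun w j => (w.1 j.1, φ.symm (fun i => w.1 i.1, w.2) j)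
      left_inv := fun v => by
        funext j
        refine Prod.ext (dif_pos j.2) ?_
        have : ((fun i : {j : Fin l // j ∉ s} => if hj : i.1 ∈ s then (v ⟨i.1, hj⟩).1 else
            (φ fun i => (v i).2).1 ⟨i.1, hj⟩), (φ fun i => (v i).2).2) = φ fun i => (v i).2 :=
          Prod.ext (funext fun i => dif_neg i.2) rfl
        exact (congrArg (fun z => φ.symm z j) this).trans
          (congrFun (φ.symm_apply_apply _) j)
      right_inv := fun w => by
        have : (φ fun i => φ.symm (fun i => w.1 i.1, w.2) i) = (fun i => w.1 i.1, w.2) :=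
          φ.apply_symm_apply _
        have h2 := congrArg Prod.snd this
        refine Prod.ext (funext fun j => ?_) h2
        by_cases hj : j ∈ s
        · exact dif_pos hj
        · exact (dif_neg hj).trans (congrFun (congrArg Prod.fst this) ⟨j, hj⟩) }
  refine ⟨e.toContinuousLinearEquiv, fun j v => ?_⟩
  have h0 : (φ fun i => ((Pi.single j (I * (v j).1, 0) : ∀ j : s, TT (Fin (k j))) i).2) = 0 := by
    rw [← map_zero φ]
    congr 1
    funext i
    by_cases hi : i = j
    · subst hi; simp
    · simp [hi]
  refine Prod.ext (funext fun i => ?_) (congrArg Prod.snd h0).symm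
  change I * ((Pi.single j.1 (1 : ℝ) : Fin l → ℝ) i : ℝ) * (e v).1 i =
    if hi : i ∈ s then ((Pi.single j (I * (v j).1, 0) : ∀ j : s, TT (Fin (k j))) ⟨i, hi⟩).1 else
      (φ fun i => ((Pi.single j (I * (v j).1, 0) : ∀ j : s, TT (Fin (k j))) i).2).1 ⟨i, hi⟩
  rw [h0]
  by_cases hij : i = j.1
  · subst hij
    have : (e v).1 j.1 = (v j).1 := dif_pos j.2
    simp [this]
  · by_cases hi : i ∈ s
    · have : (⟨i, hi⟩ : s) ≠ j := fun h => hij (congrArg Subtype.val h)
      simp [hi, hij, this]
    · simp [hi, hij]

end Pool.Agent.P.MP_878f14_gt.Sg
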