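import Pool.Agent.P.MP_878f14_gt.Sg.Fam

/-!
Two powers of `x` at the price of one plane, and products of blocks.
-/

namespace Pool.Agent.P.MP_878f14_gt.Sg

namespace Two

variable {ι Λ M N : Type} [Monoid Λ] [Monoid M] [Monoid N]

/-- The slant product with an element. -/
def sg (g : M) : Fam ι (Λ × M) →ₗ[ℝ] Fam ι (Λ × Unit) := IN (1 : Unit →* M) 1 g

theorem sg_PB (f : N →* M) (g : N) (Φ : Fam ι (Λ × M)) : sg g (PB f Φ) = sg (f g) Φ := by
  rw [sg, IN_PB, MonoidHom.comp_one]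
  rfl

theorem sg_eq (g : M) (Φ : Fam ι (Λ × M)) : sg g Φ = PB 1 (IO g Φ) := by
  rw [IO, PB_IN]
  rfl

theorem sg_IO (a b : M) (Φ : Fam ι (Λ × M)) : sg a (IO b Φ) = -sg b (IO a Φ) := by
  rw [sg_eq, sg_eq, IO_IO, map_neg]

theorem sg_IO_self (a : M) (Φ : Fam ι (Λ × M)) : sg a (IO a Φ) = 0 := by
  rw [sg_eq, IO_IO_self, map_zero]

theorem sg_one {Φ : Fam ι (Λ × M)} (h : Φ ∈ NF ι (Λ × M)) : sg 1 Φ = 0 := IN_one _ _ h

variable [Fintype ι] [DecidableEq ι] (c : ι → Λ)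

/-- Exact families. -/
def Ex (M : Type) [Monoid M] : Submodule ℝ (Fam ι (Λ × M)) := (NF ι (Λ × M)).map (DD c M)

theorem DD_sg (g : M) (Φ : Fam ι (Λ × M)) : DD c Unit (sg g Φ) = -sg g (DD c M Φ) := by
  rw [sg, DD_IN c (fun q => by simp), sub_self, zero_sub]

theorem sg_ex (g : M) {Φ : Fam ι (Λ × M)} (h : Φ ∈ Ex c M) : sg g Φ ∈ Ex c Unit := by
  obtain ⟨ψ, hψ, rfl⟩ := h
  exact ⟨-sg g ψ, neg_mem (IN_mem _ _ _ hψ), by rw [map_neg, DD_sg, neg_neg]⟩

theorem IO_ex {g : M} (hg : Cen g) {Φ : Fam ι (Λ × M)} (h : Φ ∈ Ex c M) : IO g Φ ∈ Ex c M := by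
  obtain ⟨ψ, hψ, rfl⟩ := h
  exact ⟨-IO g ψ, neg_mem (IO_mem _ hψ), by rw [map_neg, DD_IO c hg, neg_neg]⟩

theorem IN_mul {p'' p' p : N →* M} {u v : M} (hu : ∀ q, p'' q * u = u * p' q)
    (hv : ∀ q, p' q * v = v * p q) {Φ : Fam ι (Λ × M)} (h : Φ ∈ NF ι (Λ × M))
    {P : (ι → ℕ) → ℝ} (e : DD c M Φ = cst _ P) :
    IN p'' p (u * v) Φ - IN p'' p' u Φ - IN p' p v Φ ∈ Ex c N :=
  ⟨_, KN_mem p'' p' p u v h, by rw [DD_KN c hu hv, e, KN_cst, zero_add]⟩

omit [Fintype ι] [DecidableEq ι] in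
theorem cst_zero (D : Type) : cst D (0 : (ι → ℕ) → ℝ) = 0 := by
  funext α l
  simp [cst]

theorem sg_mul {Φ : Fam ι (Λ × M)} (h : Φ ∈ NF ι (Λ × M)) (e : DD c M Φ = 0) (g g' : M) :
    (Ex c Unit).mkQ (sg (g * g') Φ) = (Ex c Unit).mkQ (sg g Φ) + (Ex c Unit).mkQ (sg g' Φ) := by
  rw [← map_add, ← sub_eq_zero, ← map_sub, Submodule.mkQ_apply, Submodule.Quotient.mk_eq_zero,
    ← sub_sub]
  exact IN_mul c (fun q => by simp) (fun q => by simp) h (e.trans (cst_zero _).symm)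

theorem cen_comm {A : Type} [CommMonoid A] (a : A) : Cen a := fun g => mul_comm a g

/-- A square of natural transformations. -/
theorem square {A : Type} [CommMonoid A] {p' p : A →* M} {u S : M} (hu : ∀ q, p' q * u = u * p q)
    (hS' : ∀ q, p' (q * q) * S = S * p' q) (hS : ∀ q, p (q * q) * S = S * p q)
    (hc : S * u = u * S) {Φ : Fam ι (Λ × M)} (h : Φ ∈ NF ι (Λ × M)) {P : (ι → ℕ) → ℝ}
    (e : DD c M Φ = cst _ P) :
    PB (powMonoidHom 2) (IN p' p u Φ) - IN p' p u Φ -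
      (IN (p'.comp (powMonoidHom 2)) p' S Φ - IN (p.comp (powMonoidHom 2)) p S Φ) ∈ Ex c A := by
  have h1 := IN_mul c (p'' := p'.comp (powMonoidHom 2)) (p' := p') (p := p) (u := S) (v := u)
    (fun q => by simpa [sq] using hS' q) hu h e
  have h2 := IN_mul c (p'' := p'.comp (powMonoidHom 2)) (p' := p.comp (powMonoidHom 2)) (p := p)
    (u := u) (v := S) (fun q => hu _) (fun q => by simpa [sq] using hS q) h e
  rw [hc] at h1
  rw [PB_IN]
  convert sub_mem h1 h2 using 1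
  abel

end Two

open Two in
theorem p_two : S_Two := by
  intro B G H A R _ _ _ _ _ T ι _ _ Λ _ c hc P Φ hΦ h0 h1
  have hN : ∀ m, Φ m ∈ NF ι (Λ × B) := hΦ
  rw [DD_eq] at h0
  have h2 : ∀ m, DD c G (PB T.rl (Φ (m + 1))) + IO T.c (PB T.rl (Φ m)) = cst _ (P (m + 1)) :=
    fun m => by rw [DD_PB, IO_PB, ← map_add, ← DD_eq, ← IO_eq, h1, PB_cst]
  obtain ⟨κ, hκ, eκ⟩ := T.link.prim c (hN 0) h0
  -- the first step
  obtain ⟨Ψ, hΨ⟩ : ∃ x, x = PB T.rl (Φ 1) - IO T.c κ :=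
    ⟨_, rfl⟩
  have nΨ : Ψ ∈ NF ι (Λ × G) := hΨ ▸ sub_mem (PB_mem _ (hN 1)) (IO_mem _ hκ)
  have dΨ : DD c G Ψ = cst _ (P 1) - IO T.c (PB T.rc (Φ 0)) := by
    rw [hΨ, map_sub, DD_IO c T.cen, eκ, map_sub, ← h2 0]
    abel
  have d2 : DD c G (PB T.rl (Φ 2)) + IO T.c Ψ = cst _ (P 2) := by
    rw [hΨ, map_sub, IO_IO_self, sub_zero, h2 1]
  suffices hs : sg T.c Ψ ∈ Ex c Unit by
    obtain ⟨χ, hχ, e⟩ := hs
    refine exact_of c (add_mem (PB_mem (1 : Unit →* G) (PB_mem T.rl (hN 2))) hχ) ?_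
    rw [map_add, DD_PB, e, sg_eq, ← map_add, d2, PB_cst]
  -- the second step
  obtain ⟨ψ, hψ⟩ : ∃ x, x = IN T.rho (T.rc.comp T.evm) T.um (Φ 0) - IN T.rho (T.rc.comp T.evp) T.up (Φ 0) :=
    ⟨_, rfl⟩
  have nψ : ψ ∈ NF ι (Λ × H) := hψ ▸ sub_mem (IN_mem _ _ _ (hN 0)) (IN_mem _ _ _ (hN 0))
  have dψ : DD c H ψ = PB T.evm (PB T.rc (Φ 0)) - PB T.evp (PB T.rc (Φ 0)) := by
    rw [hψ, map_sub, DD_IN c (p := T.rc.comp T.evm) T.hum, DD_IN c (p := T.rc.comp T.evp) T.hup,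
      h0, IN_cst, IN_cst, PB_PB, PB_PB]
    abel
  obtain ⟨Ξ, hΞ⟩ : ∃ x, x = PB T.evm Ψ - PB T.evp Ψ - IO T.c0 ψ :=
    ⟨_, rfl⟩
  have nΞ : Ξ ∈ NF ι (Λ × H) :=
    hΞ ▸ sub_mem (sub_mem (PB_mem _ nΨ) (PB_mem _ nΨ)) (IO_mem _ nψ)
  have dΞ : DD c H Ξ = 0 := by
    rw [hΞ, map_sub, map_sub, DD_PB, DD_PB, DD_IO c T.cen0, dΨ, dψ, map_sub, map_sub, map_sub,
      PB_cst, PB_cst, IO_PB T.evm, IO_PB T.evp, T.evm_c, T.evp_c]
    abel
  have e1 := T.perf _ (fun g => (Ex c Unit).mkQ (sg g Ξ)) (sg_mul c nΞ dΞ)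
  have e2 : T.evm (T.j T.th) = T.c := by rw [T.hem, T.em_th, ← T.hem, T.j_ga, T.evm_c]
  have e3 : T.evp (T.j T.th) = 1 := by rw [T.hep, T.ep_th, map_one]
  rw [Submodule.mkQ_apply, Submodule.Quotient.mk_eq_zero, hΞ, map_sub, map_sub, sg_PB, sg_PB, e2,
    e3, sg_one nΨ, sub_zero, ← T.j_ga, ← sg_PB, ← IO_PB] at e1
  suffices hs : sg T.th (IO T.ga (PB T.j ψ)) ∈ Ex c Unit by simpa using add_mem e1 hs
  -- the third step
  have kill : ∀ η ∈ NF ι (Λ × R), sg T.th (IO T.ga (PB T.em η - PB T.ep η)) = 0 := fun η hη => by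
    rw [map_sub, map_sub, IO_PB, IO_PB, sg_PB, sg_PB, T.em_th, T.ep_th, sg_IO_self,
      sg_one (IO_mem _ hη), sub_zero]
  obtain ⟨ω, hω⟩ : ∃ x, x = PB T.r (PB T.rc (Φ 0)) :=
    ⟨_, rfl⟩
  have c1 : T.evm.comp T.j = T.r.comp T.em := MonoidHom.ext T.hem
  have c2 : T.evp.comp T.j = T.r.comp T.ep := MonoidHom.ext T.hep
  have c3 : T.em.comp T.cut = MonoidHom.id R := MonoidHom.ext T.em_cut
  have c4 : T.ep.comp T.cut = 1 := MonoidHom.ext T.ep_cut
  have nA : PB T.j ψ ∈ NF ι (Λ × A) := PB_mem _ nψ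
  have dA : DD c A (PB T.j ψ) = PB T.em ω - PB T.ep ω := by
    rw [DD_PB, dψ, map_sub, PB_PB T.evm, PB_PB T.evp, c1, c2, hω, PB_PB T.r, PB_PB T.r]
  obtain ⟨η, hη⟩ : ∃ x, x = PB T.cut (PB T.j ψ) :=
    ⟨_, rfl⟩
  have nη : η ∈ NF ι (Λ × R) := hη ▸ PB_mem _ nA
  have dη : DD c R η = PB (MonoidHom.id R) ω - PB 1 ω := by
    rw [hη, DD_PB, dA, map_sub, PB_PB T.em, PB_PB T.ep, c3, c4]
  obtain ⟨ψ', hψ'⟩ : ∃ x, x = PB T.j ψ - (PB T.em η - PB T.ep η) :=
    ⟨_, rfl⟩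
  have n' : ψ' ∈ NF ι (Λ × A) := hψ' ▸ sub_mem nA (sub_mem (PB_mem _ nη) (PB_mem _ nη))
  have d' : DD c A ψ' = 0 := by
    rw [hψ', map_sub, map_sub, dA, DD_PB, DD_PB, dη, map_sub, map_sub, PB_PB (MonoidHom.id R),
      PB_PB (MonoidHom.id R), PB_PB 1, PB_PB 1, MonoidHom.id_comp, MonoidHom.id_comp,
      MonoidHom.one_comp, MonoidHom.one_comp]
    abel
  have b1 : ∀ a a' b : A, (Ex c Unit).mkQ (sg (a * a') (IO b ψ')) =
      (Ex c Unit).mkQ (sg a (IO b ψ')) + (Ex c Unit).mkQ (sg a' (IO b ψ')) := fun a a' b =>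
    sg_mul c (IO_mem b n') (by rw [DD_IO c (cen_comm b), d', map_zero, neg_zero]) a a'
  have b2 : ∀ a b b' : A, (Ex c Unit).mkQ (sg a (IO (b * b') ψ')) =
      (Ex c Unit).mkQ (sg a (IO b ψ')) + (Ex c Unit).mkQ (sg a (IO b' ψ')) := fun a b b' => by
    rw [sg_IO, map_neg, b1, sg_IO b, sg_IO b', map_neg, map_neg, neg_add, neg_neg, neg_neg]
  have s1 := square c (p' := T.rho.comp T.j) (p := (T.rc.comp T.r).comp T.em) (u := T.um)
    (S := T.S) (fun q => by simpa [T.hem] using T.hum (T.j q)) T.hS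
    (fun q => by simpa using T.hSr (T.em q)) T.hSm (hN 0) h0
  have s2 := square c (p' := T.rho.comp T.j) (p := (T.rc.comp T.r).comp T.ep) (u := T.up)
    (S := T.S) (fun q => by simpa [T.hep] using T.hup (T.j q)) T.hS
    (fun q => by simpa using T.hSr (T.ep q)) T.hSp (hN 0) h0
  obtain ⟨τ, hτ⟩ : ∃ x, x = IN ((T.rc.comp T.r).comp (powMonoidHom 2)) (T.rc.comp T.r) T.S (Φ 0) :=
    ⟨_, rfl⟩
  have nτ : τ ∈ NF ι (Λ × R) := hτ ▸ IN_mem _ _ _ (hN 0)
  have q1 : ∀ e : A →* R, e.comp (powMonoidHom 2) = (powMonoidHom 2).comp e :=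
    fun e => MonoidHom.ext fun a => e.map_pow a 2
  have t1 : ∀ e : A →* R, IN (((T.rc.comp T.r).comp e).comp (powMonoidHom 2))
      ((T.rc.comp T.r).comp e) T.S (Φ 0) = PB e τ := fun e => by
    rw [hτ, PB_IN, MonoidHom.comp_assoc _ e, q1]
    rfl
  have t2 : PB T.j ψ = IN (T.rho.comp T.j) ((T.rc.comp T.r).comp T.em) T.um (Φ 0) -
      IN (T.rho.comp T.j) ((T.rc.comp T.r).comp T.ep) T.up (Φ 0) := by
    rw [hψ, map_sub, PB_IN, PB_IN, MonoidHom.comp_assoc _ T.evm, MonoidHom.comp_assoc _ T.evp,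
      c1, c2]
    rfl
  rw [t1] at s1 s2
  have s3 : PB (powMonoidHom 2) ψ' - PB T.j ψ +
      (PB T.em (τ + PB (powMonoidHom 2) η) - PB T.ep (τ + PB (powMonoidHom 2) η)) ∈ Ex c A := by
    convert sub_mem s1 s2 using 1
    rw [hψ', map_sub, map_sub, PB_PB T.em, PB_PB T.ep, q1, q1, ← PB_PB _ T.em, ← PB_PB _ T.ep,
      t2, map_sub, map_add, map_add]
    abel
  have s4 := sg_ex c T.th (IO_ex c (cen_comm T.ga) s3)
  rw [map_add, map_add, kill _ (add_mem nτ (PB_mem _ nη)), add_zero, map_sub, map_sub, IO_PB,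
    sg_PB, ← Submodule.Quotient.mk_eq_zero, ← Submodule.mkQ_apply, map_sub, powMonoidHom_apply,
    powMonoidHom_apply, sq, sq, b1, b2] at s4
  have s5 : sg T.th (IO T.ga ψ') = sg T.th (IO T.ga (PB T.j ψ)) := by
    rw [hψ', map_sub, map_sub, kill η nη, sub_zero]
  rw [s5] at s4
  rw [← Submodule.Quotient.mk_eq_zero, ← Submodule.mkQ_apply]
  have : (3 : ℝ) • (Ex c Unit).mkQ (sg T.th (IO T.ga (PB T.j ψ))) = 0 := by
    rw [← s4]
    module
  exact (smul_eq_zero.1 this).resolve_left three_ne_zero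

theorem p_prod : S_Prod := by
  intro ι _ _ B _ z a hz hB
  have key : ∀ s : Finset ι, ∀ P : (ι → ℕ) → ℝ,
      Exact (fun j => if j ∈ s then (Pi.mulSingle j (z j) : ∀ j, B j) else 1) P →
      ∀ α, (∀ i ∈ s, α i = a i) → P α = 0 := by
    intro s
    induction s using Finset.induction_on with
    | empty =>
      rintro P ⟨Φ, hΦ, e⟩ α -
      have := congrFun (congrFun e α) []
      simp only [tot, dl, Finset.notMem_empty, if_false, (hΦ _).ins_one, Pi.zero_apply, ite_self,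
        Finset.sum_const_zero, add_zero, cst, List.length_nil, if_true] at this
      exact this.symm
    | insert j s hj ih =>
      rintro P ⟨Φ, hΦ, e⟩ α hα
      let π : (∀ j, B j) × B j → ∀ j, B j := fun x => Function.update x.1 j x.2
      have hπ : ∀ x y, π (x * y) = π x * π y := fun x y => Function.update_mul _ _ _ _ _
      have hπ1 : π 1 = 1 := Function.update_eq_self j _
      have hπz : π (1, z j) = Pi.mulSingle j (z j) := rfl
      have hπc : ∀ i, π (if i ∈ s then (Pi.mulSingle i (z i) : ∀ j, B j) else 1, 1) =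
          if i ∈ s then (Pi.mulSingle i (z i) : ∀ j, B j) else 1 := fun i => by
        refine Function.update_eq_self_iff.2 ?_
        split_ifs with hi
        · exact (Pi.mulSingle_eq_of_ne (fun h : j = i => hj (h ▸ hi)) _).symm
        · rfl
      have hm : ∀ m β, tot (fun i => if i ∈ s then (Pi.mulSingle i (z i) : ∀ j, B j) else 1)
          (fun β => Φ (Function.update β j m)) β + (if m = 0 then 0 else
            ins id id (Pi.mulSingle j (z j)) (Φ (Function.update β j (m - 1)))) =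
          cst _ (fun β => P (Function.update β j m)) β := fun m β => by
        have := congrFun e (Function.update β j m)
        rw [tot_apply, ← Finset.add_sum_erase _ _ (Finset.mem_univ j), Function.update_self,
          Function.update_idem, if_pos (Finset.mem_insert_self j s)] at this
        rw [tot_apply, ← Finset.add_sum_erase _ _ (Finset.mem_univ j), if_neg hj,
          (hΦ _).ins_one, ite_self, zero_add, add_assoc, add_comm (Finset.sum _ _)]
        refine Eq.trans ?_ this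
        congr 2
        refine Finset.sum_congr rfl fun i hi => ?_
        have hij : i ≠ j := Finset.ne_of_mem_erase hi
        rw [Function.update_of_ne hij, Function.update_comm hij]
        simp only [Finset.mem_insert, hij, false_or]
      have := ih (fun β => P (Function.update β j (a j))) (hB j ι _ _ (fun i => ?_)
        (fun m β => P (Function.update β j m)) (fun m β => pb π (Φ (Function.update β j m)))
        (fun m β => (hΦ _).pb π hπ1) ?_ fun m => ?_) α fun i hi => hα i (Finset.mem_insert_of_mem hi)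
      · rwa [← hα j (Finset.mem_insert_self j s), Function.update_eq_self] at this
      · intro g
        split_ifs
        · funext k
          by_cases hk : k = i
          · subst hk
            simpa using hz k (g k)
          · simp [Pi.mulSingle_eq_of_ne hk]
        · simp
      · rw [tot_pb _ _ π hπ hπc fun β => Φ (Function.update β j 0)]
        funext β
        rw [← pb_cst π, ← hm 0 β, if_pos rfl, add_zero]
      · rw [tot_pb _ _ π hπ hπc fun β => Φ (Function.update β j (m + 1))]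
        funext β
        rw [← pb_cst π, ← hm (m + 1) β, if_neg m.succ_ne_zero, Pi.add_apply, iota_pb, hπz]
        rfl
  intro P hP
  exact key Finset.univ P (by simpa using hP) a fun _ _ => rfl

end Pool.Agent.P.MP_878f14_gt.Sg
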