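import Pool.Agent.P.MP_878f14_gt.Sg.StU

/-!
The monoid `UU κ` carries the data which give two powers of the generator.
-/

open scoped ContDiff
open Complex

namespace Pool.Agent.P.MP_878f14_gt.Sg

namespace PTwoU

theorem ee_zero : ee 0 = 1 := by simp [ee]

theorem ee_two_pi : ee (2 * Real.pi) = 1 := by
  unfold ee
  rw [← exp_two_pi_mul_I]
  congr 1
  push_cast
  ring

theorem rotG_add (s t : ℝ) : rotG (s + t) = rotG s * rotG t := by
  refine Subtype.ext (Prod.ext ?_ (funext fun φ => ?_))
  · refine ContinuousLinearMap.ext fun v => ?_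
    change ee (s + t) * v = ee s * (ee t * v)
    rw [ee_add, mul_assoc]
  · change φ + (s + t) = φ + t + s
    ring

theorem rotG_zero : rotG 0 = 1 := by
  refine Subtype.ext (Prod.ext ?_ (funext fun φ => ?_))
  · refine ContinuousLinearMap.ext fun v => ?_
    change ee 0 * v = v
    rw [ee_zero, one_mul]
  · change φ + 0 = φ
    ring

theorem cen_rot : Cen (rotG (2 * Real.pi)) := by
  intro g
  refine Subtype.ext (Prod.ext ?_ (funext fun φ => ?_))
  · refine ContinuousLinearMap.ext fun v => ?_
    change ee (2 * Real.pi) * g.1.1 v = g.1.1 (ee (2 * Real.pi) * v)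
    rw [ee_two_pi, one_mul, one_mul]
  · exact (g.2.2.2.2 φ).symm

/-- The constant path. -/
noncomputable def c0 : G0 :=
  ⟨fun _ => rotG (2 * Real.pi), contDiff_snd.add contDiff_const, fun _ _ => rfl, fun _ _ => rfl⟩

theorem cen_c0 : Cen c0 := fun g => Subtype.ext (funext fun s => cen_rot (g.1 s))

/-- Evaluation of a path. -/
def evG (s : ℝ) : G0 →* GG where
  toFun g := g.1 s
  map_one' := rfl
  map_mul' _ _ := rfl

/-- Smooth functions which are constant at both ends. -/
def A0 : AddSubmonoid (ℝ → ℝ) where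
  carrier := {a | ContDiff ℝ ∞ a ∧ (∀ s ≤ 0, a s = a 0) ∧ ∀ s, 1 ≤ s → a s = a 1}
  zero_mem' := ⟨contDiff_const, fun _ _ => rfl, fun _ _ => rfl⟩
  add_mem' := fun {a b} ha hb => ⟨ha.1.add hb.1,
    fun s hs => by rw [Pi.add_apply, Pi.add_apply, ha.2.1 s hs, hb.2.1 s hs],
    fun s hs => by rw [Pi.add_apply, Pi.add_apply, ha.2.2 s hs, hb.2.2 s hs]⟩

/-- The path of rotations. -/
noncomputable def jj : Multiplicative A0 →* G0 where
  toFun a := ⟨fun s => rotG (a.toAdd.1 s),
    contDiff_snd.add (a.toAdd.2.1.comp contDiff_fst),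
    fun s hs => congrArg rotG (a.toAdd.2.2.1 s hs), fun s hs => congrArg rotG (a.toAdd.2.2.2 s hs)⟩
  map_one' := Subtype.ext (funext fun _ => rotG_zero)
  map_mul' _ _ := Subtype.ext (funext fun _ => rotG_add _ _)

noncomputable def rotH : Multiplicative ℝ →* GG where
  toFun x := rotG x.toAdd
  map_one' := rotG_zero
  map_mul' _ _ := rotG_add _ _

def eA (s : ℝ) : Multiplicative A0 →* Multiplicative ℝ where
  toFun a := Multiplicative.ofAdd (a.toAdd.1 s)
  map_one' := rfl
  map_mul' _ _ := rfl

theorem cut_mem (x : ℝ) : (fun s => x * (1 - Real.smoothTransition s)) ∈ A0 := by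
  refine ⟨contDiff_const.mul (contDiff_const.sub Real.smoothTransition.contDiff),
    fun s hs => ?_, fun s hs => ?_⟩
  · beta_reduce
    rw [Real.smoothTransition.zero_of_nonpos hs, Real.smoothTransition.zero]
  · beta_reduce
    rw [Real.smoothTransition.one_of_one_le hs, Real.smoothTransition.one]

noncomputable def cut : Multiplicative ℝ →* Multiplicative A0 where
  toFun x := Multiplicative.ofAdd ⟨fun s => x.toAdd * (1 - Real.smoothTransition s), cut_mem _⟩
  map_one' := by
    refine congrArg Multiplicative.ofAdd (Subtype.ext (funext fun s => ?_))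
    change (0 : ℝ) * _ = 0
    rw [zero_mul]
  map_mul' x y := by
    refine congrArg Multiplicative.ofAdd (Subtype.ext (funext fun s => ?_))
    change (x.toAdd + y.toAdd) * _ = x.toAdd * _ + y.toAdd * _
    rw [add_mul]

noncomputable def ga : Multiplicative A0 :=
  Multiplicative.ofAdd ⟨fun _ => 2 * Real.pi, contDiff_const, fun _ _ => rfl, fun _ _ => rfl⟩

theorem re_mk (a b : ℝ) : ((a : ℂ) + I * (b : ℂ)).re = a := by simp

theorem im_mk (a b : ℝ) : ((a : ℂ) + I * (b : ℂ)).im = b := by simp

/-- The action of paths on the plane. -/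
noncomputable def fG : G0 →* Function.End ℂ where
  toFun g := fun ζ => (ζ.re : ℂ) + I * ((g.1 ζ.re).1.2 ζ.im : ℝ)
  map_one' := by
    funext ζ
    change (ζ.re : ℂ) + I * (ζ.im : ℝ) = ζ
    rw [mul_comm, re_add_im]
  map_mul' g h := by
    funext ζ
    change (ζ.re : ℂ) + I * ((g.1 ζ.re).1.2 ((h.1 ζ.re).1.2 ζ.im) : ℝ) =
      (((ζ.re : ℂ) + I * ((h.1 ζ.re).1.2 ζ.im : ℝ)).re : ℂ) +
        I * ((g.1 ((ζ.re : ℂ) + I * ((h.1 ζ.re).1.2 ζ.im : ℝ)).re).1.2
          ((ζ.re : ℂ) + I * ((h.1 ζ.re).1.2 ζ.im : ℝ)).im : ℝ)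
    rw [re_mk, im_mk]

/-- The vertical direction is fixed by the lift. -/
def Fx {κ : Type} [Fintype κ] (x : UU κ) : Prop := ∀ y, tht x y (Real.pi / 2) = Real.pi / 2

theorem Fx.mul {κ : Type} [Fintype κ] {x y : UU κ} (hx : Fx x) (hy : Fx y) : Fx (x * y) :=
  fun p => by rw [tht_mul, hy, hx]

theorem eq_of (hMk : S_Mk) {κ : Type} [Fintype κ] {x y : UU κ} (hx : Fx x) (hy : Fx y)
    (h : mp x = mp y) : x = y :=
  (hMk κ).1 x y h ⟨0, Real.pi / 2, by rw [hx, hy]⟩

theorem exists_diag (hDir : S_Dir) (κ : Type) [Fintype κ] (a : ℝ → ℝ) (t : ℝ)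
    (ha : ContDiff ℝ ∞ a) (ha' : ∀ s, 0 < deriv a s) (ht : 0 < t) :
    ∃ x : UU κ, (∀ y, mp x y = ((a y.1.re : ℂ) + I * (t * y.1.im : ℝ), y.2)) ∧ Fx x := by
  obtain ⟨x, hx, hx'⟩ := hDir.2.1 κ (Real.pi / 2) _
    (hDir.2.2.2.2 a (fun _ φ => t * φ) ha (contDiff_const.mul contDiff_snd) ha' fun s φ => by
      have h : HasDerivAt (fun φ : ℝ => t * φ) (t * 1) φ := (hasDerivAt_id φ).const_mul t
      rw [h.deriv, mul_one]
      exact ht)
  exact ⟨x, fun y => by rw [hx]; rfl, hx'⟩

end PTwoU

open PTwoU in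
theorem p_twoU (hTwo : S_Two) (hLink : S_Link) (hPerf : S_Perf) (hMk : S_Mk) (hMkG : S_MkG)
    (hDir : S_Dir) : S_TwoU := by
  intro κ _
  obtain ⟨rl, rc, hlink, hz, hrc⟩ := hLink κ
  obtain ⟨rho, hrho⟩ := hDir.2.2.1 κ G0 (Real.pi / 2) fG fun g =>
    hDir.2.2.2.2 id (fun s φ => (g.1 s).1.2 φ) contDiff_id g.2.1
      (fun s => by rw [deriv_id]; exact one_pos) fun s φ => hMkG.2.2.1 (g.1 s) φ
  have hrho1 : ∀ g y, mp (rho g) y =
      ((y.1.re : ℂ) + I * ((g.1 y.1.re).1.2 y.1.im : ℝ), y.2) := fun g y => by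
    rw [(hrho g).1]
    rfl
  have hrho2 : ∀ g, Fx (rho g) := fun g => (hrho g).2
  have hrc1 : ∀ g y, mp (rc g) y = ((y.1.re : ℂ) + I * (g.1.2 y.1.im : ℝ), y.2) := fun g y => by
    rw [(hrc g).1]
  have hrc2 : ∀ g, Fx (rc g) := fun g => (hrc g).2
  obtain ⟨um, hm1, hm2⟩ := exists_diag hDir κ (fun s => -Real.exp (-s)) 1
    (Real.contDiff_exp.comp contDiff_neg).neg (fun s => by
      have h : HasDerivAt (fun s : ℝ => -Real.exp (-s)) (-(Real.exp (-s) * -1)) s :=
        (hasDerivAt_neg s).exp.neg
      rw [h.deriv]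
      have := Real.exp_pos (-s)
      linarith) one_pos
  obtain ⟨up, hp1, hp2⟩ := exists_diag hDir κ (fun s => 1 + Real.exp s) 1
    (contDiff_const.add Real.contDiff_exp) (fun s => by
      rw [((Real.hasDerivAt_exp s).const_add 1).deriv]
      exact Real.exp_pos s) one_pos
  obtain ⟨S, hS1, hS2⟩ := exists_diag hDir κ id 2 contDiff_id
    (fun s => by rw [deriv_id]; exact one_pos) two_pos
  let T : TwoData (UU κ) GG G0 (Multiplicative A0) (Multiplicative ℝ) :=
    { c := rotG (2 * Real.pi)
      c0 := c0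
      cen := cen_rot
      cen0 := cen_c0
      rl := rl
      rc := rc
      link := hlink
      rho := rho
      evm := evG 0
      evp := evG 1
      um := um
      up := up
      hum := fun g => by
        refine eq_of hMk ((hrho2 g).mul hm2) (hm2.mul (hrc2 _)) (funext fun y => ?_)
        rw [mp_mul, mp_mul, Function.comp_apply, Function.comp_apply, hm1, hrho1, hrc1, hm1]
        simp only [re_mk, im_mk, one_mul]
        rw [g.2.2.1 _ (neg_nonpos.2 (Real.exp_pos _).le)]
        rfl
      hup := fun g => by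
        refine eq_of hMk ((hrho2 g).mul hp2) (hp2.mul (hrc2 _)) (funext fun y => ?_)
        rw [mp_mul, mp_mul, Function.comp_apply, Function.comp_apply, hp1, hrho1, hrc1, hp1]
        simp only [re_mk, im_mk, one_mul]
        rw [g.2.2.2 _ (le_add_of_nonneg_right (Real.exp_pos _).le)]
        rfl
      evm_c := rfl
      evp_c := rfl
      j := jj
      r := rotH
      em := eA 0
      ep := eA 1
      hem := fun _ => rfl
      hep := fun _ => rfl
      th := cut (Multiplicative.ofAdd (2 * Real.pi))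
      ga := ga
      j_ga := rfl
      em_th := by
        refine congrArg Multiplicative.ofAdd ?_
        change 2 * Real.pi * (1 - Real.smoothTransition 0) = 2 * Real.pi
        rw [Real.smoothTransition.zero, sub_zero, mul_one]
      ep_th := by
        refine congrArg Multiplicative.ofAdd ?_
        change 2 * Real.pi * (1 - Real.smoothTransition 1) = 0
        rw [Real.smoothTransition.one, sub_self, mul_zero]
      cut := cut
      em_cut := fun x => by
        refine congrArg Multiplicative.ofAdd ?_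
        change x.toAdd * (1 - Real.smoothTransition 0) = x.toAdd
        rw [Real.smoothTransition.zero, sub_zero, mul_one]
      ep_cut := fun x => by
        refine congrArg Multiplicative.ofAdd ?_
        change x.toAdd * (1 - Real.smoothTransition 1) = 0
        rw [Real.smoothTransition.one, sub_self, mul_zero]
      S := S
      hS := fun a => by
        refine eq_of hMk ((hrho2 _).mul hS2) (hS2.mul (hrho2 _)) (funext fun y => ?_)
        rw [mp_mul, mp_mul, Function.comp_apply, Function.comp_apply, hS1, hrho1, hrho1, hS1]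
        simp only [re_mk, im_mk, id]
        have e : ((jj (a * a)).1 y.1.re).1.2 (2 * y.1.im) =
            2 * ((jj a).1 y.1.re).1.2 y.1.im := by
          change 2 * y.1.im + (a.toAdd.1 y.1.re + a.toAdd.1 y.1.re) =
            2 * (y.1.im + a.toAdd.1 y.1.re)
          ring
        rw [e]
      hSr := fun x => by
        refine eq_of hMk ((hrc2 _).mul hS2) (hS2.mul (hrc2 _)) (funext fun y => ?_)
        rw [mp_mul, mp_mul, Function.comp_apply, Function.comp_apply, hS1, hrc1, hrc1, hS1]
        simp only [re_mk, im_mk, id]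
        have e : (rotH (x * x)).1.2 (2 * y.1.im) = 2 * (rotH x).1.2 y.1.im := by
          change 2 * y.1.im + (x.toAdd + x.toAdd) = 2 * (y.1.im + x.toAdd)
          ring
        rw [e]
      hSm := by
        refine eq_of hMk (hS2.mul hm2) (hm2.mul hS2) (funext fun y => ?_)
        rw [mp_mul, mp_mul, Function.comp_apply, Function.comp_apply, hS1, hm1, hm1, hS1]
        simp only [re_mk, im_mk, id, one_mul]
      hSp := by
        refine eq_of hMk (hS2.mul hp2) (hp2.mul hS2) (funext fun y => ?_)
        rw [mp_mul, mp_mul, Function.comp_apply, Function.comp_apply, hS1, hp1, hp1, hS1]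
        simp only [re_mk, im_mk, id, one_mul]
      perf := fun V _ _ η hη => by
        have hm := cut_mem (2 * Real.pi)
        refine hPerf V η hη _ _ hm.1 (fun s => ?_) hm.2.1 hm.2.2 fun _ => rfl
        have h0 := Real.smoothTransition.nonneg s
        have h1 := Real.smoothTransition.le_one s
        have hp := Real.two_pi_pos
        constructor
        · exact mul_nonneg hp.le (sub_nonneg.2 h1)
        · exact mul_le_of_le_one_right hp.le (by linarith) }
  have h := hTwo _ _ _ _ _ T
  rw [← hz]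
  exact h

end Pool.Agent.P.MP_878f14_gt.Sg
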