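import Pool.Agent.P.MP_878f14_gt.Sg.DefA

/-!
The base vertex of `wed` does not matter.
-/

namespace Pool.Agent.P.MP_878f14_gt.Sg

namespace Wed

variable {ι I : Type} [Fintype I] [DecidableEq I]

theorem wed_sum {κ : Type} (ε : ι → I → I → I → ℝ) (v : I) (T : Finset κ) (is : List ι) :
    ∀ Ψ : κ → List (I → ℝ) → ℝ,
      ∑ k ∈ T, wed ε v is (Ψ k) = wed ε v is fun rs => ∑ k ∈ T, Ψ k rs := by
  induction is with
  | nil => intro Ψ; rfl
  | cons i is ih =>
    intro Ψ
    simp only [wed]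
    rw [Finset.sum_comm]
    exact Finset.sum_congr rfl fun j _ => ih _

omit [Fintype I] [DecidableEq I] in
theorem good_cons {s : Set I} {Ψ : List (I → ℝ) → ℝ} (h : Good s Ψ) (x y : I → ℝ) :
    Good s fun rs => Ψ (x :: y :: rs) := fun r₁ r₂ => h (x :: y :: r₁) r₂

omit [Fintype I] [DecidableEq I] in
theorem good_sum {κ : Type} {s : Set I} {Ψ : List (I → ℝ) → ℝ} (h : Good s Ψ)
    (x : κ → I → ℝ) (r : List (I → ℝ)) (T : Finset κ) :
    ∑ k ∈ T, Ψ (x k :: r) = Ψ ((∑ k ∈ T, x k) :: r) := by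
  classical
  induction T using Finset.induction_on with
  | empty => exact ((h [] r).2 _ 0 fun _ _ => rfl).symm
  | insert a T ha ih =>
    have h1 := (h [] r).1 (∑ k ∈ T, x k) (x a) 1
    rw [one_smul, one_mul] at h1
    rw [Finset.sum_insert ha, Finset.sum_insert ha, ih, add_comm (x a), add_comm]
    exact h1.symm

theorem key [PartialOrder I] {ε : ι → I → I → I → ℝ} (hε : Coc ε) {s s' : Set I} (hs : s ⊆ s')
    (hc : IsChain (· ≤ ·) s') {v v' : I} (hv : v ∈ s') (hv' : v' ∈ s') (i : ι)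
    {Ψ : List (I → ℝ) → ℝ} (h : Good s Ψ) (rs : List (I → ℝ)) :
    ∑ j, Ψ (Pi.single j 1 :: ε i v j :: rs) = ∑ j, Ψ (Pi.single j 1 :: ε i v' j :: rs) := by
  have h1 : ∀ j, Ψ (Pi.single j 1 :: ε i v j :: rs) =
      Ψ (Pi.single j 1 :: ε i v' j :: rs) - Ψ (Pi.single j 1 :: ε i v' v :: rs) := by
    intro j
    by_cases hj : j ∈ s
    · have a1 := (h [Pi.single j 1] rs).1 (ε i v' j) (ε i v' v) (-1)
      have a2 := (h [Pi.single j 1] rs).1 (ε i v' j + (-1 : ℝ) • ε i v' v)
        (ε i v j - ε i v' j + ε i v' v) 1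
      have a3 := (h [Pi.single j 1] rs).2 (ε i v j - ε i v' j + ε i v' v) (ε i v' v j)
        fun a ha => by
          have := hε i s' hc v' hv' v hv j (hs hj) a (hs ha)
          simp only [Pi.add_apply, Pi.sub_apply]
          linarith
      have e : ε i v' j + (-1 : ℝ) • ε i v' v + (1 : ℝ) • (ε i v j - ε i v' j + ε i v' v) =
          ε i v j := by
        funext a
        simp only [Pi.add_apply, Pi.sub_apply, Pi.smul_apply, smul_eq_mul]
        ring
      rw [e, a1, a3] at a2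
      simp only [List.cons_append, List.nil_append] at a2
      linarith
    · have a0 : ∀ r, Ψ (Pi.single j 1 :: r) = 0 := fun r =>
        (h [] r).2 _ 0 fun a ha => Pi.single_eq_of_ne (fun e : a = j => hj (e ▸ ha)) _
      rw [a0, a0, a0, sub_zero]
  have h2 : Ψ ((∑ j : I, Pi.single j (1 : ℝ)) :: ε i v' v :: rs) = 0 :=
    (h [] _).2 _ 1 fun a _ => by simp [Finset.sum_apply, Pi.single_apply]
  rw [Finset.sum_congr rfl fun j _ => h1 j, Finset.sum_sub_distrib,
    good_sum h (fun j => Pi.single j (1 : ℝ)) (ε i v' v :: rs), h2, sub_zero]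

end Wed

theorem p_wed : S_Wed := by
  intro ι I _ _ _ ε hε s s' hs hc v hv v' hv' is
  induction is with
  | nil => intro Ψ _; rfl
  | cons i is ih =>
    intro Ψ h
    simp only [wed]
    rw [Finset.sum_congr rfl fun j _ => ih _ (Wed.good_cons h (Pi.single j 1) (ε i v j)),
      Wed.wed_sum, Wed.wed_sum]
    exact congrArg _ (funext fun rs => Wed.key hε hs hc hv hv' i h rs)

end Pool.Agent.P.MP_878f14_gt.Sg
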