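import Pool.Agent.P.MP_878f14_gt.Sg.DefA

namespace Pool.Agent.P.MP_878f14_gt.Sg

namespace Zig

section
variable {ι I : Type} [Fintype I] [DecidableEq I] (ε : ι → I → I → I → ℝ) (v : I)

lemma wed_lin (is : List ι) : ∀ (Ψ Φ : List (I → ℝ) → ℝ) (t : ℝ),
    wed ε v is (fun rs => Ψ rs + t * Φ rs) = wed ε v is Ψ + t * wed ε v is Φ := by
  induction is with
  | nil => intro Ψ Φ t; rfl
  | cons i is ih =>
    intro Ψ Φ t
    simp only [wed, ih, Finset.sum_add_distrib, Finset.mul_sum]

lemma wed_zero (is : List ι) : wed ε v is (fun _ => 0) = 0 := by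
  induction is with
  | nil => rfl
  | cons i is ih => simp only [wed, ih, Finset.sum_const_zero]

lemma wed_sub (is : List ι) (Ψ Φ : List (I → ℝ) → ℝ) :
    wed ε v is (fun rs => Ψ rs - Φ rs) = wed ε v is Ψ - wed ε v is Φ := by
  have h := wed_lin ε v is Ψ Φ (-1)
  simp only [neg_mul, one_mul, ← sub_eq_add_neg] at h
  exact h

lemma wed_add (is : List ι) (Ψ Φ : List (I → ℝ) → ℝ) :
    wed ε v is (fun rs => Ψ rs + Φ rs) = wed ε v is Ψ + wed ε v is Φ := by
  have h := wed_lin ε v is Ψ Φ 1
  simp only [one_mul] at h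
  exact h

lemma wed_mul (is : List ι) (Φ : List (I → ℝ) → ℝ) (t : ℝ) :
    wed ε v is (fun rs => t * Φ rs) = t * wed ε v is Φ := by
  have h := wed_lin ε v is (fun _ => 0) Φ t
  simp only [zero_add, wed_zero] at h
  exact h

lemma wed_sum {κ : Type} (s : Finset κ) (is : List ι) (Ψ : κ → List (I → ℝ) → ℝ) :
    wed ε v is (fun rs => ∑ j ∈ s, Ψ j rs) = ∑ j ∈ s, wed ε v is (Ψ j) := by
  classical
  induction s using Finset.induction_on with
  | empty => simp only [Finset.sum_empty, wed_zero]
  | insert j s hj ih => simp only [Finset.sum_insert hj, wed_add, ih]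

lemma cob_wed (is : List ι) (l : List I) : ∀ Ψ : List I → List (I → ℝ) → ℝ,
    cob (fun l' => wed ε v is (Ψ l')) l = wed ε v is (fun rs => cob (fun l' => Ψ l' rs) l) := by
  induction l with
  | nil => intro Ψ; simp only [cob, wed_zero]
  | cons a l ih =>
    intro Ψ
    have h := ih (fun l' => Ψ (a :: l'))
    simp only [cob, wed_sub]
    exact congrArg (fun x => wed ε v is (Ψ l) - x) h

end

lemma cob_lin {I : Type} (l : List I) : ∀ (φ χ : Co I) (t : ℝ),
    cob (fun l' => φ l' + t * χ l') l = cob φ l + t * cob χ l := by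
  induction l with
  | nil => intro φ χ t; simp [cob]
  | cons a l ih =>
    intro φ χ t
    have h : cob (sh a fun l' => φ l' + t * χ l') l = _ := ih (sh a φ) (sh a χ) t
    simp only [cob, h]
    ring

lemma cob_zero {I : Type} (l : List I) : cob (fun _ => 0) l = 0 := by
  induction l with
  | nil => rfl
  | cons a l ih =>
    have h : cob (sh a fun _ => (0 : ℝ)) l = 0 := ih
    simp only [cob, h, sub_zero]

lemma cob_mul {I : Type} (l : List I) (χ : Co I) (t : ℝ) :
    cob (fun l' => t * χ l') l = t * cob χ l := by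
  have h := cob_lin l (fun _ => 0) χ t
  simp only [zero_add, cob_zero] at h
  exact h

lemma cob_sum {I κ : Type} (s : Finset κ) (l : List I) (φ : κ → Co I) :
    cob (fun l' => ∑ j ∈ s, φ j l') l = ∑ j ∈ s, cob (φ j) l := by
  classical
  induction s using Finset.induction_on with
  | empty => simp only [Finset.sum_empty, cob_zero]
  | insert j s hj ih =>
    have h := cob_lin l (φ j) (fun l' => ∑ j ∈ s, φ j l') 1
    simp only [one_mul] at h
    simp only [Finset.sum_insert hj, h, ih]

lemma chain {I : Type} [PartialOrder I] {l : List I} (h : l.Pairwise (· ≤ ·)) :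
    IsChain (· ≤ ·) {a | a ∈ l} := by
  induction l with
  | nil => intro a ha; simp at ha
  | cons c l ih =>
    rw [List.pairwise_cons] at h
    intro a ha b hb hab
    simp only [Set.mem_ofPred_eq, List.mem_cons] at ha hb
    rcases ha with rfl | ha
    · rcases hb with rfl | hb
      · exact Or.inl le_rfl
      · exact Or.inl (h.1 b hb)
    · rcases hb with rfl | hb
      · exact Or.inr (h.1 a ha)
      · exact ih h.2 ha hb hab

lemma good_cons {I : Type} {s : Set I} {Ψ : List (I → ℝ) → ℝ} (h : Good s Ψ) (x : I → ℝ) :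
    Good s (fun rs => Ψ (x :: rs)) := fun r₁ r₂ => h (x :: r₁) r₂

section
variable {ι I : Type} [Fintype I] [DecidableEq I] [PartialOrder I] {n : ℕ}
  {L : List I → (I → ℝ) → List (I → ℝ) → ℝ}

omit [Fintype I] [DecidableEq I] in
lemma L_congr (hL : IsInt n L) {l : List I} (hl : l.Pairwise (· ≤ ·)) (hn : l.length ≤ n)
    (f g : I → ℝ) (rs : List (I → ℝ)) (h : ∀ a ∈ l, f a = g a) : L l f rs = L l g rs := by
  have h1 := hL.lin l g (f - g) 1 rs hl hn
  have h2 := hL.zero l (f - g) rs hl hn (fun a ha => by simp [h a ha])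
  have h3 : g + (1 : ℝ) • (f - g) = f := by simp
  rw [h3, h2] at h1
  simpa using h1

lemma L_one (hL : IsInt n L) {l : List I} (hl : l.Pairwise (· ≤ ·)) (hn : l.length ≤ n)
    (rs : List (I → ℝ)) : ∑ j, L l (Pi.single j 1) rs = L l 1 rs := by
  have h : ∀ s : Finset I, ∑ j ∈ s, L l (Pi.single j 1) rs =
      L l (∑ j ∈ s, Pi.single j 1) rs := by
    intro s
    induction s using Finset.induction_on with
    | empty =>
      simp only [Finset.sum_empty]
      exact (hL.zero l 0 rs hl hn (fun _ _ => rfl)).symm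
    | insert j s hj ih =>
      have h1 := hL.lin l (Pi.single j 1) (∑ j ∈ s, Pi.single j 1) 1 rs hl hn
      rw [one_smul, one_mul] at h1
      rw [Finset.sum_insert hj, Finset.sum_insert hj, ih, h1]
  rw [h]
  congr 1
  exact Finset.univ_sum_single (1 : I → ℝ)

end

section
variable {ι I : Type} [Fintype I] [DecidableEq I] (ε : ι → I → I → I → ℝ)
  (L : List I → (I → ℝ) → List (I → ℝ) → ℝ) (i : ι) (is : List ι)

/-- the primitive of the first factor is taken with base `v` -/
def AA (v : I) : Co I :=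
  fun l => ∑ j, wed ε v is fun rs => L l (Pi.single j 1) (ε i v j :: rs)

def B1 : Co I
  | [] => 0
  | v :: l => AA ε L i is v (v :: l)

def B2 : Co I
  | a :: b :: l => wed ε b is (L (b :: l) (ε i a b))
  | _ => 0

end

def B3 {I : Type} (e : I → I → I → ℝ) (ψ : Co I) : Co I
  | a :: b :: c :: l => e a b c * ψ (c :: l)
  | _ => 0

section
variable {ι I : Type} [Fintype I] [DecidableEq I] [PartialOrder I] {ε : ι → I → I → I → ℝ}
  {n : ℕ} {L : List I → (I → ℝ) → List (I → ℝ) → ℝ}

lemma cob_B1 (hWed : S_Wed) (hε : Coc ε) (hL : IsInt n L) (i : ι) (is : List ι) (a b : I)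
    (m : List I) (hl : (a :: b :: m).Pairwise (· ≤ ·)) (hn : (a :: b :: m).length ≤ n) :
    cob (B1 ε L i is) (a :: b :: m) = wed ε a (i :: is) (L (a :: b :: m) 1) -
      wed ε b is (fun rs => L (b :: m) 1 (ε i a b :: rs)) := by
  have hl' : (b :: m).Pairwise (· ≤ ·) := (List.pairwise_cons.1 hl).2
  have hn' : (b :: m).length ≤ n := le_trans (by simp) hn
  have hch := chain hl
  have ha : a ∈ {x | x ∈ a :: b :: m} := by simp
  have hb : b ∈ {x | x ∈ a :: b :: m} := by simp
  have hsub : {x | x ∈ b :: m} ⊆ {x | x ∈ a :: b :: m} := fun x hx => List.mem_cons_of_mem a hx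
  have h1 : cob (AA ε L i is a) (a :: b :: m) = wed ε a (i :: is) (L (a :: b :: m) 1) := by
    unfold AA
    rw [cob_sum]
    refine Finset.sum_congr rfl fun j _ => ?_
    rw [cob_wed ε a is _ (fun l rs => L l (Pi.single j 1) (ε i a j :: rs))]
    congr 1
    funext rs
    exact hL.stokes _ _ _ hl hn
  have h2 : cob (B1 ε L i is) (a :: b :: m) = AA ε L i is b (b :: m) -
      cob (sh a (AA ε L i is a)) (b :: m) := rfl
  have h3 : cob (AA ε L i is a) (a :: b :: m) = AA ε L i is a (b :: m) -
      cob (sh a (AA ε L i is a)) (b :: m) := rfl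
  have h4 : AA ε L i is a (b :: m) = AA ε L i is b (b :: m) +
      wed ε b is (fun rs => L (b :: m) 1 (ε i a b :: rs)) := by
    have h5 : (fun rs => L (b :: m) 1 (ε i a b :: rs)) =
        fun rs => ∑ j, L (b :: m) (Pi.single j 1) (ε i a b :: rs) :=
      funext fun rs => (L_one hL hl' hn' _).symm
    rw [h5, wed_sum]
    unfold AA
    rw [← Finset.sum_add_distrib]
    refine Finset.sum_congr rfl fun j _ => ?_
    have hg := hL.good (b :: m) (Pi.single j 1) hl' hn'
    rw [hWed ι I ε hε _ _ hsub hch a ha b hb is _ (good_cons hg _), ← wed_add]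
    congr 1
    funext rs
    by_cases hj : j ∈ b :: m
    · have g1 := (hg [] rs).1 (ε i b j) (ε i a b) 1
      have g2 := (hg [] rs).1 (ε i b j + (1 : ℝ) • ε i a b)
        (ε i a j - (ε i b j + (1 : ℝ) • ε i a b)) 1
      have g3 := (hg [] rs).2 (ε i a j - (ε i b j + (1 : ℝ) • ε i a b)) (-ε i a b j) (by
        intro x hx
        have := hε i _ hch a ha b hb j (hsub hj) x (hsub hx)
        simp only [Pi.sub_apply, Pi.add_apply, one_smul]
        linarith)
      have g4 : ε i b j + (1 : ℝ) • ε i a b +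
          (1 : ℝ) • (ε i a j - (ε i b j + (1 : ℝ) • ε i a b)) = ε i a j := by simp
      rw [g4, g3, g1] at g2
      simpa using g2
    · have hz : ∀ rs', L (b :: m) (Pi.single j 1) rs' = 0 := fun rs' =>
        hL.zero _ _ _ hl' hn' (fun x hx => Pi.single_eq_of_ne (fun (h : x = j) => hj (h ▸ hx)) _)
      simp only [hz, add_zero]
  rw [h2, ← h1, h3, h4]
  ring

lemma cob_B2 (hWed : S_Wed) (hε : Coc ε) (hL : IsInt n L) (i : ι) (is : List ι) (a b c : I)
    (m : List I) (hl : (a :: b :: c :: m).Pairwise (· ≤ ·))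
    (hn : (a :: b :: c :: m).length ≤ n) :
    cob (B2 ε L i is) (a :: b :: c :: m) = ε i a b c * wed ε c is (L (c :: m) 1) -
      wed ε b is (fun rs => L (b :: c :: m) 1 (ε i a b :: rs)) := by
  have hl' : (b :: c :: m).Pairwise (· ≤ ·) := (List.pairwise_cons.1 hl).2
  have hn' : (b :: c :: m).length ≤ n := le_trans (by simp) hn
  have hl'' : (c :: m).Pairwise (· ≤ ·) := (List.pairwise_cons.1 hl').2
  have hn'' : (c :: m).length ≤ n := le_trans (by simp) hn'
  have hch := chain hl
  have ha : a ∈ {x | x ∈ a :: b :: c :: m} := by simp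
  have hb : b ∈ {x | x ∈ a :: b :: c :: m} := by simp
  have hc : c ∈ {x | x ∈ a :: b :: c :: m} := by simp
  have hsub : {x | x ∈ c :: m} ⊆ {x | x ∈ a :: b :: c :: m} := fun x hx =>
    List.mem_cons_of_mem a (List.mem_cons_of_mem b hx)
  have h1 : cob (fun l => wed ε b is (L l (ε i a b))) (b :: c :: m) =
      wed ε b is (fun rs => L (b :: c :: m) 1 (ε i a b :: rs)) := by
    rw [cob_wed ε b is _ (fun l => L l (ε i a b))]
    congr 1
    funext rs
    exact hL.stokes _ _ _ hl' hn'
  have h2 : cob (B2 ε L i is) (a :: b :: c :: m) = wed ε c is (L (c :: m) (ε i b c)) -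
      (wed ε c is (L (c :: m) (ε i a c)) -
        cob (sh b fun l => wed ε b is (L l (ε i a b))) (c :: m)) := rfl
  have h3 : cob (fun l => wed ε b is (L l (ε i a b))) (b :: c :: m) =
      wed ε b is (L (c :: m) (ε i a b)) -
        cob (sh b fun l => wed ε b is (L l (ε i a b))) (c :: m) := rfl
  have h4 : wed ε b is (L (c :: m) (ε i a b)) = wed ε c is (L (c :: m) (ε i a b)) :=
    hWed ι I ε hε _ _ hsub hch b hb c hc is _ (hL.good _ _ hl'' hn'')
  have h5 : wed ε c is (L (c :: m) (ε i b c)) + wed ε c is (L (c :: m) (ε i a b)) =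
      wed ε c is (L (c :: m) (ε i a c)) + ε i a b c * wed ε c is (L (c :: m) 1) := by
    rw [← wed_add, ← wed_lin]
    congr 1
    funext rs
    have g1 := hL.lin (c :: m) (ε i b c) (ε i a b) 1 rs hl'' hn''
    rw [one_mul] at g1
    rw [← g1, ← hL.lin (c :: m) (ε i a c) 1 (ε i a b c) rs hl'' hn'']
    apply L_congr hL hl'' hn''
    intro x hx
    have := hε i _ hch a ha b hb c hc x (hsub hx)
    simp only [Pi.add_apply, Pi.smul_apply, Pi.one_apply, smul_eq_mul]
    linarith
  rw [h2]
  linarith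

omit [Fintype I] [DecidableEq I] in
lemma cob_B3 (hε : Coc ε) (i : ι) (ψ : Co I) (h0 : ψ [] = 0) (a b c : I) (m : List I)
    (hl : (a :: b :: c :: m).Pairwise (· ≤ ·)) :
    cob (B3 (ε i) ψ) (a :: b :: c :: m) = ε i a b c * cob ψ (c :: m) := by
  have h1 : cob (B3 (ε i) ψ) (a :: b :: c :: m) = B3 (ε i) ψ (b :: c :: m) -
      (B3 (ε i) ψ (a :: c :: m) - (B3 (ε i) ψ (a :: b :: m) -
        cob (fun l => ε i a b c * sh c ψ l) m)) := rfl
  have h2 : cob ψ (c :: m) = ψ m - cob (sh c ψ) m := rfl
  rw [h1, h2, cob_mul]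
  cases m with
  | nil => simp [B3, h0]
  | cons d m =>
    have := hε i _ (chain hl) a (by simp) b (by simp) c (by simp) d (by simp)
    have h3 : ε i a b c = ε i b c d - ε i a c d + ε i a b d := by linarith
    simp only [B3]
    rw [h3]
    ring

end

end Zig

theorem p_zig (hWed : S_Wed) : S_Zig := by
  intro ι I _ _ _ ε hε n L hL is
  have key : ∃ ψ : Co I, ψ [] = 0 ∧ ∀ a l, (a :: l).Pairwise (· ≤ ·) → (a :: l).length ≤ n →
      l.length = 2 * is.length →
      wed ε a is (L (a :: l) 1) = cupV ε is (a :: l) + cob ψ (a :: l) := by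
    induction is with
    | nil =>
      refine ⟨fun _ => 0, rfl, fun a l _ _ hlen => ?_⟩
      have : l = [] := List.length_eq_zero_iff.1 (by simpa using hlen)
      subst this
      rw [Zig.cob_zero]
      simp [wed, cupV, hL.pt]
    | cons i is ih =>
      obtain ⟨ψ, h0, hψ⟩ := ih
      refine ⟨fun l => (Zig.B1 ε L i is l + (-1) * Zig.B2 ε L i is l) +
        1 * Zig.B3 (ε i) ψ l, by simp [Zig.B1, Zig.B2, Zig.B3], fun a l hl hn hlen => ?_⟩
      match l, hl, hn, hlen with
      | [], _, _, hlen => simp at hlen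
      | [_], _, _, hlen => simp at hlen; omega
      | b :: c :: m, hl, hn, hlen =>
        have hl' : (c :: m).Pairwise (· ≤ ·) :=
          (List.pairwise_cons.1 (List.pairwise_cons.1 hl).2).2
        have hn' : (c :: m).length ≤ n := le_trans (by simp) hn
        have hm : m.length = 2 * is.length := by simp at hlen; omega
        have h1 := hψ c m hl' hn' hm
        have h2 : cupV ε (i :: is) (a :: b :: c :: m) = ε i a b c * cupV ε is (c :: m) := rfl
        rw [Zig.cob_lin, Zig.cob_lin, Zig.cob_B1 hWed hε hL i is a b (c :: m) hl hn,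
          Zig.cob_B2 hWed hε hL i is a b c m hl hn, Zig.cob_B3 hε i ψ h0 a b c m hl, h1, h2]
        ring
  obtain ⟨ψ, _, h⟩ := key
  exact ⟨ψ, h⟩

end Pool.Agent.P.MP_878f14_gt.Sg
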