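import Pool.Agent.P.MP_878f14_gt.Sg.StU

/-!
Statements about the thickened nerve of a finite poset.
-/

open Filter Topology MeasureTheory
open scoped ContDiff

namespace Pool.Agent.P.MP_878f14_gt.Sg

/-- The thickened nerve. -/
def MM (I : Type) [PartialOrder I] : Set (I → ℝ) :=
  {t | IsChain (· ≤ ·) {i | 0 ≤ t i} ∧ ∃ j, 2 < t j}

/-- The charts. -/
def WC {I : Type} [PartialOrder I] (a : I) : Set (I → ℝ) :=
  {t | t ∈ MM I ∧ 0 < t a ∧ ∀ j < a, t j < 1}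

/-- The vertices. -/
def VV {I : Type} [DecidableEq I] (n : ℕ) (a : I) : I → ℝ :=
  fun i => (if i = a then 4 * (n : ℝ) else 0) - 1

def S_Open : Prop :=
  ∀ (I : Type) [Fintype I] [DecidableEq I] [PartialOrder I],
    IsOpen (MM I) ∧ (∀ a : I, IsOpen (WC a)) ∧ ⋃ a : I, WC a = MM I ∧
    (∀ p ∈ MM I, IsChain (· ≤ ·) {a : I | p ∈ WC a}) ∧
    ∀ (n : ℕ) (s : Finset I), IsChain (· ≤ ·) (s : Set I) → s.card ≤ n →
      ∀ p ∈ convexHull ℝ (VV n '' (s : Set I)), p ∈ MM I ∧ ∀ j ∉ s, p j = -1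

/-- A partition of unity subordinate to the charts. -/
structure IsRho {I : Type} [Fintype I] [PartialOrder I] (ρ : I → (I → ℝ) → ℝ) : Prop where
  sm : ∀ j, ContDiffOn ℝ ∞ (ρ j) (MM I)
  sum : ∀ p ∈ MM I, ∑ j, ρ j p = 1
  supp : ∀ j, ∀ p ∈ MM I, p ∉ WC j → ρ j =ᶠ[𝓝 p] fun _ => 0

def S_Par : Prop :=
  ∀ (I : Type) [Fintype I] [PartialOrder I], ∃ ρ : I → (I → ℝ) → ℝ, IsRho ρ

/-- The section over the thickened nerve. -/
def S_Thick : Prop :=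
  ∀ (I : Type) [Fintype I] [PartialOrder I] (X : Type) [NormedAddCommGroup X] [NormedSpace ℝ X]
    (S : Set X) (x0 : X) (G : I → I → X → X), x0 ∈ S →
    (∀ x ∈ S, ∀ t : ℝ, 0 ≤ t → t ≤ 1 → t • x + (1 - t) • x0 ∈ S) →
    (∀ a b, a ≤ b → ∀ x ∈ S, G a b x ∈ S ∧ ContDiffAt ℝ ∞ (G a b) x) →
    (∀ a, ∀ x ∈ S, G a a x = x) →
    (∀ a b c, a ≤ b → b ≤ c → ∀ x ∈ S, G a b (G b c x) = G a c x) →
    ∃ Y : I → (I → ℝ) → X, (∀ a, ∀ p ∈ WC a, Y a p ∈ S ∧ ContDiffAt ℝ ∞ (Y a) p) ∧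
      ∀ a b, a ≤ b → ∀ p ∈ WC a ∩ WC b, Y a p = G a b (Y b p)

/-- Ordered transition maps with invertible derivative give a Haefliger structure. -/
def S_Ord : Prop :=
  ∀ (E T I : Type) [NormedAddCommGroup E] [NormedSpace ℝ E] [NormedAddCommGroup T]
    [NormedSpace ℝ T] [FiniteDimensional ℝ T] [PartialOrder I] (U : Set E) (W : I → Set E)
    (f : I → E → T) (G : I → I → T → T), (∀ a, IsOpen (W a)) → ⋃ a, W a = U →
    (∀ a, ContDiffOn ℝ ∞ (f a) (W a)) → (∀ a b, ∀ p ∈ W a ∩ W b, a ≤ b ∨ b ≤ a) →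
    (∀ a b, ContDiff ℝ ∞ (G a b)) → (∀ a, G a a = id) →
    (∀ a b c, a ≤ b → b ≤ c → G a b ∘ G b c = G a c) →
    (∀ a b, a ≤ b → ∀ p ∈ W a ∩ W b, f a p = G a b (f b p) ∧
      IsUnit (fderiv ℝ (G a b) (f b p))) →
    ∃ H : Haefliger U T I, H.W = W ∧ ∀ a b, a ≤ b → ∀ p ∈ W a ∩ W b,
      H.g a b p = fderiv ℝ (G a b) (f b p) ∧ H.g b a p * fderiv ℝ (G a b) (f b p) = 1

/-- The function `∑ r_j ρ_j`. -/
def fn {I : Type} [Fintype I] (ρ : I → (I → ℝ) → ℝ) (r : I → ℝ) (p : I → ℝ) : ℝ :=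
  ∑ j, r j * ρ j p

/-- The two-form `∑_j dρ_j ∧ d (∑_k e j k ρ_k)`. -/
noncomputable def two {I : Type} [Fintype I] [DecidableEq I] (ρ : I → (I → ℝ) → ℝ)
    (e : I → I → ℝ) (p v w : I → ℝ) : ℝ :=
  ∑ j, (fderiv ℝ (fn ρ (Pi.single j 1)) p v * fderiv ℝ (fn ρ (e j)) p w -
    fderiv ℝ (fn ρ (Pi.single j 1)) p w * fderiv ℝ (fn ρ (e j)) p v)

/-- An abelian connection with prescribed curvature. -/
def S_Conn : Prop :=
  ∀ (I : Type) [Fintype I] [DecidableEq I] [PartialOrder I] (ρ : I → (I → ℝ) → ℝ), IsRho ρ →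
    ∀ (α : I → I → (I → ℝ) → ℝ) (ε : I → I → I → ℝ),
    (∀ a b, ∀ p ∈ WC a ∩ WC b, ContDiffAt ℝ ∞ (α a b) p) →
    (∀ a b c, ∀ p ∈ WC a ∩ WC b ∩ WC c, α a b p + α b c p - α a c p = ε a b c) →
    (∀ s : Set I, IsChain (· ≤ ·) s → ∀ a ∈ s, ∀ b ∈ s, ∀ c ∈ s, ∀ d ∈ s,
      ε b c d - ε a c d + ε a b d - ε a b c = 0) →
    ∃ B : I → (I → ℝ) → (I → ℝ) →L[ℝ] ℝ, (∀ a, ∀ p ∈ WC a, ContDiffAt ℝ ∞ (B a) p ∧
      ∀ v w, fderiv ℝ (B a) p v w - fderiv ℝ (B a) p w v = -two ρ (ε a) p v w) ∧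
      ∀ a b, ∀ p ∈ WC a ∩ WC b, B b p = B a p + fderiv ℝ (α a b) p

/-- The form `d(fn r₁) ∧ ⋯ ∧ d(fn r_k)` on `k` vectors. -/
noncomputable def dets {I : Type} [Fintype I] (ρ : I → (I → ℝ) → ℝ) {k : ℕ} (p : I → ℝ)
    (v : Fin k → I → ℝ) (rs : List (I → ℝ)) : ℝ :=
  if rs.length = k then
    (Matrix.of fun a b : Fin k => fderiv ℝ (fn ρ (rs.getD a 0)) p (v b)).det else 0

/-- The Chern-Weil sum of an abelian curvature. -/
def S_Cwf : Prop :=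
  ∀ (I ι 𝔸 : Type) [Fintype I] [DecidableEq I] [Fintype ι] [DecidableEq ι] [NormedRing 𝔸]
    [NormedAlgebra ℝ 𝔸] (ρ : I → (I → ℝ) → ℝ) (n : ℕ)
    (P : MultilinearMap ℝ (fun _ : Fin (n + 1) => 𝔸) ℝ) (J : ι → 𝔸) (ε : ι → I → I → I → ℝ)
    (t : ℝ) (a : I) (p : I → ℝ) (v : Fin (2 * n + 2) → I → ℝ),
    cw P (fun x y => ∑ i, (t * two ρ (ε i a) p x y) • J i) v =
      (2 * t) ^ (n + 1) * ∑ is : Fin (n + 1) → ι, P (fun s => J (is s)) *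
        wed ε a (List.ofFn is) (dets ρ p v)

/-- A parametrisation of the simplex with vertices `a` by the cube. -/
def smp {E : Type} [AddCommGroup E] [Module ℝ E] :
    ∀ k : ℕ, (Fin (k + 1) → E) → (Fin k → ℝ) → E
  | 0, a, _ => a 0
  | k + 1, a, s => (1 - s 0) • a 0 + s 0 • smp k (Fin.tail a) (Fin.tail s)

/-- The integral of a `k`-form over a simplex. -/
noncomputable def intS {E : Type} [NormedAddCommGroup E] [NormedSpace ℝ E] (k : ℕ)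
    (η : E → (Fin k → E) → ℝ) (a : Fin (k + 1) → E) : ℝ :=
  ∫ s in Set.Icc (0 : Fin k → ℝ) 1,
    η (smp k a s) fun b => fderiv ℝ (smp k a) s (Pi.single b 1)

def S_Smp : Prop :=
  ∀ (E : Type) [NormedAddCommGroup E] [NormedSpace ℝ E] (k : ℕ) (a : Fin (k + 1) → E),
    ContDiff ℝ ∞ (smp k a) ∧
    (∀ s ∈ Set.Icc (0 : Fin k → ℝ) 1, smp k a s ∈ convexHull ℝ (Set.range a)) ∧
    (∀ (f : E →L[ℝ] ℝ) (c : ℝ), (∀ i, f (a i) = c) → ∀ s, f (smp k a s) = c) ∧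
    ∀ (a' : Fin (k + 2) → E) (b : Fin (k + 1)) (s : Fin k → ℝ),
      smp (k + 1) a' (b.insertNth 1 s) = smp k (fun i => a' (b.castSucc.succAbove i)) s ∧
      (b = Fin.last k → smp (k + 1) a' (b.insertNth 0 s) = smp k (Fin.init a') s) ∧
      ∀ c : Fin k, b ≤ c.castSucc → ∀ t : ℝ,
        smp (k + 1) a' (b.insertNth 0 (Function.update s c t)) =
          smp (k + 1) a' (b.insertNth 0 s)

/-- Stokes on a simplex. -/
def S_Stk : Prop :=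
  ∀ (E : Type) [NormedAddCommGroup E] [NormedSpace ℝ E] (k : ℕ) (U : Set E)
    (η : E → E [⋀^Fin k]→L[ℝ] ℝ) (a : Fin (k + 2) → E), IsOpen U → ContDiffOn ℝ ∞ η U →
    convexHull ℝ (Set.range a) ⊆ U →
    intS (k + 1) (fun p v => extDeriv η p v) a =
      ∑ i : Fin (k + 2), (-1) ^ (i : ℕ) * intS k (fun p v => η p v) fun j => a (i.succAbove j)

/-- The forms `f dr₁ ⋯ dr_k` and their exterior derivatives. -/
def S_Det : Prop :=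
  ∀ (E : Type) [NormedAddCommGroup E] [NormedSpace ℝ E] [FiniteDimensional ℝ E] (k : ℕ)
    (U : Set E) (u : Fin (k + 1) → E → ℝ), IsOpen U → (∀ i, ContDiffOn ℝ ∞ (u i) U) →
    ∃ η : E → E [⋀^Fin k]→L[ℝ] ℝ, ContDiffOn ℝ ∞ η U ∧ ∀ p ∈ U,
      (∀ v, η p v = u 0 p * (Matrix.of fun a b : Fin k => fderiv ℝ (u a.succ) p (v b)).det) ∧
      ∀ v, extDeriv η p v = (Matrix.of fun a b : Fin (k + 1) => fderiv ℝ (u a) p (v b)).det

/-- The integral of a form of the right degree over the simplex spanned by a list. -/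
noncomputable def intL {I : Type} [Fintype I] [DecidableEq I] (n : ℕ)
    (η : ∀ k : ℕ, (I → ℝ) → (Fin k → I → ℝ) → ℝ) : List I → ℝ
  | [] => 0
  | a :: l => intS l.length (η l.length) fun i => VV n ((a :: l).get i)

/-- The integrals of `f dr₁ ⋯ dr_k`. -/
noncomputable def LL {I : Type} [Fintype I] [DecidableEq I] (n : ℕ) (ρ : I → (I → ℝ) → ℝ)
    (l : List I) (f : I → ℝ) (rs : List (I → ℝ)) : ℝ :=
  intL n (fun _ p v => fn ρ f p * dets ρ p v rs) l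

/-- Stokes for lists. -/
def S_StkL : Prop :=
  ∀ (I : Type) [Fintype I] [DecidableEq I] [PartialOrder I] (n k : ℕ)
    (η : (I → ℝ) → (I → ℝ) [⋀^Fin k]→L[ℝ] ℝ)
    (Θ Θ' : ∀ k : ℕ, (I → ℝ) → (Fin k → I → ℝ) → ℝ), ContDiffOn ℝ ∞ η (MM I) →
    (∀ p ∈ MM I, ∀ v, Θ k p v = η p v) → (∀ p ∈ MM I, ∀ v, Θ' (k + 1) p v = extDeriv η p v) →
    ∀ l : List I, l.Pairwise (· ≤ ·) → l.length ≤ n → l.length = k + 2 →
      intL n Θ' l = cob (intL n Θ) l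

def S_Int2 : Prop :=
  ∀ (I : Type) [Fintype I] [DecidableEq I] [PartialOrder I] (ρ : I → (I → ℝ) → ℝ), IsRho ρ →
    ∀ n : ℕ, 1 ≤ n → IsInt n (LL n ρ)

/-- The integral of a glued form. -/
def S_Glu : Prop :=
  ∀ (I ι : Type) [Fintype I] [DecidableEq I] [PartialOrder I] [Fintype ι]
    (ρ : I → (I → ℝ) → ℝ), IsRho ρ → ∀ (ε : ι → I → I → I → ℝ), Coc ε →
    ∀ (n N : ℕ) (κ : (Fin N → ι) → ℝ) (Θ : ∀ k : ℕ, (I → ℝ) → (Fin k → I → ℝ) → ℝ),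
    (∀ p b, p ∈ WC b → ∀ b', p ∈ WC b' → ∀ (k : ℕ) (v : Fin k → I → ℝ) (is : List ι),
      wed ε b is (dets ρ p v) = wed ε b' is (dets ρ p v)) ∧
    ∀ (a : I) (l : List I), (a :: l).Pairwise (· ≤ ·) → (a :: l).length ≤ n →
      (∀ b, ∀ p ∈ WC b, ∀ v, Θ l.length p v =
        ∑ is : Fin N → ι, κ is * wed ε b (List.ofFn is) (dets ρ p v)) →
      intL n Θ (a :: l) = ∑ is : Fin N → ι, κ is * wed ε a (List.ofFn is) (LL n ρ (a :: l) 1)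

/-- The geometric part. -/
def S_Geo : Prop :=
  ∀ (D ι T X I : Type) [Monoid D] [Fintype ι] [DecidableEq ι] [NormedAddCommGroup T]
    [NormedSpace ℝ T] [FiniteDimensional ℝ T] [NormedAddCommGroup X] [NormedSpace ℝ X]
    [Fintype I] [DecidableEq I] [PartialOrder I] (A : Act D ι T X) (n : ℕ)
    (P : MultilinearMap ℝ (fun _ : Fin (n + 1) => T →L[ℝ] T) ℝ),
    (∀ (g : (T →L[ℝ] T)ˣ) (Y : Fin (n + 1) → T →L[ℝ] T),
      P (fun t => g.val * Y t * g.inv) = P Y) →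
    ∀ (g : I → I → D) (ε : ι → I → I → I → ℝ) (y : List I →₀ ℝ), (∀ a, A.act (g a a) = 1) →
    (∀ a b c, a ≤ b → b ≤ c → A.act (g a b * g b c) = A.act (g a c)) →
    (∀ i a b c, a ≤ b → b ≤ c → A.al (g a b * g b c) A.x0 i - A.al (g a b) A.x0 i -
      A.al (g b c) A.x0 i = 2 * Real.pi * ε i a b c) →
    (∀ l ∈ y.support, l.Pairwise (· ≤ ·) ∧ l.length = 2 * (n + 1) + 1) → IsCyc y →
    (y.sum fun l r => r * ∑ is : Fin (n + 1) → ι, P (fun s => A.J (is s)) *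
      cupV ε (List.ofFn is) l) ≠ 0 →
    IsOpen (MM I) ∧ ∃ (H : Haefliger (MM I) T I) (B : I → (I → ℝ) → (I → ℝ) →L[ℝ] T →L[ℝ] T)
      (Θ : (I → ℝ) → (Fin (2 * n + 2) → I → ℝ) → ℝ),
      H.IsConn B ∧ (∀ a, ∀ p ∈ H.W a, ∀ v, Θ p v = cw P (curv (B a) p) v) ∧
      ¬∃ η : (I → ℝ) → (I → ℝ) [⋀^Fin (2 * n + 1)]→L[ℝ] ℝ,
        ContDiffOn ℝ ∞ η (MM I) ∧ ∀ p ∈ MM I, ∀ v, extDeriv η p v = Θ p v

end Pool.Agent.P.MP_878f14_gt.Sg
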