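import Pool.Agent.P.MP_878f14_gt.Sg.DefU
import Pool.Agent.P.MP_878f14_gt.Def

/-!
Statements about the concrete monoids.
-/

open scoped ContDiff
open Complex

namespace Pool.Agent.P.MP_878f14_gt.Sg

/-- The complex linear part. -/
noncomputable def aa (A : ℂ →L[ℝ] ℂ) : ℂ := (A 1 - I * A I) / 2

/-- The antilinear part. -/
noncomputable def bb (A : ℂ →L[ℝ] ℂ) : ℂ := (A 1 + I * A I) / 2

/-- The bounded part of a lift. -/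
noncomputable def osc (A : ℂ →L[ℝ] ℂ) (φ : ℝ) : ℝ := arg (1 + bb A / aa A * ee (-2 * φ))

def S_Ang : Prop :=
  (∀ (A : ℂ →L[ℝ] ℂ) (z : ℂ), A z = aa A * z + bb A * starRingEnd ℂ z) ∧
  (∀ A : ℂ →L[ℝ] ℂ, dt A = normSq (aa A) - normSq (bb A)) ∧
  (∀ A : ℂ →L[ℝ] ℂ, 0 < dt A → aa A ≠ 0 ∧ ∀ φ, 0 < (1 + bb A / aa A * ee (-2 * φ)).re ∧
    |osc A φ| < Real.pi / 2 ∧
    ContDiffAt ℝ ∞ (fun p : (ℂ →L[ℝ] ℂ) × ℝ => osc p.1 p.2) (A, φ)) ∧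
  (∀ (A : ℂ →L[ℝ] ℂ) (t : ℝ), 0 < dt A → aa A = ‖aa A‖ • ee t →
    Lift A fun φ => φ + t + osc A φ) ∧
  (∀ (A : ℂ →L[ℝ] ℂ) (Θ : ℝ → ℝ), Continuous Θ → Lift A Θ →
    ∃ t : ℝ, aa A = ‖aa A‖ • ee t ∧ ∀ φ, Θ φ = φ + t + osc A φ) ∧
  (∀ (r r' s s' : ℝ), 0 < r → 0 < r' → r • ee s = r' • ee s' →
    r = r' ∧ ∃ k : ℤ, s = s' + 2 * Real.pi * k) ∧
  ∀ (Y : Type) [TopologicalSpace Y] (Z : Set Y) (f g : Y → ℝ), IsPreconnected Z →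
    ContinuousOn f Z → ContinuousOn g Z → (∀ z ∈ Z, ∃ k : ℤ, f z = g z + 2 * Real.pi * k) →
    ∀ z ∈ Z, ∀ z' ∈ Z, f z - g z = f z' - g z'

/-- A smooth function without zeros on a vector space has a smooth argument. -/
def S_Arg : Prop :=
  ∀ (E : Type) [NormedAddCommGroup E] [NormedSpace ℝ E] (a : E → ℂ), ContDiff ℝ ∞ a →
    (∀ y, a y ≠ 0) → ∃ t : E → ℝ, ContDiff ℝ ∞ t ∧ ∀ y, a y = ‖a y‖ • ee (t y)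

def S_Mk : Prop :=
  ∀ (κ : Type) [Fintype κ],
    (∀ x y : UU κ, mp x = mp y → (∃ p φ, tht x p φ = tht y p φ) → x = y) ∧
    (∀ F : TT κ → TT κ, ContDiff ℝ ∞ F →
      (∀ y, Tri (fderiv ℝ F y) ∧ 0 < dt (fib (fderiv ℝ F y))) →
      ∀ (Z : Set (TT κ × ℝ)) (t : TT κ × ℝ → ℝ), IsPreconnected Z → ContinuousOn t Z →
      (∀ z ∈ Z, ∃ r : ℝ, 0 < r ∧ fib (fderiv ℝ F z.1) (ee z.2) = r • ee (t z)) →
      ∃ x : UU κ, mp x = F ∧ ∀ z ∈ Z, tht x z.1 z.2 = t z) ∧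
    ∀ (x : UU κ) (y : TT κ) (φ₀ φ₁ : ℝ), tht x y φ₀ = φ₀ →
      (∃ r : ℝ, 0 < r ∧ fib (fderiv ℝ (mp x) y) (ee φ₁) = r • ee φ₁) → tht x y φ₁ = φ₁

def S_MkG : Prop :=
  (∀ g g' : GG, g.1.1 = g'.1.1 → (∃ φ, |g.1.2 φ - g'.1.2 φ| < 2 * Real.pi) → g = g') ∧
  (∀ (A : ℝ → ℂ →L[ℝ] ℂ) (φ₀ : ℝ) (t : ℝ → ℝ), ContDiff ℝ ∞ A → (∀ s, 0 < dt (A s)) →
    Continuous t → (∀ s, ∃ r : ℝ, 0 < r ∧ A s (ee φ₀) = r • ee (t s)) →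
    ∃ g : ℝ → GG, (∀ s, (g s).1.1 = A s ∧ (g s).1.2 φ₀ = t s) ∧
      ContDiff ℝ ∞ fun p : ℝ × ℝ => (g p.1).1.2 p.2) ∧
  (∀ (g : GG) (φ : ℝ), 0 < deriv g.1.2 φ) ∧
  ∀ (g : GG) (φ φ' : ℝ), |g.1.2 φ - φ - (g.1.2 φ' - φ')| < Real.pi

/-- Maps of the plane which preserve a direction. -/
def DirMap (φ₀ : ℝ) (f : ℂ → ℂ) : Prop :=
  ContDiff ℝ ∞ f ∧ ∀ ζ, 0 < dt (fderiv ℝ f ζ) ∧
    ∃ r : ℝ, 0 < r ∧ fderiv ℝ f ζ (ee φ₀) = r • ee φ₀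

def S_Dir : Prop :=
  (∀ (κ : Type) [Fintype κ] (f : ℂ → ℂ), ContDiff ℝ ∞ f → ∀ y : TT κ,
    Tri (fderiv ℝ (Prod.map f id : TT κ → TT κ) y) ∧
      fib (fderiv ℝ (Prod.map f id : TT κ → TT κ) y) = fderiv ℝ f y.1) ∧
  (∀ (κ : Type) [Fintype κ] (φ₀ : ℝ) (f : ℂ → ℂ), DirMap φ₀ f →
    ∃ x : UU κ, mp x = Prod.map f id ∧ ∀ y, tht x y φ₀ = φ₀) ∧
  (∀ (κ : Type) [Fintype κ] (M : Type) [Monoid M] (φ₀ : ℝ) (f : M →* Function.End ℂ),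
    (∀ g, DirMap φ₀ (f g)) →
    ∃ ρ : M →* UU κ, ∀ g, mp (ρ g) = Prod.map (f g) id ∧ ∀ y, tht (ρ g) y φ₀ = φ₀) ∧
  (∀ (a : ℝ → ℝ → ℝ) (b : ℝ → ℝ), ContDiff ℝ ∞ (fun p : ℝ × ℝ => a p.1 p.2) → ContDiff ℝ ∞ b →
    (∀ s φ, 0 < deriv (fun s => a s φ) s) → (∀ φ, 0 < deriv b φ) →
    DirMap 0 fun ζ => a ζ.re ζ.im + I * b ζ.im) ∧
  ∀ (a : ℝ → ℝ) (b : ℝ → ℝ → ℝ), ContDiff ℝ ∞ a → ContDiff ℝ ∞ (fun p : ℝ × ℝ => b p.1 p.2) →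
    (∀ s, 0 < deriv a s) → (∀ s φ, 0 < deriv (b s) φ) →
    DirMap (Real.pi / 2) fun ζ => a ζ.re + I * b ζ.re ζ.im

/-- A smooth flow on the line with a half line of fixed points and a free orbit. -/
def S_Flo : Prop :=
  ∃ Fl : ℝ → ℝ → ℝ, ContDiff ℝ ∞ (fun p : ℝ × ℝ => Fl p.1 p.2) ∧ (∀ x, Fl 0 x = x) ∧
    (∀ s t x, Fl (s + t) x = Fl s (Fl t x)) ∧ (∀ t x, x ≤ 0 → Fl t x = x) ∧
    (∀ t x, 0 < deriv (Fl t) x) ∧ ∀ t, 0 < deriv (fun s => Fl s 1) t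

def S_Link : Prop :=
  ∀ (κ : Type) [Fintype κ], ∃ rl rc : GG →* UU κ, Linked rl rc ∧
    rl (rotG (2 * Real.pi)) = zc κ ∧ ∀ g : GG,
      (mp (rc g) = fun y => ((y.1.re : ℂ) + I * (g.1.2 y.1.im : ℝ), y.2)) ∧
      ∀ y, tht (rc g) y (Real.pi / 2) = Real.pi / 2

def S_Perf : Prop :=
  ∀ (V : Type) [AddCommGroup V] [Module ℝ V] (η : G0 → V), (∀ g h, η (g * h) = η g + η h) →
    ∀ (a : ℝ → ℝ) (g : G0), ContDiff ℝ ∞ a → (∀ s, 0 ≤ a s ∧ a s ≤ 2 * Real.pi) →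
      (∀ s ≤ 0, a s = a 0) → (∀ s, 1 ≤ s → a s = a 1) → (∀ s, g.1 s = rotG (a s)) → η g = 0

def S_TwoU : Prop := ∀ (κ : Type) [Fintype κ], Blk (UU κ) (zc κ) 2

def S_Tor1 : Prop :=
  ∀ (κ : Type) [Fintype κ] (s : Finset κ), Blk (SS κ s) (zs κ s) s.card

def S_Tor2 : Prop :=
  ∀ (κ : Type) [Fintype κ] (s : Finset κ) (a : ℕ), Blk (SS κ s) (zs κ s) a →
    Blk (UU κ) (zc κ) (a + 1)

/-- A monoid of local diffeomorphisms of `T` whose derivative cocycle is reduced to a torus. -/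
structure Act (D ι T X : Type) [Monoid D] [Fintype ι] [DecidableEq ι] [NormedAddCommGroup T]
    [NormedSpace ℝ T] [NormedAddCommGroup X] [NormedSpace ℝ X] where
  c : ι → D
  cen : ∀ i, Cen (c i)
  act : D →* Function.End T
  sm : ∀ g, ContDiff ℝ ∞ (act g : T → T)
  S : Set X
  x0 : X
  x0_mem : x0 ∈ S
  star : ∀ x ∈ S, ∀ t : ℝ, 0 ≤ t → t ≤ 1 → t • x + (1 - t) • x0 ∈ S
  pt : X → T
  pt_sm : ContDiff ℝ ∞ pt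
  fr : X → T →L[ℝ] T
  fr_sm : ContDiff ℝ ∞ fr
  unit : ∀ x ∈ S, IsUnit (fr x)
  hat : D → X → X
  hat_mem : ∀ g, ∀ x ∈ S, hat g x ∈ S
  hat_sm : ∀ g, ∀ x ∈ S, ContDiffAt ℝ ∞ (hat g) x
  hat_one : ∀ x ∈ S, hat 1 x = x
  hat_mul : ∀ g h, ∀ x ∈ S, hat (g * h) x = hat g (hat h x)
  pt_hat : ∀ g, ∀ x ∈ S, pt (hat g x) = act g (pt x)
  al : D → X → ι → ℝ
  al_sm : ∀ g, ∀ x ∈ S, ContDiffAt ℝ ∞ (al g) x
  al_mul : ∀ g h, ∀ x ∈ S, al (g * h) x = al g (hat h x) + al h x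
  J : ι → T →L[ℝ] T
  R : (ι → ℝ) → T →L[ℝ] T
  R_sm : ContDiff ℝ ∞ R
  R_d : ∀ t s, fderiv ℝ R t s = (∑ i, s i • J i) * R t
  R_J : ∀ t i, R t * J i = J i * R t
  J_J : ∀ i j, J i * J j = J j * J i
  R_inv : ∀ t, R t * R (-t) = 1
  key : ∀ g, ∀ x ∈ S, fderiv ℝ (act g : T → T) (pt x) * fr x = fr (hat g x) * R (al g x)
  act_c : ∀ i, act (c i) = 1
  al_c : ∀ i j, al (c j) x0 i = if i = j then 2 * Real.pi else 0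
  ker : ∀ g g', act g = act g' →
    (∀ x ∈ S, hat g x = hat g' x) ∧ ∃ t, ∀ x ∈ S, al g x = al g' x + t

def S_ActU : Prop :=
  ∀ (κ : Type) [Fintype κ], ∃ A : Act (UU κ) Unit (TT κ) (TT κ × (TT κ →L[ℝ] TT κ)),
    A.c () = zc κ ∧ ∀ v, A.J () v = (I * v.1, 0)

def S_ActPi : Prop :=
  ∀ (ι : Type) [Fintype ι] [DecidableEq ι] (D T X : ι → Type) [∀ j, Monoid (D j)]
    [∀ j, NormedAddCommGroup (T j)] [∀ j, NormedSpace ℝ (T j)] [∀ j, FiniteDimensional ℝ (T j)]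
    [∀ j, NormedAddCommGroup (X j)] [∀ j, NormedSpace ℝ (X j)]
    (A : ∀ j, Act (D j) Unit (T j) (X j)), ∃ B : Act (∀ j, D j) ι (∀ j, T j) (∀ j, X j),
      (∀ j, B.c j = Pi.mulSingle j ((A j).c ())) ∧
      ∀ j v, B.J j v = Pi.single j ((A j).J () (v j))

def S_ActMap : Prop :=
  ∀ (D ι T T' X : Type) [Monoid D] [Fintype ι] [DecidableEq ι] [NormedAddCommGroup T]
    [NormedSpace ℝ T] [NormedAddCommGroup T'] [NormedSpace ℝ T'] [NormedAddCommGroup X]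
    [NormedSpace ℝ X] (A : Act D ι T X) (e : T ≃L[ℝ] T'),
    ∃ B : Act D ι T' X, B.c = A.c ∧ ∀ j v, B.J j (e v) = e (A.J j v)

/-- The splitting of the transversal into blocks. -/
def S_Tr : Prop :=
  ∀ (l m : ℕ) (s : Finset (Fin l)) (k : s → ℕ), ∑ j, (2 + k j) = 2 * l + m →
    ∃ e : (∀ j : s, TT (Fin (k j))) ≃L[ℝ] Tr l m, ∀ (j : s) (v : ∀ j : s, TT (Fin (k j))),
      JJ m j.1 (e v) = e (Pi.single j (I * (v j).1, 0))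

/-- The choice of a monomial and of the numbers of parameters. -/
def S_Mon : Prop :=
  ∀ (l m n : ℕ) (P : MultilinearMap ℝ (fun _ : Fin (n + 1) => Tr l m →L[ℝ] Tr l m) ℝ),
    (∀ (σ : Equiv.Perm (Fin (n + 1))) (X : Fin (n + 1) → Tr l m →L[ℝ] Tr l m),
      P (fun t => X (σ t)) = P X) →
    (∀ (g : (Tr l m →L[ℝ] Tr l m)ˣ) (X : Fin (n + 1) → Tr l m →L[ℝ] Tr l m),
      P (fun t => g.val * X t * g.inv) = P X) →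
    ∀ x : Fin l → ℝ, P (fun _ => rot m x) ≠ 0 →
    n + 1 + min (Finset.univ.filter fun j => x j ≠ 0).card ((n + 1) / 4) ≤ 2 * l + m →
    ∃ (s : Finset (Fin l)) (a k : s → ℕ), ∑ j, (2 + k j) = 2 * l + m ∧
      (∀ j, a j = 2 ∨ (1 ≤ a j ∧ a j ≤ k j + 1)) ∧
      polyP (fun is : Fin (n + 1) → s => P fun t => JJ m (is t).1) a ≠ 0

end Pool.Agent.P.MP_878f14_gt.Sg
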